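import Pool.Agent.Lib_helper17.RS.Bas

/-!
# Rubin's integral refinement of the Stark conjectures for abelian `p`-groups: definitions
-/

namespace Pool.Agent.RS2

set_option linter.unusedSectionVars false

open Pool.Agent.RSK
open NumberField IsDedekindDomain Filter Topology Complex
open scoped TensorProduct

/-! ## The statement -/

/-- The condition on a cyclic extension `K/F` of degree `n`: the group `(ℤ/n)ˣ` acts on the field
`K` by automorphisms `θ a` with `θ a ∘ σ = σ ^ a ∘ θ a` for all `σ ∈ Gal(K/F)`. -/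
def Hol (n : ℕ) (F K : Type) [Field F] [Field K] [Algebra F K] : Prop :=
  ∃ θ : (ZMod n)ˣ →* (K ≃+* K), ∀ (a : (ZMod n)ˣ) (σ : K ≃ₐ[F] K) (x : K),
    θ a (σ x) = (σ ^ (a : ZMod n).val) (θ a x)

/-! ## Data with a weaker condition on `T` -/

section DW

variable {F H : Type} [Field F] [NumberField F] [Field H] [NumberField H] [Algebra F H]
variable {G : Type} [CommGroup G]

/-- the data of Rubin's conjecture, where the condition on `T` is replaced by the condition that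
there are no nontrivial roots of unity congruent to `1` modulo `T` -/
structure DataW (ι : G ≃* (H ≃ₐ[F] H)) (S T : Finset (HeightOneSpectrum (𝓞 F))) (r : ℕ)
    (w : Fin r → Pl H) (fr : HeightOneSpectrum (𝓞 F) → G) : Prop where
  disj : Disjoint S T
  unram : ∀ W : HeightOneSpectrum (𝓞 H), W.under (𝓞 F) ∉ S →
    Algebra.IsUnramifiedAt (𝓞 F) W.asIdeal
  tf : ∀ x : Hˣ, x ∈ KT (ovr H T) → ∀ n : ℕ, 0 < n → x ^ n = 1 → x = 1
  mem : ∀ i, InS S (dn F (w i))
  split : ∀ i, ∀ σ : H ≃ₐ[F] H, act σ (w i) = w i → σ = 1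
  inj : ∀ i j, dn F (w i) = dn F (w j) → i = j
  all : ∀ W : Pl H, InS S (dn F W) → (∀ σ : H ≃ₐ[F] H, act σ W = W → σ = 1) →
    ∃ i, dn F W = dn F (w i)
  card : r + 1 ≤ Fintype.card (InfinitePlace F) + S.card
  frob : ∀ v, v ∉ S → IsFr v (ι (fr v))

end DW

/-! ## The new part for a subgroup `P` -/

section NewPart

variable {G : Type} [CommGroup G]

/-- `χ` is nontrivial on `P` -/
def Fth (P : Subgroup G) (χ : G →* ℂˣ) : Prop := ∃ h ∈ P, χ h ≠ 1

/-- the product over the characters which are nontrivial on `P` -/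
noncomputable def pF (P : Subgroup G) (φ : (G →* ℂˣ) → ℂ) : ℂ :=
  ∏ᶠ χ : {χ : G →* ℂˣ // Fth P χ}, φ χ.1

/-- the sum of the elements of `P` -/
noncomputable def nP (P : Subgroup G) : MonoidAlgebra ℤ G :=
  ∑ᶠ h : P, MonoidAlgebra.single (h : G) 1

/-- the kernel of `nP` -/
noncomputable def mM (P : Subgroup G) (M : Type) [AddCommGroup M] [Module (MonoidAlgebra ℤ G) M] :
    AddSubgroup M where
  carrier := {u | nP P • u = 0}
  zero_mem' := smul_zero _
  add_mem' := fun {a b} ha hb => by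
    show nP P • (a + b) = 0
    rw [smul_add, show nP P • a = 0 from ha, show nP P • b = 0 from hb, add_zero]
  neg_mem' := fun {a} ha => by
    show nP P • (-a) = 0
    rw [smul_neg, show nP P • a = 0 from ha, neg_zero]

/-- `G` is cyclic of order `p ^ j`, `j > 0`, and `P` is its subgroup of order `p`. -/
structure CycP (p j : ℕ) (P : Subgroup G) : Prop where
  prime : p.Prime
  pos : 0 < j
  cyc : IsCyclic G
  card : Nat.card G = p ^ j
  cardP : Nat.card P = p

/-- `t` is a system of representatives of `G/P` -/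
def Trv (P : Subgroup G) {A : Type} (t : A → G) : Prop :=
  Function.Bijective (fun a => (QuotientGroup.mk (t a) : G ⧸ P))

/-- the component of `x ∈ k[G]` at the coset `g P` -/
noncomputable def rs {k : Type} [CommRing k] (P : Subgroup G) (g : G) (x : MonoidAlgebra k G) :
    MonoidAlgebra k P :=
  ∑ᶠ h : P, MonoidAlgebra.single h (x.coeff (g * h))

end NewPart

section CoreDef

variable {F H : Type} [Field F] [NumberField F] [Field H] [NumberField H] [Algebra F H]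
variable {G : Type} [CommGroup G] [Fintype G]

/-- `c χ = lim_{s → 0} s^{-r} L_{S,T}(χ, s)` for every character `χ` of `G` which is nontrivial
on `P`. -/
def LeadF (S T : Finset (HeightOneSpectrum (𝓞 F))) (r : ℕ) (fr : HeightOneSpectrum (𝓞 F) → G)
    (P : Subgroup G) (c : (G →* ℂˣ) → ℂ) : Prop :=
  ∀ χ : G →* ℂˣ, Fth P χ → ∃ Λ : ℂ → ℂ, MeromorphicOn Λ Set.univ ∧
    (∀ s : ℂ, 1 < s.re → Λ s = LST S T fr χ s) ∧
    Tendsto (fun s : ℂ => Λ s / s ^ r) (𝓝[≠] 0) (𝓝 (c χ))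

/-- `x b_1 ∧ … ∧ b_r` is the element of the new part with values `c χ⁻¹`. -/
structure Core2 (ι : G ≃* (H ≃ₐ[F] H)) (S T : Finset (HeightOneSpectrum (𝓞 F))) (P : Subgroup G)
    {r : ℕ} (w : Fin r → Pl H) (c : (G →* ℂˣ) → ℂ) (b : Fin r → UM ι S T)
    (x : MonoidAlgebra ℚ G) : Prop where
  minus : ∀ j, nP P • b j = 0
  xminus : toQ G (nP P) * x = 0
  value : ∀ χ : G →* ℂˣ, Fth P χ → evQ χ x * evR χ (wmat ι S T w b).det = c χ⁻¹

/-- `L_{S,T}` has an element of the new part which is integral at `l`. -/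
def LCore2 (ι : G ≃* (H ≃ₐ[F] H)) (S T : Finset (HeightOneSpectrum (𝓞 F))) (P : Subgroup G)
    {r : ℕ} (w : Fin r → Pl H) (fr : HeightOneSpectrum (𝓞 F) → G) (l : ℕ) : Prop :=
  ∃ c : (G →* ℂˣ) → ℂ, LeadF S T r fr P c ∧ (∀ χ, Fth P χ → c χ ≠ 0) ∧
    ∃ (b : Fin r → UM ι S T) (x : MonoidAlgebra ℚ G), Core2 ι S T P w c b x ∧
      ∀ ψ : Fin r → (UM ι S T →ₗ[MonoidAlgebra ℤ G] MonoidAlgebra ℤ G),
        ∃ (k : ℕ) (a : MonoidAlgebra ℤ G), ¬ l ∣ k ∧
          MonoidAlgebra.single 1 (k : ℚ) * (x * toQ G (pmat ψ b).det) = toQ G a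

/-- `E` is the fixed field of `P`. -/
structure Lay {E : Type} [Field E] [NumberField E] [Algebra E H] (ι : G ≃* (H ≃ₐ[F] H))
    (P : Subgroup G) (ιE : P ≃* (H ≃ₐ[E] H)) : Prop where
  compat : ∀ (h : P) (x : H), ιE h x = ι (h : G) x

end CoreDef

/-! ## The holomorph -/

/-- `Gal(H/F₀)` is the semidirect product of `G = Gal(H/F)` and `Gal(H/L) ≃ Aut(G)`, and `L'` is
the fixed field of `P` in `L`. -/
structure Hlm (F₀ F L L' H : Type) [Field F₀] [Field F] [Field L] [Field L'] [Field H]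
    [Algebra F₀ F] [Algebra F₀ L] [Algebra F₀ L'] [Algebra F₀ H] [Algebra F H] [Algebra L H]
    [Algebra L' H] {G : Type} [CommGroup G] (ι : G ≃* (H ≃ₐ[F] H)) (P : Subgroup G) (p j : ℕ) :
    Prop where
  cyc : CycP p j P
  dec : ∀ γ : H ≃ₐ[F₀] H, ∃ (g : G) (δ : H ≃ₐ[L] H), ∀ x, γ x = ι g (δ x)
  dec' : ∀ γ : H ≃ₐ[L'] H, ∃ g ∈ P, ∃ δ : H ≃ₐ[L] H, ∀ x, γ x = ι g (δ x)
  fixP : ∀ g ∈ P, ∀ x : L', ι g (algebraMap L' H x) = algebraMap L' H x
  triv : ∀ g : G, (∀ x : L, ι g (algebraMap L H x) = algebraMap L H x) → g = 1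
  conj : ∃ c : (H ≃ₐ[L] H) →* MulAut G, Function.Bijective c ∧
    ∀ (δ : H ≃ₐ[L] H) (g : G) (x : H), δ (ι g x) = ι (c δ g) (δ x)

end Pool.Agent.RS2
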