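import Pool.Agent.Lib_helper35.RS2.ArtD
import Pool.Agent.Lib_helper35.RS2.Defs2

/-!
# RS2, block A3a: the decomposition group of an unramified place
-/

namespace Pool.Agent.RS2

set_option linter.unusedSectionVars false

open Pool.Agent.RSK
open NumberField IsDedekindDomain Filter Topology Complex
open scoped Pointwise

section DG

variable {F₀ K H : Type} [Field F₀] [NumberField F₀] [Field K] [NumberField K] [Field H]
  [NumberField H] [Algebra F₀ K] [Algebra F₀ H] [Algebra K H] [IsScalarTower F₀ K H]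

theorem rdeg_spec (v : HeightOneSpectrum (𝓞 K)) :
    0 < rdeg F₀ v ∧ nv v = nv (v.under (𝓞 F₀)) ^ rdeg F₀ v := by
  have h1 : v.asIdeal.LiesOver (v.under (𝓞 F₀)).asIdeal := ⟨rfl⟩
  have h2 : (v.under (𝓞 F₀)).asIdeal.IsPrime := (v.under (𝓞 F₀)).isPrime
  have h3 : (v.under (𝓞 F₀)).asIdeal.IsMaximal := (v.under (𝓞 F₀)).isMaximal
  have h4 : v.asIdeal.IsMaximal := v.isMaximal
  have h5 : nv v = nv (v.under (𝓞 F₀)) ^ v.asIdeal.inertiaDeg (𝓞 F₀) := by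
    unfold nv
    rw [← Ideal.inertiaDeg'_eq_inertiaDeg (v.under (𝓞 F₀)).asIdeal v.asIdeal]
    exact Ideal.absNorm_eq_pow_inertiaDeg'_of_liesOver _ _ h2 (v.under (𝓞 F₀)).ne_bot
  have h6 : rdeg F₀ v = v.asIdeal.inertiaDeg (𝓞 F₀) := by
    unfold rdeg
    rw [h5]
    exact Nat.log_pow (nv_two_le _) _
  rw [h6]
  exact ⟨Ideal.inertiaDeg_pos _ _, h5⟩

/-- powers of the Frobenius automorphism -/
theorem a3a_pow {W : HeightOneSpectrum (𝓞 H)} {φ : H ≃ₐ[F₀] H} (hφ : FrAt W φ) (k : ℕ)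
    (x : 𝓞 H) : (φ ^ k) • x - x ^ (nv (W.under (𝓞 F₀)) ^ k) ∈ W.asIdeal := by
  induction k with
  | zero => simp
  | succ k ih =>
    have h1 := hφ ((φ ^ k) • x)
    rw [ee_smul] at h1
    have h2 : ((φ ^ k) • x) ^ nv (W.under (𝓞 F₀)) -
        (x ^ (nv (W.under (𝓞 F₀)) ^ k)) ^ nv (W.under (𝓞 F₀)) ∈ W.asIdeal := by
      rw [← Ideal.Quotient.eq, map_pow, map_pow, Ideal.Quotient.eq.2 ih]
    have h3 : (φ ^ (k + 1)) • x - x ^ (nv (W.under (𝓞 F₀)) ^ (k + 1)) =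
        (φ • ((φ ^ k) • x) - ((φ ^ k) • x) ^ nv (W.under (𝓞 F₀))) +
        (((φ ^ k) • x) ^ nv (W.under (𝓞 F₀)) -
          (x ^ (nv (W.under (𝓞 F₀)) ^ k)) ^ nv (W.under (𝓞 F₀))) := by
      rw [pow_succ' φ, mul_smul, pow_succ (nv (W.under (𝓞 F₀))), pow_mul]
      ring
    rw [h3]
    exact W.asIdeal.add_mem h1 h2

/-- the order of the Frobenius automorphism is at least the residue degree -/
theorem a3a_order {W : HeightOneSpectrum (𝓞 H)} {φ : H ≃ₐ[F₀] H} (hφ : FrAt W φ) {f m : ℕ}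
    (h : nv W = nv (W.under (𝓞 F₀)) ^ f) (hm : 0 < m) (hφm : φ ^ m = 1) : f ≤ m := by
  have hW : W.asIdeal.IsMaximal := W.isMaximal
  set q := nv (W.under (𝓞 F₀)) with hq
  have hq2 : 2 ≤ q := nv_two_le _
  have hqm : 1 < q ^ m := Nat.one_lt_pow hm.ne' (by omega)
  let : Field (𝓞 H ⧸ W.asIdeal) := Ideal.Quotient.field W.asIdeal
  have hfin : Finite (𝓞 H ⧸ W.asIdeal) := inferInstance
  let : Fintype (𝓞 H ⧸ W.asIdeal) := Fintype.ofFinite _
  have h3 : ∀ y : 𝓞 H ⧸ W.asIdeal, y ^ (q ^ m) = y := by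
    intro y
    obtain ⟨x, rfl⟩ := Ideal.Quotient.mk_surjective y
    rw [← map_pow, eq_comm, Ideal.Quotient.eq]
    have := a3a_pow hφ m x
    rwa [hφm, one_smul] at this
  have h4 : Fintype.card (𝓞 H ⧸ W.asIdeal) ≤ q ^ m := by
    classical
    have hne : (Polynomial.X ^ (q ^ m) - Polynomial.X : Polynomial (𝓞 H ⧸ W.asIdeal)) ≠ 0 :=
      FiniteField.X_pow_card_sub_X_ne_zero _ hqm
    have h5 : (Polynomial.X ^ (q ^ m) - Polynomial.X :
        Polynomial (𝓞 H ⧸ W.asIdeal)).natDegree = q ^ m :=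
      FiniteField.X_pow_card_sub_X_natDegree_eq _ hqm
    rw [← h5, ← Finset.card_univ]
    refine le_trans (Finset.card_le_card (t := (Polynomial.X ^ (q ^ m) - Polynomial.X :
      Polynomial (𝓞 H ⧸ W.asIdeal)).roots.toFinset) ?_)
      ((Multiset.toFinset_card_le _).trans (Polynomial.card_roots' _))
    intro y _
    rw [Multiset.mem_toFinset, Polynomial.mem_roots hne]
    simp [h3 y]
  have h6 : Fintype.card (𝓞 H ⧸ W.asIdeal) = q ^ f := by
    rw [← h, ee_nv, Nat.card_eq_fintype_card]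
  rw [h6] at h4
  exact (Nat.pow_le_pow_iff_right (by omega)).1 h4

/-- the Frobenius automorphism stabilizes `W` -/
theorem a3a_stab [IsGalois F₀ H] {W : HeightOneSpectrum (𝓞 H)} {φ : H ≃ₐ[F₀] H} (hφ : FrAt W φ) :
    φ ∈ MulAction.stabilizer (H ≃ₐ[F₀] H) W.asIdeal := by
  have hcomm : SMulCommClass (H ≃ₐ[F₀] H) (𝓞 F₀) (𝓞 H) := IsGaloisGroup.commutes
  have hp : W.asIdeal.IsPrime := W.isPrime
  refine IsArithFrobAt.mem_stabilizer (R := 𝓞 F₀) ?_
  intro x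
  have e : nv (W.under (𝓞 F₀)) = Nat.card (𝓞 F₀ ⧸ W.asIdeal.under (𝓞 F₀)) := ee_nv _
  rw [← e]
  exact hφ x

/-- the stabilizer of `W` is generated by the Frobenius automorphism -/
theorem a3a_zpow [IsGalois F₀ H] {W : HeightOneSpectrum (𝓞 H)}
    (hW : Algebra.IsUnramifiedAt (𝓞 F₀) W.asIdeal) {φ : H ≃ₐ[F₀] H} (hφ : FrAt W φ) :
    MulAction.stabilizer (H ≃ₐ[F₀] H) W.asIdeal = Subgroup.zpowers φ := by
  obtain ⟨f, hf, h1, h2⟩ := ee_f (k := F₀) W
  rw [ee_inertia hW (τ := φ) hφ, Subgroup.card_bot, one_mul] at h2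
  symm
  refine Subgroup.eq_of_le_of_card_ge ?_ ?_
  · rw [Subgroup.zpowers_le]
    exact a3a_stab hφ
  · rw [h2, Nat.card_zpowers]
    exact a3a_order hφ h1 (orderOf_pos φ) (pow_orderOf_eq_one φ)

/-- the stabilizer of `W` is generated by the Frobenius automorphism -/
theorem frAt_gen [IsGalois F₀ H] {W : HeightOneSpectrum (𝓞 H)}
    (hW : Algebra.IsUnramifiedAt (𝓞 F₀) W.asIdeal) {φ : H ≃ₐ[F₀] H} (hφ : FrAt W φ)
    (γ : H ≃ₐ[F₀] H) :
    HeightOneSpectrum.equivOfRingEquiv (RingOfIntegers.mapRingEquiv γ.toRingEquiv) W = W ↔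
      γ ∈ Subgroup.zpowers φ := by
  rw [← a3a_zpow hW hφ, MulAction.mem_stabilizer_iff, HeightOneSpectrum.ext_iff, ee_asIdeal]

/-- the Frobenius automorphism is unique at an unramified place -/
theorem frAt_uniq [IsGalois K H] {W : HeightOneSpectrum (𝓞 H)}
    (hW : Algebra.IsUnramifiedAt (𝓞 K) W.asIdeal) {σ τ : H ≃ₐ[K] H} (hσ : FrAt W σ)
    (hτ : FrAt W τ) : σ = τ := ee_uniq hW hσ hτ

/-- `H/K` is unramified where `H/F₀` is unramified -/
theorem unr_up {W : HeightOneSpectrum (𝓞 H)}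
    (hW : Algebra.IsUnramifiedAt (𝓞 F₀) W.asIdeal) : Algebra.IsUnramifiedAt (𝓞 K) W.asIdeal := by
  have hp : W.asIdeal.IsPrime := W.isPrime
  exact Algebra.IsUnramifiedAt.of_restrictScalars (𝓞 F₀) W.asIdeal

end DG

end Pool.Agent.RS2

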