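import Pool.Agent.Lib_helper35.RS2.P_GP
import Pool.Agent.Lib_helper17.RS.P_EG
import Pool.Agent.Lib_helper17.RS.P_UR
import Pool.Agent.Lib_helper17.RS.P_UQ

/-!
# RS2, block UQ: uniqueness of the leading terms and of the elements
-/

namespace Pool.Agent.RS2

set_option linter.unusedSectionVars false

open Pool.Agent.RSK
open NumberField NumberField.InfinitePlace NumberField.Units IsDedekindDomain Filter Topology
  Complex

section GRP

variable {G : Type} [CommGroup G] [Fintype G] {p j : ℕ} {P : Subgroup G}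

/-- `1, σ, …, σ^(φ(p^j) - 1)` are independent on the new part -/
theorem uq2_indep (hC : CycP p j P) {σ : G} (hσ : ∀ g : G, g ∈ Subgroup.zpowers σ)
    {m : ℕ} (hm : m = p ^ (j - 1) * (p - 1)) (n : Fin m → ℤ) {χ : G →* ℂˣ} (hχ : Fth P χ)
    (h : evQ χ (toQ G (∑ k : Fin m, MonoidAlgebra.single (σ ^ (k : ℕ)) (n k))) = 0) :
    ∀ k, n k = 0 := by
  classical
  have hpos : 0 < p ^ j := pow_pos hC.prime.pos j
  set Q : Polynomial ℚ := ∑ k : Fin m, Polynomial.C (n k : ℚ) * Polynomial.X ^ (k : ℕ) with hQ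
  have h1 : Polynomial.aeval ((χ σ : ℂˣ) : ℂ) Q = 0 := by
    rw [← h, hQ, map_sum, map_sum, map_sum]
    refine Finset.sum_congr rfl fun k _ => ?_
    rw [l1_toQ_single, l1_evQ_single, map_mul, Polynomial.aeval_C, Polynomial.aeval_X_pow, map_pow,
      Units.val_pow_eq_pow_val]
    rfl
  have h2 : minpoly ℚ ((χ σ : ℂˣ) : ℂ) ∣ Q := minpoly.dvd ℚ _ h1
  rw [← Polynomial.cyclotomic_eq_minpoly_rat (fth_prim hC hσ hχ) hpos] at h2
  have h3 : Q = 0 := by
    refine Polynomial.eq_zero_of_dvd_of_degree_lt h2 ?_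
    rw [Polynomial.degree_cyclotomic, Nat.totient_prime_pow hC.prime hC.pos, ← hm]
    exact Polynomial.degree_sum_fin_lt (fun k : Fin m => (n k : ℚ))
  intro k
  have h4 := congrArg (fun q : Polynomial ℚ => q.coeff (k : ℕ)) h3
  beta_reduce at h4
  rw [hQ, Polynomial.finsetSum_coeff, Polynomial.coeff_zero, Finset.sum_eq_single k] at h4
  · rw [Polynomial.coeff_C_mul, Polynomial.coeff_X_pow, if_pos rfl, mul_one] at h4
    exact_mod_cast h4
  · intro b _ hb
    rw [Polynomial.coeff_C_mul, Polynomial.coeff_X_pow, if_neg, mul_zero]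
    intro h5
    exact hb (Fin.ext h5.symm)
  · intro h5
    exact absurd (Finset.mem_univ _) h5

end GRP

section GEN

variable {F H : Type} [Field F] [NumberField F] [Field H] [NumberField H] [Algebra F H]
  [IsGalois F H] {G : Type} [CommGroup G] [Fintype G] {p j : ℕ} {P : Subgroup G}
  {ι : G ≃* (H ≃ₐ[F] H)} {S T : Finset (HeightOneSpectrum (𝓞 F))} {r : ℕ} {w : Fin r → Pl H}
  {fr : HeightOneSpectrum (𝓞 F) → G}

theorem leadf_uniq {c c' : (G →* ℂˣ) → ℂ} (hc : LeadF S T r fr P c) (hc' : LeadF S T r fr P c') :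
    ∀ χ, Fth P χ → c χ = c' χ := by
  intro χ hχ
  obtain ⟨Λ, h1, h2, h3⟩ := hc χ hχ
  obtain ⟨Λ', h1', h2', h3'⟩ := hc' χ hχ
  have h4 := mero_ext h1 h1' (fun s hs => (h2 s hs).trans (h2' s hs).symm) 0
  refine tendsto_nhds_unique h3 (h3'.congr' ?_)
  filter_upwards [h4] with s hs
  rw [hs]

/-- a relation between the `b_j` has coefficients with vanishing values -/
theorem uq2_rel {b : Fin r → UM ι S T}
    (hb : ∀ χ : G →* ℂˣ, Fth P χ → evR χ (wmat ι S T w b).det ≠ 0)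
    (a : Fin r → MonoidAlgebra ℤ G) (h : ∑ j, a j • b j = 0) (j : Fin r) (χ : G →* ℂˣ)
    (hχ : Fth P χ) : evQ χ (toQ G (a j)) = 0 := by
  have h1 : (wmat ι S T w b).mulVec (fun j => toR G (a j)) = 0 := by
    ext1 i
    have h2 := congrArg (wl ι S T (w i)) h
    rw [map_sum, map_zero] at h2
    simp only [map_smul] at h2
    rw [Matrix.mulVec, dotProduct, Pi.zero_apply, ← h2]
    refine Finset.sum_congr rfl fun l _ => ?_
    rw [mul_comm]
    rfl
  have h3 := congrArg ((wmat ι S T w b).adjugate.mulVec) h1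
  rw [Matrix.mulVec_mulVec, Matrix.adjugate_mul, Matrix.mulVec_zero, Matrix.smul_mulVec,
    Matrix.one_mulVec] at h3
  have h4 := congrArg (fun v => evR χ (v j)) h3
  simp only [Pi.smul_apply, smul_eq_mul, map_mul, Pi.zero_apply, map_zero] at h4
  rw [← uq_ev]
  exact (mul_eq_zero.1 h4).resolve_left (hb χ hχ)

/-- the module spanned by the `b_j` has finite index in the new part -/
theorem uq2_tors (hC : CycP p j P) (hfin : Module.Finite ℤ (UM ι S T))
    (htf : Module.IsTorsionFree ℤ (UM ι S T))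
    (hrk : Module.finrank ℤ (mM P (UM ι S T)) = r * (p ^ (j - 1) * (p - 1)))
    {b : Fin r → UM ι S T} (hm : ∀ j, nP P • b j = 0)
    (hb : ∀ χ : G →* ℂˣ, Fth P χ → evR χ (wmat ι S T w b).det ≠ 0) (m : UM ι S T)
    (hmm : nP P • m = 0) :
    ∃ (n : ℤ) (a : Fin r → MonoidAlgebra ℤ G), n ≠ 0 ∧ n • m = ∑ j, a j • b j := by
  classical
  have hcyc : IsCyclic G := hC.cyc
  obtain ⟨σ, hσ⟩ := hcyc.exists_generator
  obtain ⟨χ₀, hχ₀⟩ := fth_exists hC
  set q : ℕ := p ^ (j - 1) * (p - 1) with hq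
  -- the family
  let N : Submodule ℤ (UM ι S T) := AddSubgroup.toIntSubmodule (mM P (UM ι S T))
  have hN : ∀ u, u ∈ N ↔ nP P • u = 0 := fun u => Iff.rfl
  let v : Fin r × Fin q → N := fun x =>
    ⟨MonoidAlgebra.single (σ ^ (x.2 : ℕ)) (1 : ℤ) • b x.1, by
      rw [hN, smul_smul, mul_comm, ← smul_smul, hm, smul_zero]⟩
  have hsum : ∀ n : Fin r × Fin q → ℤ, ((∑ x, n x • v x : N) : UM ι S T) =
      ∑ i : Fin r, (∑ k : Fin q, MonoidAlgebra.single (σ ^ (k : ℕ)) (n (i, k))) • b i := by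
    intro n
    rw [Submodule.coe_sum, Fintype.sum_prod_type]
    refine Finset.sum_congr rfl fun i _ => ?_
    rw [Finset.sum_smul]
    refine Finset.sum_congr rfl fun k _ => ?_
    have h1 : (MonoidAlgebra.single (σ ^ (k : ℕ)) (n (i, k)) : MonoidAlgebra ℤ G) =
        n (i, k) • MonoidAlgebra.single (σ ^ (k : ℕ)) (1 : ℤ) := by simp
    rw [h1, smul_assoc]
    rfl
  have hind : LinearIndependent ℤ v := by
    rw [Fintype.linearIndependent_iff]
    intro n hn x
    have h1 := hsum n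
    rw [hn] at h1
    have h2 := uq2_rel hb _ h1.symm x.1 χ₀ hχ₀
    exact uq2_indep hC hσ hq (fun k => n (x.1, k)) hχ₀ h2 x.2
  -- the quotient is torsion
  have hfr : Module.finrank ℤ (N ⧸ Submodule.span ℤ (Set.range v)) = 0 := by
    have h1 := Submodule.finrank_quotient_add_finrank (Submodule.span ℤ (Set.range v))
    rw [finrank_span_eq_card hind] at h1
    have h2 : Module.finrank ℤ N = r * q := hrk
    rw [h2] at h1
    simp at h1
    exact h1
  have htor := (Module.finrank_eq_zero_iff_isTorsion (R := ℤ)).1 hfr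
  obtain ⟨n, hn⟩ := htor (x := Submodule.Quotient.mk (⟨m, hmm⟩ : N))
  have hn1 : (n : ℤ) • (⟨m, hmm⟩ : N) ∈ Submodule.span ℤ (Set.range v) := by
    rw [← Submodule.Quotient.mk_eq_zero, Submodule.Quotient.mk_smul]
    exact hn
  rw [Submodule.mem_span_range_iff_exists_fun] at hn1
  obtain ⟨c, hc⟩ := hn1
  refine ⟨n, fun i => ∑ k : Fin q, MonoidAlgebra.single (σ ^ (k : ℕ)) (c (i, k)),
    nonZeroDivisors.coe_ne_zero n, ?_⟩
  have h1 := congrArg (fun u : N => (u : UM ι S T)) hc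
  beta_reduce at h1
  rw [hsum] at h1
  rw [h1]
  rfl

theorem uq2_ne {c : (G →* ℂˣ) → ℂ} (hne : ∀ χ, Fth P χ → c χ ≠ 0) {b : Fin r → UM ι S T}
    {x : MonoidAlgebra ℚ G} (h : Core2 ι S T P w c b x) (χ : G →* ℂˣ) (hχ : Fth P χ) :
    evR χ (wmat ι S T w b).det ≠ 0 := by
  intro h0
  have h1 := h.value χ hχ
  rw [h0, mul_zero] at h1
  exact hne χ⁻¹ (fth_inv hχ) h1.symm

/-- two families in the new part: the elements `x b_1 ∧ … ∧ b_r` agree -/
theorem core_uniq2' (hC : CycP p j P) (hfin : Module.Finite ℤ (UM ι S T))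
    (htf : Module.IsTorsionFree ℤ (UM ι S T))
    (hrk : Module.finrank ℤ (mM P (UM ι S T)) = r * (p ^ (j - 1) * (p - 1)))
    {c c' : (G →* ℂˣ) → ℂ} (hcc : ∀ χ, Fth P χ → c χ = c' χ) (hne : ∀ χ, Fth P χ → c χ ≠ 0)
    {b b' : Fin r → UM ι S T} {x x' : MonoidAlgebra ℚ G} (h : Core2 ι S T P w c b x)
    (h' : Core2 ι S T P w c' b' x')
    (ψ : Fin r → (UM ι S T →ₗ[MonoidAlgebra ℤ G] MonoidAlgebra ℤ G)) :
    x * toQ G (pmat ψ b).det = x' * toQ G (pmat ψ b').det := by
  classical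
  have hb := uq2_ne hne h
  have hex : ∀ i, ∃ (n : ℤ) (a : Fin r → MonoidAlgebra ℤ G), n ≠ 0 ∧
      n • b' i = ∑ l, a l • b l := fun i =>
    uq2_tors hC hfin htf hrk h.minus hb (b' i) (h'.minus i)
  choose n A hn hA using hex
  set At : Matrix (Fin r) (Fin r) (MonoidAlgebra ℤ G) := Matrix.of fun l i => A i l with hAt
  have e1 : pmat ψ b' * Matrix.diagonal (fun j => ((n j : ℤ) : MonoidAlgebra ℤ G)) =
      pmat ψ b * At := by
    ext1 i k
    rw [Matrix.mul_diagonal, Matrix.mul_apply]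
    have h1 := congrArg (ψ i) (hA k)
    rw [map_zsmul, map_sum] at h1
    simp only [map_smul, smul_eq_mul] at h1
    show ψ i (b' k) * _ = ∑ l, ψ i (b l) * A k l
    rw [mul_comm, ← zsmul_eq_mul, h1]
    exact Finset.sum_congr rfl fun l _ => mul_comm _ _
  have e2 : wmat ι S T w b' * Matrix.diagonal (fun j => ((n j : ℤ) : MonoidAlgebra ℝ G)) =
      wmat ι S T w b * At.map (toR G) := by
    ext1 i k
    rw [Matrix.mul_diagonal, Matrix.mul_apply]
    have h1 := congrArg (wl ι S T (w i)) (hA k)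
    rw [map_zsmul, map_sum] at h1
    simp only [map_smul] at h1
    show wl ι S T (w i) (b' k) * _ = ∑ l, wl ι S T (w i) (b l) * toR G (A k l)
    rw [mul_comm, ← zsmul_eq_mul, h1]
    exact Finset.sum_congr rfl fun l _ => mul_comm _ _
  have d1 := congrArg Matrix.det e1
  have d2 := congrArg Matrix.det e2
  rw [Matrix.det_mul, Matrix.det_mul, Matrix.det_diagonal] at d1 d2
  have d3 : (At.map (toR G)).det = toR G At.det := by
    rw [RingHom.map_det]
    rfl
  rw [d3] at d2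
  refine evQ_inj fun χ => ?_
  by_cases hχ : Fth P χ
  swap
  · have h1 := (nP_zero_iff x).1 h.xminus χ hχ
    have h2 := (nP_zero_iff x').1 h'.xminus χ hχ
    rw [map_mul, map_mul, h1, h2, zero_mul, zero_mul]
  · have f1 := congrArg (fun y => evQ χ (toQ G y)) d1
    have f2 := congrArg (fun y => evR χ y) d2
    simp only [map_mul, map_prod, map_intCast, uq_ev] at f1 f2
    have g1 := h.value χ hχ
    have g2 := h'.value χ hχ
    rw [← hcc χ⁻¹ (fth_inv hχ), ← g1] at g2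
    have hN : (∏ i, ((n i : ℤ) : ℂ)) ≠ 0 :=
      Finset.prod_ne_zero_iff.2 fun i _ => by exact_mod_cast hn i
    rw [map_mul, map_mul]
    have hDb := hb χ hχ
    have key : (evQ χ x * evQ χ (toQ G (pmat ψ b).det) -
        evQ χ x' * evQ χ (toQ G (pmat ψ b').det)) *
        ((∏ i, ((n i : ℤ) : ℂ)) * evR χ (wmat ι S T w b).det) = 0 := by
      linear_combination (-evQ χ x' * evR χ (wmat ι S T w b).det) * f1 +
        (evQ χ x' * evQ χ (toQ G (pmat ψ b).det)) * f2 -
        (evQ χ (toQ G (pmat ψ b).det) * (∏ i, ((n i : ℤ) : ℂ))) * g2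
    exact sub_eq_zero.1 ((mul_eq_zero.1 key).resolve_right (mul_ne_zero hN hDb))

theorem core_uniq2 (hC : CycP p j P) (hD : Data ι S T r w fr)
    (hrk : Module.finrank ℤ (mM P (UM ι S T)) = r * (p ^ (j - 1) * (p - 1)))
    {c c' : (G →* ℂˣ) → ℂ} (hcc : ∀ χ, Fth P χ → c χ = c' χ) (hne : ∀ χ, Fth P χ → c χ ≠ 0)
    {b b' : Fin r → UM ι S T} {x x' : MonoidAlgebra ℚ G} (h : Core2 ι S T P w c b x)
    (h' : Core2 ι S T P w c' b' x')
    (ψ : Fin r → (UM ι S T →ₗ[MonoidAlgebra ℤ G] MonoidAlgebra ℤ G)) :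
    x * toQ G (pmat ψ b).det = x' * toQ G (pmat ψ b').det :=
  core_uniq2' hC (um_finite hD) (um_tf hD) hrk hcc hne h h' ψ

end GEN

end Pool.Agent.RS2
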