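import Pool.Agent.Lib_helper35.RS2.Defs2
import Pool.Agent.Lib_helper17.RS.P_EE

/-!
# The Artin formalism

For a class function `A` on `Γ = Gal(H/F₀)` we define the Euler product
`artL A = exp (∑_v ∑_{k ≥ 1} A(φ_v^k) q_v^{-ks} / k)` (with the factors for `T`). It is
multiplicative in `A`, and for the character induced from a character of `Gal(H/K)` it is the
L-function over `K`.
-/

namespace Pool.Agent.RS2

set_option linter.unusedSectionVars false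

open Pool.Agent.RSK
open NumberField IsDedekindDomain Filter Topology Complex
open scoped Pointwise

/-! ## Definitions -/

section Def

/-- `σ` is the Frobenius automorphism of `H/K` at the place `W` of `H`. -/
def FrAt {K H : Type} [Field K] [NumberField K] [Field H] [NumberField H] [Algebra K H]
    (W : HeightOneSpectrum (𝓞 H)) (σ : H ≃ₐ[K] H) : Prop :=
  ∀ x : 𝓞 H, RingOfIntegers.mapRingEquiv σ.toRingEquiv x - x ^ nv (W.under (𝓞 K)) ∈ W.asIdeal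

/-- the residue degree over `F₀` of a place `v` of `K` -/
noncomputable def rdeg (F₀ : Type) {K : Type} [Field F₀] [NumberField F₀] [Field K] [NumberField K]
    [Algebra F₀ K] (v : HeightOneSpectrum (𝓞 K)) : ℕ :=
  Nat.log (nv (v.under (𝓞 F₀))) (nv v)

/-- the character of `Gal(H/F₀)` induced from the character `ψ` of `Gal(H/K)` -/
noncomputable def indF (F₀ : Type) {K H : Type} [Field F₀] [Field K] [Field H] [Algebra F₀ K]
    [Algebra F₀ H] [Algebra K H] [IsScalarTower F₀ K H] (ψ : (H ≃ₐ[K] H) →* ℂˣ)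
    (g : H ≃ₐ[F₀] H) : ℂ :=
  (Nat.card (H ≃ₐ[K] H) : ℂ)⁻¹ * ∑ᶠ γ : H ≃ₐ[F₀] H,
    ∑ᶠ σ : {σ : H ≃ₐ[K] H // σ.restrictScalars F₀ = γ⁻¹ * g * γ}, ((ψ σ.1 : ℂˣ) : ℂ)

/-- `∑_{k ≥ 1} A(φ^k) X^k / k` -/
noncomputable def lgF {Γ : Type} [Group Γ] (A : Γ → ℂ) (φ : Γ) (X : ℂ) : ℂ :=
  ∑' k : ℕ, A (φ ^ (k + 1)) * X ^ (k + 1) / ((k : ℂ) + 1)

variable {F₀ H : Type} [Field F₀] [NumberField F₀] [Field H] [NumberField H] [Algebra F₀ H]

/-- `φ v` is a Frobenius automorphism at `v`, for all `v` outside `S₀`. -/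
def FrSys (S₀ : Finset (HeightOneSpectrum (𝓞 F₀))) (φ : HeightOneSpectrum (𝓞 F₀) → H ≃ₐ[F₀] H) :
    Prop :=
  ∀ v, v ∉ S₀ → ∃ W : HeightOneSpectrum (𝓞 H), W.under (𝓞 F₀) = v ∧ FrAt W (φ v)

/-- the L-function of `A` for `Re s > 1` -/
noncomputable def artL (S₀ T₀ : Finset (HeightOneSpectrum (𝓞 F₀)))
    (φ : HeightOneSpectrum (𝓞 F₀) → H ≃ₐ[F₀] H) (A : (H ≃ₐ[F₀] H) → ℂ) (s : ℂ) : ℂ :=
  Complex.exp (∑' v : {v : HeightOneSpectrum (𝓞 F₀) // v ∉ S₀},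
      lgF A (φ v.1) ((nv v.1 : ℂ) ^ (-s)) -
    ∑ v ∈ T₀, lgF A (φ v) ((nv v : ℂ) ^ (1 - s)))

end Def

end Pool.Agent.RS2
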