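import Pool.Agent.Lib_helper35.RS2.P_A3b
import Pool.Agent.Lib_helper35.RS2.ArtD
import Pool.Agent.Lib_helper35.RS2.Defs2

/-!
# RS2, block B4: the Frobenius automorphisms of `H/E`
-/

namespace Pool.Agent.RS2

set_option linter.unusedSectionVars false

open Pool.Agent.RSK
open NumberField IsDedekindDomain Filter Topology Complex
open scoped Pointwise

section EE

variable {F E H : Type} [Field F] [NumberField F] [Field E] [NumberField E] [Field H]
  [NumberField H] [Algebra F E] [Algebra F H] [Algebra E H] [IsScalarTower F E H] [IsGalois F H]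
  [IsGalois E H] {G : Type} [CommGroup G] [Fintype G] {P : Subgroup G} {p j : ℕ}
  {ι : G ≃* (H ≃ₐ[F] H)} {ιE : P ≃* (H ≃ₐ[E] H)} {S T : Finset (HeightOneSpectrum (𝓞 F))} {r : ℕ}
  {w : Fin r → Pl H} {fr : HeightOneSpectrum (𝓞 F) → G} {frE : HeightOneSpectrum (𝓞 E) → P}

theorem b4_frAt {v : HeightOneSpectrum (𝓞 F)} {σ : H ≃ₐ[F] H} (h : IsFr v σ)
    {W : HeightOneSpectrum (𝓞 H)} (hW : W.under (𝓞 F) = v) : FrAt W σ := by
  intro x
  rw [hW]
  exact h W hW x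

theorem b4_one (hL : Lay ι P ιE)
    (hunr : ∀ W : HeightOneSpectrum (𝓞 H), W.under (𝓞 F) ∉ S →
      Algebra.IsUnramifiedAt (𝓞 F) W.asIdeal)
    (hfr : ∀ v, v ∉ S → IsFr v (ι (fr v))) (u : HeightOneSpectrum (𝓞 E)) :
    ∃ g : P, u ∉ ovr E S → IsFr u (ιE g) ∧ (g : G) = fr (u.under (𝓞 F)) ^ rdeg F u := by
  by_cases hu : u ∈ ovr E S
  · exact ⟨1, fun h => absurd hu h⟩
  have hv : u.under (𝓞 F) ∉ S := fun h => hu (mem_ovr.2 h)
  have key : ∀ W : HeightOneSpectrum (𝓞 H), W.under (𝓞 E) = u →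
      W.under (𝓞 F) = u.under (𝓞 F) := by
    intro W hW
    rw [← hW, ee_under_under]
  obtain ⟨W, hW⟩ := dn_surj (F := E) (H := H) (Sum.inr u)
  rcases W with W | W
  · exact absurd hW (by simp [dn])
  have hW' : W.under (𝓞 E) = u := Sum.inr.inj hW
  have h1 : W.under (𝓞 F) = u.under (𝓞 F) := key W hW'
  have h2 : FrAt W (ι (fr (u.under (𝓞 F)))) := b4_frAt (hfr _ hv) h1
  obtain ⟨-, σ, hσ⟩ := frAt_index (K := E) (hunr W (h1 ▸ hv)) h2
  have h3 : ∀ g : P, (ιE g).restrictScalars F = ι (g : G) := by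
    intro g
    ext x
    exact hL.compat g x
  have h4 : ((ιE.symm σ : P) : G) = fr (u.under (𝓞 F)) ^ rdeg F u := by
    apply ι.injective
    rw [← h3, ιE.apply_symm_apply, hσ, hW', map_pow]
  refine ⟨ιE.symm σ, fun _ => ⟨?_, h4⟩⟩
  intro W₁ hW₁
  have h5 : FrAt W₁ (ι (fr (u.under (𝓞 F)))) := b4_frAt (hfr _ hv) (key W₁ hW₁)
  have h6 : FrAt W₁ (ιE (ιE.symm σ)) := by
    refine frAt_pow h5 _ ?_
    rw [h3, h4, hW₁, map_pow]
  have h7 := h6
  unfold FrAt at h7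
  rw [hW₁] at h7
  exact h7

/-- block B4 -/
theorem frE_exists (hL : Lay ι P ιE)
    (hunr : ∀ W : HeightOneSpectrum (𝓞 H), W.under (𝓞 F) ∉ S →
      Algebra.IsUnramifiedAt (𝓞 F) W.asIdeal)
    (hfr : ∀ v, v ∉ S → IsFr v (ι (fr v))) :
    ∃ frE : HeightOneSpectrum (𝓞 E) → P, ∀ u, u ∉ ovr E S → IsFr u (ιE (frE u)) ∧
      ((frE u : P) : G) = fr (u.under (𝓞 F)) ^ rdeg F u := by
  choose frE h using b4_one hL hunr hfr
  exact ⟨frE, h⟩

end EE

end Pool.Agent.RS2
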