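import Pool.Agent.Lib_helper35.RS2.Defs2
import Pool.Agent.Lib_helper17.RS.P_TW
import Pool.Agent.Lib_helper17.RS.P_PH

/-!
# RS2, block B7: the data over the field `E`
-/

namespace Pool.Agent.RS2

set_option linter.unusedSectionVars false

open Pool.Agent.RSK
open NumberField IsDedekindDomain Filter Topology Complex
open scoped Pointwise

section EE

variable {F E H : Type} [Field F] [NumberField F] [Field E] [NumberField E] [Field H]
  [NumberField H] [Algebra F E] [Algebra F H] [Algebra E H] [IsScalarTower F E H] [IsGalois F H]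
  [IsGalois E H] {G : Type} [CommGroup G] [Fintype G] {P : Subgroup G} {p j : ℕ}
  {ι : G ≃* (H ≃ₐ[F] H)} {ιE : P ≃* (H ≃ₐ[E] H)} {S T : Finset (HeightOneSpectrum (𝓞 F))} {r : ℕ}
  {w : Fin r → Pl H} {fr : HeightOneSpectrum (𝓞 F) → G} {frE : HeightOneSpectrum (𝓞 E) → P}

/-- block B7: the decomposition group of a place is trivial if it does not contain `P` -/
theorem cycP_disj (hC : CycP p j P) {D : Subgroup G} (h : ∀ g ∈ D, g ∈ P → g = 1) : D = ⊥ := by
  classical
  have hcyc := hC.cyc
  have hpr := hC.prime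
  have hfact : Fact p.Prime := ⟨hpr⟩
  by_contra hD
  -- an element of order `p` in `D`
  have hdvd : Nat.card D ∣ p ^ j := by
    rw [← hC.card]
    exact Subgroup.card_subgroup_dvd_card D
  obtain ⟨k, hk, hDk⟩ := (Nat.dvd_prime_pow hpr).1 hdvd
  have hk0 : k ≠ 0 := by
    rintro rfl
    rw [pow_zero] at hDk
    exact hD (Subgroup.eq_bot_of_card_eq D hDk)
  have hpD : p ∣ Nat.card D := by
    rw [hDk]
    exact dvd_pow_self p hk0
  obtain ⟨x, hx⟩ := exists_prime_orderOf_dvd_card' (G := D) p hpD
  have hx1 : (x : G) ^ p = 1 := by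
    have h1 : x ^ p = 1 := by rw [← hx]; exact pow_orderOf_eq_one x
    have h2 := congrArg (Subtype.val) h1
    simpa using h2
  -- all elements with `x ^ p = 1` lie in `P`
  have hcard : (Finset.univ.filter fun a : G => a ^ p = 1).card ≤ p :=
    IsCyclic.card_pow_eq_one_le hpr.pos
  have hPf : Fintype.card P = p := by rw [← Nat.card_eq_fintype_card, hC.cardP]
  have hsub : (Finset.univ.image fun a : P => (a : G)) ⊆
      Finset.univ.filter fun a : G => a ^ p = 1 := by
    intro a ha
    obtain ⟨b, -, rfl⟩ := Finset.mem_image.1 ha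
    rw [Finset.mem_filter]
    refine ⟨Finset.mem_univ _, ?_⟩
    have h1 : b ^ p = 1 := by
      rw [← hC.cardP]
      exact pow_card_eq_one'
    have h2 := congrArg (Subtype.val) h1
    simpa using h2
  have hcim : (Finset.univ.image fun a : P => (a : G)).card = p := by
    rw [Finset.card_image_of_injective _ Subtype.val_injective, Finset.card_univ, hPf]
  have heq := Finset.eq_of_subset_of_card_le hsub (by rw [hcim]; exact hcard)
  have hxm : (x : G) ∈ Finset.univ.filter fun a : G => a ^ p = 1 :=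
    Finset.mem_filter.2 ⟨Finset.mem_univ _, hx1⟩
  rw [← heq] at hxm
  obtain ⟨b, -, hb⟩ := Finset.mem_image.1 hxm
  have hxP : (x : G) ∈ P := by rw [← hb]; exact b.2
  have h3 := h x x.2 hxP
  have h4 : x = 1 := Subtype.ext h3
  rw [h4, orderOf_one] at hx
  exact hpr.one_lt.ne hx

/-- an automorphism over `E` as an automorphism over `F` -/
theorem b7_res (hL : Lay ι P ιE) (σ : H ≃ₐ[E] H) : ∃ h : P, ιE h = σ ∧
    σ.restrictScalars F = ι (h : G) := by
  refine ⟨ιE.symm σ, ιE.apply_symm_apply σ, ?_⟩
  ext x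
  have h1 := hL.compat (ιE.symm σ) x
  rw [ιE.apply_symm_apply] at h1
  exact h1

theorem b7_act (hL : Lay ι P ιE) (h : P) (W : Pl H) : act (ιE h) W = act (ι (h : G)) W := by
  obtain ⟨h', h1, h2⟩ := b7_res hL (ιE h)
  have h3 : h' = h := ιE.injective h1
  rw [← act_restrict (F₀ := F) (ιE h) W, h2, h3]

theorem b7_conj (hD : DataW ι S T r w fr) (i : Fin r) (g : G) (σ : H ≃ₐ[F] H)
    (h : act σ (act (ι g) (w i)) = act (ι g) (w i)) : σ = 1 := by
  have h1 : act ((ι g)⁻¹ * σ * ι g) (w i) = w i := by
    rw [act_mul, act_mul, h, ← act_mul, inv_mul_cancel, act_one]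
  have h2 := hD.split i _ h1
  rw [mul_assoc, inv_mul_eq_one] at h2
  exact mul_eq_right.1 h2.symm

/-- block B7 -/
theorem data_E (hC : CycP p j P) (hL : Lay ι P ιE) (hD : DataW ι S T r w fr)
    (hfrE : ∀ u, u ∉ ovr E S → IsFr u (ιE (frE u))) {A : Type} (t : A → G) (ht : Trv P t)
    {m : ℕ} (e : Fin m ≃ Fin r × A) :
    DataW ιE (ovr E S) (ovr E T) m (fun k => act (ι (t (e k).2)) (w (e k).1)) frE := by
  classical
  have hmem : ∀ (i : Fin r) (g : G), InS (ovr E S) (dn E (act (ι g) (w i))) := fun i g => by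
    rw [ph_inS_ovr, dn_dn, dn_act]
    exact hD.mem i
  have hinj : ∀ k l : Fin m, dn E (act (ι (t (e k).2)) (w (e k).1)) =
      dn E (act (ι (t (e l).2)) (w (e l).1)) → k = l := by
    intro k l h
    have h1 := congrArg (dn F) h
    rw [dn_dn, dn_dn, dn_act, dn_act] at h1
    have h2 := hD.inj _ _ h1
    obtain ⟨σ, hσ⟩ := act_trans (F := E) h
    obtain ⟨g, rfl, -⟩ := b7_res hL σ
    rw [b7_act hL, ← act_mul, h2] at hσ
    have h3 := ph_act_inj (hD.split (e l).1) hσ
    rw [← map_mul] at h3
    have h4 := ι.injective h3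
    have h5 : (QuotientGroup.mk (t (e k).2) : G ⧸ P) = QuotientGroup.mk (t (e l).2) := by
      rw [QuotientGroup.eq, ← h4, mul_comm (g : G), inv_mul_cancel_left]
      exact g.2
    have h6 := ht.1 h5
    exact e.injective (Prod.ext h2 h6)
  refine ⟨?_, ?_, ?_, ?_, ?_, hinj, ?_, ?_, hfrE⟩
  · rw [Finset.disjoint_left]
    intro u hu hu'
    rw [mem_ovr] at hu hu'
    exact Finset.disjoint_left.1 hD.disj hu hu'
  · intro W hW
    rw [mem_ovr, tw_under] at hW
    have h1 := hD.unram W hW
    exact Algebra.FormallyUnramified.of_restrictScalars (𝓞 F) (𝓞 E) (Localization.AtPrime W.asIdeal)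
  · intro x hx
    rw [ovr_ovr] at hx
    exact hD.tf x hx
  · intro k
    exact hmem _ _
  · intro k σ h
    rw [← act_restrict (F₀ := F) σ] at h
    have h1 := b7_conj hD _ _ _ h
    ext x
    exact DFunLike.congr_fun h1 x
  · intro W hW hs
    have hWF : InS S (dn F W) := by
      rw [← dn_dn (F := E), ← ph_inS_ovr]
      exact hW
    -- the decomposition group
    let D : Subgroup G := (ph_stab (F := F) W).comap ι.toMonoidHom
    have hDb : D = ⊥ := by
      refine cycP_disj hC fun g hg hgP => ?_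
      have h1 : act (ι g) W = W := hg
      have h2 := hs (ιE ⟨g, hgP⟩) (by rw [b7_act hL]; exact h1)
      have h3 := ιE.injective (h2.trans (map_one ιE).symm)
      exact congrArg Subtype.val h3
    have hsF : ∀ σ : H ≃ₐ[F] H, act σ W = W → σ = 1 := by
      intro σ hσ
      have h1 : ι.symm σ ∈ D := by
        show act (ι (ι.symm σ)) W = W
        rw [ι.apply_symm_apply]
        exact hσ
      rw [hDb, Subgroup.mem_bot] at h1
      rw [← ι.apply_symm_apply σ, h1, map_one]
    obtain ⟨i, hi⟩ := hD.all W hWF hsF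
    obtain ⟨τ, hτ⟩ := act_trans (F := F) hi.symm
    obtain ⟨a, ha⟩ := ht.2 (QuotientGroup.mk (ι.symm τ))
    have h1 : (t a)⁻¹ * ι.symm τ ∈ P := QuotientGroup.eq.1 ha
    refine ⟨e.symm (i, a), ?_⟩
    rw [Equiv.apply_symm_apply]
    have h2 : W = act (ιE ⟨_, h1⟩) (act (ι (t a)) (w i)) := by
      rw [b7_act hL, ← act_mul, ← map_mul]
      show W = act (ι ((t a)⁻¹ * ι.symm τ * t a)) (w i)
      rw [mul_comm, mul_inv_cancel_left, ι.apply_symm_apply, hτ]
    rw [h2, dn_act]
  · -- the cardinality
    have hP : ∃ Q : PS S, ∀ i, dn F (w i) ≠ Q.pl := by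
      by_contra hcon
      push Not at hcon
      choose f hf using hcon
      have hfi : Function.Injective f := fun a b hab => ph_pl_inj (by rw [← hf a, ← hf b, hab])
      have h1 := Fintype.card_le_of_injective f hfi
      rw [Fintype.card_fin, Fintype.card_sum, Fintype.card_coe] at h1
      have h2 := hD.card
      omega
    obtain ⟨Q, hQ⟩ := hP
    obtain ⟨V, hV⟩ := dn_surj (F := F) (H := E) Q.pl
    have hVS : InS (ovr E S) V := by
      rw [ph_inS_ovr, hV]
      exact ph_inS Q
    let f : Fin m ⊕ Unit → PS (ovr E S) :=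
      Sum.elim (fun k => ph_mk _ (hmem (e k).1 (t (e k).2))) (fun _ => ph_mk V hVS)
    have hf : Function.Injective f := by
      rintro (a | a) (b | b) hab
      · have h1 := congrArg PS.pl hab
        change (ph_mk _ _).pl = (ph_mk _ _).pl at h1
        rw [ph_mk_pl, ph_mk_pl] at h1
        rw [hinj a b h1]
      · exfalso
        have h1 := congrArg PS.pl hab
        change (ph_mk _ _).pl = (ph_mk _ _).pl at h1
        rw [ph_mk_pl, ph_mk_pl] at h1
        have h2 := congrArg (dn F) h1
        rw [dn_dn, dn_act, hV] at h2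
        exact hQ _ h2
      · exfalso
        have h1 := congrArg PS.pl hab
        change (ph_mk _ _).pl = (ph_mk _ _).pl at h1
        rw [ph_mk_pl, ph_mk_pl] at h1
        have h2 := congrArg (dn F) h1
        rw [dn_dn, dn_act, hV] at h2
        exact hQ _ h2.symm
      · rfl
    have h1 := Fintype.card_le_of_injective f hf
    rw [Fintype.card_sum, Fintype.card_fin, Fintype.card_sum, Fintype.card_coe,
      Fintype.card_unit] at h1
    exact h1

end EE

end Pool.Agent.RS2
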