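import Pool.Agent.Lib_helper35.RS2.Defs2
import Pool.Agent.Lib_helper17.RS.P_TW

/-!
# RS2: the units of `H` for the extension `H/E`, where `E` is the fixed field of `P`
-/

namespace Pool.Agent.RS2

set_option linter.unusedSectionVars false

open Pool.Agent.RSK
open NumberField IsDedekindDomain Filter Topology Complex

section UME

variable {F E H : Type} [Field F] [NumberField F] [Field E] [NumberField E] [Field H]
  [NumberField H] [Algebra F E] [Algebra F H] [Algebra E H] [IsScalarTower F E H]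
  {G : Type} [CommGroup G] [Fintype G] {P : Subgroup G}

theorem un_EF (S T : Finset (HeightOneSpectrum (𝓞 F))) :
    Un (ovr H (ovr E S)) (ovr H (ovr E T)) = Un (ovr H S) (ovr H T) := by
  rw [ovr_ovr, ovr_ovr]

/-- `U_{S,T}` for `H/E` and for `H/F` are the same groups. -/
noncomputable def umE (ι : G ≃* (H ≃ₐ[F] H)) (ιE : P ≃* (H ≃ₐ[E] H))
    (S T : Finset (HeightOneSpectrum (𝓞 F))) :
    UM ιE (ovr E S) (ovr E T) ≃+ UM ι S T where
  toFun u := UM.mk u.val (un_EF (E := E) (H := H) S T ▸ u.val_mem)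
  invFun u := UM.mk u.val ((un_EF (E := E) (H := H) S T).symm ▸ u.val_mem)
  left_inv u := UM.ext (by rw [UM.val_mk, UM.val_mk])
  right_inv u := UM.ext (by rw [UM.val_mk, UM.val_mk])
  map_add' u v := UM.ext (by rw [UM.val_mk, UM.val_add, UM.val_add, UM.val_mk, UM.val_mk])

theorem umE_val (ι : G ≃* (H ≃ₐ[F] H)) (ιE : P ≃* (H ≃ₐ[E] H))
    (S T : Finset (HeightOneSpectrum (𝓞 F))) (u : UM ιE (ovr E S) (ovr E T)) :
    (umE ι ιE S T u).val = u.val := rfl

theorem umE_symm_val (ι : G ≃* (H ≃ₐ[F] H)) (ιE : P ≃* (H ≃ₐ[E] H))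
    (S T : Finset (HeightOneSpectrum (𝓞 F))) (u : UM ι S T) :
    ((umE ι ιE S T).symm u).val = u.val := rfl

theorem umE_smul {ι : G ≃* (H ≃ₐ[F] H)} {ιE : P ≃* (H ≃ₐ[E] H)} (hE : Lay ι P ιE)
    (S T : Finset (HeightOneSpectrum (𝓞 F))) (h : P) (u : UM ιE (ovr E S) (ovr E T)) :
    umE ι ιE S T (MonoidAlgebra.single h (1 : ℤ) • u) =
      MonoidAlgebra.single (h : G) (1 : ℤ) • umE ι ιE S T u := by
  refine UM.ext ?_
  rw [umE_val, um_single_smul, um_single_smul, umE_val]
  refine Units.ext ?_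
  exact hE.compat h _

end UME

end Pool.Agent.RS2
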