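import Pool.Agent.Lib_helper35.RS2.Defs2
import Pool.Agent.Lib_helper17.RS.P_PX2
import Pool.Agent.Lib_helper17.RS.P_L1
import Pool.Agent.Lib_helper17.RS.P_L2

/-!
# RS2, block GP: cyclic `p`-groups and their faithful characters
-/

namespace Pool.Agent.RS2

set_option linter.unusedSectionVars false

open Pool.Agent.RSK
open NumberField NumberField.InfinitePlace NumberField.Units IsDedekindDomain Filter Topology
  Complex

section GP

variable {G : Type} [CommGroup G] [Fintype G] {p j : ℕ} {P : Subgroup G}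

theorem cycp_le (hC : CycP p j P) {g : G} (hg : g ≠ 1) : P ≤ Subgroup.zpowers g := by
  classical
  have hcyc : IsCyclic G := hC.cyc
  have hp := hC.prime
  have hpf : Fact p.Prime := ⟨hp⟩
  -- the order of `g` is divisible by `p`
  obtain ⟨m, hm⟩ : p ∣ orderOf g := by
    have h1 : orderOf g ∣ p ^ j := hC.card ▸ orderOf_dvd_natCard g
    obtain ⟨k, _, hk⟩ := (Nat.dvd_prime_pow hp).1 h1
    rw [hk]
    rcases Nat.eq_zero_or_pos k with h0 | h0
    · rw [h0, pow_zero, orderOf_eq_one_iff] at hk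
      exact absurd hk hg
    · exact dvd_pow_self p h0.ne'
  have hm0 : m ≠ 0 := by
    rintro rfl
    rw [mul_zero] at hm
    exact (orderOf_pos g).ne' hm
  have ho : orderOf (g ^ m) = p := by
    rw [orderOf_pow_of_dvd hm0 (by rw [hm]; exact dvd_mul_left m p), hm,
      Nat.mul_div_cancel _ (Nat.pos_of_ne_zero hm0)]
  -- the elements killed by `p`
  set A : Finset G := Finset.univ.filter (fun a : G => a ^ p = 1) with hA
  have hAc : A.card ≤ p := IsCyclic.card_pow_eq_one_le hp.pos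
  have hB : (Finset.univ.filter fun a : G => a ∈ Subgroup.zpowers (g ^ m)).card = p := by
    rw [← Fintype.card_subtype, ← Nat.card_eq_fintype_card]
    exact (Nat.card_zpowers (g ^ m)).trans ho
  have hBA : (Finset.univ.filter fun a : G => a ∈ Subgroup.zpowers (g ^ m)) ⊆ A := by
    intro a ha
    rw [Finset.mem_filter] at ha
    obtain ⟨k, rfl⟩ := Subgroup.mem_zpowers_iff.1 ha.2
    rw [hA, Finset.mem_filter]
    refine ⟨Finset.mem_univ _, ?_⟩
    have h2 : (g ^ m) ^ p = 1 := by rw [← ho, pow_orderOf_eq_one]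
    rw [← zpow_natCast, ← zpow_mul, mul_comm, zpow_mul, zpow_natCast, h2, one_zpow]
  have hEq := Finset.eq_of_subset_of_card_le hBA (by rw [hB]; exact hAc)
  intro h hh
  have h1 : h ∈ A := by
    rw [hA, Finset.mem_filter]
    refine ⟨Finset.mem_univ _, ?_⟩
    have h2 : (⟨h, hh⟩ : P) ^ Nat.card P = 1 := pow_card_eq_one'
    rw [hC.cardP] at h2
    exact congrArg Subtype.val h2
  rw [← hEq, Finset.mem_filter] at h1
  exact (Subgroup.zpowers_le.2 (Subgroup.pow_mem _ (Subgroup.mem_zpowers g) m)) h1.2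

theorem fth_ne (hC : CycP p j P) {χ : G →* ℂˣ} (hχ : Fth P χ) {g : G} (hg : g ≠ 1) :
    χ g ≠ 1 := by
  intro h
  obtain ⟨x, hx, hx1⟩ := hχ
  obtain ⟨k, rfl⟩ := Subgroup.mem_zpowers_iff.1 (cycp_le hC hg hx)
  apply hx1
  rw [map_zpow, h, one_zpow]

theorem fth_inj (hC : CycP p j P) {χ : G →* ℂˣ} (hχ : Fth P χ) : Function.Injective χ := by
  rw [injective_iff_map_eq_one]
  intro g hg
  by_contra h
  exact fth_ne hC hχ h hg

theorem fth_inv {χ : G →* ℂˣ} (hχ : Fth P χ) : Fth P χ⁻¹ := by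
  obtain ⟨x, hx, hx1⟩ := hχ
  refine ⟨x, hx, fun h => hx1 ?_⟩
  rw [MonoidHom.inv_apply] at h
  exact inv_eq_one.1 h

theorem fth_exists (hC : CycP p j P) : ∃ χ : G →* ℂˣ, Fth P χ := by
  have hpf : Fact p.Prime := ⟨hC.prime⟩
  have h1 : 1 < Nat.card P := by rw [hC.cardP]; exact hC.prime.one_lt
  have h2 : Nontrivial P := Finite.one_lt_card_iff_nontrivial.1 h1
  obtain ⟨h, hh⟩ := exists_ne (1 : P)
  obtain ⟨χ, hχ⟩ := CommGroup.exists_apply_ne_one_of_hasEnoughRootsOfUnity G ℂ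
    (a := (h : G)) (fun h3 => hh (Subtype.ext h3))
  exact ⟨χ, h, h.2, hχ⟩

/-- the values at a generator are primitive roots of unity -/
theorem fth_prim (hC : CycP p j P) {σ : G} (hσ : ∀ g : G, g ∈ Subgroup.zpowers σ) {χ : G →* ℂˣ}
    (hχ : Fth P χ) : IsPrimitiveRoot ((χ σ : ℂˣ) : ℂ) (p ^ j) := by
  rw [IsPrimitiveRoot.coe_units_iff]
  have h1 : orderOf σ = p ^ j := by rw [orderOf_eq_card_of_forall_mem_zpowers hσ, hC.card]
  have h2 : orderOf (χ σ) = p ^ j := by rw [orderOf_injective χ (fth_inj hC hχ), h1]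
  have h3 := IsPrimitiveRoot.orderOf (χ σ)
  rwa [h2] at h3

/-- every element is a polynomial in the generator -/
theorem fth_poly {σ : G} (hσ : ∀ g : G, g ∈ Subgroup.zpowers σ) (a : MonoidAlgebra ℤ G) :
    ∃ Q : Polynomial ℚ, ∀ ψ : G →* ℂˣ, evZ ψ a = Polynomial.aeval ((ψ σ : ℂˣ) : ℂ) Q := by
  have hgen : ∀ g : G, ∃ k : ℕ, σ ^ k = g := by
    intro g
    exact (Submonoid.mem_powers_iff g σ).mp (mem_powers_iff_mem_zpowers.mpr (hσ g))
  induction a using MonoidAlgebra.induction_on with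
  | of g =>
    obtain ⟨k, rfl⟩ := hgen g
    refine ⟨Polynomial.X ^ k, fun ψ => ?_⟩
    have h : MonoidAlgebra.of ℤ G (σ ^ k) = MonoidAlgebra.single (σ ^ k) 1 := rfl
    rw [h, l2_evZ_single, map_pow, Polynomial.aeval_X_pow]
    push_cast
    ring
  | add a b ha hb =>
    obtain ⟨P, hP⟩ := ha
    obtain ⟨Q, hQ⟩ := hb
    exact ⟨P + Q, fun ψ => by rw [map_add, map_add, hP, hQ]⟩
  | smul c a ha =>
    obtain ⟨P, hP⟩ := ha
    exact ⟨c • P, fun ψ => by rw [map_zsmul, map_zsmul, hP]⟩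

theorem fth_conj (hC : CycP p j P) (a : MonoidAlgebra ℤ G) {χ₀ χ : G →* ℂˣ} (h₀ : Fth P χ₀)
    (hχ : Fth P χ) (h : evZ χ₀ a ≠ 0) : evZ χ a ≠ 0 := by
  have hcyc : IsCyclic G := hC.cyc
  obtain ⟨σ, hσ⟩ := hcyc.exists_generator
  obtain ⟨Q, hQ⟩ := fth_poly hσ a
  have hpos : 0 < p ^ j := pow_pos hC.prime.pos j
  intro h0
  apply h
  rw [hQ] at h0 ⊢
  have h1 : minpoly ℚ ((χ σ : ℂˣ) : ℂ) ∣ Q := minpoly.dvd ℚ _ h0
  rw [← Polynomial.cyclotomic_eq_minpoly_rat (fth_prim hC hσ hχ) hpos,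
    Polynomial.cyclotomic_eq_minpoly_rat (fth_prim hC hσ h₀) hpos] at h1
  obtain ⟨Q, rfl⟩ := h1
  rw [map_mul, minpoly.aeval, zero_mul]

theorem nP_sum [Fintype P] : nP P = ∑ h : P, MonoidAlgebra.single (h : G) (1 : ℤ) := by
  unfold nP
  rw [finsum_eq_sum_of_fintype]

theorem single_nP {h : G} (hh : h ∈ P) : MonoidAlgebra.single h (1 : ℤ) * nP P = nP P := by
  classical
  have : Fintype P := Fintype.ofFinite P
  rw [nP_sum, Finset.mul_sum,
    ← Equiv.sum_comp (Equiv.mulLeft (⟨h, hh⟩ : P)) (fun x : P => MonoidAlgebra.single (x : G) (1 : ℤ))]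
  refine Finset.sum_congr rfl fun x _ => ?_
  rw [MonoidAlgebra.single_mul_single, one_mul, Equiv.coe_mulLeft]
  rfl

theorem ev_nP {χ : G →* ℂˣ} (hχ : Fth P χ) : evQ χ (toQ G (nP P)) = 0 := by
  obtain ⟨g, hg, hg1⟩ := hχ
  have h := congrArg (fun a => evQ χ (toQ G a)) (single_nP hg)
  simp only [map_mul] at h
  rw [l1_toQ_single, l1_evQ_single] at h
  have h2 : ((χ g : ℂ) - 1) * evQ χ (toQ G (nP P)) = 0 := by
    push_cast at h
    linear_combination h
  rcases mul_eq_zero.1 h2 with h3 | h3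
  · exfalso
    apply hg1
    ext
    rw [Units.val_one]
    linear_combination h3
  · exact h3

theorem ev_nP_not {χ : G →* ℂˣ} (hχ : ¬ Fth P χ) : evQ χ (toQ G (nP P)) = (Nat.card P : ℂ) := by
  classical
  have : Fintype P := Fintype.ofFinite P
  rw [nP_sum, map_sum, map_sum]
  have h1 : ∀ h : P, evQ χ (toQ G (MonoidAlgebra.single (h : G) (1 : ℤ))) = 1 := by
    intro h
    have h2 : χ h = 1 := by
      by_contra h3
      exact hχ ⟨h, h.2, h3⟩
    rw [l1_toQ_single, l1_evQ_single, h2, Units.val_one]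
    push_cast
    ring
  rw [Finset.sum_congr rfl (fun h _ => h1 h), Finset.sum_const, Finset.card_univ,
    ← Nat.card_eq_fintype_card, nsmul_eq_mul, mul_one]

theorem nP_zero_iff (x : MonoidAlgebra ℚ G) :
    toQ G (nP P) * x = 0 ↔ ∀ χ : G →* ℂˣ, ¬ Fth P χ → evQ χ x = 0 := by
  constructor
  · intro h χ hχ
    have h1 := congrArg (evQ χ) h
    rw [map_mul, ev_nP_not hχ, map_zero] at h1
    refine (mul_eq_zero.1 h1).resolve_left ?_
    exact_mod_cast (Nat.card_pos (α := P)).ne'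
  · intro h
    apply evQ_inj
    intro χ
    rw [map_mul, map_zero]
    by_cases hχ : Fth P χ
    · rw [ev_nP hχ, zero_mul]
    · rw [h χ hχ, mul_zero]

end GP

end Pool.Agent.RS2
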