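import Pool.Agent.Lib_helper35.RS2.Bas2
import Pool.Agent.Lib_helper17.RS.P_PX1
import Pool.Agent.Lib_helper35.RS2.Defs2

/-!
# RS2, block PE: homomorphisms for `H/E`, products over the characters
-/

namespace Pool.Agent.RS2

set_option linter.unusedSectionVars false

open Pool.Agent.RSK
open NumberField IsDedekindDomain Filter Topology Complex

section PEA

variable {G : Type} [CommGroup G] [Fintype G]

theorem pe_rs_coeff {k : Type} [CommRing k] (P : Subgroup G) (g : G) (x : MonoidAlgebra k G)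
    (h : P) : (rs P g x).coeff h = x.coeff (g * h) := by
  classical
  unfold rs
  rw [finsum_eq_sum_of_fintype, MonoidAlgebra.coeff_sum, Finsupp.finsetSum_apply]
  simp only [MonoidAlgebra.coeff_single, Finsupp.single_apply]
  rw [Finset.sum_ite_eq' Finset.univ h]
  simp

theorem pe_rs_add {k : Type} [CommRing k] (P : Subgroup G) (g : G) (x y : MonoidAlgebra k G) :
    rs P g (x + y) = rs P g x + rs P g y := by
  apply MonoidAlgebra.ext
  ext h
  rw [MonoidAlgebra.coeff_add, Finsupp.add_apply, pe_rs_coeff, pe_rs_coeff, pe_rs_coeff,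
    MonoidAlgebra.coeff_add, Finsupp.add_apply]

theorem pe_rs_single_mul (P : Subgroup G) (g : G) (h : P) (y : MonoidAlgebra ℤ G) :
    rs P g (MonoidAlgebra.single (h : G) 1 * y) = MonoidAlgebra.single h 1 * rs P g y := by
  apply MonoidAlgebra.ext
  ext h'
  rw [pe_rs_coeff, MonoidAlgebra.coeff_single_mul_apply, MonoidAlgebra.coeff_single_mul_apply,
    pe_rs_coeff]
  congr 2
  rw [Subgroup.coe_mul, Subgroup.coe_inv, mul_left_comm]

theorem rs_mul {k : Type} [CommRing k] (P : Subgroup G) (g g' : G) (x : MonoidAlgebra k G) :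
    rs P g (MonoidAlgebra.single g' 1 * x) = rs P (g * g'⁻¹) x := by
  apply MonoidAlgebra.ext
  ext h
  rw [pe_rs_coeff, pe_rs_coeff, MonoidAlgebra.coeff_single_mul_apply, one_mul]
  congr 1
  rw [← mul_assoc, mul_comm g'⁻¹ g]

end PEA

section LAY

variable {F E H : Type} [Field F] [NumberField F] [Field E] [NumberField E] [Field H]
  [NumberField H] [Algebra F E] [Algebra F H] [Algebra E H] [IsScalarTower F E H]
  [IsGalois F H] {G : Type} [CommGroup G] [Fintype G] {p j : ℕ} {P : Subgroup G}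
  {ι : G ≃* (H ≃ₐ[F] H)} {ιE : P ≃* (H ≃ₐ[E] H)} {S T : Finset (HeightOneSpectrum (𝓞 F))}
  {r : ℕ} {w : Fin r → Pl H} {fr : HeightOneSpectrum (𝓞 F) → G}

/-- the component of `ψ` at the coset `g P` -/
theorem psi_E (hE : Lay ι P ιE) (ψ : UM ι S T →ₗ[MonoidAlgebra ℤ G] MonoidAlgebra ℤ G) (g : G) :
    ∃ ψE : UM ιE (ovr E S) (ovr E T) →ₗ[MonoidAlgebra ℤ P] MonoidAlgebra ℤ P,
      ∀ u, ψE u = rs P g (ψ (umE ι ιE S T u)) := by
  let f : UM ιE (ovr E S) (ovr E T) → MonoidAlgebra ℤ P := fun u => rs P g (ψ (umE ι ιE S T u))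
  have hadd : ∀ u v, f (u + v) = f u + f v := by
    intro u v
    show rs P g (ψ (umE ι ιE S T (u + v))) = _
    rw [map_add, map_add, pe_rs_add]
  have hsm : ∀ (a : MonoidAlgebra ℤ P) (u : UM ιE (ovr E S) (ovr E T)), f (a • u) = a • f u := by
    intro a u
    let Φ : UM ιE (ovr E S) (ovr E T) →+ MonoidAlgebra ℤ P := AddMonoidHom.mk' f hadd
    have hΦ : ∀ u, Φ u = f u := fun u => rfl
    induction a using MonoidAlgebra.induction_linear with
    | zero => rw [zero_smul, zero_smul, ← hΦ, map_zero]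
    | add a b ha hb => rw [add_smul, hadd, ha, hb, add_smul]
    | single h c =>
      have h0 : (MonoidAlgebra.single h c : MonoidAlgebra ℤ P) =
          c • (MonoidAlgebra.single h (1 : ℤ) : MonoidAlgebra ℤ P) := by
        rw [MonoidAlgebra.smul_single, smul_eq_mul, mul_one]
      have h1 : f ((MonoidAlgebra.single h (1 : ℤ) : MonoidAlgebra ℤ P) • u) =
          (MonoidAlgebra.single h (1 : ℤ) : MonoidAlgebra ℤ P) • f u := by
        show rs P g (ψ (umE ι ιE S T ((MonoidAlgebra.single h (1 : ℤ) : MonoidAlgebra ℤ P) • u))) = _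
        rw [umE_smul hE, map_smul, smul_eq_mul, smul_eq_mul, pe_rs_single_mul]
      rw [h0, zsmul_eq_mul, mul_smul, Int.cast_smul_eq_zsmul, ← hΦ, map_zsmul, hΦ, h1, mul_smul,
        Int.cast_smul_eq_zsmul]
  exact ⟨{ toFun := f, map_add' := hadd, map_smul' := hsm }, fun u => rfl⟩

theorem pe_fth (P : Subgroup G) (χ : G →* ℂˣ) : Fth P χ ↔ χ.comp P.subtype ≠ 1 := by
  constructor
  · rintro ⟨h, hh, h1⟩ h2
    exact h1 (by simpa using DFunLike.congr_fun h2 ⟨h, hh⟩)
  · intro h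
    by_contra h1
    refine h ?_
    ext x
    have h3 : χ (x : G) = 1 := by
      by_contra h4
      exact h1 ⟨x, x.2, h4⟩
    simp [h3]

theorem pX_pF (hC : CycP p j P) (φ : (G →* ℂˣ) → ℂ) :
    pX (fun ψ : P →* ℂˣ => ∏ᶠ χ : {χ : G →* ℂˣ // χ.comp P.subtype = ψ}, φ χ.1) = pF P φ := by
  classical
  have hfG : Finite (G →* ℂˣ) := dual_finite
  have hfP : Finite (P →* ℂˣ) := dual_finite
  have i1 : Fintype (G →* ℂˣ) := Fintype.ofFinite _
  have i2 : Fintype (P →* ℂˣ) := Fintype.ofFinite _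
  unfold pX pF
  rw [finprod_eq_prod_of_fintype, finprod_eq_prod_of_fintype]
  have h1 : ∀ ψ : {ψ : P →* ℂˣ // ψ ≠ 1},
      ∏ᶠ χ : {χ : G →* ℂˣ // χ.comp P.subtype = ψ.1}, φ χ.1 =
        ∏ χ : {χ : G →* ℂˣ // χ.comp P.subtype = ψ.1}, φ χ.1 := fun ψ =>
    finprod_eq_prod_of_fintype _
  rw [Finset.prod_congr rfl (fun ψ _ => h1 ψ)]
  rw [← Fintype.prod_sigma' (fun (ψ : {ψ : P →* ℂˣ // ψ ≠ 1})
    (χ : {χ : G →* ℂˣ // χ.comp P.subtype = ψ.1}) => φ χ.1)]
  refine Fintype.prod_equiv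
    { toFun := fun x => ⟨x.2.1, (pe_fth P x.2.1).2 (x.2.2.symm ▸ x.1.2)⟩
      invFun := fun χ => ⟨⟨χ.1.comp P.subtype, (pe_fth P χ.1).1 χ.2⟩, ⟨χ.1, rfl⟩⟩
      left_inv := ?_
      right_inv := fun χ => rfl } _ _ (fun x => rfl)
  rintro ⟨⟨ψ, hψ⟩, χ, hχ⟩
  change χ.comp P.subtype = ψ at hχ
  subst hχ
  rfl

end LAY

end Pool.Agent.RS2
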