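import Pool.Agent.Lib_helper35.RS2.P_RC
import Pool.Agent.Lib_helper35.RS2.Defs2

/-!
# RS2, block RZ: determinants over the group rings of `P`
-/

namespace Pool.Agent.RS2

set_option linter.unusedSectionVars false

open Pool.Agent.RSK
open Complex

section RES

theorem rz_rs_coeff {G : Type} [CommGroup G] [Fintype G] {k : Type} [CommRing k]
    (P : Subgroup G) (g : G) (x : MonoidAlgebra k G) (h : P) :
    (rs P g x).coeff h = x.coeff (g * h) := by
  classical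
  have hf : Fintype P := Fintype.ofFinite P
  unfold rs
  rw [finsum_eq_sum_of_fintype, MonoidAlgebra.coeff_sum, Finsupp.finsetSum_apply]
  simp only [MonoidAlgebra.coeff_single, Finsupp.single_apply]
  rw [Finset.sum_ite_eq' Finset.univ h, if_pos (Finset.mem_univ _)]

/-- the value of a character -/
theorem rz_lift {k : Type} [CommRing k] [Algebra k ℂ] {G : Type} [Group G] [Fintype G]
    (χ : G →* ℂˣ) (x : MonoidAlgebra k G) :
    MonoidAlgebra.lift k ℂ G ((Units.coeHom ℂ).comp χ) x =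
      ∑ g : G, algebraMap k ℂ (x.coeff g) * ((χ g : ℂˣ) : ℂ) := by
  rw [MonoidAlgebra.lift_apply, Finsupp.sum_fintype]
  · refine Finset.sum_congr rfl fun g _ => ?_
    rw [Algebra.smul_def]
    rfl
  · intro g
    rw [zero_smul]

variable {G : Type} [CommGroup G] [Fintype G] {P : Subgroup G}

open scoped Classical in
theorem rz_gen {k : Type} [CommRing k] (φ : k →+* ℂ)
    (ev : (G →* ℂˣ) → (MonoidAlgebra k G →+* ℂ)) (evP : (P →* ℂˣ) → (MonoidAlgebra k P →+* ℂ))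
    [Fintype P] (hev : ∀ χ x, ev χ x = ∑ g : G, φ (x.coeff g) * ((χ g : ℂˣ) : ℂ))
    (hevP : ∀ ψ x, evP ψ x = ∑ h : P, φ (x.coeff h) * ((ψ h : ℂˣ) : ℂ))
    {A : Type} [Fintype A] (t : A → G) (ht : Trv P t) {r : ℕ}
    (M : Matrix (Fin r) (Fin r) (MonoidAlgebra k G)) (ψ : P →* ℂˣ) :
    evP ψ (Matrix.det (Matrix.of fun a b : Fin r × A => rs P (t a.2 * (t b.2)⁻¹) (M a.1 b.1))) =
      ∏ᶠ χ : {χ : G →* ℂˣ // χ.comp P.subtype = ψ}, ev χ.1 M.det := by
  have h1 := res_C t ht (fun i j g => φ ((M i j).coeff g)) ψ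
  have h2 : ∀ χ : G →* ℂˣ, ev χ M.det =
      Matrix.det (Matrix.of fun i j : Fin r => ∑ g : G, φ ((M i j).coeff g) * ((χ g : ℂˣ) : ℂ)) := by
    intro χ
    rw [RingHom.map_det]
    congr 1
    ext i j
    rw [RingHom.mapMatrix_apply, Matrix.map_apply, hev, Matrix.of_apply]
  have h3 : evP ψ (Matrix.det (Matrix.of fun a b : Fin r × A =>
      rs P (t a.2 * (t b.2)⁻¹) (M a.1 b.1))) = Matrix.det (Matrix.of fun a b : Fin r × A =>
        ∑ h : P, φ ((M a.1 b.1).coeff (t a.2 * (t b.2)⁻¹ * h)) * ((ψ h : ℂˣ) : ℂ)) := by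
    rw [RingHom.map_det]
    congr 1
    ext a b
    rw [RingHom.mapMatrix_apply, Matrix.map_apply, Matrix.of_apply, hevP, Matrix.of_apply]
    refine Finset.sum_congr rfl fun h _ => ?_
    rw [rz_rs_coeff]
  rw [h3, h1]
  exact finprod_congr fun χ => (h2 χ.1).symm

open scoped Classical in
theorem res_Q {A : Type} [Fintype A] (t : A → G) (ht : Trv P t) {r : ℕ}
    (M : Matrix (Fin r) (Fin r) (MonoidAlgebra ℚ G)) (ψ : P →* ℂˣ) :
    evQ ψ (Matrix.det (Matrix.of fun a b : Fin r × A => rs P (t a.2 * (t b.2)⁻¹) (M a.1 b.1))) =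
      ∏ᶠ χ : {χ : G →* ℂˣ // χ.comp P.subtype = ψ}, evQ χ.1 M.det := by
  have hf : Fintype P := Fintype.ofFinite P
  exact rz_gen (algebraMap ℚ ℂ) (fun χ => (evQ χ : MonoidAlgebra ℚ G →+* ℂ))
    (fun ψ => (evQ ψ : MonoidAlgebra ℚ P →+* ℂ)) (fun χ x => rz_lift χ x)
    (fun ψ x => rz_lift ψ x) t ht M ψ

open scoped Classical in
theorem res_R {A : Type} [Fintype A] (t : A → G) (ht : Trv P t) {r : ℕ}
    (M : Matrix (Fin r) (Fin r) (MonoidAlgebra ℝ G)) (ψ : P →* ℂˣ) :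
    evR ψ (Matrix.det (Matrix.of fun a b : Fin r × A => rs P (t a.2 * (t b.2)⁻¹) (M a.1 b.1))) =
      ∏ᶠ χ : {χ : G →* ℂˣ // χ.comp P.subtype = ψ}, evR χ.1 M.det := by
  have hf : Fintype P := Fintype.ofFinite P
  exact rz_gen (algebraMap ℝ ℂ) (fun χ => (evR χ : MonoidAlgebra ℝ G →+* ℂ))
    (fun ψ => (evR ψ : MonoidAlgebra ℝ P →+* ℂ)) (fun χ x => rz_lift χ x)
    (fun ψ x => rz_lift ψ x) t ht M ψ

theorem rz_evZ {G : Type} [CommGroup G] [Fintype G] (χ : G →* ℂˣ) (x : MonoidAlgebra ℤ G) :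
    evZ χ x = ∑ g : G, Int.castRingHom ℂ (x.coeff g) * ((χ g : ℂˣ) : ℂ) := by
  have h : evZ χ x = MonoidAlgebra.lift ℚ ℂ G ((Units.coeHom ℂ).comp χ) (toQ G x) := rfl
  rw [h, rz_lift]
  refine Finset.sum_congr rfl fun g _ => ?_
  have h1 : (toQ G x).coeff g = ((x.coeff g : ℤ) : ℚ) := by
    simp [toQ, MonoidAlgebra.coeff_mapRingHom]
  rw [h1]
  simp

open scoped Classical in
theorem res_Z {A : Type} [Fintype A] (t : A → G) (ht : Trv P t) {r : ℕ}
    (M : Matrix (Fin r) (Fin r) (MonoidAlgebra ℤ G)) (ψ : P →* ℂˣ) :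
    evZ ψ (Matrix.det (Matrix.of fun a b : Fin r × A => rs P (t a.2 * (t b.2)⁻¹) (M a.1 b.1))) =
      ∏ᶠ χ : {χ : G →* ℂˣ // χ.comp P.subtype = ψ}, evZ χ.1 M.det := by
  have hf : Fintype P := Fintype.ofFinite P
  exact rz_gen (Int.castRingHom ℂ) (fun χ => evZ χ) (fun ψ => evZ ψ) (fun χ x => rz_evZ χ x)
    (fun ψ x => rz_evZ ψ x) t ht M ψ

end RES

end Pool.Agent.RS2
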