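import Pool.Agent.Lib_helper35.RS2.Bas2
import Pool.Agent.Lib_helper17.RS.P_TW
import Pool.Agent.Lib_helper35.RS2.Defs2

/-!
# RS2, block WE: the logarithms for `H/E`
-/

namespace Pool.Agent.RS2

set_option linter.unusedSectionVars false

open Pool.Agent.RSK
open NumberField IsDedekindDomain Filter Topology Complex

section LAY

variable {F E H : Type} [Field F] [NumberField F] [Field E] [NumberField E] [Field H]
  [NumberField H] [Algebra F E] [Algebra F H] [Algebra E H] [IsScalarTower F E H]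
  [IsGalois F H] {G : Type} [CommGroup G] [Fintype G] {p j : ℕ} {P : Subgroup G}
  {ι : G ≃* (H ≃ₐ[F] H)} {ιE : P ≃* (H ≃ₐ[E] H)} {S T : Finset (HeightOneSpectrum (𝓞 F))}
  {r : ℕ} {w : Fin r → Pl H} {fr : HeightOneSpectrum (𝓞 F) → G}

theorem we_act (hE : Lay ι P ιE) (W : Pl H) (g : G) (h : P) :
    act (ιE h) (act (ι g) W) = act (ι (g * h)) W := by
  have h1 : (ιE h).restrictScalars F = ι (h : G) := AlgEquiv.ext fun x => hE.compat h x
  rw [← act_restrict (F₀ := F) (ιE h), h1, mul_comm, map_mul, act_mul]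

theorem wl_E [Fintype P] (hE : Lay ι P ιE) (W : Pl H) (g : G) (u : UM ιE (ovr E S) (ovr E T)) :
    wl ιE (ovr E S) (ovr E T) (act (ι g) W) u = rs P g (wl ι S T W (umE ι ιE S T u)) := by
  show ∑ h : P, MonoidAlgebra.single h (lg (act (ιE h) (act (ι g) W)) (u.val : H)) =
    ∑ᶠ h : P, MonoidAlgebra.single h
      ((∑ γ : G, MonoidAlgebra.single γ (lg (act (ι γ) W) (u.val : H))).coeff (g * h))
  rw [finsum_eq_sum_of_fintype]
  refine Finset.sum_congr rfl fun h _ => ?_
  rw [we_act hE]
  congr 1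
  classical
  rw [MonoidAlgebra.coeff_sum, Finsupp.finsetSum_apply, Finset.sum_eq_single (g * (h : G))]
  · rw [MonoidAlgebra.coeff_single, Finsupp.single_eq_same]
  · intro γ _ hγ
    rw [MonoidAlgebra.coeff_single, Finsupp.single_eq_of_ne]
    exact fun h' => hγ h'.symm
  · intro h'
    exact absurd (Finset.mem_univ _) h'

end LAY

end Pool.Agent.RS2
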