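import Pool.Agent.Lib_helper17.RS.P_PX2
import Pool.Agent.Lib_helper35.RS2.P_GP
import Pool.Agent.Lib_helper35.RS2.P_PE
import Pool.Agent.Lib_helper35.RS2.P_RZ
import Pool.Agent.Lib_helper35.RS2.P_WE
import Pool.Agent.Lib_helper35.RS2.Bas2
import Pool.Agent.Lib_helper35.RS2.Defs2

/-!
# RS2, block CE: the element for `H/E`
-/

namespace Pool.Agent.RS2

set_option linter.unusedSectionVars false

open Pool.Agent.RSK
open NumberField IsDedekindDomain Filter Topology Complex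

section CE1

variable {G : Type} [CommGroup G] [Fintype G] {P : Subgroup G}

theorem ce_finite (ψ : P →* ℂˣ) : Finite {χ : G →* ℂˣ // χ.comp P.subtype = ψ} := by
  have := px2_finite (G := G)
  infer_instance

/-- the product over `ψ⁻¹` -/
theorem ce_inv (φ : (G →* ℂˣ) → ℂ) (ψ : P →* ℂˣ) :
    ∏ᶠ χ : {χ : G →* ℂˣ // χ.comp P.subtype = ψ}, φ χ.1⁻¹ =
      ∏ᶠ χ : {χ : G →* ℂˣ // χ.comp P.subtype = ψ⁻¹}, φ χ.1 := by
  let e : {χ : G →* ℂˣ // χ.comp P.subtype = ψ} ≃ {χ : G →* ℂˣ // χ.comp P.subtype = ψ⁻¹} :=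
    { toFun := fun χ => ⟨χ.1⁻¹, congrArg (fun f : P →* ℂˣ => f⁻¹) χ.2⟩
      invFun := fun χ => ⟨χ.1⁻¹, by
        have h := χ.2
        refine MonoidHom.ext fun x => ?_
        have h1 := DFunLike.congr_fun h x
        rw [MonoidHom.comp_apply, MonoidHom.inv_apply] at h1 ⊢
        rw [h1, inv_inv]⟩
      left_inv := fun χ => Subtype.ext (inv_inv χ.1)
      right_inv := fun χ => Subtype.ext (inv_inv χ.1) }
  exact finprod_comp_equiv e (f := fun χ : {χ : G →* ℂˣ // χ.comp P.subtype = ψ⁻¹} => φ χ.1)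

theorem ce_mul (φ φ' : (G →* ℂˣ) → ℂ) (ψ : P →* ℂˣ) :
    ∏ᶠ χ : {χ : G →* ℂˣ // χ.comp P.subtype = ψ}, (φ χ.1 * φ' χ.1) =
      (∏ᶠ χ : {χ : G →* ℂˣ // χ.comp P.subtype = ψ}, φ χ.1) *
        ∏ᶠ χ : {χ : G →* ℂˣ // χ.comp P.subtype = ψ}, φ' χ.1 := by
  have := ce_finite ψ
  exact finprod_mul_distrib (Set.toFinite _) (Set.toFinite _)

theorem ce_fth {χ : G →* ℂˣ} {ψ : P →* ℂˣ} (h : χ.comp P.subtype = ψ) : Fth P χ ↔ ψ ≠ 1 := by
  subst h
  constructor
  · rintro ⟨x, hx, hx1⟩ h1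
    exact hx1 (DFunLike.congr_fun h1 (⟨x, hx⟩ : P))
  · intro h1
    by_contra h2
    apply h1
    refine MonoidHom.ext fun x => ?_
    by_contra h3
    exact h2 ⟨x, x.2, h3⟩

theorem ce_one_zero {φ : (G →* ℂˣ) → ℂ} (h : ∀ χ : G →* ℂˣ, ¬ Fth P χ → φ χ = 0) :
    ∏ᶠ χ : {χ : G →* ℂˣ // χ.comp P.subtype = 1}, φ χ.1 = 0 := by
  classical
  have := ce_finite (P := P) 1
  have : Fintype {χ : G →* ℂˣ // χ.comp P.subtype = 1} := Fintype.ofFinite _
  rw [finprod_eq_prod_of_fintype]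
  refine Finset.prod_eq_zero (Finset.mem_univ ⟨1, by rfl⟩) ?_
  refine h 1 ?_
  rintro ⟨x, _, hx⟩
  exact hx rfl

end CE1

section LAY

variable {F E H : Type} [Field F] [NumberField F] [Field E] [NumberField E] [Field H]
  [NumberField H] [Algebra F E] [Algebra F H] [Algebra E H] [IsScalarTower F E H]
  [IsGalois F H] {G : Type} [CommGroup G] [Fintype G] {p j : ℕ} {P : Subgroup G}
  {ι : G ≃* (H ≃ₐ[F] H)} {ιE : P ≃* (H ≃ₐ[E] H)} {S T : Finset (HeightOneSpectrum (𝓞 F))}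
  {r : ℕ} {w : Fin r → Pl H} {fr : HeightOneSpectrum (𝓞 F) → G}

/-- `ℤ[P] → ℤ[G]` -/
noncomputable def ce_i (P : Subgroup G) : MonoidAlgebra ℤ P →+* MonoidAlgebra ℤ G :=
  MonoidAlgebra.mapDomainRingHom ℤ P.subtype

theorem ce_i_single (h : P) (n : ℤ) :
    ce_i P (MonoidAlgebra.single h n) = MonoidAlgebra.single (h : G) n := by
  unfold ce_i
  simp

theorem ce_umE_smul (hE : Lay ι P ιE) (a : MonoidAlgebra ℤ P) (u : UM ιE (ovr E S) (ovr E T)) :
    umE ι ιE S T (a • u) = ce_i P a • umE ι ιE S T u := by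
  induction a using MonoidAlgebra.induction_on with
  | of g =>
    have h : MonoidAlgebra.of ℤ P g = MonoidAlgebra.single g 1 := rfl
    rw [h, ce_i_single, umE_smul hE]
  | add a b ha hb => rw [add_smul, map_add, map_add, add_smul, ha, hb]
  | smul c a ha =>
    have h1 : (c • a) • u = c • (a • u) := smul_assoc c a u
    have h2 : ce_i P (c • a) = c • ce_i P a := map_zsmul (ce_i P) c a
    rw [h1, map_zsmul, ha, h2, smul_assoc]

theorem ce_nrm [Fintype P] : ce_i P (nrm P) = nP P := by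
  unfold nrm
  rw [map_sum, nP_sum]
  exact Finset.sum_congr rfl fun h _ => ce_i_single h 1

theorem ce_mSpn_mem {r' : ℕ} (b : Fin r' → UM ι S T) (u : UM ι S T) :
    u ∈ mSpn G b ↔ u ∈ Submodule.span (MonoidAlgebra ℤ G) (Set.range b) := Iff.rfl

theorem ce_span (hE : Lay ι P ιE) (b : Fin r → UM ι S T) {A : Type} (t : A → G) (ht : Trv P t)
    {r' : ℕ} (e : Fin r' ≃ Fin r × A) (bE : Fin r' → UM ιE (ovr E S) (ovr E T))
    (hbE : ∀ k, umE ι ιE S T (bE k) = MonoidAlgebra.single (t (e k).2) (1 : ℤ) • b (e k).1) :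
    (mSpn P bE).map (umE ι ιE S T).toAddMonoidHom = mSpn G b := by
  have hmemE : ∀ u, u ∈ mSpn P bE ↔ u ∈ Submodule.span (MonoidAlgebra ℤ P) (Set.range bE) :=
    fun u => Iff.rfl
  -- the image is stable under `G`
  have hg : ∀ (g : G) (y : UM ιE (ovr E S) (ovr E T)), y ∈ mSpn P bE →
      ∃ z ∈ mSpn P bE, umE ι ιE S T z = MonoidAlgebra.single g (1 : ℤ) • umE ι ιE S T y := by
    intro g y hy
    rw [hmemE] at hy
    induction hy using Submodule.span_induction with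
    | mem y hy =>
      obtain ⟨k, rfl⟩ := hy
      obtain ⟨a', ha'⟩ := ht.2 (QuotientGroup.mk (g * t (e k).2))
      have ha'' : (QuotientGroup.mk (t a') : G ⧸ P) = QuotientGroup.mk (g * t (e k).2) := ha'
      rw [QuotientGroup.eq] at ha''
      refine ⟨MonoidAlgebra.single (⟨_, ha''⟩ : P) (1 : ℤ) • bE (e.symm ((e k).1, a')), ?_, ?_⟩
      · rw [hmemE]
        exact Submodule.smul_mem _ _ (Submodule.subset_span ⟨_, rfl⟩)
      · rw [umE_smul hE, hbE, hbE, Equiv.apply_symm_apply, smul_smul, smul_smul,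
          MonoidAlgebra.single_mul_single, MonoidAlgebra.single_mul_single, one_mul]
        congr 2
        show (t a')⁻¹ * (g * t (e k).2) * t a' = g * t (e k).2
        rw [mul_comm, mul_inv_cancel_left]
    | zero => exact ⟨0, (mSpn P bE).zero_mem, by rw [map_zero, smul_zero]⟩
    | add y y' _ _ hy hy' =>
      obtain ⟨z, hz, hz'⟩ := hy
      obtain ⟨z₁, hz₁, hz₁'⟩ := hy'
      exact ⟨z + z₁, (mSpn P bE).add_mem hz hz₁, by rw [map_add, map_add, hz', hz₁', smul_add]⟩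
    | smul a y _ hy =>
      obtain ⟨z, hz, hz'⟩ := hy
      refine ⟨a • z, ?_, ?_⟩
      · rw [hmemE] at hz ⊢
        exact Submodule.smul_mem _ _ hz
      · rw [ce_umE_smul hE, ce_umE_smul hE, hz', smul_comm]
  -- the image is a submodule
  have ha : ∀ (a : MonoidAlgebra ℤ G) (y : UM ιE (ovr E S) (ovr E T)), y ∈ mSpn P bE →
      ∃ z ∈ mSpn P bE, umE ι ιE S T z = a • umE ι ιE S T y := by
    intro a y hy
    induction a using MonoidAlgebra.induction_on with
    | of g => exact hg g y hy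
    | add a b ha hb =>
      obtain ⟨z, hz, hz'⟩ := ha
      obtain ⟨z₁, hz₁, hz₁'⟩ := hb
      exact ⟨z + z₁, (mSpn P bE).add_mem hz hz₁, by rw [map_add, hz', hz₁', add_smul]⟩
    | smul c a ha =>
      obtain ⟨z, hz, hz'⟩ := ha
      exact ⟨c • z, (mSpn P bE).zsmul_mem hz c, by rw [map_zsmul, hz', smul_assoc]⟩
  ext u
  rw [AddSubgroup.mem_map]
  constructor
  · rintro ⟨y, hy, rfl⟩
    rw [hmemE] at hy
    show umE ι ιE S T y ∈ mSpn G b
    rw [ce_mSpn_mem]
    induction hy using Submodule.span_induction with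
    | mem y hy =>
      obtain ⟨k, rfl⟩ := hy
      rw [hbE]
      exact Submodule.smul_mem _ _ (Submodule.subset_span ⟨_, rfl⟩)
    | zero => rw [map_zero]; exact Submodule.zero_mem _
    | add y y' _ _ hy hy' => rw [map_add]; exact Submodule.add_mem _ hy hy'
    | smul a y _ hy => rw [ce_umE_smul hE]; exact Submodule.smul_mem _ _ hy
  · intro hu
    rw [ce_mSpn_mem] at hu
    have key : ∃ y ∈ mSpn P bE, umE ι ιE S T y = u := by
      induction hu using Submodule.span_induction with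
      | mem u hu =>
        obtain ⟨i, rfl⟩ := hu
        obtain ⟨a', ha'⟩ := ht.2 (QuotientGroup.mk 1)
        have ha'' : (QuotientGroup.mk (t a') : G ⧸ P) = QuotientGroup.mk 1 := ha'
        rw [QuotientGroup.eq] at ha''
        refine ⟨MonoidAlgebra.single (⟨_, ha''⟩ : P) (1 : ℤ) • bE (e.symm (i, a')), ?_, ?_⟩
        · rw [hmemE]
          exact Submodule.smul_mem _ _ (Submodule.subset_span ⟨_, rfl⟩)
        · rw [umE_smul hE, hbE, Equiv.apply_symm_apply, smul_smul,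
            MonoidAlgebra.single_mul_single, one_mul]
          have h1 : ((⟨(t a')⁻¹ * 1, ha''⟩ : P) : G) * t (i, a').2 = 1 := by
            show (t a')⁻¹ * 1 * t a' = 1
            rw [mul_one, inv_mul_cancel]
          rw [h1]
          exact one_smul (MonoidAlgebra ℤ G) _
      | zero => exact ⟨0, (mSpn P bE).zero_mem, map_zero _⟩
      | add u u' _ _ hu hu' =>
        obtain ⟨z, hz, hz'⟩ := hu
        obtain ⟨z₁, hz₁, hz₁'⟩ := hu'
        exact ⟨z + z₁, (mSpn P bE).add_mem hz hz₁, by rw [map_add, hz', hz₁']⟩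
      | smul a u _ hu =>
        obtain ⟨z, hz, hz'⟩ := hu
        obtain ⟨z₁, hz₁, hz₁'⟩ := ha a z hz
        exact ⟨z₁, hz₁, by rw [hz₁', hz']⟩
    exact key

/-- The determinants for `H/E` are the norms of the determinants for `H/F`. -/
theorem core_E [Fintype P] (hC : CycP p j P) (hD : DataW ι S T r w fr) (hE : Lay ι P ιE)
    {c : (G →* ℂˣ) → ℂ} {b : Fin r → UM ι S T} {x : MonoidAlgebra ℚ G}
    (hco : Core2 ι S T P w c b x) {A : Type} (t : A → G) (ht : Trv P t) {r' : ℕ}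
    (e : Fin r' ≃ Fin r × A) :
    ∃ (bE : Fin r' → UM ιE (ovr E S) (ovr E T)) (xE : MonoidAlgebra ℚ P),
      Core ιE (ovr E S) (ovr E T) (fun k => act (ι (t (e k).2)) (w (e k).1))
        (fun ψ => ∏ᶠ χ : {χ : G →* ℂˣ // χ.comp P.subtype = ψ}, c χ.1) bE xE ∧
      (mSpn P bE).map (umE ι ιE S T).toAddMonoidHom = mSpn G b ∧
      (∀ ψ : P →* ℂˣ, evQ ψ xE =
        ∏ᶠ χ : {χ : G →* ℂˣ // χ.comp P.subtype = ψ}, evQ χ.1 x) ∧
      ∀ ψ : Fin r → (UM ι S T →ₗ[MonoidAlgebra ℤ G] MonoidAlgebra ℤ G),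
        ∃ ψE : Fin r' → (UM ιE (ovr E S) (ovr E T) →ₗ[MonoidAlgebra ℤ P] MonoidAlgebra ℤ P),
          pX (fun η => evQ η (xE * toQ P (pmat ψE bE).det)) =
            pF P (fun χ => evQ χ (x * toQ G (pmat ψ b).det)) := by
  classical
  have hfinA : Finite A := Finite.of_injective _ ht.1
  have : Fintype A := Fintype.ofFinite A
  -- the family
  set bE : Fin r' → UM ιE (ovr E S) (ovr E T) := fun k =>
    (umE ι ιE S T).symm (MonoidAlgebra.single (t (e k).2) (1 : ℤ) • b (e k).1) with hbEd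
  have hbE : ∀ k, umE ι ιE S T (bE k) = MonoidAlgebra.single (t (e k).2) (1 : ℤ) • b (e k).1 :=
    fun k => AddEquiv.apply_symm_apply _ _
  set xE : MonoidAlgebra ℚ P := (Matrix.of fun (a b : Fin 1 × A) =>
    rs P (t a.2 * (t b.2)⁻¹) ((Matrix.of fun _ _ : Fin 1 => x) a.1 b.1)).det with hxEd
  have hxE : ∀ ψ : P →* ℂˣ, evQ ψ xE =
      ∏ᶠ χ : {χ : G →* ℂˣ // χ.comp P.subtype = ψ}, evQ χ.1 x := by
    intro ψ
    rw [hxEd, res_Q t ht]
    refine finprod_congr fun χ => ?_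
    rw [Matrix.det_fin_one]
    rfl
  -- the matrix of the logarithms
  have hwm : wmat ιE (ovr E S) (ovr E T) (fun k => act (ι (t (e k).2)) (w (e k).1)) bE =
      (Matrix.of fun (a b' : Fin r × A) =>
        rs P (t a.2 * (t b'.2)⁻¹) ((wmat ι S T w b) a.1 b'.1)).submatrix e e := by
    ext1 k l
    show wl ιE (ovr E S) (ovr E T) (act (ι (t (e k).2)) (w (e k).1)) (bE l) =
      rs P (t (e k).2 * (t (e l).2)⁻¹) (wl ι S T (w (e k).1) (b (e l).1))
    rw [wl_E hE, hbE, map_smul, ← rs_mul]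
    congr 1
    show toR G (MonoidAlgebra.single (t (e l).2) (1 : ℤ)) * wl ι S T (w (e k).1) (b (e l).1) = _
    congr 1
    simp [toR]
  have hwd : ∀ ψ : P →* ℂˣ, evR ψ (wmat ιE (ovr E S) (ovr E T)
      (fun k => act (ι (t (e k).2)) (w (e k).1)) bE).det =
        ∏ᶠ χ : {χ : G →* ℂˣ // χ.comp P.subtype = ψ}, evR χ.1 (wmat ι S T w b).det := by
    intro ψ
    rw [hwm, Matrix.det_submatrix_equiv_self, res_R t ht]
  refine ⟨bE, xE, ⟨fun k => ?_, ?_, fun ψ hψ => ?_⟩, ce_span hE b t ht e bE hbE, hxE, fun ψ => ?_⟩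
  · apply (umE ι ιE S T).injective
    rw [ce_umE_smul hE, ce_nrm, hbE, map_zero, smul_comm, hco.minus, smul_zero]
  · rw [evQ_one_nrm, hxE]
    exact ce_one_zero ((nP_zero_iff x).1 hco.xminus)
  · rw [hxE, hwd, ← ce_mul (fun χ => evQ χ x) (fun χ => evR χ (wmat ι S T w b).det),
      ← ce_inv c ψ]
    exact finprod_congr fun χ => hco.value χ.1 ((ce_fth χ.2).2 hψ)
  · choose ψE hψE using fun k : Fin r' => psi_E hE (ψ (e k).1) (t (e k).2)
    refine ⟨ψE, ?_⟩
    have hpm : pmat ψE bE = (Matrix.of fun (a b' : Fin r × A) =>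
        rs P (t a.2 * (t b'.2)⁻¹) ((pmat ψ b) a.1 b'.1)).submatrix e e := by
      ext1 k l
      show ψE k (bE l) = rs P (t (e k).2 * (t (e l).2)⁻¹) (ψ (e k).1 (b (e l).1))
      rw [hψE, hbE, map_smul, smul_eq_mul, rs_mul]
    rw [← pX_pF hC]
    congr 1
    funext η
    rw [map_mul, hxE, hpm, Matrix.det_submatrix_equiv_self]
    have h1 := res_Z t ht (pmat ψ b) η
    have h2 : ∀ a : MonoidAlgebra ℤ P, evQ η (toQ P a) = evZ η a := fun a => rfl
    rw [h2, h1, ← ce_mul (fun χ => evQ χ x) (fun χ => evZ χ (pmat ψ b).det)]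
    refine finprod_congr fun χ => ?_
    rw [map_mul]
    rfl

end LAY

end Pool.Agent.RS2
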