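import Pool.Agent.Lib_helper35.RS2.P_LF
import Pool.Agent.Lib_helper17.RS.P_L2

/-!
# RS2, block LC2: adding a split place
-/

namespace Pool.Agent.RS2

set_option linter.unusedSectionVars false

open Pool.Agent.RSK
open NumberField NumberField.InfinitePlace NumberField.Units IsDedekindDomain Filter Topology
  Complex

section DIV

variable {G : Type} [CommGroup G] [Fintype G] {P : Subgroup G}

/-- division in the new part -/
theorem div_exists_nP (x y : MonoidAlgebra ℚ G) (hy : ∀ χ : G →* ℂˣ, Fth P χ → evQ χ y ≠ 0) :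
    ∃ z : MonoidAlgebra ℚ G, toQ G (nP P) * z = 0 ∧
      ∀ χ : G →* ℂˣ, Fth P χ → evQ χ z * evQ χ y = evQ χ x := by
  classical
  have hfin : Module.Finite ℚ (MonoidAlgebra ℚ G) := inferInstance
  let V : Submodule ℚ (MonoidAlgebra ℚ G) := LinearMap.ker (LinearMap.mulLeft ℚ (toQ G (nP P)))
  have hV : ∀ z, z ∈ V ↔ toQ G (nP P) * z = 0 := fun z => Iff.rfl
  let f : V →ₗ[ℚ] V := (LinearMap.mulLeft ℚ y).restrict (p := V) (q := V) (fun z hz => by
    rw [hV] at hz ⊢
    rw [LinearMap.mulLeft_apply, mul_left_comm, hz, mul_zero])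
  have hf : ∀ z : V, ((f z : V) : MonoidAlgebra ℚ G) = y * z := fun z => rfl
  have hinj : Function.Injective f := by
    rw [injective_iff_map_eq_zero]
    intro z hz
    apply Subtype.ext
    have h1 : y * (z : MonoidAlgebra ℚ G) = 0 := by
      rw [← hf, hz]
      rfl
    apply evQ_inj
    intro χ
    rw [ZeroMemClass.coe_zero, map_zero]
    by_cases hχ : Fth P χ
    · have h2 := congrArg (evQ χ) h1
      rw [map_mul, map_zero] at h2
      exact (mul_eq_zero.1 h2).resolve_left (hy χ hχ)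
    · exact (nP_zero_iff _).1 z.2 χ hχ
  have hsurj : Function.Surjective f := LinearMap.injective_iff_surjective.1 hinj
  have hP0 : ((Nat.card P : ℕ) : ℚ) ≠ 0 := by exact_mod_cast (Nat.card_pos (α := P)).ne'
  have hP0' : ((Nat.card P : ℕ) : ℂ) ≠ 0 := by exact_mod_cast (Nat.card_pos (α := P)).ne'
  have hx0 : toQ G (nP P) * (x - MonoidAlgebra.single 1 (((Nat.card P : ℕ) : ℚ)⁻¹) *
      (toQ G (nP P) * x)) = 0 := by
    rw [nP_zero_iff]
    intro χ hχ
    rw [map_sub, map_mul, map_mul, ev_nP_not hχ, l1_evQ_single, map_one, Units.val_one]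
    push_cast
    field_simp
    ring
  obtain ⟨z, hz⟩ := hsurj ⟨_, hx0⟩
  refine ⟨z, z.2, fun χ hχ => ?_⟩
  have h1 := congrArg (fun u : V => (u : MonoidAlgebra ℚ G)) hz
  beta_reduce at h1
  rw [hf] at h1
  have h2 := congrArg (evQ χ) h1
  rw [map_mul, map_sub, map_mul, map_mul, ev_nP hχ, zero_mul, mul_zero, sub_zero] at h2
  rw [mul_comm, h2]

end DIV

section MAIN

variable {F H : Type} [Field F] [NumberField F] [Field H] [NumberField H] [Algebra F H]
  [IsGalois F H] {G : Type} [CommGroup G] [Fintype G] {p j : ℕ} {P : Subgroup G}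
  {ι : G ≃* (H ≃ₐ[F] H)} {S T : Finset (HeightOneSpectrum (𝓞 F))} {r : ℕ} {w : Fin r → Pl H}
  {fr : HeightOneSpectrum (𝓞 F) → G}

theorem lc_split2 (hC : CycP p j P) (hD : Data ι S T r w fr) {l : ℕ} (hl : l.Prime)
    {v : HeightOneSpectrum (𝓞 F)} (hv : v ∉ S) (hvT : v ∉ T)
    (hfr : fr v = 1) {W : HeightOneSpectrum (𝓞 H)} (hW : W.under (𝓞 F) = v)
    (h : LCore2 ι (Finset.cons v S hv) T P (Fin.snoc (α := fun _ => Pl H) w (Sum.inr W)) fr l) :
    LCore2 ι S T P w fr l := by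
  classical
  obtain ⟨c₁, hc₁, hne₁, b₁, x₁, hcore, hint⟩ := h
  have hD₁ := data_split hD hv hvT hfr hW
  have hfin : Module.Finite ℤ (UM ι (Finset.cons v S hv) T) := um_finite hD₁
  have hspl : ∀ σ : H ≃ₐ[F] H, act σ (Sum.inr W : Pl H) = Sum.inr W → σ = 1 := by
    have h1 := hD₁.split (Fin.last r)
    rw [Fin.snoc_last] at h1
    exact h1
  have hlog := l2_nv hD hv hW hspl
  have hL0 : Real.log (nv v) ≠ 0 := by
    have h2 := nv_two_le v
    have h3 : (1 : ℝ) < nv v := by exact_mod_cast (show 1 < nv v by omega)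
    exact (Real.log_pos h3).ne'
  have hL0' : ((Real.log (nv v) : ℝ) : ℂ) ≠ 0 := by exact_mod_cast hL0
  set f := l2_f ι (Finset.cons v S hv) T W with hf
  set φ : Fin (r + 1) → MonoidAlgebra ℤ G := fun j => f (b₁ j) with hφd
  -- the matrices of logarithms
  set N : (G →* ℂˣ) → Matrix (Fin (r + 1)) (Fin (r + 1)) ℂ := fun χ =>
    (wmat ι (Finset.cons v S hv) T (Fin.snoc (α := fun _ => Pl H) w (Sum.inr W)) b₁).map (evR χ) with hN
  have hNdet : ∀ χ, evR χ (wmat ι (Finset.cons v S hv) T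
      (Fin.snoc (α := fun _ => Pl H) w (Sum.inr W)) b₁).det = (N χ).det := by
    intro χ
    exact RingHom.map_det (evR χ : MonoidAlgebra ℝ G →+* ℂ) _
  have hNlast : ∀ χ j, N χ (Fin.last r) j = (-(Real.log (nv v) : ℝ) : ℂ) * evZ χ (φ j) := by
    intro χ j
    have h1 := l2_evR_wl (ι := ι) (S := Finset.cons v S hv) (T := T) χ W (b₁ j)
    rw [hlog] at h1
    show evR χ (wl ι (Finset.cons v S hv) T
      (Fin.snoc (α := fun _ => Pl H) w (Sum.inr W) (Fin.last r)) (b₁ j)) = _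
    rw [Fin.snoc_last]
    exact h1
  have hdetne : ∀ χ, Fth P χ → (N χ).det ≠ 0 := by
    intro χ hχ h0
    have h1 := hcore.value χ hχ
    rw [hNdet, h0, mul_zero] at h1
    exact hne₁ χ⁻¹ (fth_inv hχ) h1.symm
  obtain ⟨χ₀, hχ₀⟩ := fth_exists hC
  obtain ⟨j₀, hj₀⟩ : ∃ j₀, evZ χ₀ (φ j₀) ≠ 0 := by
    by_contra hc
    push Not at hc
    apply hdetne χ₀ hχ₀
    apply Matrix.det_eq_zero_of_row_eq_zero (Fin.last r)
    intro j
    rw [hNlast, hc j, mul_zero]
  have hφ : ∀ χ : G →* ℂˣ, Fth P χ → evZ χ (φ j₀) ≠ 0 := fun χ hχ => fth_conj hC _ hχ₀ hχ hj₀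
  -- the new elements
  set y : Fin r → UM ι (Finset.cons v S hv) T := fun j =>
    φ j₀ • b₁ (j₀.succAbove j) - φ (j₀.succAbove j) • b₁ j₀ with hy
  have hyf : ∀ j, f (y j) = 0 := by
    intro j
    rw [hy]
    simp only [map_sub, map_smul, smul_eq_mul]
    show φ j₀ * φ (j₀.succAbove j) - φ (j₀.succAbove j) * φ j₀ = 0
    ring
  have hyex : ∀ j, ∃ u' : UM ι S T, l2_inc ι T hv u' = y j := fun j => l2_mem_range hv hW (y j) (hyf j)
  choose b hb using hyex
  set s := r + (j₀ : ℕ) with hs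
  obtain ⟨z, hz1, hz2⟩ := div_exists_nP (P := P) ((-1) ^ (s + 1) * (x₁ * toQ G (φ j₀))) (toQ G (φ j₀ ^ r))
    (fun χ hχ => by
      rw [l2_evQ_toQ, map_pow]
      exact pow_ne_zero r (hφ χ hχ))
  have hz3 : ∀ χ : G →* ℂˣ, Fth P χ → evQ χ z * evZ χ (φ j₀) ^ r =
      (-1) ^ (s + 1) * (evQ χ x₁ * evZ χ (φ j₀)) := by
    intro χ hχ
    have h1 := hz2 χ hχ
    rw [l2_evQ_toQ, map_pow, map_mul, map_mul, map_pow, map_neg, map_one, l2_evQ_toQ] at h1
    exact h1
  refine ⟨fun χ => c₁ χ / (Real.log (nv v) : ℂ), leadf_split hv hfr hc₁,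
    fun χ hχ => div_ne_zero (hne₁ χ hχ) hL0', b, z, ⟨?_, hz1, ?_⟩, ?_⟩
  · -- norm zero
    intro j
    apply l2_inc_inj (S := S) (ι := ι) (T := T) hv
    rw [map_smul, hb, map_zero, hy]
    simp only
    rw [smul_sub, smul_comm, hcore.minus, smul_zero, smul_comm (nP P), hcore.minus, smul_zero,
      sub_zero]
  · -- the value
    intro χ hχ
    have hwl : ∀ (i : Fin r) (j : Fin r), evR χ (wl ι S T (w i) (b j)) =
        evZ χ (φ j₀) * N χ i.castSucc (j₀.succAbove j) - evZ χ (φ (j₀.succAbove j)) * N χ i.castSucc j₀ := by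
      intro i j
      have h1 : wl ι S T (w i) (b j) = wl ι (Finset.cons v S hv) T (w i) (y j) := by
        rw [← hb j]
        rfl
      have h2 : ∀ k, N χ i.castSucc k = evR χ (wl ι (Finset.cons v S hv) T (w i) (b₁ k)) := by
        intro k
        show evR χ (wl ι (Finset.cons v S hv) T
          (Fin.snoc (α := fun _ => Pl H) w (Sum.inr W) i.castSucc) (b₁ k)) = _
        rw [Fin.snoc_castSucc]
      have h3 : ∀ (a : MonoidAlgebra ℤ G) (q : MonoidAlgebra ℝ G), evR χ (a • q) = evZ χ a * evR χ q := by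
        intro a q
        have h4 : a • q = toR G a * q := rfl
        rw [h4, map_mul, l2_evR_toR]
      rw [h1, h2, h2, hy]
      simp only [map_sub, map_smul, h3]
    have hdet : evR χ (wmat ι S T w b).det = (Matrix.of fun i j : Fin r =>
        evZ χ (φ j₀) * N χ i.castSucc (j₀.succAbove j) -
          evZ χ (φ (j₀.succAbove j)) * N χ i.castSucc j₀).det := by
      have h1 := RingHom.map_det (evR χ : MonoidAlgebra ℝ G →+* ℂ) (wmat ι S T w b)
      refine h1.trans ?_
      congr 1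
      ext i j
      exact hwl i j
    have halg := l2_alg (N χ) (-(Real.log (nv v) : ℝ) : ℂ) (fun j => evZ χ (φ j)) j₀ (hNlast χ)
    rw [← hdet] at halg
    have hval := hcore.value χ hχ
    rw [hNdet] at hval
    have h5 := hz3 χ hχ
    have hφr : evZ χ (φ j₀) ^ r ≠ 0 := pow_ne_zero r (hφ χ hχ)
    rw [eq_div_iff hL0']
    apply mul_left_cancel₀ hφr
    generalize evR χ (wmat ι S T w b).det = D at *
    generalize (N χ).det = D₁ at *
    generalize evZ χ (φ j₀) = a at *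
    generalize evQ χ z = z' at *
    generalize evQ χ x₁ = x' at *
    generalize ((Real.log (nv v) : ℝ) : ℂ) = L at *
    rw [pow_succ] at h5
    linear_combination D * L * h5 + x' * halg + a ^ r * hval
  · -- integrality
    intro ψ
    have hext : ∀ i, ∃ ψ₁ : UM ι (Finset.cons v S hv) T →ₗ[MonoidAlgebra ℤ G] MonoidAlgebra ℤ G,
        ∀ u, ψ₁ (l2_inc ι T hv u) = ψ i u := fun i =>
      ext_lat (l2_inc ι T hv) (l2_inc_inj hv) (fun n u hn hu => l2_sat hv hW n u hn hu) (ψ i)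
    choose ψ₁ hψ₁ using hext
    set ψ' : Fin (r + 1) → (UM ι (Finset.cons v S hv) T →ₗ[MonoidAlgebra ℤ G] MonoidAlgebra ℤ G) :=
      Fin.snoc (α := fun _ => UM ι (Finset.cons v S hv) T →ₗ[MonoidAlgebra ℤ G] MonoidAlgebra ℤ G)
        ψ₁ f with hψ'
    obtain ⟨k, a, hk, ha⟩ := hint ψ'
    refine ⟨k, -a, hk, ?_⟩
    have halg := l2_alg (pmat ψ' b₁) 1 φ j₀ (fun j => by
      show ψ' (Fin.last r) (b₁ j) = 1 * φ j
      rw [hψ', Fin.snoc_last, one_mul])
    have hdet : (Matrix.of fun i j : Fin r => φ j₀ * pmat ψ' b₁ i.castSucc (j₀.succAbove j) -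
        φ (j₀.succAbove j) * pmat ψ' b₁ i.castSucc j₀) = pmat ψ b := by
      ext1 i j
      show φ j₀ * ψ' i.castSucc (b₁ (j₀.succAbove j)) - φ (j₀.succAbove j) * ψ' i.castSucc (b₁ j₀) =
        ψ i (b j)
      rw [hψ', Fin.snoc_castSucc, ← hψ₁ i (b j), hb j, hy]
      simp only [map_sub, map_smul, smul_eq_mul]
    rw [hdet] at halg
    have hkey : z * toQ G (pmat ψ b).det = -(x₁ * toQ G (pmat ψ' b₁).det) := by
      apply evQ_inj
      intro χ
      by_cases hχ : Fth P χ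
      swap
      · rw [map_mul, map_neg, map_mul, (nP_zero_iff z).mp hz1 χ hχ,
          (nP_zero_iff x₁).mp hcore.xminus χ hχ]
        ring
      · have h5 := hz3 χ hχ
        have hφr : evZ χ (φ j₀) ^ r ≠ 0 := pow_ne_zero r (hφ χ hχ)
        have h6 := congrArg (evZ χ) halg
        simp only [map_mul, map_pow, map_neg, map_one] at h6
        rw [map_mul, map_neg, map_mul, l2_evQ_toQ, l2_evQ_toQ]
        apply mul_left_cancel₀ hφr
        rw [pow_succ] at h5
        generalize evZ χ (pmat ψ b).det = D at *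
        generalize evZ χ (pmat ψ' b₁).det = D₁ at *
        generalize evZ χ (φ j₀) = a at *
        linear_combination D * h5 - evQ χ x₁ * h6
    rw [hkey, map_neg, ← ha]
    ring

end MAIN

end Pool.Agent.RS2
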