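import Pool.Agent.Lib_helper35.RS2.Defs2
import Pool.Agent.Lib_helper17.RS.P_RT

/-!
# RS2, block RT2: the residue classes modulo a place of `T`, `G` arbitrary
-/

namespace Pool.Agent.RS2

set_option linter.unusedSectionVars false

open Pool.Agent.RSK
open NumberField NumberField.InfinitePlace NumberField.Units IsDedekindDomain Filter Topology
  Complex

section RT2

variable {G : Type} [CommGroup G] [Fintype G]

/-- multiplication by `q` is the action of `φ` -/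
theorem rt2_mul {N q : ℕ} {φ : G}
    (hN : (1 - MonoidAlgebra.single φ⁻¹ (q : ℤ) : MonoidAlgebra ℤ G) ∣
      MonoidAlgebra.single 1 (N : ℤ)) (g : G) (c : ZMod N) :
    rt_E hN g ((q : ZMod N) * c) = rt_E hN (φ * g) c := by
  obtain ⟨c, rfl⟩ := ZMod.intCast_surjective c
  have e : (q : ZMod N) * (c : ZMod N) = (((q : ℤ) * c : ℤ) : ZMod N) := by push_cast; rfl
  rw [e, rt_E_coe, rt_E_coe, Ideal.Quotient.eq, Ideal.mem_span_singleton]
  refine ⟨- MonoidAlgebra.single (φ * g) c, ?_⟩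
  rw [sub_mul, one_mul, mul_neg, MonoidAlgebra.single_mul_single, inv_mul_cancel_left]
  ring

/-- the functional which detects the component at `g₀ ⟨φ⟩` -/
noncomputable def rt2_rho (N q n : ℕ) (φ g₀ : G) (x : MonoidAlgebra ℤ G) : ZMod N :=
  ∑ k ∈ Finset.range n, (q : ZMod N) ^ k * (x.coeff (g₀ * φ ^ k) : ZMod N)

theorem rt2_rho_mul {N q n : ℕ} {φ g₀ : G} (hφ : φ ^ n = 1) (hq : (q : ZMod N) ^ n = 1)
    (b : MonoidAlgebra ℤ G) :
    rt2_rho N q n φ g₀ ((1 - MonoidAlgebra.single φ⁻¹ (q : ℤ)) * b) = 0 := by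
  have h1 : ∀ k : ℕ, ((1 - MonoidAlgebra.single φ⁻¹ (q : ℤ)) * b).coeff (g₀ * φ ^ k) =
      b.coeff (g₀ * φ ^ k) - q * b.coeff (g₀ * φ ^ (k + 1)) := by
    intro k
    rw [sub_mul, one_mul, MonoidAlgebra.coeff_sub, Finsupp.sub_apply,
      MonoidAlgebra.coeff_single_mul_apply]
    have h2 : (φ⁻¹)⁻¹ * (g₀ * φ ^ k) = g₀ * φ ^ (k + 1) := by
      rw [inv_inv, pow_succ']
      exact mul_left_comm _ _ _
    rw [h2]
  unfold rt2_rho
  have h3 : ∀ k : ℕ, (q : ZMod N) ^ k *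
      ((((1 - MonoidAlgebra.single φ⁻¹ (q : ℤ)) * b).coeff (g₀ * φ ^ k) : ℤ) : ZMod N) =
        (q : ZMod N) ^ k * (b.coeff (g₀ * φ ^ k) : ZMod N) -
          (q : ZMod N) ^ (k + 1) * (b.coeff (g₀ * φ ^ (k + 1)) : ZMod N) := by
    intro k
    rw [h1]
    push_cast
    ring
  rw [Finset.sum_congr rfl (fun k _ => h3 k), Finset.sum_range_sub'
    (fun k => (q : ZMod N) ^ k * (b.coeff (g₀ * φ ^ k) : ZMod N)), hφ, hq, pow_zero, pow_zero,
    sub_self]

theorem rt2_inj {N q n : ℕ} {φ : G} (hn : n = orderOf φ) (hq : (q : ZMod N) ^ n = 1)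
    (hN : (1 - MonoidAlgebra.single φ⁻¹ (q : ℤ) : MonoidAlgebra ℤ G) ∣
      MonoidAlgebra.single 1 (N : ℤ)) {A : Type} [Fintype A] (t : A → G)
    (ht : ∀ a b : A, (t a)⁻¹ * t b ∈ Subgroup.zpowers φ → a = b) (c : A → ZMod N)
    (h : ∑ a, rt_E hN (t a) (c a) = 0) : ∀ a, c a = 0 := by
  classical
  have hφ : φ ^ n = 1 := by rw [hn, pow_orderOf_eq_one]
  have h1 : ∀ a, ∃ k : ℤ, (k : ZMod N) = c a := fun a => ZMod.intCast_surjective (c a)
  choose k hk using h1
  have h2 : ∑ a, rt_E hN (t a) (c a) = Ideal.Quotient.mk (Ideal.span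
      {(1 - MonoidAlgebra.single φ⁻¹ (q : ℤ) : MonoidAlgebra ℤ G)})
      (∑ a, MonoidAlgebra.single (t a) (k a)) := by
    rw [map_sum]
    refine Finset.sum_congr rfl fun a _ => ?_
    rw [← hk a, rt_E_coe]
  rw [h2, Ideal.Quotient.eq_zero_iff_mem, Ideal.mem_span_singleton] at h
  obtain ⟨b, hb⟩ := h
  intro a
  have h3 := congrArg (rt2_rho N q n φ (t a)) hb
  rw [rt2_rho_mul hφ hq] at h3
  rw [← hk a, ← h3]
  unfold rt2_rho
  have hpos : 0 < n := by rw [hn]; exact orderOf_pos φ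
  rw [Finset.sum_eq_single 0]
  · rw [pow_zero, one_mul, pow_zero, mul_one]
    congr 1
    rw [MonoidAlgebra.coeff_sum, Finsupp.finsetSum_apply, Finset.sum_eq_single a]
    · rw [MonoidAlgebra.coeff_single, Finsupp.single_eq_same]
    · intro a' _ ha'
      rw [MonoidAlgebra.coeff_single, Finsupp.single_apply, if_neg]
      intro h4
      refine ha' (ht a' a ?_)
      rw [h4, inv_mul_cancel]
      exact Subgroup.one_mem _
    · intro h4
      exact absurd (Finset.mem_univ _) h4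
  · intro i hi hi0
    have h5 : (∑ a, MonoidAlgebra.single (t a) (k a) : MonoidAlgebra ℤ G).coeff (t a * φ ^ i) = 0 := by
      rw [MonoidAlgebra.coeff_sum, Finsupp.finsetSum_apply]
      refine Finset.sum_eq_zero fun a' _ => ?_
      rw [MonoidAlgebra.coeff_single, Finsupp.single_apply, if_neg]
      intro h4
      have h6 : a = a' := by
        refine ht a a' ?_
        rw [h4, inv_mul_cancel_left]
        exact Subgroup.pow_mem _ (Subgroup.mem_zpowers φ) i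
      subst h6
      have h7 : φ ^ i = 1 := by
        have h8 := h4.symm
        rwa [mul_eq_left] at h8
      have h9 : orderOf φ ∣ i := orderOf_dvd_of_pow_eq_one h7
      rw [Finset.mem_range, hn] at hi
      exact hi0 (Nat.eq_zero_of_dvd_of_lt h9 hi)
    rw [h5, Int.cast_zero, mul_zero]
  · intro h4
    exact absurd (Finset.mem_range.2 hpos) h4

end RT2

section GEN

variable {F H : Type} [Field F] [NumberField F] [Field H] [NumberField H] [Algebra F H]
  [IsGalois F H] {G : Type} [CommGroup G] [Fintype G] {ι : G ≃* (H ≃ₐ[F] H)}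
  {S T : Finset (HeightOneSpectrum (𝓞 F))}

theorem res_T2 {v : HeightOneSpectrum (𝓞 F)} {φ : G} (hφ : IsFr v (ι φ)) (hv : v ∉ T)
    (hvS : v ∉ S) :
    ∃ f : UM ι S T →ₗ[MonoidAlgebra ℤ G] (MonoidAlgebra ℤ G ⧸ Ideal.span
        {(1 - MonoidAlgebra.single φ⁻¹ (nv v : ℤ) : MonoidAlgebra ℤ G)}),
      ∀ u, f u = 0 ↔ u.val ∈ Un (ovr H S) (ovr H (Finset.cons v T hv)) := by
  classical
  obtain ⟨W₀, hW₀⟩ := rt_dn_surj (H := H) v
  have h2 : 2 ≤ nv v := nv_two_le v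
  set n : ℕ := orderOf φ with hn
  have hn0 : n ≠ 0 := (orderOf_pos φ).ne'
  have hpow : φ ^ n = 1 := pow_orderOf_eq_one φ
  set N : ℕ := nv v ^ n - 1 with hNd
  have hN0 : 0 < N := by
    have := Nat.one_lt_pow hn0 (by omega : 1 < nv v)
    omega
  obtain ⟨L, hL⟩ := rt_dlog W₀ hN0 (rt_exp hW₀ hφ hpow)
  have hN : (1 - MonoidAlgebra.single φ⁻¹ (nv v : ℤ) : MonoidAlgebra ℤ G) ∣
      MonoidAlgebra.single 1 (N : ℤ) := by
    have h1 := sub_dvd_pow_sub_pow (1 : MonoidAlgebra ℤ G)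
      (MonoidAlgebra.single φ⁻¹ (nv v : ℤ)) n
    rw [MonoidAlgebra.single_pow, inv_pow, hpow, inv_one, one_pow] at h1
    have h3 : (MonoidAlgebra.single 1 (N : ℤ) : MonoidAlgebra ℤ G) =
        - (1 - MonoidAlgebra.single 1 ((nv v : ℤ) ^ n)) := by
      rw [hNd, Nat.cast_sub (Nat.one_le_pow _ _ (by omega)), MonoidAlgebra.single_sub,
        MonoidAlgebra.one_def, Nat.cast_pow, Nat.cast_one]
      ring
    rw [h3]
    exact (dvd_neg).2 h1
  have hq : (nv v : ZMod N) ^ n = 1 := by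
    have h1 : ((nv v ^ n - 1 : ℕ) : ZMod N) = 0 := ZMod.natCast_self _
    rw [Nat.cast_sub (Nat.one_le_pow _ _ (by omega)), Nat.cast_pow, Nat.cast_one, sub_eq_zero] at h1
    exact h1
  -- the term at `g`
  set τ : G → UM ι S T → (MonoidAlgebra ℤ G ⧸ Ideal.span
        {(1 - MonoidAlgebra.single φ⁻¹ (nv v : ℤ) : MonoidAlgebra ℤ G)}) :=
    fun g u => rt_E hN g (rt_A hvS hW₀ L g⁻¹ u) with hτ
  have hτφ : ∀ g u, τ (φ * g) u = τ g u := by
    intro g u
    rw [hτ]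
    beta_reduce
    rw [← rt2_mul hN, ← rt_A_fr hvS hW₀ L _ hφ, mul_inv_rev, mul_comm g⁻¹ φ⁻¹, mul_inv_cancel_left]
  have hτz : ∀ (k : ℤ) g u, τ (φ ^ k * g) u = τ g u := by
    intro k g u
    induction k with
    | zero => rw [zpow_zero, one_mul]
    | succ k ih => rw [zpow_add_one, mul_comm (φ ^ (k : ℤ)) φ, mul_assoc, hτφ, ih]
    | pred k ih => rw [← ih, ← hτφ, ← mul_assoc, mul_comm φ, ← zpow_add_one, sub_add_cancel]
  set C := G ⧸ Subgroup.zpowers φ with hC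
  have hfin : Fintype C := Fintype.ofFinite C
  set t : C → G := Quotient.out with ht
  have htm : ∀ c : C, (QuotientGroup.mk (t c) : C) = c := fun c => Quotient.out_eq' c
  have hτc : ∀ g g' u, (QuotientGroup.mk g : C) = QuotientGroup.mk g' → τ g u = τ g' u := by
    intro g g' u h
    rw [QuotientGroup.eq] at h
    obtain ⟨k, hk⟩ := Subgroup.mem_zpowers_iff.1 h
    have h1 : g' = φ ^ k * g := by rw [hk, mul_comm g⁻¹, inv_mul_cancel_right]
    rw [h1, hτz]
  have hτs : ∀ (h g : G) (u : UM ι S T), τ g (MonoidAlgebra.single h (1 : ℤ) • u) =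
      (MonoidAlgebra.single h (1 : ℤ) : MonoidAlgebra ℤ G) • τ (h⁻¹ * g) u := by
    intro h g u
    rw [hτ]
    beta_reduce
    rw [rt_A_smul, rt_E_smul, mul_inv_cancel_left, mul_inv_rev, inv_inv]
  set f₀ : UM ι S T →+ (MonoidAlgebra ℤ G ⧸ Ideal.span
        {(1 - MonoidAlgebra.single φ⁻¹ (nv v : ℤ) : MonoidAlgebra ℤ G)}) :=
    ∑ c : C, (rt_E hN (t c)).comp (rt_A hvS hW₀ L (t c)⁻¹) with hf₀
  have hf₀a : ∀ u, f₀ u = ∑ c : C, τ (t c) u := by
    intro u
    rw [hf₀, AddMonoidHom.finsetSum_apply]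
    rfl
  obtain ⟨f, hf⟩ := rt_lin f₀ (by
    intro h u
    rw [hf₀a, hf₀a, Finset.smul_sum]
    have h1 : ∀ c : C, τ (t c) (MonoidAlgebra.single h (1 : ℤ) • u) =
        (MonoidAlgebra.single h (1 : ℤ) : MonoidAlgebra ℤ G) •
          τ (t ((QuotientGroup.mk h⁻¹ : C) * c)) u := by
      intro c
      rw [hτs, hτc (h⁻¹ * t c) (t ((QuotientGroup.mk h⁻¹ : C) * c)) u]
      rw [htm, QuotientGroup.mk_mul, htm]
    rw [Finset.sum_congr rfl (fun c _ => h1 c)]
    exact Equiv.sum_comp (Equiv.mulLeft (QuotientGroup.mk h⁻¹ : C))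
      (fun c => (MonoidAlgebra.single h (1 : ℤ) : MonoidAlgebra ℤ G) • τ (t c) u))
  refine ⟨f, fun u => ?_⟩
  rw [hf, hf₀a, rt_mem_un, rt_all (ι := ι) hW₀]
  have hA : ∀ (k : ℕ) (g : G) (u : UM ι S T), rt_A hvS hW₀ L (φ ^ k * g) u =
      (nv v : ZMod N) ^ k * rt_A hvS hW₀ L g u := by
    intro k g u
    induction k with
    | zero => rw [pow_zero, pow_zero, one_mul, one_mul]
    | succ k ih => rw [pow_succ', mul_assoc, rt_A_fr hvS hW₀ L _ hφ, ih, pow_succ', mul_assoc]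
  constructor
  · intro h g
    refine (rt_A_zero hvS hW₀ L hL g u).1 ?_
    have h1 := rt2_inj hn hq hN t (fun a b hab => by
      rw [← QuotientGroup.eq, htm, htm] at hab
      exact hab) (fun c => rt_A hvS hW₀ L (t c)⁻¹ u) h
    -- `g⁻¹` lies in the coset of `t c`
    have h3 : (QuotientGroup.mk (t (QuotientGroup.mk g⁻¹)) : C) = QuotientGroup.mk g⁻¹ := htm _
    rw [QuotientGroup.eq] at h3
    obtain ⟨k, hk⟩ := (Submonoid.mem_powers_iff _ _).1 (mem_powers_iff_mem_zpowers.mpr h3)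
    have h4 := h1 (QuotientGroup.mk g⁻¹)
    have h5 : (t (QuotientGroup.mk g⁻¹ : C))⁻¹ = φ ^ k * g := by
      rw [hk, inv_mul_cancel_right]
    beta_reduce at h4
    rw [h5, hA] at h4
    have hunit : IsUnit ((nv v : ZMod N) ^ k) := by
      have h6 : IsUnit (nv v : ZMod N) := IsUnit.of_pow_eq_one hq hn0
      exact h6.pow k
    exact (hunit.mul_right_eq_zero).1 h4
  · intro h
    refine Finset.sum_eq_zero fun c _ => ?_
    rw [hτ]
    beta_reduce
    rw [(rt_A_zero hvS hW₀ L hL (t c)⁻¹ u).2 (h _), map_zero]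

end GEN

end Pool.Agent.RS2
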