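import Pool.Agent.Lib_helper35.RS2.P_LF
import Pool.Agent.Lib_helper35.RS2.P_RT2
import Pool.Agent.Lib_helper17.RS.P_L3
import Pool.Agent.Lib_helper17.RS.P_L4

/-!
# RS2, block LC3: adding a place to `T` and removing a place from `T`
-/

namespace Pool.Agent.RS2

set_option linter.unusedSectionVars false

open Pool.Agent.RSK
open NumberField NumberField.InfinitePlace NumberField.Units IsDedekindDomain Filter Topology
  Complex

section LC3a

variable {G : Type} [CommGroup G] [Fintype G]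

theorem lc3_geom (g : G) (q : ℤ) :
    (1 - MonoidAlgebra.single g q) * ∑ i ∈ Finset.range (Nat.card G), (MonoidAlgebra.single g q) ^ i =
      MonoidAlgebra.single 1 (1 - q ^ Nat.card G) := by
  rw [mul_neg_geom_sum, MonoidAlgebra.single_pow, pow_card_eq_one', MonoidAlgebra.single_sub,
    ← MonoidAlgebra.one_def]

theorem lc3_pow_ne {n q : ℕ} (hn : n ≠ 0) (hq : 2 ≤ q) : (1 - (q : ℤ) ^ n) ≠ 0 := by
  have h1 : (1 : ℤ) < (q : ℤ) ^ n := by
    apply one_lt_pow₀ _ hn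
    exact_mod_cast hq
  omega

/-- `1 - g q` is not a zero divisor -/
theorem lc3_nzd (g : G) {q : ℕ} (hq : 2 ≤ q)
    (a : MonoidAlgebra ℤ G) (ha : (1 - MonoidAlgebra.single g (q : ℤ)) * a = 0) : a = 0 := by
  have h1 : (1 - (q : ℤ) ^ Nat.card G) • a = 0 := by
    rw [← l3_scal_mul, ← lc3_geom g (q : ℤ)]
    linear_combination (∑ i ∈ Finset.range (Nat.card G), (MonoidAlgebra.single g (q : ℤ)) ^ i) * ha
  exact (smul_eq_zero.1 h1).resolve_left (lc3_pow_ne (Nat.card_pos (α := G)).ne' hq)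

end LC3a

section LC3b

variable {F H : Type} [Field F] [NumberField F] [Field H] [NumberField H] [Algebra F H]
  [IsGalois F H] {G : Type} [CommGroup G] [Fintype G] {p j : ℕ} {P : Subgroup G}
  {ι : G ≃* (H ≃ₐ[F] H)} {S T : Finset (HeightOneSpectrum (𝓞 F))} {r : ℕ} {w : Fin r → Pl H}
  {fr : HeightOneSpectrum (𝓞 F) → G}

theorem lc_addT2 (hC : CycP p j P) (hD : Data ι S T r w fr) {l : ℕ} (hl : l.Prime)
    {v : HeightOneSpectrum (𝓞 F)} (hv : v ∉ T) (hvS : v ∉ S)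
    (h : LCore2 ι S T P w fr l) : LCore2 ι S (Finset.cons v T hv) P w fr l := by
  obtain ⟨c, hc, hne, b, x, hco, hint⟩ := h
  have hfin := um_finite hD
  have htf := um_tf hD
  have hq := nv_two_le v
  set δ : MonoidAlgebra ℤ G := 1 - MonoidAlgebra.single (fr v)⁻¹ (nv v : ℤ) with hδ
  have hres : ∃ f : UM ι S T →ₗ[MonoidAlgebra ℤ G] (MonoidAlgebra ℤ G ⧸ Ideal.span {δ}),
      ∀ u, f u = 0 ↔ u.val ∈ Un (ovr H S) (ovr H (Finset.cons v T hv)) :=
    res_T2 (hD.frob v hvS) hv hvS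
  obtain ⟨f, hf⟩ := hres
  set n : ℤ := 1 - (nv v : ℤ) ^ Nat.card G with hn
  have hn0 : n ≠ 0 := lc3_pow_ne (Nat.card_pos (α := G)).ne' hq
  have hnQ : (n : ℚ) ≠ 0 := by exact_mod_cast hn0
  have hnC : (n : ℂ) ≠ 0 := by exact_mod_cast hn0
  have hmem : ∀ u : UM ι S T, (n • u).val ∈ Un (ovr H S) (ovr H (Finset.cons v T hv)) := by
    intro u
    rw [← hf]
    have h1 : n • u = (MonoidAlgebra.single (1 : G) n) • u := by
      have h2 : MonoidAlgebra.single (1 : G) n = n • (1 : MonoidAlgebra ℤ G) := by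
        rw [MonoidAlgebra.one_def, MonoidAlgebra.smul_single]
        simp
      rw [h2, smul_assoc, one_smul]
    rw [h1, map_smul, hn, ← lc3_geom (fr v)⁻¹ (nv v : ℤ)]
    obtain ⟨a, ha⟩ := Ideal.Quotient.mk_surjective (f u)
    rw [← ha]
    show Ideal.Quotient.mk (Ideal.span {δ}) (δ * _ * a) = 0
    rw [Ideal.Quotient.eq_zero_iff_mem, mul_assoc]
    exact Ideal.mul_mem_right _ _ (Ideal.mem_span_singleton_self δ)
  let b' : Fin r → UM ι S (Finset.cons v T hv) := fun j => UM.mk (n • b j).val (hmem (b j))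
  have hb' : ∀ j, l3_inc ι S T hv (b' j) = n • b j := fun j => UM.ext rfl
  let x' : MonoidAlgebra ℚ G := MonoidAlgebra.single 1 (((n : ℚ) ^ r)⁻¹) * (x * toQ G δ)
  have hw : wmat ι S (Finset.cons v T hv) w b' =
      (algebraMap ℝ (MonoidAlgebra ℝ G) (n : ℝ)) • wmat ι S T w b := by
    ext1 i j
    show wl ι S (Finset.cons v T hv) (w i) (b' j) =
      algebraMap ℝ (MonoidAlgebra ℝ G) (n : ℝ) * wl ι S T (w i) (b j)
    rw [l3_wl, hb', map_zsmul, ← Algebra.smul_def, Int.cast_smul_eq_zsmul]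
  refine ⟨fun χ => (1 - (χ (fr v) : ℂ) * (nv v : ℂ)) * c χ, leadf_addT hv hc,
    fun χ hχ => mul_ne_zero (l3_ne χ (fr v) hq) (hne χ hχ), b', x',
    ⟨fun j => ?_, ?_, fun χ hχ => ?_⟩, fun ψ => ?_⟩
  · apply l3_inc_inj hv
    rw [map_smul, hb', smul_comm, hco.minus j, smul_zero, map_zero]
  · show toQ G (nP P) * (MonoidAlgebra.single 1 (((n : ℚ) ^ r)⁻¹) * (x * toQ G δ)) = 0
    have h1 := hco.xminus
    calc _ = MonoidAlgebra.single 1 (((n : ℚ) ^ r)⁻¹) * toQ G δ * (toQ G (nP P) * x) := by ring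
      _ = 0 := by rw [h1, mul_zero]
  · show evQ χ (MonoidAlgebra.single 1 (((n : ℚ) ^ r)⁻¹) * (x * toQ G δ)) *
      evR χ (wmat ι S (Finset.cons v T hv) w b').det =
        (1 - ((χ⁻¹ (fr v) : ℂˣ) : ℂ) * (nv v : ℂ)) * c χ⁻¹
    have h1 : evQ χ (toQ G δ) = 1 - ((χ⁻¹ (fr v) : ℂˣ) : ℂ) * (nv v : ℂ) := by
      rw [hδ, map_sub, map_sub, map_one, map_one, l3_toQ_single, l3_evQ_single, map_inv]
      push_cast
      have : (((χ (fr v))⁻¹ : ℂˣ) : ℂ) = ((χ⁻¹ (fr v) : ℂˣ) : ℂ) := rfl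
      rw [← this]
      push_cast
      ring
    rw [hw, Matrix.det_smul, Fintype.card_fin, map_mul, map_mul, map_mul, map_pow, l3_evQ_single,
      h1, ← hco.value χ hχ, AlgHom.commutes, map_one, Units.val_one]
    have h2 : algebraMap ℝ ℂ (n : ℝ) = (n : ℂ) := by simp
    rw [h2]
    push_cast
    have h5 : ((n : ℂ) ^ r)⁻¹ * (n : ℂ) ^ r = 1 := inv_mul_cancel₀ (pow_ne_zero _ hnC)
    linear_combination (evQ χ x * evR χ (wmat ι S T w b).det *
      (1 - ((χ⁻¹ (fr v) : ℂˣ) : ℂ) * (nv v : ℂ))) * h5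
  · obtain ⟨a, ψ₁, hψ⟩ := ext_T (fun a ha => lc3_nzd (fr v)⁻¹ hq a ha) f
      (l3_inc ι S T hv) (l3_inc_inj hv) (fun u => (hf u).trans (l3_inc_range hv u).symm) ψ b n hn0
      b' hb'
    choose k d hk hkd using fun t : Option (Fin r) => hint (ψ₁ t)
    refine ⟨∏ t, k t, ∑ t, a t * MonoidAlgebra.single 1 ((∏ s ∈ Finset.univ.erase t, k s : ℕ) : ℤ) *
      d t, ?_, ?_⟩
    · rw [hl.prime.dvd_finsetProd_iff]
      rintro ⟨t, _, ht⟩
      exact hk t ht
    · have e1 : x' * toQ G (pmat ψ b').det = ∑ t, toQ G (a t) * (x * toQ G (pmat (ψ₁ t) b).det) := by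
        have h3 : toQ G (δ * (pmat ψ b').det) =
            toQ G (n ^ r • ∑ t, a t * (pmat (ψ₁ t) b).det) := congrArg (toQ G) hψ
        rw [map_mul, map_zsmul, map_sum] at h3
        show MonoidAlgebra.single 1 (((n : ℚ) ^ r)⁻¹) * (x * toQ G δ) * toQ G (pmat ψ b').det = _
        have h4 : MonoidAlgebra.single (1 : G) (((n : ℚ) ^ r)⁻¹) *
            MonoidAlgebra.single (1 : G) ((n : ℚ) ^ r) = 1 := by
          rw [MonoidAlgebra.single_mul_single, one_mul,
            inv_mul_cancel₀ (pow_ne_zero _ hnQ)]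
          rfl
        have h5 : (n ^ r) • ∑ t, toQ G (a t * (pmat (ψ₁ t) b).det) =
            MonoidAlgebra.single (1 : G) ((n : ℚ) ^ r) * ∑ t, toQ G (a t * (pmat (ψ₁ t) b).det) := by
          have h6 : MonoidAlgebra.single (1 : G) ((n : ℚ) ^ r) =
              (n ^ r) • (1 : MonoidAlgebra ℚ G) := by
            rw [MonoidAlgebra.one_def, MonoidAlgebra.smul_single]
            simp
          rw [h6, smul_mul_assoc, one_mul]
        rw [h5] at h3
        calc _ = MonoidAlgebra.single 1 (((n : ℚ) ^ r)⁻¹) * x *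
              (toQ G δ * toQ G (pmat ψ b').det) := by ring
          _ = (MonoidAlgebra.single (1 : G) (((n : ℚ) ^ r)⁻¹) *
              MonoidAlgebra.single (1 : G) ((n : ℚ) ^ r)) * x *
                ∑ t, toQ G (a t * (pmat (ψ₁ t) b).det) := by rw [h3]; ring
          _ = ∑ t, toQ G (a t) * (x * toQ G (pmat (ψ₁ t) b).det) := by
            rw [h4, one_mul, Finset.mul_sum]
            refine Finset.sum_congr rfl fun t _ => ?_
            rw [map_mul]
            ring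
      rw [e1, Finset.mul_sum, map_sum]
      refine Finset.sum_congr rfl fun t _ => ?_
      rw [map_mul, map_mul, ← hkd t, l3_toQ_single, ← Finset.mul_prod_erase _ _ (Finset.mem_univ t)]
      have e2 : MonoidAlgebra.single (1 : G) ((k t * ∏ s ∈ Finset.univ.erase t, k s : ℕ) : ℚ) =
          MonoidAlgebra.single (1 : G) (k t : ℚ) *
            MonoidAlgebra.single (1 : G) (((∏ s ∈ Finset.univ.erase t, k s : ℕ) : ℤ) : ℚ) := by
        rw [MonoidAlgebra.single_mul_single, one_mul]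
        push_cast
        rfl
      rw [e2]
      ring

theorem lc4_ev_h {χ : G →* ℂˣ} {g : G} {n : ℕ} (hn : g ^ n = 1) (hχ : χ g ≠ 1) (q : ℕ) :
    evQ χ (toQ G (l4_h n q g)) * (1 - (χ g⁻¹ : ℂ) * (q : ℂ)) =
      ∑ i ∈ Finset.range n, (q : ℂ) ^ i := by
  have h1 : (χ g⁻¹ : ℂ) ≠ 1 := by
    intro h
    have h2 : χ g⁻¹ = 1 := Units.ext h
    rw [map_inv] at h2
    exact hχ (inv_eq_one.1 h2)
  have h2 : ((χ g⁻¹ : ℂˣ) : ℂ) ^ n = 1 := by
    rw [← Units.val_pow_eq_pow_val, ← map_pow, inv_pow, hn, inv_one, map_one, Units.val_one]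
  rw [← l4_geom h1 h2]
  congr 1
  unfold l4_h
  rw [map_neg, map_neg, map_sum, map_sum]
  congr 1
  refine Finset.sum_congr rfl fun i _ => ?_
  rw [l4_ev_single, map_pow, Units.val_pow_eq_pow_val]
  push_cast
  ring

theorem lc4_mod {l q n : ℕ} (hq : 1 ≤ q) (h : l ∣ q - 1) :
    ∑ i ∈ Finset.range n, q ^ i ≡ n [MOD l] := by
  have h1 : q ≡ 1 [MOD l] := by
    rw [Nat.ModEq.comm]
    exact (Nat.modEq_iff_dvd' hq).2 h
  induction n with
  | zero => exact Nat.ModEq.refl _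
  | succ n ih =>
    rw [Finset.sum_range_succ]
    refine Nat.ModEq.add ih ?_
    have h2 := h1.pow n
    rwa [one_pow] at h2

theorem lc_rmT2 (hC : CycP p j P) (hD : Data ι S T r w fr) {l : ℕ} (hl : l.Prime) (hlp : l ≠ p)
    {v : HeightOneSpectrum (𝓞 F)} (hv : v ∉ T) (hvS : v ∉ S) (hfr : fr v ≠ 1)
    (hlv : l ∣ nv v - 1) (h : LCore2 ι S (Finset.cons v T hv) P w fr l) :
    LCore2 ι S T P w fr l := by
  obtain ⟨c, hc, hc0, b, x, hx, hint⟩ := h
  have hTT : T ⊆ Finset.cons v T hv := Finset.subset_cons hv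
  have hgn : (fr v) ^ (p ^ j) = 1 := by rw [← hC.card]; exact pow_card_eq_one'
  set N : ℕ := ∑ i ∈ Finset.range (p ^ j), nv v ^ i with hN
  have hlN : ¬ l ∣ N := by
    intro h1
    have h2 := lc4_mod (n := p ^ j) (by have := nv_two_le v; omega : 1 ≤ nv v) hlv
    have h3 : l ∣ p ^ j := (Nat.modEq_zero_iff_dvd).1 (h2.symm.trans ((Nat.modEq_zero_iff_dvd).2 h1))
    exact hlp ((Nat.prime_dvd_prime_iff_eq hl hC.prime).1 (hl.dvd_of_dvd_pow h3))
  have hN0 : (N : ℂ) ≠ 0 := by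
    have : N ≠ 0 := fun h => hlN (by rw [h]; exact dvd_zero _)
    exact_mod_cast this
  have hN0' : (N : ℚ) ≠ 0 := by exact_mod_cast hN0
  set h := l4_h (p ^ j) (nv v) (fr v) with hh
  have hhv : ∀ χ : G →* ℂˣ, Fth P χ →
      evQ χ (toQ G h) * (1 - (χ⁻¹ (fr v) : ℂ) * (nv v : ℂ)) = N := by
    intro χ hχ
    have h1 := lc4_ev_h hgn (fth_ne hC hχ hfr) (nv v)
    have h2 : (χ⁻¹ (fr v) : ℂ) = (χ (fr v)⁻¹ : ℂ) := by rw [MonoidHom.inv_apply, map_inv]
    rw [h2, h1, hN]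
    push_cast
    rfl
  have hden : ∀ χ : G →* ℂˣ, Fth P χ → (1 - (χ⁻¹ (fr v) : ℂ) * (nv v : ℂ)) ≠ 0 := by
    intro χ hχ h0
    have h1 := hhv χ hχ
    rw [h0, mul_zero] at h1
    exact hN0 h1.symm
  refine ⟨fun χ => c χ / (1 - (χ (fr v) : ℂ) * (nv v : ℂ)), leadf_rmT hv hc, fun χ hχ => ?_,
    fun j => l4_inc ι S hTT (b j), x * (toQ G h * MonoidAlgebra.single 1 ((N : ℚ)⁻¹)), ?_, ?_⟩
  · have h1 := hden χ⁻¹ (fth_inv hχ)
    have h2 : (χ⁻¹)⁻¹ (fr v) = χ (fr v) := by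
      rw [MonoidHom.inv_apply, MonoidHom.inv_apply, inv_inv]
    rw [h2] at h1
    exact div_ne_zero (hc0 χ hχ) h1
  · refine ⟨fun j => ?_, ?_, fun χ hχ => ?_⟩
    · rw [← map_smul, hx.minus j, map_zero]
    · rw [← mul_assoc, hx.xminus, zero_mul]
    · have hw : wmat ι S T w (fun j => l4_inc ι S hTT (b j)) =
          wmat ι S (Finset.cons v T hv) w b := by
        unfold wmat
        ext i j
        rfl
      have hs : evQ χ (MonoidAlgebra.single (1 : G) ((N : ℚ)⁻¹)) = (N : ℂ)⁻¹ := by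
        unfold evQ
        rw [MonoidAlgebra.lift_single, map_one, Rat.smul_def, mul_one]
        push_cast
        rfl
      rw [hw, map_mul, map_mul, hs, mul_right_comm, hx.value χ hχ]
      have h1 := hhv χ hχ
      have h2 := hden χ hχ
      rw [div_eq_mul_inv]
      congr 1
      rw [← h1]
      have h3 : evQ χ (toQ G h) ≠ 0 := by
        intro h0
        rw [h0, zero_mul] at h1
        exact hN0 h1.symm
      field_simp
  · intro ψ
    obtain ⟨k, a, hk, ha⟩ := hint (fun i => (ψ i).comp (l4_inc ι S hTT))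
    refine ⟨k * N, a * h, fun hd => ?_, ?_⟩
    · rcases (Nat.Prime.dvd_mul hl).mp hd with h1 | h1
      · exact hk h1
      · exact hlN h1
    · have hpm : pmat ψ (fun j => l4_inc ι S hTT (b j)) =
          pmat (fun i => (ψ i).comp (l4_inc ι S hTT)) b := by
        unfold pmat
        ext i j
        rfl
      rw [hpm, map_mul, ← ha]
      have h1 : MonoidAlgebra.single (1 : G) ((k * N : ℕ) : ℚ) =
          MonoidAlgebra.single 1 (k : ℚ) * MonoidAlgebra.single 1 (N : ℚ) := by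
        rw [MonoidAlgebra.single_mul_single, one_mul, Nat.cast_mul]
      have h2 : MonoidAlgebra.single (1 : G) (N : ℚ) * MonoidAlgebra.single 1 ((N : ℚ)⁻¹) = 1 := by
        rw [MonoidAlgebra.single_mul_single, one_mul, mul_inv_cancel₀ hN0']
        rfl
      rw [h1]
      calc _ = MonoidAlgebra.single 1 (k : ℚ) * (x * toQ G (pmat (fun i => (ψ i).comp
          (l4_inc ι S hTT)) b).det) * toQ G h *
          (MonoidAlgebra.single (1 : G) (N : ℚ) * MonoidAlgebra.single 1 ((N : ℚ)⁻¹)) := by ring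
        _ = _ := by rw [h2, mul_one]

end LC3b

end Pool.Agent.RS2
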