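import Pool.Agent.Lib_helper35.RS2.P_LC1
import Pool.Agent.Lib_helper35.RS2.P_LC2
import Pool.Agent.Lib_helper35.RS2.P_LC3
import Pool.Agent.Lib_helper17.RS.P_UP1
import Pool.Agent.Lib_helper17.RS.P_DI
import Pool.Agent.Lib_helper17.RS.P_CH

/-!
# RS2, block CH: chains
-/

namespace Pool.Agent.RS2

set_option linter.unusedSectionVars false

open Pool.Agent.RSK
open NumberField NumberField.InfinitePlace NumberField.Units IsDedekindDomain Filter Topology
  Complex

section GEN

variable {F H : Type} [Field F] [NumberField F] [Field H] [NumberField H] [Algebra F H]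
  [IsGalois F H] {G : Type} [CommGroup G] [Fintype G] {p j : ℕ} {P : Subgroup G}
  {ι : G ≃* (H ≃ₐ[F] H)} {S T : Finset (HeightOneSpectrum (𝓞 F))} {r : ℕ} {w : Fin r → Pl H}
  {fr : HeightOneSpectrum (𝓞 F) → G}

theorem chain_S2 (hC : CycP p j P) {l : ℕ} (hl : l.Prime) (hlp : l ≠ p)
    {S₁ T : Finset (HeightOneSpectrum (𝓞 F))} (hd : Disjoint S₁ T)
    (n : ℕ) {S : Finset (HeightOneSpectrum (𝓞 F))} {r : ℕ} {w : Fin r → Pl H}
    (hD : Data ι S T r w fr) (hSS : S ⊆ S₁) (hn : S.card + n = S₁.card)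
    (h : ∀ {r₁ : ℕ} (w₁ : Fin r₁ → Pl H), Data ι S₁ T r₁ w₁ fr →
      Fintype.card (PS S) + r₁ ≤ Fintype.card (PS S₁) + r → LCore2 ι S₁ T P w₁ fr l) :
    LCore2 ι S T P w fr l := by
  induction n generalizing S r with
  | zero =>
    have e : S = S₁ := Finset.eq_of_subset_of_card_le hSS (by omega)
    subst e
    exact h w hD le_rfl
  | succ n ih =>
    obtain ⟨v, hv₁, hv⟩ : ∃ v ∈ S₁, v ∉ S := by
      by_contra hcon
      push_neg at hcon
      have := Finset.card_le_card (show S₁ ⊆ S from hcon)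
      omega
    have hvT : v ∉ T := Finset.disjoint_left.1 hd hv₁
    have hsub : Finset.cons v S hv ⊆ S₁ := by
      intro v' hv'
      rcases Finset.mem_cons.1 hv' with rfl | h'
      · exact hv₁
      · exact hSS h'
    have hcard : (Finset.cons v S hv).card + n = S₁.card := by
      rw [Finset.card_cons]
      omega
    have hPS : Fintype.card (PS (Finset.cons v S hv)) = Fintype.card (PS S) + 1 := by
      rw [ch_card, ch_card, Finset.card_cons]
      omega
    by_cases hfr : fr v = 1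
    · obtain ⟨W, hW⟩ : ∃ W : HeightOneSpectrum (𝓞 H), W.under (𝓞 F) = v := by
        obtain ⟨W, hW⟩ := dn_surj (F := F) (H := H) (Sum.inr v)
        rcases W with W | W
        · exact absurd hW (by simp [dn])
        · exact ⟨W, by simpa [dn] using hW⟩
      refine lc_split2 hC hD hl hv hvT hfr hW ?_
      refine ih (data_split hD hv hvT hfr hW) hsub hcard ?_
      intro r₁ w₁ hD₁ hle
      exact h w₁ hD₁ (by omega)
    · refine lc_non2 hC hD hl hlp hv hvT hfr ?_
      refine ih (data_non hD hv hvT hfr) hsub hcard ?_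
      intro r₁ w₁ hD₁ hle
      exact h w₁ hD₁ (by omega)

/-- adding places to `T` -/
theorem ch_add2 (hC : CycP p j P) {l : ℕ} (hl : l.Prime) (n : ℕ)
    {T₁ T₂ : Finset (HeightOneSpectrum (𝓞 F))} (hT : T₁ ⊆ T₂) (hS : Disjoint S T₂)
    (hn : T₁.card + n = T₂.card) (hD : Data ι S T₁ r w fr) (h : LCore2 ι S T₁ P w fr l) :
    Data ι S T₂ r w fr ∧ LCore2 ι S T₂ P w fr l := by
  induction n generalizing T₁ with
  | zero =>
    have e : T₁ = T₂ := Finset.eq_of_subset_of_card_le hT (by omega)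
    subst e
    exact ⟨hD, h⟩
  | succ n ih =>
    obtain ⟨v, hv₁, hv⟩ : ∃ v ∈ T₂, v ∉ T₁ := by
      by_contra hcon
      push_neg at hcon
      have := Finset.card_le_card (show T₂ ⊆ T₁ from hcon)
      omega
    have hvS : v ∉ S := fun h' => Finset.disjoint_left.1 hS h' hv₁
    have hsub : Finset.cons v T₁ hv ⊆ T₂ := by
      intro v' hv'
      rcases Finset.mem_cons.1 hv' with rfl | h'
      · exact hv₁
      · exact hT h'
    have hcard : (Finset.cons v T₁ hv).card + n = T₂.card := by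
      rw [Finset.card_cons]
      omega
    exact ih hsub hcard (data_T hD hv hvS) (lc_addT2 hC hD hl hv hvS h)

/-- removing places from `T` -/
theorem ch_rm2 (hC : CycP p j P) {l : ℕ} (hl : l.Prime) (hlp : l ≠ p) (n : ℕ)
    {T₁ T₂ : Finset (HeightOneSpectrum (𝓞 F))} (hT : T₁ ⊆ T₂) (hS : Disjoint S T₂)
    (hn : T₁.card + n = T₂.card) (hD : Data ι S T₁ r w fr)
    (hT₁ : ∀ v ∈ T₂, v ∉ T₁ → fr v ≠ 1 ∧ l ∣ nv v - 1)
    (h : LCore2 ι S T₂ P w fr l) : LCore2 ι S T₁ P w fr l := by
  induction n generalizing T₁ with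
  | zero =>
    have e : T₁ = T₂ := Finset.eq_of_subset_of_card_le hT (by omega)
    subst e
    exact h
  | succ n ih =>
    obtain ⟨v, hv₁, hv⟩ : ∃ v ∈ T₂, v ∉ T₁ := by
      by_contra hcon
      push_neg at hcon
      have := Finset.card_le_card (show T₂ ⊆ T₁ from hcon)
      omega
    have hvS : v ∉ S := fun h' => Finset.disjoint_left.1 hS h' hv₁
    have hsub : Finset.cons v T₁ hv ⊆ T₂ := by
      intro v' hv'
      rcases Finset.mem_cons.1 hv' with rfl | h'
      · exact hv₁
      · exact hT h'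
    have hcard : (Finset.cons v T₁ hv).card + n = T₂.card := by
      rw [Finset.card_cons]
      omega
    obtain ⟨h1, h2⟩ := hT₁ v hv₁ hv
    refine lc_rmT2 hC hD hl hlp hv hvS h1 h2 ?_
    refine ih hsub hcard (data_T hD hv hvS) ?_
    intro v' hv' hv''
    exact hT₁ v' hv' (fun h' => hv'' (Finset.mem_cons_of_mem h'))

theorem chain_T2 (hC : CycP p j P) {l : ℕ} (hl : l.Prime) (hlp : l ≠ p)
    {T₁ : Finset (HeightOneSpectrum (𝓞 F))} (hT : Disjoint T T₁)
    (hD : Data ι S T r w fr) (hD₁ : Data ι S T₁ r w fr)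
    (hT₁ : ∀ v ∈ T₁, fr v ≠ 1 ∧ l ∣ nv v - 1)
    (h : LCore2 ι S T₁ P w fr l) : LCore2 ι S T P w fr l := by
  classical
  have hS : Disjoint S (T ∪ T₁) := by
    rw [Finset.disjoint_union_right]
    exact ⟨hD.disj, hD₁.disj⟩
  have hc : (T ∪ T₁).card = T.card + T₁.card := Finset.card_union_of_disjoint hT
  have h2 := (ch_add2 hC hl T.card (Finset.subset_union_right (s₁ := T) (s₂ := T₁)) hS
    (by omega) hD₁ h).2
  refine ch_rm2 hC hl hlp T₁.card (Finset.subset_union_left (s₁ := T) (s₂ := T₁)) hS (by omega) hD ?_ h2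
  intro v hv hv'
  rcases Finset.mem_union.1 hv with h' | h'
  · exact absurd h' hv'
  · exact hT₁ v h'

end GEN

end Pool.Agent.RS2
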