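import Pool.Agent.Lib_helper35.RS2.P_B6
import Pool.Agent.Lib_helper35.RS2.Defs2

/-! RS2, block LE -/

namespace Pool.Agent.RS2

set_option linter.unusedSectionVars false

open Pool.Agent.RSK
open NumberField IsDedekindDomain Filter Topology Complex

theorem le2_card {G : Type} [CommGroup G] [Finite G] (P : Subgroup G) (ψ : P →* ℂˣ) :
    Nat.card {χ : G →* ℂˣ // χ.comp P.subtype = ψ} = Nat.card (G ⧸ P) := by
  have hs : Function.Surjective (MonoidHom.domRestrictHom P ℂˣ) :=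
    MonoidHom.domRestrict_surjective ℂ P
  obtain ⟨χ₀, h₀⟩ := hs ψ
  have h₀' : χ₀.comp P.subtype = ψ := h₀
  rw [← CommGroup.card_domRestrictHom_ker ℂ P]
  refine Nat.card_congr
    { toFun := fun χ => ⟨χ.1 * χ₀⁻¹, ?_⟩
      invFun := fun χ => ⟨χ.1 * χ₀, ?_⟩
      left_inv := fun χ => Subtype.ext (by simp)
      right_inv := fun χ => Subtype.ext (mul_inv_cancel_right _ _) }
  · rw [MonoidHom.mem_ker, map_mul, map_inv, h₀]
    have : MonoidHom.domRestrictHom P ℂˣ χ.1 = ψ := χ.2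
    rw [this, mul_inv_cancel]
  · have h1 : MonoidHom.domRestrictHom P ℂˣ (χ.1 * χ₀) = ψ := by
      rw [map_mul, h₀, MonoidHom.mem_ker.1 χ.2, one_mul]
    exact h1

theorem le2_mero {ι : Type} (s : Finset ι) (f : ι → ℂ → ℂ)
    (h : ∀ i ∈ s, MeromorphicOn (f i) Set.univ) :
    MeromorphicOn (fun z => ∏ i ∈ s, f i z) Set.univ := by
  classical
  induction s using Finset.induction_on with
  | empty =>
    simp only [Finset.prod_empty]
    exact MeromorphicOn.const 1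
  | insert a s ha ih =>
    have h1 := (h a (Finset.mem_insert_self _ _)).mul
      (ih fun i hi => h i (Finset.mem_insert_of_mem hi))
    refine (MeromorphicOn.congr (f := f a * fun z => ∏ i ∈ s, f i z) h1 ?_ ?_)
    · intro z _
      simp only [Pi.mul_apply]
      rw [Finset.prod_insert ha]
    · exact isOpen_univ

section LAY

variable {F E H : Type} [Field F] [NumberField F] [Field E] [NumberField E] [Field H]
  [NumberField H] [Algebra F E] [Algebra F H] [Algebra E H] [IsScalarTower F E H]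
  [IsGalois F H] {G : Type} [CommGroup G] [Fintype G] {p j : ℕ} {P : Subgroup G}
  {ι : G ≃* (H ≃ₐ[F] H)} {ιE : P ≃* (H ≃ₐ[E] H)} {S T : Finset (HeightOneSpectrum (𝓞 F))}
  {r : ℕ} {w : Fin r → Pl H} {fr : HeightOneSpectrum (𝓞 F) → G}

theorem lead_E (hC : CycP p j P) (hD : DataW ι S T r w fr) (hE : Lay ι P ιE)
    {frE : HeightOneSpectrum (𝓞 E) → P} (hfr : ∀ u, u ∉ ovr E S → IsFr u (ιE (frE u)))
    {c : (G →* ℂˣ) → ℂ} (hc : LeadF S T r fr P c) :
    LeadX (ovr E S) (ovr E T) (r * p ^ (j - 1)) frE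
      (fun ψ => ∏ᶠ χ : {χ : G →* ℂˣ // χ.comp P.subtype = ψ}, c χ.1) := by
  classical
  have hG : IsGalois E H := IsGalois.tower_top_of_isGalois F E H
  intro ψ hψ
  have hF : ∀ χ : {χ : G →* ℂˣ // χ.comp P.subtype = ψ}, Fth P χ.1 := by
    intro χ
    by_contra hcon
    apply hψ
    rw [← χ.2]
    ext h
    have h1 : χ.1 (h : G) = 1 := by
      by_contra h2
      exact hcon ⟨h, h.2, h2⟩
    show ((χ.1 (h : G) : ℂˣ) : ℂ) = _
    rw [h1]
    rfl
  have hfin : Finite (G →* ℂˣ) := by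
    obtain ⟨e⟩ := CommGroup.monoidHom_mulEquiv_of_hasEnoughRootsOfUnity G ℂ
    exact Finite.of_equiv _ e.symm.toEquiv
  have hft : Fintype {χ : G →* ℂˣ // χ.comp P.subtype = ψ} := Fintype.ofFinite _
  have hc' : ∀ χ : {χ : G →* ℂˣ // χ.comp P.subtype = ψ}, ∃ Λ : ℂ → ℂ,
      MeromorphicOn Λ Set.univ ∧ (∀ s : ℂ, 1 < s.re → Λ s = LST S T fr χ.1 s) ∧
      Tendsto (fun s : ℂ => Λ s / s ^ r) (𝓝[≠] 0) (𝓝 (c χ.1)) := fun χ => hc χ.1 (hF χ)
  choose Λ h1 h2 h3 using hc'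
  have hcard : Fintype.card {χ : G →* ℂˣ // χ.comp P.subtype = ψ} = p ^ (j - 1) := by
    rw [← Nat.card_eq_fintype_card, le2_card]
    have e1 := Subgroup.card_eq_card_quotient_mul_card_subgroup P
    rw [hC.card, hC.cardP] at e1
    have hp : 0 < p := hC.prime.pos
    have e2 : p ^ j = p ^ (j - 1) * p := by
      rw [← pow_succ, Nat.sub_add_cancel hC.pos]
    rw [e2] at e1
    exact (Nat.eq_of_mul_eq_mul_right hp e1).symm
  refine ⟨fun s => ∏ χ, Λ χ s, le2_mero _ _ fun χ _ => h1 χ, ?_, ?_⟩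
  · intro s hs
    rw [lst_EF hE hD.disj hD.unram hD.frob hfr ψ hs, finprod_eq_prod_of_fintype]
    exact Finset.prod_congr rfl fun χ _ => h2 χ s hs
  · show Tendsto (fun s : ℂ => (∏ χ, Λ χ s) / s ^ (r * p ^ (j - 1))) (𝓝[≠] 0)
      (𝓝 (∏ᶠ χ : {χ : G →* ℂˣ // χ.comp P.subtype = ψ}, c χ.1))
    rw [finprod_eq_prod_of_fintype]
    have e3 : (fun s : ℂ => (∏ χ, Λ χ s) / s ^ (r * p ^ (j - 1))) =
        fun s : ℂ => ∏ χ, (Λ χ s / s ^ r) := by
      funext s
      rw [Finset.prod_div_distrib, Finset.prod_const, Finset.card_univ, hcard, ← pow_mul]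
    rw [e3]
    exact tendsto_finsetProd _ fun χ _ => h3 χ

end LAY

end Pool.Agent.RS2
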