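import Pool.Agent.Lib_helper35.RS2.Defs2
import Pool.Agent.Lib_helper17.RS.P_UP1
import Pool.Agent.Lib_helper17.RS.P_UP2
import Pool.Agent.Lib_helper35.RS2.K_PH
import Pool.Agent.Lib_helper17.RS.P_CN
/-! RS, block UR: the units as a module -/

namespace Pool.Agent.RS2

open Pool.Agent.RSK

set_option linter.unusedSectionVars false

open NumberField NumberField.InfinitePlace NumberField.Units IsDedekindDomain Filter Topology
  Complex

section DEGP

variable {F H : Type} [Field F] [NumberField F] [Field H] [NumberField H] [Algebra F H]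
  [IsGalois F H] {G : Type} [CommGroup G] [Fintype G] {p : ℕ} {ι : G ≃* (H ≃ₐ[F] H)}
  {S T : Finset (HeightOneSpectrum (𝓞 F))} {r : ℕ} {w : Fin r → Pl H}
  {fr : HeightOneSpectrum (𝓞 F) → G}

theorem tf_H (hD : DataW ι S T r w fr) :
    TFree (ovr H S) (ovr H T) ∧ Disjoint (ovr H S) (ovr H T) := by
  refine ⟨fun x hx n hn h => hD.tf x hx.2 n hn h, ?_⟩
  rw [Finset.disjoint_left]
  intro W h1 h2
  rw [mem_ovr] at h1 h2
  exact Finset.disjoint_left.1 hD.disj h1 h2

theorem tf_F {F H : Type} [Field F] [NumberField F] [Field H] [NumberField H] [Algebra F H]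
    {S T : Finset (HeightOneSpectrum (𝓞 F))} (h : TFree (ovr H S) (ovr H T)) : TFree S T := by
  intro x hx n hn hxn
  have h1 := h (Units.map (algebraMap F H : F →* H) x) ((un_map x).2 hx) n hn
    (by rw [← map_pow, hxn, map_one])
  apply Units.ext
  have h2 := congrArg (fun u : Hˣ => (u : H)) h1
  simp only [Units.coe_map, MonoidHom.coe_coe, Units.val_one] at h2
  rw [Units.val_one]
  exact (algebraMap F H).injective (by rw [h2, map_one])

theorem ur_basis (hD : DataW ι S T r w fr) :
    ∃ n : ℕ, Nonempty (Module.Basis (Fin n) ℤ (UM ι S T)) ∧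
      n + 1 = Fintype.card (PS (ovr H S)) := by
  obtain ⟨h1, h2⟩ := tf_H hD
  obtain ⟨n, ⟨b⟩⟩ := un_exists h2 h1
  have h3 := (cnf h2 h1 b).1
  exact ⟨n, ⟨b⟩, h3⟩

theorem um_finite (hD : DataW ι S T r w fr) : Module.Finite ℤ (UM ι S T) := by
  obtain ⟨n, ⟨b⟩, _⟩ := ur_basis hD
  exact Module.Finite.of_basis b

theorem um_tf (hD : DataW ι S T r w fr) : Module.IsTorsionFree ℤ (UM ι S T) := by
  obtain ⟨n, ⟨b⟩, _⟩ := ur_basis hD
  have := Module.Free.of_basis b
  infer_instance

/-- the units of `F` in the units of `H` -/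
noncomputable def urMap (ι : G ≃* (H ≃ₐ[F] H)) (S T : Finset (HeightOneSpectrum (𝓞 F))) :
    Additive (Un S T) →+ UM ι S T where
  toFun y := UM.mk (Units.map (algebraMap F H : F →* H) ((Additive.toMul y : Un S T) : Fˣ))
    ((un_map _).2 (Additive.toMul y : Un S T).2)
  map_zero' := by
    apply UM.ext
    rw [UM.val_mk, UM.val_zero]
    simp
  map_add' y z := by
    apply UM.ext
    rw [UM.val_add, UM.val_mk, UM.val_mk, UM.val_mk]
    simp

theorem urMap_val (y : Additive (Un S T)) : (urMap ι S T y).val =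
    Units.map (algebraMap F H : F →* H) ((Additive.toMul y : Un S T) : Fˣ) := rfl

theorem urMap_inj : Function.Injective (urMap ι S T) := by
  intro y z h
  have h1 := congrArg UM.val h
  rw [urMap_val, urMap_val] at h1
  have h2 := Units.map_injective (f := (algebraMap F H : F →* H)) (algebraMap F H).injective h1
  exact Subtype.ext h2

theorem urMap_range (u : UM ι S T) : u ∈ mPlus G (UM ι S T) ↔ ∃ y, urMap ι S T y = u := by
  constructor
  · intro hu
    have h1 : ∀ σ : H ≃ₐ[F] H, σ • u.val = u.val := by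
      intro σ
      have h2 := hu (ι.symm σ)
      have h3 := congrArg UM.val h2
      rw [um_single_smul, MulEquiv.apply_symm_apply] at h3
      exact h3
    obtain ⟨y, hy⟩ := fixed_unit u.val h1
    have h4 : y ∈ Un S T := by
      rw [← un_map (H := H), hy]
      exact u.val_mem
    refine ⟨Additive.ofMul (⟨y, h4⟩ : Un S T), ?_⟩
    apply UM.ext
    rw [urMap_val]
    exact hy
  · rintro ⟨y, rfl⟩ g
    apply UM.ext
    rw [um_single_smul, urMap_val]
    apply Units.ext
    show ι g (algebraMap F H _) = algebraMap F H _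
    exact (ι g).commutes _

theorem ur_nrm_smul (u : UM ι S T) : nrm G • u = ∑ g : G, MonoidAlgebra.single g (1 : ℤ) • u := by
  rw [nrm, Finset.sum_smul]

theorem ur_nrm_mem (u : UM ι S T) : nrm G • u ∈ mPlus G (UM ι S T) := by
  intro g
  rw [smul_smul]
  congr 1
  rw [nrm, Finset.mul_sum]
  simp only [MonoidAlgebra.single_mul_single, one_mul]
  exact Equiv.sum_comp (Equiv.mulLeft g) (fun x : G => (MonoidAlgebra.single x 1 : MonoidAlgebra ℤ G))

theorem ur_nrm_plus {u : UM ι S T} (hu : u ∈ mPlus G (UM ι S T)) :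
    nrm G • u = (Nat.card G : ℤ) • u := by
  rw [ur_nrm_smul]
  have h : ∀ g : G, MonoidAlgebra.single g (1 : ℤ) • u = u := hu
  simp only [h, Finset.sum_const, Finset.card_univ, Nat.card_eq_fintype_card]
  exact (natCast_zsmul u _).symm

theorem um_rank (hp : p.Prime) (hG : Nat.card G = p) (hD : DataW ι S T r w fr) :
    Module.finrank ℤ (mMinus G (UM ι S T)) = r * (p - 1) := by
  obtain ⟨nH, ⟨bH⟩, hH⟩ := ur_basis hD
  have hfin := um_finite hD
  have hfree : Module.Free ℤ (UM ι S T) := Module.Free.of_basis bH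
  have htf := um_tf hD
  have hrkH : Module.finrank ℤ (UM ι S T) = nH := by
    rw [Module.finrank_eq_card_basis bH, Fintype.card_fin]
  have htF : TFree S T := tf_F (tf_H hD).1
  obtain ⟨nF, ⟨bF⟩⟩ := un_exists hD.disj htF
  have hF := (cnf hD.disj htF bF).1
  have hrkF : Module.finrank ℤ (Additive (Un S T)) = nF := by
    rw [Module.finrank_eq_card_basis bF, Fintype.card_fin]
  obtain ⟨m, eH, eF, -⟩ := places_HF hp hG hD
  have hcH := Fintype.card_congr eH
  have hcF := Fintype.card_congr eF
  rw [Fintype.card_sum, Fintype.card_prod, Fintype.card_fin, Fintype.card_fin,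
    ← Nat.card_eq_fintype_card (α := G), hG] at hcH
  rw [Fintype.card_sum, Fintype.card_fin, Fintype.card_fin] at hcF
  -- the norm map
  let N : UM ι S T →ₗ[ℤ] UM ι S T :=
    (DistribSMul.toAddMonoidHom (UM ι S T) (nrm G)).toIntLinearMap
  have hN : ∀ u, N u = nrm G • u := fun u => rfl
  let φ : Additive (Un S T) →ₗ[ℤ] UM ι S T := (urMap ι S T).toIntLinearMap
  have hφ : Function.Injective φ := urMap_inj
  have hφr : Module.finrank ℤ (LinearMap.range φ) = nF := by
    rw [LinearMap.finrank_range_of_inj hφ, hrkF]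
  have hle : LinearMap.range N ≤ LinearMap.range φ := by
    rintro _ ⟨u, rfl⟩
    obtain ⟨y, hy⟩ := (urMap_range _).1 (ur_nrm_mem u)
    exact ⟨y, hy⟩
  have h1 : Module.finrank ℤ (LinearMap.range N) ≤ Module.finrank ℤ (LinearMap.range φ) :=
    Submodule.finrank_mono hle
  have hmem : ∀ u ∈ LinearMap.range φ, (p : ℤ) • u ∈ LinearMap.range N := by
    rintro _ ⟨y, rfl⟩
    refine ⟨φ y, ?_⟩
    rw [hN]
    have h2 : φ y ∈ mPlus G (UM ι S T) := (urMap_range _).2 ⟨y, rfl⟩
    rw [ur_nrm_plus h2, hG]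
  let ψ : LinearMap.range φ →ₗ[ℤ] LinearMap.range N :=
    LinearMap.codRestrict (LinearMap.range N) ((p : ℤ) • (LinearMap.range φ).subtype)
      (fun u => hmem u.1 u.2)
  have hψ : Function.Injective ψ := by
    intro u v h
    have h2 := congrArg Subtype.val h
    have h3 : (p : ℤ) • (u : UM ι S T) = (p : ℤ) • (v : UM ι S T) := h2
    apply Subtype.ext
    have hp0 : (p : ℤ) ≠ 0 := by exact_mod_cast hp.ne_zero
    exact smul_right_injective _ hp0 h3
  have h2 : Module.finrank ℤ (LinearMap.range φ) ≤ Module.finrank ℤ (LinearMap.range N) :=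
    LinearMap.finrank_le_finrank_of_injective hψ
  have h3 : Module.finrank ℤ (LinearMap.range N) = nF := by rw [← hφr]; exact le_antisymm h1 h2
  have h4 := Submodule.finrank_quotient_add_finrank (LinearMap.ker N)
  rw [LinearEquiv.finrank_eq N.quotKerEquivRange] at h4
  have e : mMinus G (UM ι S T) ≃+ LinearMap.ker N :=
    { toFun := fun u => ⟨u.1, u.2⟩
      invFun := fun u => ⟨u.1, u.2⟩
      left_inv := fun u => rfl
      right_inv := fun u => rfl
      map_add' := fun u v => rfl }
  have h5 : Module.finrank ℤ (mMinus G (UM ι S T)) = Module.finrank ℤ (LinearMap.ker N) :=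
    LinearEquiv.finrank_eq e.toIntLinearEquiv
  rw [h5]
  have hp1 := hp.one_le
  have h6 : r * p = r * (p - 1) + r := by
    conv_lhs => rw [← Nat.sub_add_cancel hp1]
    ring
  omega

end DEGP

end Pool.Agent.RS2
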