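import Pool.Agent.Lib_helper35.RS2.Bas2
import Pool.Agent.Lib_helper35.RS2.Defs2

/-!
# RS2: block CA (isomorphic extensions have the same number of places)
-/

namespace Pool.Agent.RS2

set_option linter.unusedSectionVars false

open Pool.Agent.RSK
open NumberField IsDedekindDomain Filter Topology Complex

section CA

variable {F : Type} [Field F] [NumberField F]

theorem ca_under_equiv {E E' : Type} [Field E] [NumberField E] [Field E'] [NumberField E']
    [Algebra F E] [Algebra F E'] (e : E ≃ₐ[F] E') (w : HeightOneSpectrum (𝓞 E)) :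
    (HeightOneSpectrum.equivOfRingEquiv (RingOfIntegers.mapRingEquiv e.toRingEquiv) w).under (𝓞 F) =
      w.under (𝓞 F) := by
  ext x
  show (RingOfIntegers.mapRingEquiv e.toRingEquiv).symm (algebraMap (𝓞 F) (𝓞 E') x) ∈ w.asIdeal ↔
    algebraMap (𝓞 F) (𝓞 E) x ∈ w.asIdeal
  have h : (RingOfIntegers.mapRingEquiv e.toRingEquiv).symm (algebraMap (𝓞 F) (𝓞 E') x) =
      algebraMap (𝓞 F) (𝓞 E) x := by
    rw [RingEquiv.symm_apply_eq]
    ext
    show ((algebraMap (𝓞 F) (𝓞 E') x : 𝓞 E') : E') = e ((algebraMap (𝓞 F) (𝓞 E) x : 𝓞 E) : E)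
    exact (e.commutes (x : F)).symm
  rw [h]

theorem ca_inf {E E' : Type} [Field E] [NumberField E] [Field E'] [NumberField E']
    (e : E ≃+* E') : Nonempty (InfinitePlace E ≃ InfinitePlace E') := by
  refine ⟨⟨fun w => w.comap e.symm.toRingHom, fun w => w.comap e.toRingHom, fun w => ?_,
    fun w => ?_⟩⟩
  · apply InfinitePlace.ext
    intro x
    show w (e.symm (e x)) = w x
    rw [RingEquiv.symm_apply_apply]
  · apply InfinitePlace.ext
    intro x
    show w (e (e.symm x)) = w x
    rw [RingEquiv.apply_symm_apply]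

theorem ca_fin {E E' : Type} [Field E] [NumberField E] [Field E'] [NumberField E']
    [Algebra F E] [Algebra F E'] (e : E ≃ₐ[F] E') (S : Finset (HeightOneSpectrum (𝓞 F))) :
    Nonempty (ovr E S ≃ ovr E' S) := by
  refine ⟨(HeightOneSpectrum.equivOfRingEquiv
    (RingOfIntegers.mapRingEquiv e.toRingEquiv)).subtypeEquiv fun w => ?_⟩
  rw [mem_ovr, mem_ovr, ca_under_equiv]

/-- isomorphic extensions of `F` have the same number of places above `S` -/
theorem card_ovr_congr {E E' : Type} [Field E] [NumberField E] [Field E'] [NumberField E']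
    [Algebra F E] [Algebra F E'] (e : E ≃ₐ[F] E') (S : Finset (HeightOneSpectrum (𝓞 F))) :
    Fintype.card (PS (ovr E S)) = Fintype.card (PS (ovr E' S)) := by
  obtain ⟨e1⟩ := ca_inf e.toRingEquiv
  obtain ⟨e2⟩ := ca_fin e S
  exact Fintype.card_congr (Equiv.sumCongr e1 e2)

end CA

end Pool.Agent.RS2
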