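import Pool.Agent.Lib_helper35.RS2.Bas2
import Pool.Agent.Lib_helper17.RS.P_IF
import Pool.Agent.Lib_helper35.RS2.Defs2

/-!
# RS2: block CB (fixed fields of subgroups)
-/

namespace Pool.Agent.RS2

set_option linter.unusedSectionVars false

open Pool.Agent.RSK
open NumberField IsDedekindDomain Filter Topology Complex

theorem cb_mem {F H : Type} [Field F] [NumberField F] [Field H] [NumberField H] [Algebra F H]
    {G : Type} [CommGroup G] {ι : G ≃* (H ≃ₐ[F] H)} (P : Subgroup G) (x : H) :
    x ∈ Kf ι P ↔ ∀ g ∈ P, ι g x = x := by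
  unfold Kf
  rw [IntermediateField.mem_fixedField_iff]
  constructor
  · intro h g hg
    exact h (ι g) ⟨g, hg, rfl⟩
  · rintro h _ ⟨g, hg, rfl⟩
    exact h g hg

section CB

variable {F H : Type} [Field F] [NumberField F] [Field H] [NumberField H] [Algebra F H]
  [IsGalois F H] {G : Type} [CommGroup G] [Fintype G] {p : ℕ} {ι : G ≃* (H ≃ₐ[F] H)}

theorem kf_finrank (N : Subgroup G) : Module.finrank F (Kf ι N) = N.index := by
  have h1 : Module.finrank (Kf ι N) H = Nat.card (N.map ι.toMonoidHom) :=
    IntermediateField.finrank_fixedField_eq_card _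
  have h2 : Module.finrank F (Kf ι N) * Module.finrank (Kf ι N) H = Module.finrank F H :=
    Module.finrank_mul_finrank F (Kf ι N) H
  have h3 : Nat.card (N.map ι.toMonoidHom) = Nat.card N :=
    Nat.card_congr (N.equivMapOfInjective ι.toMonoidHom ι.injective).symm.toEquiv
  have h4 : Module.finrank F H = Nat.card G := by
    rw [← IsGalois.card_aut_eq_finrank F H]
    exact Nat.card_congr ι.symm.toEquiv
  have h5 : N.index * Nat.card N = Nat.card G := by
    rw [mul_comm]
    exact N.card_mul_index
  have hpos : 0 < Nat.card N := Nat.card_pos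
  rw [h1, h3, h4, ← h5] at h2
  exact Nat.eq_of_mul_eq_mul_right hpos h2

/-- the fixed field of `P'` in `H^N` is the fixed field of the preimage of `P'` -/
theorem kf_kf (N : Subgroup G) {ι' : (G ⧸ N) ≃* (Kf ι N ≃ₐ[F] Kf ι N)}
    (hq : Quo ι ι' (QuotientGroup.mk' N)) (P' : Subgroup (G ⧸ N)) :
    Nonempty (Kf ι' P' ≃ₐ[F] Kf ι (P'.comap (QuotientGroup.mk' N))) := by
  have _ := kf_galois ι N
  have hN : ∀ x : H, x ∈ Kf ι (P'.comap (QuotientGroup.mk' N)) → x ∈ Kf ι N := fun x hx => by
    rw [cb_mem] at hx ⊢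
    intro g hg
    refine hx g ?_
    rw [Subgroup.mem_comap]
    have h1 : (QuotientGroup.mk' N) g = 1 := (QuotientGroup.eq_one_iff g).2 hg
    rw [h1]
    exact P'.one_mem
  have key : ∀ y : Kf ι N, y ∈ Kf ι' P' ↔ (y : H) ∈ Kf ι (P'.comap (QuotientGroup.mk' N)) :=
    fun y => by
      rw [cb_mem, cb_mem]
      constructor
      · intro h g hg
        have h1 := h (QuotientGroup.mk' N g) hg
        have h2 := hq.compat g y
        rw [h1] at h2
        exact h2.symm
      · intro h g' hg'
        obtain ⟨g, rfl⟩ := QuotientGroup.mk'_surjective N g'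
        have h1 := h g hg'
        have h2 := hq.compat g y
        apply Subtype.ext
        exact h2.trans h1
  refine ⟨{
    toFun := fun y => ⟨((y : Kf ι N) : H), (key y).1 y.2⟩
    invFun := fun x => ⟨⟨(x : H), hN x x.2⟩, (key _).2 x.2⟩
    left_inv := fun y => rfl
    right_inv := fun x => rfl
    map_mul' := fun y z => rfl
    map_add' := fun y z => rfl
    commutes' := fun a => rfl }⟩

end CB

end Pool.Agent.RS2
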