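import Pool.Agent.Lib_helper35.RS2.Bas2
import Pool.Agent.Lib_helper35.RS2.K_PH
import Pool.Agent.Lib_helper35.RS2.Defs2

/-!
# RS2, block CC: the number of places of `H^N` above `S`
-/

namespace Pool.Agent.RS2

set_option linter.unusedSectionVars false

open Pool.Agent.RSK
open NumberField IsDedekindDomain Filter Topology Complex

section CN

variable {F H : Type} [Field F] [NumberField F] [Field H] [NumberField H] [Algebra F H]
  [IsGalois F H] {G : Type} [CommGroup G] [Fintype G] {p : ℕ} {ι : G ≃* (H ≃ₐ[F] H)}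
  {S T : Finset (HeightOneSpectrum (𝓞 F))} {r : ℕ} {w : Fin r → Pl H}
  {fr : HeightOneSpectrum (𝓞 F) → G}

theorem cc_fix (N : Subgroup G) (g : G) (h : ∀ x : Kf ι N, ι g (x : H) = x) : g ∈ N := by
  have h1 : ι g ∈ (Kf ι N).fixingSubgroup := by
    rw [IntermediateField.mem_fixingSubgroup_iff]
    intro x hx
    exact h ⟨x, hx⟩
  unfold Kf at h1
  rw [IntermediateField.fixingSubgroup_fixedField] at h1
  obtain ⟨g', hg', he⟩ := h1
  have : g' = g := ι.injective he
  rw [← this]
  exact hg'

theorem cc_inj (hsplit : ∀ i, ∀ σ : H ≃ₐ[F] H, act σ (w i) = w i → σ = 1) (N : Subgroup G)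
    (i : Fin r) {g g' : G}
    (h : dn (Kf ι N) (act (ι g) (w i)) = dn (Kf ι N) (act (ι g') (w i))) : g' * g⁻¹ ∈ N := by
  obtain ⟨σ, hσ⟩ := act_trans h
  have h1 : act (σ.restrictScalars F) (act (ι g) (w i)) = act (ι g') (w i) := by
    rw [act_restrict, hσ]
  rw [← act_mul] at h1
  have h2 := ph_act_inj (hsplit i) h1
  have h3 : σ.restrictScalars F = ι (g' * g⁻¹) := by
    rw [map_mul, ← h2, map_inv, mul_inv_cancel_right]
  apply cc_fix N (ι := ι)
  intro x
  rw [← h3]
  exact σ.commutes x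

theorem cc_main (hmem : ∀ i, InS S (dn F (w i)))
    (hsplit : ∀ i, ∀ σ : H ≃ₐ[F] H, act σ (w i) = w i → σ = 1)
    (hinj : ∀ i j, dn F (w i) = dn F (w j) → i = j) (N : Subgroup G) :
    r * N.index + (Fintype.card (InfinitePlace F) + S.card) ≤
      Fintype.card (PS (ovr (Kf ι N) S)) + r := by
  classical
  have hlift : ∀ Q : PS S, ∃ W : Pl (Kf ι N), dn F W = Q.pl := fun Q => dn_surj Q.pl
  choose lf hlf using hlift
  have hmem1 : ∀ (i : Fin r) (g : G), InS (ovr (Kf ι N) S) (dn (Kf ι N) (act (ι g) (w i))) := by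
    intro i g
    rw [ph_inS_ovr, dn_dn, dn_act]
    exact hmem i
  have hmem2 : ∀ Q : PS S, InS (ovr (Kf ι N) S) (lf Q) := by
    intro Q
    rw [ph_inS_ovr, hlf]
    exact ph_inS Q
  let f : (Fin r × (G ⧸ N)) ⊕ PS S → PS (ovr (Kf ι N) S) ⊕ Fin r :=
    Sum.elim (fun x => Sum.inl (ph_mk (dn (Kf ι N) (act (ι x.2.out) (w x.1))) (hmem1 x.1 x.2.out)))
      (fun Q => if h : ∃ i, Q.pl = dn F (w i) then Sum.inr h.choose else Sum.inl (ph_mk (lf Q) (hmem2 Q)))
  have hpl : ∀ {a b : Pl (Kf ι N)} (ha : InS (ovr (Kf ι N) S) a) (hb : InS (ovr (Kf ι N) S) b),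
      ph_mk a ha = ph_mk b hb → a = b := by
    intro a b ha hb h
    have := congrArg PS.pl h
    rwa [ph_mk_pl, ph_mk_pl] at this
  have hf : Function.Injective f := by
    rintro (⟨i, c⟩ | Q) (⟨j, d⟩ | Q') h
    · have h1 := hpl _ _ (Sum.inl.inj h)
      simp only at h1
      have h2 := congrArg (dn F) h1
      rw [dn_dn, dn_dn, dn_act, dn_act] at h2
      have h3 := hinj i j h2
      subst h3
      have h4 := cc_inj hsplit N i h1
      have h5 : c = d := by
        rw [← Quotient.out_eq c, ← Quotient.out_eq d]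
        show (QuotientGroup.mk c.out : G ⧸ N) = QuotientGroup.mk d.out
        rw [QuotientGroup.eq, mul_comm]
        exact h4
      rw [h5]
    · exfalso
      simp only [f, Sum.elim_inl, Sum.elim_inr] at h
      split_ifs at h with h1
      have h2 := hpl _ _ (Sum.inl.inj h)
      have h3 := congrArg (dn F) h2
      rw [dn_dn, dn_act, hlf] at h3
      exact h1 ⟨i, h3.symm⟩
    · exfalso
      simp only [f, Sum.elim_inl, Sum.elim_inr] at h
      split_ifs at h with h1
      have h2 := hpl _ _ (Sum.inl.inj h)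
      have h3 := congrArg (dn F) h2
      rw [dn_dn, dn_act, hlf] at h3
      exact h1 ⟨j, h3⟩
    · simp only [f, Sum.elim_inr] at h
      congr 1
      apply ph_pl_inj
      split_ifs at h with h1 h2 h2
      · have h3 := Sum.inr.inj h
        rw [h1.choose_spec, h2.choose_spec, h3]
      · have h2 := hpl _ _ (Sum.inl.inj h)
        have h3 := congrArg (dn F) h2
        rwa [hlf, hlf] at h3
  have hc := Fintype.card_le_of_injective f hf
  have e1 : Fintype.card (PS (ovr (Kf ι N) S) ⊕ Fin r) =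
      Fintype.card (PS (ovr (Kf ι N) S)) + r := by rw [Fintype.card_sum, Fintype.card_fin]
  have e2 : Fintype.card ((Fin r × (G ⧸ N)) ⊕ PS S) = r * Fintype.card (G ⧸ N) +
      (Fintype.card (InfinitePlace F) + S.card) := by
    rw [Fintype.card_sum, Fintype.card_prod, Fintype.card_fin, Fintype.card_sum, Fintype.card_coe]
  rw [e1, e2] at hc
  have hi : N.index = Fintype.card (G ⧸ N) := by
    rw [Subgroup.index, Nat.card_eq_fintype_card]
  rw [hi]
  exact hc

theorem card_ovr_ge (hD : Data ι S T r w fr) (N : Subgroup G) :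
    r * N.index + (Fintype.card (InfinitePlace F) + S.card) ≤
      Fintype.card (PS (ovr (Kf ι N) S)) + r :=
  cc_main hD.mem hD.split hD.inj N

/-- the same with the weaker data -/
theorem card_ovr_ge_W (hD : DataW ι S T r w fr) (N : Subgroup G) :
    r * N.index + (Fintype.card (InfinitePlace F) + S.card) ≤
      Fintype.card (PS (ovr (Kf ι N) S)) + r :=
  cc_main hD.mem hD.split hD.inj N

end CN

end Pool.Agent.RS2
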