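import Pool.Agent.Lib_helper35.RS2.Defs2
import Pool.Agent.Lib_helper17.RS.P_CB

/-!
Block D2: a place whose Frobenius elements are not trivial.
-/

namespace Pool.Agent.RS2

set_option linter.unusedSectionVars false

open Pool.Agent.RSK
open NumberField IsDedekindDomain Filter Topology Complex
open Pool.Agent.DS (Qbar GQ Induces)

/-- the density theorem for one automorphism -/
theorem d2_frob {H : Type} [Field H] [NumberField H] (α : H ≃+* H) (M : ℕ) :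
    ∃ q : ℕ, q.Prime ∧ M < q ∧ ∃ w : HeightOneSpectrum (𝓞 H),
      (q : 𝓞 H) ∈ w.asIdeal ∧ ∀ z u : 𝓞 H, (u : H) = α z → u - z ^ q ∈ w.asIdeal := by
  have hnorm := cb_normal
  let j : H →ₐ[ℚ] Qbar := IsAlgClosed.lift
  obtain ⟨a, ha⟩ := cb_lift α j
  have hinv : ∀ (c : GQ) (y : Qbar), c⁻¹ (c y) = y := fun c y => by
    show (c⁻¹ * c) y = y
    rw [inv_mul_cancel]
    rfl
  have hN1 := cb_nn H
  have hF1 := cb_ff H
  set M1 := IntermediateField.normalClosure ℚ H Qbar with hM1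
  obtain ⟨q, hq, hqP, 𝔓, hP, hqP', σ, hσ, y, hy⟩ := Pool.Agent.DS.chx
    (AlgEquiv.restrictNormalHom (F := ℚ) (K₁ := Qbar) M1) (cb_open M1) a (Finset.range (M + 1))
  have hMq : M < q := by
    rw [Finset.mem_range] at hqP
    omega
  have hσj : ∀ z : H, σ (y (j z)) = y (j (α z)) := fun z => by
    have hm : y (j z) ∈ M1 := AlgHom.fieldRange_le_normalClosure ((y : Qbar →ₐ[ℚ] Qbar).comp j) ⟨z, rfl⟩
    rw [cb_agree M1 hy hm]
    show y (a (y⁻¹ (y (j z)))) = _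
    rw [hinv, ha]
  refine ⟨q, hq, hMq, ?_⟩
  let φ : 𝓞 H →+* 𝓞 Qbar := RingOfIntegers.mapRingHom ((y : Qbar →ₐ[ℚ] Qbar).comp j).toRingHom
  have hφ : ∀ z : 𝓞 H, ((φ z : 𝓞 Qbar) : Qbar) = y (j z) := fun z => rfl
  have hqw : (q : 𝓞 H) ∈ 𝔓.comap φ := by
    rw [Ideal.mem_comap, map_natCast]
    exact hqP'
  have hprime : (𝔓.comap φ).IsPrime := Ideal.comap_isPrime φ 𝔓
  refine ⟨⟨𝔓.comap φ, hprime, ?_⟩, hqw, ?_⟩
  · intro hbot
    rw [hbot, Ideal.mem_bot] at hqw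
    exact hq.ne_zero (by exact_mod_cast hqw)
  · intro z u hu
    show u - z ^ q ∈ 𝔓.comap φ
    rw [Ideal.mem_comap, map_sub, map_pow]
    apply hσ
    rw [hφ, hφ, hσj, hu]

/-- block D2 -/
theorem cheb0 {F H : Type} [Field F] [NumberField F] [Field H] [NumberField H] [Algebra F H]
    [IsGalois F H] (hne : ∃ σ : H ≃ₐ[F] H, σ ≠ 1) (B : Finset (HeightOneSpectrum (𝓞 F))) :
    ∃ v : HeightOneSpectrum (𝓞 F), v ∉ B ∧
      Module.finrank ℚ H + 1 < ringChar (𝓞 F ⧸ v.asIdeal) ∧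
      ∀ σ : H ≃ₐ[F] H, IsFr v σ → σ ≠ 1 := by
  classical
  obtain ⟨σ, hσ⟩ := hne
  have hγint : ∀ z : 𝓞 H, ∃ u : 𝓞 H, (u : H) = σ z := fun z =>
    ⟨RingOfIntegers.mapRingEquiv σ.toRingEquiv z, rfl⟩
  obtain ⟨z₀, u₀, hu₀, hne'⟩ : ∃ z u : 𝓞 H, (u : H) = σ z ∧ u ≠ z := by
    by_contra hcon
    push Not at hcon
    have h1 : ∀ z : 𝓞 H, σ z = z := fun z => by
      obtain ⟨u, hu⟩ := hγint z
      rw [← hu, hcon z u hu]
    apply hσ
    ext z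
    obtain ⟨a, b, hb, rfl⟩ := IsFractionRing.div_surjective (A := 𝓞 H) z
    rw [map_div₀]
    have h4 := h1 a
    have h5 := h1 b
    rw [show (algebraMap (𝓞 H) H a) = (a : H) from rfl, show (algebraMap (𝓞 H) H b) = (b : H) from rfl, h4, h5]
    rfl
  have hd0 : u₀ - z₀ ≠ 0 := sub_ne_zero.2 hne'
  set n₀ := Ideal.absNorm (Ideal.span {u₀ - z₀}) with hn₀
  have hn₀pos : 0 < n₀ := by
    rw [hn₀]
    apply Nat.pos_of_ne_zero
    rw [Ne, Ideal.absNorm_eq_zero_iff, Ideal.span_singleton_eq_bot]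
    exact hd0
  set M : ℕ := Module.finrank ℚ H + 1 + n₀ + ∑ v ∈ B, nv v with hM
  obtain ⟨q, hq, hMq, w', hqw', hw'⟩ := d2_frob σ.toRingEquiv M
  have hq' : ∀ {k : Type} [Field k] [NumberField k] (v : HeightOneSpectrum (𝓞 k)), v.asIdeal ≠ ⊤ :=
    fun v => v.isPrime.ne_top
  have hqv : (q : 𝓞 F) ∈ (w'.under (𝓞 F)).asIdeal := by
    show algebraMap (𝓞 F) (𝓞 H) (q : 𝓞 F) ∈ w'.asIdeal
    rw [map_natCast]
    exact hqw'
  have hres : ∀ f : 𝓞 F, f ^ q - f ∈ (w'.under (𝓞 F)).asIdeal := by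
    intro f
    show algebraMap (𝓞 F) (𝓞 H) (f ^ q - f) ∈ w'.asIdeal
    rw [map_sub, map_pow]
    have h2 : algebraMap (𝓞 F) (𝓞 H) f - (algebraMap (𝓞 F) (𝓞 H) f) ^ q ∈ w'.asIdeal := by
      apply hw'
      exact (σ.commutes (f : F)).symm
    have h3 : (algebraMap (𝓞 F) (𝓞 H) f) ^ q - algebraMap (𝓞 F) (𝓞 H) f =
      -(algebraMap (𝓞 F) (𝓞 H) f - (algebraMap (𝓞 F) (𝓞 H) f) ^ q) := by ring
    rw [h3]
    exact w'.asIdeal.neg_mem h2
  have hnv : nv (w'.under (𝓞 F)) = q := cb_card _ hq hqv hres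
  refine ⟨w'.under (𝓞 F), ?_, ?_, ?_⟩
  · intro hB
    have h3 : nv (w'.under (𝓞 F)) ≤ ∑ v ∈ B, nv v :=
      Finset.single_le_sum (f := fun v => nv v) (fun _ _ => Nat.zero_le _) hB
    omega
  · rw [cb_char _ hq hqv]
    omega
  · intro τ hτ hτ1
    rw [hτ1] at hτ
    have h1 : z₀ - z₀ ^ q ∈ w'.asIdeal := by
      have h2 := hτ w' rfl z₀
      rw [hnv] at h2
      exact h2
    have h4 : u₀ - z₀ ∈ w'.asIdeal := by
      have h5 := hw' z₀ u₀ hu₀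
      have h6 : u₀ - z₀ = (u₀ - z₀ ^ q) - (z₀ - z₀ ^ q) := by ring
      rw [h6]
      exact w'.asIdeal.sub_mem h5 h1
    have h7 : (n₀ : 𝓞 H) ∈ w'.asIdeal := by
      have h8 : (n₀ : 𝓞 H) ∈ Ideal.span {u₀ - z₀} := Ideal.absNorm_mem _
      exact (Ideal.span_singleton_le_iff_mem _).2 h4 h8
    exact cb_coprime (hq' w') hq hqw' h7 hn₀pos (by omega)

end Pool.Agent.RS2
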