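import Pool.Agent.Lib_helper35.RS2.P_GP
import Pool.Agent.Lib_helper17.RS.P_LE

/-!
# RS2, block LF: the L-functions for larger sets
-/

namespace Pool.Agent.RS2

set_option linter.unusedSectionVars false

open Pool.Agent.RSK
open NumberField NumberField.InfinitePlace NumberField.Units IsDedekindDomain Filter Topology
  Complex

section GEN

variable {F H : Type} [Field F] [NumberField F] [Field H] [NumberField H] [Algebra F H]
  [IsGalois F H] {G : Type} [CommGroup G] [Fintype G] {p j : ℕ} {P : Subgroup G}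
  {ι : G ≃* (H ≃ₐ[F] H)} {S T : Finset (HeightOneSpectrum (𝓞 F))} {r : ℕ} {w : Fin r → Pl H}
  {fr : HeightOneSpectrum (𝓞 F) → G}

theorem leadf_non (hC : CycP p j P) {v : HeightOneSpectrum (𝓞 F)}
    (hv : v ∉ S) (hfr : fr v ≠ 1) {c : (G →* ℂˣ) → ℂ} (hc : LeadF (Finset.cons v S hv) T r fr P c) :
    LeadF S T r fr P (fun χ => c χ / (1 - (χ (fr v) : ℂ))) := by
  intro χ hχ
  obtain ⟨Λ, h1, h2, h3⟩ := hc χ hχ
  have hne : (1 : ℂ) - (χ (fr v) : ℂ) ≠ 0 := by
    intro h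
    refine fth_ne hC hχ hfr (Units.ext ?_)
    rw [Units.val_one]
    exact (sub_eq_zero.1 h).symm
  refine ⟨fun s => Λ s / (1 - (χ (fr v) : ℂ) * (nv v : ℂ) ^ (0 - s)), ?_, ?_, ?_⟩
  · exact h1.div (le_mero_pow v _ 0)
  · intro s hs
    have hf0 : 1 - (χ (fr v) : ℂ) * (nv v : ℂ) ^ (-s) ≠ 0 :=
      le_factor v χ (by rw [Complex.neg_re]; linarith)
    beta_reduce
    rw [h2 s hs, lst_consS hv χ hs, zero_sub]
    field_simp
  · have h5 := h3.div (le_cont v (χ (fr v) : ℂ) 0) (by simpa using hne)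
    simp only [Complex.cpow_zero, mul_one] at h5
    refine h5.congr fun s => ?_
    show Λ s / s ^ r / _ = Λ s / _ / s ^ r
    rw [div_right_comm]

theorem leadf_split {v : HeightOneSpectrum (𝓞 F)} (hv : v ∉ S) (hfr : fr v = 1)
    {c : (G →* ℂˣ) → ℂ} (hc : LeadF (Finset.cons v S hv) T (r + 1) fr P c) :
    LeadF S T r fr P (fun χ => c χ / (Real.log (nv v) : ℂ)) := by
  intro χ hχ
  obtain ⟨Λ, h1, h2, h3⟩ := hc χ hχ
  have hlog : (0 : ℝ) < Real.log (nv v) := Real.log_pos (by linarith [le_nv_pos v])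
  have hlog' : (Real.log (nv v) : ℂ) ≠ 0 := by exact_mod_cast hlog.ne'
  have hχ1 : (χ (fr v) : ℂ) = 1 := by rw [hfr, map_one, Units.val_one]
  refine ⟨fun s => Λ s / (1 - (χ (fr v) : ℂ) * (nv v : ℂ) ^ (0 - s)), ?_, ?_, ?_⟩
  · exact h1.div (le_mero_pow v _ 0)
  · intro s hs
    have hf0 : 1 - (χ (fr v) : ℂ) * (nv v : ℂ) ^ (-s) ≠ 0 :=
      le_factor v χ (by rw [Complex.neg_re]; linarith)
    beta_reduce
    rw [h2 s hs, lst_consS hv χ hs, zero_sub]
    field_simp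
  · -- the derivative of `1 - nv^{-s}` at `0`
    have hd : HasDerivAt (fun s : ℂ => 1 - (nv v : ℂ) ^ (0 - s)) (Real.log (nv v) : ℂ) 0 := by
      have h4 : HasDerivAt (fun s : ℂ => (nv v : ℂ) ^ (0 - s))
          ((nv v : ℂ) ^ ((0 : ℂ) - 0) * Complex.log (nv v : ℂ) * (-1)) 0 := by
        have h5 : HasDerivAt (fun s : ℂ => (0 : ℂ) - s) (-1) 0 := by
          simpa using (hasDerivAt_id (0 : ℂ)).const_sub 0
        exact h5.const_cpow (Or.inl (le_nv_ne v))
      have h6 := h4.const_sub 1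
      have h7 : -((nv v : ℂ) ^ ((0 : ℂ) - 0) * Complex.log (nv v : ℂ) * (-1)) =
          (Real.log (nv v) : ℂ) := by
        rw [sub_zero, Complex.cpow_zero, Complex.natCast_log]
        ring
      rwa [h7] at h6
    have hs := hd.tendsto_slope
    have hs' : Tendsto (fun s : ℂ => (1 - (χ (fr v) : ℂ) * (nv v : ℂ) ^ (0 - s)) / s) (𝓝[≠] 0)
        (𝓝 (Real.log (nv v) : ℂ)) := by
      refine hs.congr fun s => ?_
      rw [slope_def_field, hχ1]
      simp
    have h5 := h3.div hs' hlog'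
    refine h5.congr' ?_
    filter_upwards [self_mem_nhdsWithin] with s hs0
    have hs0' : s ≠ 0 := hs0
    show Λ s / s ^ (r + 1) / (_ / s) = Λ s / _ / s ^ r
    rw [pow_succ]
    by_cases hz : (1 - (χ (fr v) : ℂ) * (nv v : ℂ) ^ (0 - s)) = 0
    · rw [hz]; simp
    · field_simp

theorem leadf_addT {v : HeightOneSpectrum (𝓞 F)} (hv : v ∉ T) {c : (G →* ℂˣ) → ℂ}
    (hc : LeadF S T r fr P c) : LeadF S (Finset.cons v T hv) r fr P
      (fun χ => (1 - (χ (fr v) : ℂ) * (nv v : ℂ)) * c χ) := by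
  intro χ hχ
  obtain ⟨Λ, h1, h2, h3⟩ := hc χ hχ
  refine ⟨fun s => (1 - (χ (fr v) : ℂ) * (nv v : ℂ) ^ (1 - s)) * Λ s, ?_, ?_, ?_⟩
  · exact (le_mero_pow v _ 1).mul h1
  · intro s hs
    beta_reduce
    rw [h2 s hs, lst_consT hv χ s]
  · have h5 := (le_cont v (χ (fr v) : ℂ) 1).mul h3
    simp only [Complex.cpow_one] at h5
    refine h5.congr fun s => ?_
    show _ * (Λ s / s ^ r) = _ * Λ s / s ^ r
    rw [mul_div_assoc]

theorem leadf_rmT {v : HeightOneSpectrum (𝓞 F)} (hv : v ∉ T) {c : (G →* ℂˣ) → ℂ}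
    (hc : LeadF S (Finset.cons v T hv) r fr P c) : LeadF S T r fr P
      (fun χ => c χ / (1 - (χ (fr v) : ℂ) * (nv v : ℂ))) := by
  intro χ hχ
  obtain ⟨Λ, h1, h2, h3⟩ := hc χ hχ
  have hne : 1 - (χ (fr v) : ℂ) * (nv v : ℂ) ≠ 0 := by
    intro h
    have h4 := congrArg norm (sub_eq_zero.1 h).symm
    rw [norm_mul, le_norm, one_mul, norm_one, Complex.norm_natCast] at h4
    linarith [le_nv_pos v]
  refine ⟨fun s => Λ s / (1 - (χ (fr v) : ℂ) * (nv v : ℂ) ^ (1 - s)), ?_, ?_, ?_⟩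
  · exact h1.div (le_mero_pow v _ 1)
  · intro s hs
    have hf0 : 1 - (χ (fr v) : ℂ) * (nv v : ℂ) ^ (1 - s) ≠ 0 :=
      le_factor v χ (by rw [Complex.sub_re, Complex.one_re]; linarith)
    beta_reduce
    rw [h2 s hs, lst_consT hv χ s]
    field_simp
  · have h5 := h3.div (le_cont v (χ (fr v) : ℂ) 1) (by simpa using hne)
    simp only [Complex.cpow_one] at h5
    refine h5.congr fun s => ?_
    show Λ s / s ^ r / _ = Λ s / _ / s ^ r
    rw [div_right_comm]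

end GEN

end Pool.Agent.RS2
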