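import Pool.Agent.Lib_helper35.RS2.Defs2

/-!
# RS2, block LY: the fixed field of a subgroup
-/

namespace Pool.Agent.RS2

set_option linter.unusedSectionVars false

open Pool.Agent.RSK
open NumberField IsDedekindDomain Filter Topology Complex

section LY

variable {F H : Type} [Field F] [NumberField F] [Field H] [NumberField H] [Algebra F H]
  [IsGalois F H] {G : Type} [CommGroup G] [Fintype G] {p : ℕ} {ι : G ≃* (H ≃ₐ[F] H)}

/-- `E = H^P` -/
theorem lay_exists (P : Subgroup G) : ∃ ιE : P ≃* (H ≃ₐ[Kf ι P] H), Lay ι P ιE := by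
  have hinj : Function.Injective ι.toMonoidHom := ι.injective
  refine ⟨(P.equivMapOfInjective ι.toMonoidHom hinj).trans
    (IntermediateField.subgroupEquivAlgEquiv (P.map ι.toMonoidHom)), ⟨fun h x => ?_⟩⟩
  rfl

end LY

end Pool.Agent.RS2
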