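import Pool.Agent.Lib_helper35.RS2.P_LF
import Pool.Agent.Lib_helper17.RS.P_L1

/-!
# RS2, block LC1: removing a nonsplit place from `S`
-/

namespace Pool.Agent.RS2

set_option linter.unusedSectionVars false

open Pool.Agent.RSK
open NumberField NumberField.InfinitePlace NumberField.Units IsDedekindDomain Filter Topology
  Complex

section LC1a

variable {G : Type} [CommGroup G] [Fintype G] {p j : ℕ} {P : Subgroup G}

/-- `∑_{i < n} g^i` for `n` the order of `g` is the sum over `⟨g⟩` -/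
theorem lc1_geom (χ : G →* ℂˣ) {g : G} {n : ℕ} (hn : g ^ n = 1) (hχ : χ g ≠ 1) :
    evQ χ (toQ G (∑ i ∈ Finset.range n, MonoidAlgebra.single (g ^ i) (1 : ℤ))) = 0 := by
  have h1 : evQ χ (toQ G (∑ i ∈ Finset.range n, MonoidAlgebra.single (g ^ i) (1 : ℤ))) =
      ∑ i ∈ Finset.range n, (χ g : ℂ) ^ i := by
    rw [map_sum, map_sum]
    refine Finset.sum_congr rfl fun i _ => ?_
    rw [l1_toQ_single, l1_evQ_single, map_pow, Units.val_pow_eq_pow_val]
    push_cast
    ring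
  have h2 : (χ g : ℂ) ≠ 1 := fun h => hχ (Units.ext h)
  have h3 : (χ g : ℂ) ^ n = 1 := by
    rw [← Units.val_pow_eq_pow_val, ← map_pow, hn, map_one, Units.val_one]
  have h4 := geom_sum_mul (χ g : ℂ) n
  rw [h3, sub_self] at h4
  rw [h1]
  exact (mul_eq_zero.mp h4).resolve_right (sub_ne_zero.mpr h2)

/-- the values of `n / (1 - g)` -/
theorem lc1_h (χ : G →* ℂˣ) {g : G} {n : ℕ} (hn : g ^ n = 1) (hχ : χ g ≠ 1) :
    (1 - (χ g : ℂ)) * evQ χ (toQ G (l1_h n g)) = n := by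
  have h1 : (1 - MonoidAlgebra.single g (1 : ℤ)) * l1_h n g = MonoidAlgebra.single 1 (n : ℤ) -
      ∑ i ∈ Finset.range n, MonoidAlgebra.single (g ^ i) (1 : ℤ) := by
    rw [l1_h, mul_neg, l1_sum, hn, ← MonoidAlgebra.one_def]
    abel
  have h2 := congrArg (fun a => evQ χ (toQ G a)) h1
  simp only [map_mul, map_sub, map_one] at h2
  rw [lc1_geom χ hn hχ, l1_toQ_single, l1_toQ_single, l1_evQ_single, l1_evQ_single, map_one,
    Units.val_one] at h2
  push_cast at h2
  rw [one_mul, mul_one, sub_zero] at h2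
  exact h2

end LC1a

section LC1b

variable {F H : Type} [Field F] [NumberField F] [Field H] [NumberField H] [Algebra F H]
  [IsGalois F H] {G : Type} [CommGroup G] [Fintype G] {p j : ℕ} {P : Subgroup G}
  {ι : G ≃* (H ≃ₐ[F] H)} {S T : Finset (HeightOneSpectrum (𝓞 F))} {r : ℕ} {w : Fin r → Pl H}
  {fr : HeightOneSpectrum (𝓞 F) → G}

theorem lc1_nP_val [Fintype P] (u : UM ι S T) : (nP P • u).val = ∏ g : P, ι (g : G) • u.val := by
  rw [nP_sum, Finset.sum_smul, l1_val_sum]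
  refine Finset.prod_congr rfl fun g _ => ?_
  rw [um_single_smul]

/-- nonsplit places are fixed by `P` -/
theorem lc1_act (hC : CycP p j P) {v : HeightOneSpectrum (𝓞 F)} {g : G}
    (hg : g ≠ 1) (h : IsFr v (ι g)) {W : HeightOneSpectrum (𝓞 H)} (hW : W.under (𝓞 F) = v)
    {g' : G} (hg' : g' ∈ P) : act (ι g') (Sum.inr W) = Sum.inr W := by
  obtain ⟨n, hn⟩ := (Submonoid.mem_powers_iff _ _).1
    (mem_powers_iff_mem_zpowers.mpr (cycp_le hC hg hg'))
  rw [← hn]
  clear hn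
  induction n with
  | zero => rw [pow_zero, map_one, act_one]
  | succ n ih => rw [pow_succ, map_mul, act_mul, l1_act_fr h hW, ih]

/-- elements of norm zero are units at nonsplit places -/
theorem lc1_unit (hC : CycP p j P) [Fintype P] {v : HeightOneSpectrum (𝓞 F)} {g : G}
    (hg : g ≠ 1) (h : IsFr v (ι g)) {W : HeightOneSpectrum (𝓞 H)} (hW : W.under (𝓞 F) = v)
    {u : Hˣ} (hu : ∏ g : P, ι (g : G) • u = 1) : W.valuation H (u : H) = 1 := by
  have h1 : ∀ g' : P, W.valuation H (((ι (g' : G) • u : Hˣ)) : H) = W.valuation H (u : H) := by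
    intro g'
    have h2 : HeightOneSpectrum.equivOfRingEquiv
        (RingOfIntegers.mapRingEquiv (ι (g' : G)).toRingEquiv) W = W :=
      Sum.inr_injective (lc1_act hC hg h hW g'.2)
    have h3 := val_equiv (ι (g' : G)).toRingEquiv W (u : H)
    rw [h2] at h3
    exact h3
  have h4 := congrArg (fun z : Hˣ => W.valuation H (z : H)) hu
  simp only [Units.coe_prod, map_prod, Units.val_one, map_one] at h4
  rw [Finset.prod_congr rfl (fun g' _ => h1 g'), Finset.prod_const, Finset.card_univ] at h4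
  exact (pow_eq_one_iff.1 h4).resolve_right
    (by rw [← Nat.card_eq_fintype_card, hC.cardP]; exact hC.prime.ne_zero)

theorem lc1_mem (hC : CycP p j P) (hD : Data ι S T r w fr)
    {v : HeightOneSpectrum (𝓞 F)} (hv : v ∉ S) (hfr : fr v ≠ 1)
    {u : UM ι (Finset.cons v S hv) T} (hu : nP P • u = 0) : u.val ∈ Un (ovr H S) (ovr H T) := by
  classical
  have : Fintype P := Fintype.ofFinite P
  refine ⟨fun W hW => ?_, u.val_mem.2⟩
  by_cases h : W.under (𝓞 F) = v
  · refine lc1_unit hC hfr (hD.frob v hv) h ?_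
    rw [← lc1_nP_val, hu, UM.val_zero]
  · refine u.val_mem.1 W fun h2 => ?_
    rw [mem_ovr, Finset.mem_cons] at h2
    rcases h2 with h2 | h2
    · exact h h2
    · exact hW (mem_ovr.2 h2)

theorem lc1_nP_nP (hC : CycP p j P) : nP P * (MonoidAlgebra.single 1 (p : ℤ) - nP P) = 0 := by
  classical
  have : Fintype P := Fintype.ofFinite P
  have h2 : nP P * nP P = MonoidAlgebra.single 1 (p : ℤ) * nP P := by
    have h3 : nP P * nP P = (∑ g : P, MonoidAlgebra.single (g : G) (1 : ℤ)) * nP P := by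
      rw [← nP_sum]
    rw [h3, Finset.sum_mul, Finset.sum_congr rfl (fun g _ => single_nP g.2), Finset.sum_const,
      Finset.card_univ, ← Nat.card_eq_fintype_card, hC.cardP]
    have : MonoidAlgebra.single (1 : G) (p : ℤ) = p • (1 : MonoidAlgebra ℤ G) := by
      rw [MonoidAlgebra.one_def, MonoidAlgebra.smul_single]
      simp
    rw [this, smul_mul_assoc, one_mul]
  rw [mul_sub, h2]
  ring

/-- the map `u ↦ (p - nP) u` -/
noncomputable def lc1_map (hC : CycP p j P) (hD : Data ι S T r w fr)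
    {v : HeightOneSpectrum (𝓞 F)} (hv : v ∉ S) (hfr : fr v ≠ 1) :
    UM ι (Finset.cons v S hv) T →ₗ[MonoidAlgebra ℤ G] UM ι S T where
  toFun u := UM.mk ((MonoidAlgebra.single 1 (p : ℤ) - nP P : MonoidAlgebra ℤ G) • u).val
    (lc1_mem hC hD hv hfr (by rw [smul_smul, lc1_nP_nP hC, zero_smul]))
  map_add' u u' := UM.ext (by
    rw [UM.val_mk, UM.val_add, UM.val_mk, UM.val_mk, smul_add, UM.val_add])
  map_smul' a u := UM.ext (by
    rw [UM.val_mk, RingHom.id_apply, smul_comm]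
    exact (l1_smul_val a _ _ rfl))

theorem lc_non2 (hC : CycP p j P) (hD : Data ι S T r w fr) {l : ℕ} (hl : l.Prime) (hlp : l ≠ p)
    {v : HeightOneSpectrum (𝓞 F)} (hv : v ∉ S) (hvT : v ∉ T) (hfr : fr v ≠ 1)
    (h : LCore2 ι (Finset.cons v S hv) T P w fr l) : LCore2 ι S T P w fr l := by
  obtain ⟨c, hc, hne, b, x, hco, hint⟩ := h
  have hp := hC.prime
  set q : ℕ := Nat.card G with hq
  have hqpow : q = p ^ j := hC.card
  have hq0 : q ≠ 0 := by rw [hqpow]; exact pow_ne_zero _ hp.ne_zero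
  have hqQ : (q : ℚ) ≠ 0 := by exact_mod_cast hq0
  have hqC : (q : ℂ) ≠ 0 := by exact_mod_cast hq0
  have hg : (fr v)⁻¹ ≠ 1 := by simpa using hfr
  have hgq : (fr v)⁻¹ ^ q = 1 := pow_card_eq_one'
  have hχ2 : ∀ χ : G →* ℂˣ, Fth P χ → (1 - (χ (fr v) : ℂ)) ≠ 0 := fun χ hχ h =>
    fth_ne hC hχ hfr (by
      ext
      rw [Units.val_one]
      linear_combination -h)
  refine ⟨fun χ => c χ / (1 - (χ (fr v) : ℂ)), leadf_non hC hv hfr hc, fun χ hχ =>
    div_ne_zero (hne χ hχ) (hχ2 χ hχ), ?_⟩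
  let b' : Fin r → UM ι S T := fun i => UM.mk (b i).val (lc1_mem hC hD hv hfr (hco.minus i))
  have hb' : ∀ i, (b' i).val = (b i).val := fun i => rfl
  let x' : MonoidAlgebra ℚ G := MonoidAlgebra.single 1 ((q : ℚ)⁻¹) *
    (x * toQ G (l1_h q (fr v)⁻¹))
  have hw : wmat ι S T w b' = wmat ι (Finset.cons v S hv) T w b := by
    unfold wmat
    ext1 i k
    rfl
  refine ⟨b', x', ⟨fun i => ?_, ?_, fun χ hχ => ?_⟩, fun ψ => ?_⟩
  · apply UM.ext
    rw [l1_smul_val (nP P) (b' i) (b i) rfl, hco.minus i]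
    rfl
  · show toQ G (nP P) * (MonoidAlgebra.single 1 ((q : ℚ)⁻¹) * (x * toQ G (l1_h q (fr v)⁻¹))) = 0
    have h1 := hco.xminus
    calc _ = MonoidAlgebra.single 1 ((q : ℚ)⁻¹) * toQ G (l1_h q (fr v)⁻¹) *
          (toQ G (nP P) * x) := by ring
      _ = 0 := by rw [h1, mul_zero]
  · have h1 := lc1_h χ hgq (fth_ne hC hχ hg)
    have h2 := hχ2 χ⁻¹ (fth_inv hχ)
    have h3 : ((χ (fr v)⁻¹ : ℂˣ) : ℂ) = ((χ⁻¹ (fr v) : ℂˣ) : ℂ) := by
      rw [map_inv]
      rfl
    rw [h3] at h1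
    have h4 := hco.value χ hχ
    show evQ χ (MonoidAlgebra.single 1 ((q : ℚ)⁻¹) * (x * toQ G (l1_h q (fr v)⁻¹))) *
      evR χ (wmat ι S T w b').det = c χ⁻¹ / (1 - ((χ⁻¹ (fr v) : ℂˣ) : ℂ))
    rw [hw, map_mul, map_mul, l1_evQ_single, eq_div_iff h2, ← h4, map_one, Units.val_one]
    push_cast
    have h5 : (q : ℂ)⁻¹ * q = 1 := inv_mul_cancel₀ hqC
    linear_combination (evQ χ x * evR χ (wmat ι (Finset.cons v S hv) T w b).det * (q : ℂ)⁻¹) * h1
      + (evQ χ x * evR χ (wmat ι (Finset.cons v S hv) T w b).det) * h5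
  · obtain ⟨k, a, hk, hka⟩ := hint (fun i => (ψ i).comp (lc1_map hC hD hv hfr))
    have h1 : ∀ i, lc1_map hC hD hv hfr (b i) =
        (MonoidAlgebra.single 1 (p : ℤ) : MonoidAlgebra ℤ G) • b' i := by
      intro i
      apply UM.ext
      show ((MonoidAlgebra.single 1 (p : ℤ) - nP P : MonoidAlgebra ℤ G) • b i).val = _
      rw [sub_smul, hco.minus i, sub_zero]
      exact l1_smul_val _ _ _ rfl
    have h2 : pmat (fun i => (ψ i).comp (lc1_map hC hD hv hfr)) b =
        (MonoidAlgebra.single 1 (p : ℤ) : MonoidAlgebra ℤ G) • pmat ψ b' := by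
      ext1 i k
      show ψ i (lc1_map hC hD hv hfr (b k)) = _
      rw [h1, map_smul]
      rfl
    rw [h2, Matrix.det_smul, Fintype.card_fin, map_mul, map_pow, l1_toQ_single, l1_scal] at hka
    refine ⟨k * p ^ r * q, a * l1_h q (fr v)⁻¹, ?_, ?_⟩
    · rw [hqpow, hl.dvd_mul, hl.dvd_mul]
      rintro ((h | h) | h)
      · exact hk h
      · exact hlp ((Nat.prime_dvd_prime_iff_eq hl hp).1 (hl.dvd_of_dvd_pow h))
      · exact hlp ((Nat.prime_dvd_prime_iff_eq hl hp).1 (hl.dvd_of_dvd_pow h))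
    · rw [map_mul, ← hka]
      have e1 : MonoidAlgebra.single (1 : G) ((k * p ^ r * q : ℕ) : ℚ) =
          MonoidAlgebra.single (1 : G) (k : ℚ) * MonoidAlgebra.single (1 : G) (((p : ℤ) : ℚ) ^ r) *
            MonoidAlgebra.single (1 : G) (q : ℚ) := by
        rw [MonoidAlgebra.single_mul_single, MonoidAlgebra.single_mul_single, one_mul, one_mul]
        push_cast
        ring_nf
      have e2 : MonoidAlgebra.single (1 : G) (q : ℚ) * MonoidAlgebra.single (1 : G) ((q : ℚ)⁻¹) = 1 := by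
        rw [MonoidAlgebra.single_mul_single, one_mul, mul_inv_cancel₀ hqQ]
        rfl
      rw [e1]
      show _ * (MonoidAlgebra.single 1 ((q : ℚ)⁻¹) * (x * toQ G (l1_h q (fr v)⁻¹)) *
        toQ G (pmat ψ b').det) = _
      linear_combination (MonoidAlgebra.single (1 : G) (k : ℚ) *
        MonoidAlgebra.single (1 : G) (((p : ℤ) : ℚ) ^ r) * x * toQ G (l1_h q (fr v)⁻¹) *
        toQ G (pmat ψ b').det) * e2

end LC1b

end Pool.Agent.RS2
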