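import Pool.Agent.Lib_helper35.RS2.Defs2
import Pool.Agent.Lib_helper17.RS.P_UP1
import Pool.Agent.Lib_helper17.RS.P_UP2
import Pool.Agent.Lib_helper17.RS.P_UP3
/-!
# Rubin-Stark: block CD, capitulation
-/

namespace Pool.Agent.RS2

open Pool.Agent.RSK

set_option linter.unusedSectionVars false

open NumberField IsDedekindDomain Filter Topology Complex

section CDBlock

variable {F H : Type} [Field F] [NumberField F] [Field H] [NumberField H] [Algebra F H]
  [IsGalois F H] {G : Type} [CommGroup G] [Fintype G] {p : ℕ} {ι : G ≃* (H ≃ₐ[F] H)}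
  {S T : Finset (HeightOneSpectrum (𝓞 F))} {r : ℕ} {w : Fin r → Pl H}
  {fr : HeightOneSpectrum (𝓞 F) → G}

/-- extension of divisors -/
noncomputable def cd_ext (F H : Type) [Field F] [NumberField F] [Field H] [NumberField H]
    [Algebra F H] : (HeightOneSpectrum (𝓞 F) →₀ ℤ) →+ (HeightOneSpectrum (𝓞 H) →₀ ℤ) where
  toFun D := Finsupp.ofSupportFinite (fun W => D (W.under (𝓞 F))) (by
    refine Set.Finite.subset (ovr_finite (H := H) D.support) fun W hW => ?_
    show W.under (𝓞 F) ∈ D.support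
    rwa [Finsupp.mem_support_iff])
  map_zero' := by
    ext W
    rfl
  map_add' D D' := by
    ext W
    rfl

theorem cd_ext_apply (D : HeightOneSpectrum (𝓞 F) →₀ ℤ) (W : HeightOneSpectrum (𝓞 H)) :
    cd_ext F H D W = D (W.under (𝓞 F)) := rfl

theorem cd_val_sum {κ : Type} (s : Finset κ) (f : κ → UM ι S T) :
    (∑ i ∈ s, f i).val = ∏ i ∈ s, (f i).val := by
  classical
  induction s using Finset.induction_on with
  | empty => rw [Finset.sum_empty, Finset.prod_empty]; rfl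
  | insert a s ha ih => rw [Finset.sum_insert ha, Finset.prod_insert ha, UM.val_add, ih]

theorem cd_nrm_val (u : UM ι S T) : (nrm G • u).val = ∏ g : G, ι g • u.val := by
  rw [nrm, Finset.sum_smul, cd_val_sum]
  exact Finset.prod_congr rfl fun g _ => um_single_smul ι S T g u

theorem cd_nrm_quot (x : Hˣ) (σ : G) : ∏ g : G, ι g • ((ι σ • x) * x⁻¹) = 1 := by
  have h : ∀ g : G, ι g • ((ι σ • x) * x⁻¹) = (ι (g * σ) • x) * (ι g • x)⁻¹ := fun g => by
    rw [smul_mul', smul_inv', map_mul, mul_smul]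
  rw [Finset.prod_congr rfl fun g _ => h g, Finset.prod_mul_distrib, Finset.prod_inv_distrib,
    mul_inv_eq_one]
  exact Equiv.prod_comp (Equiv.mulRight σ) (fun g => ι g • x)

theorem cd_kt_smul (σ : H ≃ₐ[F] H) {x : Hˣ} (hx : x ∈ KT (ovr H T)) : σ • x ∈ KT (ovr H T) := by
  intro W hW
  have hs : ((σ • x : Hˣ) : H) = σ (x : H) := rfl
  have e : ((σ • x : Hˣ) : H) - 1 = σ ((x : H) - 1) := by rw [hs, map_sub, map_one]
  have key : W.valuation H (σ ((x : H) - 1)) =
      (HeightOneSpectrum.equivOfRingEquiv (RingOfIntegers.mapRingEquiv σ.symm.toRingEquiv) W).valuation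
        H ((x : H) - 1) := by
    have h := val_equiv σ.symm.toRingEquiv W (σ ((x : H) - 1))
    have h2 : σ.symm.toRingEquiv (σ ((x : H) - 1)) = (x : H) - 1 := σ.symm_apply_apply _
    rw [h2] at h
    exact h.symm
  rw [e, key]
  refine hx _ ?_
  rw [mem_ovr, under_equiv]
  rwa [mem_ovr] at hW

/-- `x ≡ 1 mod T` and the divisor of `x` agrees outside `S` with the extension of `D` -/
def cd_P (S T : Finset (HeightOneSpectrum (𝓞 F))) (D : HeightOneSpectrum (𝓞 F) →₀ ℤ) (x : Hˣ) :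
    Prop :=
  x ∈ KT (ovr H T) ∧ ∀ W : HeightOneSpectrum (𝓞 H), W ∉ ovr H S → D (W.under (𝓞 F)) = ordv W (x : H)

theorem cd_P_add {D D' : HeightOneSpectrum (𝓞 F) →₀ ℤ} {x x' : Hˣ} (h : cd_P S T D x)
    (h' : cd_P S T D' x') : cd_P S T (D + D') (x * x') :=
  ⟨(KT _).mul_mem h.1 h'.1, fun W hW => by
    rw [Finsupp.add_apply, h.2 W hW, h'.2 W hW, ordv_mul]⟩

theorem cd_ordv_smul (σ : H ≃ₐ[F] H) (W : HeightOneSpectrum (𝓞 H)) (x : Hˣ) :
    ordv W ((σ • x : Hˣ) : H) =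
      ordv (HeightOneSpectrum.equivOfRingEquiv (RingOfIntegers.mapRingEquiv σ.symm.toRingEquiv) W)
        (x : H) := by
  have h := ordv_act σ.symm W ((σ • x : Hˣ) : H)
  have h2 : σ.symm (((σ • x : Hˣ) : H)) = (x : H) := σ.symm_apply_apply _
  rw [h2] at h
  exact h.symm

theorem cd_val_of_ordv {W : HeightOneSpectrum (𝓞 H)} {x : Hˣ} (h : ordv W (x : H) = 0) :
    W.valuation H (x : H) = 1 := by
  unfold ordv at h
  have h0 : W.valuation H (x : H) ≠ 0 := (map_ne_zero _).2 x.ne_zero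
  have h1 : WithZero.log (W.valuation H (x : H)) = 0 := by linarith
  rw [← WithZero.exp_log h0, h1]
  rfl

theorem cd_ordv_of_val {W : HeightOneSpectrum (𝓞 H)} {x : Hˣ} (h : W.valuation H (x : H) = 1) :
    ordv W (x : H) = 0 := by
  unfold ordv
  rw [h]
  simp

theorem cd_mem {D : HeightOneSpectrum (𝓞 F) →₀ ℤ} {x : Hˣ} (h : cd_P S T D x) (σ : H ≃ₐ[F] H) :
    (σ • x) * x⁻¹ ∈ Un (ovr H S) (ovr H T) := by
  refine ⟨fun W hW => ?_, (KT _).mul_mem (cd_kt_smul σ h.1) ((KT _).inv_mem h.1)⟩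
  refine cd_val_of_ordv ?_
  rw [ordv_mul, ordv_inv, cd_ordv_smul, ← h.2 W hW, ← h.2 _ (by
    rw [mem_ovr, under_equiv]
    rwa [mem_ovr] at hW), under_equiv]
  ring

/-- the class of `σ x / x` -/
noncomputable def cd_y (ι : G ≃* (H ≃ₐ[F] H)) (σ : G) {D : HeightOneSpectrum (𝓞 F) →₀ ℤ} {x : Hˣ}
    (h : cd_P S T D x) : mMinus G (UM ι S T) :=
  ⟨UM.mk ((ι σ • x) * x⁻¹) (cd_mem h (ι σ)), by
    show nrm G • _ = 0
    refine UM.ext ?_
    rw [cd_nrm_val, UM.val_mk, cd_nrm_quot]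
    rfl⟩

theorem cd_quot_mem {D : HeightOneSpectrum (𝓞 F) →₀ ℤ} {x x' : Hˣ}
    (h : cd_P S T D x) (h' : cd_P S T D x') : x * x'⁻¹ ∈ Un (ovr H S) (ovr H T) := by
  refine ⟨fun W hW => ?_, (KT _).mul_mem h.1 ((KT _).inv_mem h'.1)⟩
  refine cd_val_of_ordv ?_
  rw [ordv_mul, ordv_inv, ← h.2 W hW, ← h'.2 W hW]
  ring

theorem cd_sub_smul (σ : G) (u : UM ι S T) :
    ((MonoidAlgebra.single σ (1 : ℤ) - 1 : MonoidAlgebra ℤ G) • u).val = (ι σ • u.val) * u.val⁻¹ := by
  rw [sub_smul, one_smul, sub_eq_add_neg, UM.val_add, UM.val_neg, um_single_smul]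

theorem cd_wd (σ : G) {D : HeightOneSpectrum (𝓞 F) →₀ ℤ} {x x' : Hˣ}
    (h : cd_P S T D x) (h' : cd_P S T D x') :
    (cd_y ι σ h : UM ι S T) - (cd_y ι σ h' : UM ι S T) ∈ mSub (UM ι S T) σ := by
  refine ⟨UM.mk (x * x'⁻¹) (cd_quot_mem h h'), ?_⟩
  refine UM.ext ?_
  show ((MonoidAlgebra.single σ (1 : ℤ) - 1 : MonoidAlgebra ℤ G) • UM.mk (x * x'⁻¹)
    (cd_quot_mem h h') : UM ι S T).val = _
  rw [cd_sub_smul, sub_eq_add_neg, UM.val_add, UM.val_neg]
  show (ι σ • (x * x'⁻¹)) * (x * x'⁻¹)⁻¹ = ((ι σ • x) * x⁻¹) * ((ι σ • x') * x'⁻¹)⁻¹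
  rw [smul_mul', smul_inv', mul_inv, mul_inv, inv_inv]
  exact mul_mul_mul_comm _ _ _ _

/-- the divisors which become principal -/
noncomputable def cd_K (F H : Type) [Field F] [NumberField F] [Field H] [NumberField H]
    [Algebra F H] (S T : Finset (HeightOneSpectrum (𝓞 F))) :
    AddSubgroup (HeightOneSpectrum (𝓞 F) →₀ ℤ) :=
  Dv T ⊓ (Pr (ovr H S) (ovr H T)).comap (cd_ext F H)

theorem cd_K_exists {D : HeightOneSpectrum (𝓞 F) →₀ ℤ} (h : D ∈ cd_K F H S T) :
    ∃ x : Hˣ, cd_P S T D x := by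
  obtain ⟨_, _, x, hx, hDx⟩ := h
  exact ⟨x, hx, fun W hW => hDx W hW⟩

/-- the map from the kernel of capitulation to `M⁻ / (σ - 1) M` -/
noncomputable def cd_theta (ι : G ≃* (H ≃ₐ[F] H)) (S T : Finset (HeightOneSpectrum (𝓞 F))) (σ : G) :
    cd_K F H S T →+ mMinus G (UM ι S T) ⧸
      ((mSub (UM ι S T) σ).addSubgroupOf (mMinus G (UM ι S T))) :=
  AddMonoidHom.mk' (fun D => QuotientAddGroup.mk (cd_y ι σ (cd_K_exists D.2).choose_spec)) (by
    intro D D'
    have hP := cd_P_add (cd_K_exists D.2).choose_spec (cd_K_exists D'.2).choose_spec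
    have e1 : (QuotientAddGroup.mk (cd_y ι σ (cd_K_exists (D + D').2).choose_spec) :
        mMinus G (UM ι S T) ⧸ ((mSub (UM ι S T) σ).addSubgroupOf (mMinus G (UM ι S T)))) =
        QuotientAddGroup.mk (cd_y ι σ hP) := by
      rw [QuotientAddGroup.eq, AddSubgroup.mem_addSubgroupOf]
      have h := cd_wd (ι := ι) σ hP (cd_K_exists (D + D').2).choose_spec
      have e : ((-cd_y ι σ (cd_K_exists (D + D').2).choose_spec + cd_y ι σ hP :
          mMinus G (UM ι S T)) : UM ι S T) = (cd_y ι σ hP : UM ι S T) -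
            (cd_y ι σ (cd_K_exists (D + D').2).choose_spec : UM ι S T) := by
        push_cast
        abel
      rw [e]
      exact h
    rw [e1, ← QuotientAddGroup.mk_add]
    congr 1
    refine Subtype.ext (UM.ext ?_)
    show (ι σ • (_ * _)) * (_ * _)⁻¹ = ((ι σ • _) * _⁻¹) * ((ι σ • _) * _⁻¹)
    rw [smul_mul', mul_inv]
    exact mul_mul_mul_comm _ _ _ _)

theorem cd_gen (hp : p.Prime) (hG : Nat.card G = p) {σ : G} (hσ : σ ≠ 1) (g : G) :
    ∃ n : ℕ, σ ^ n = g := by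
  have : Fact p.Prime := ⟨hp⟩
  have h : g ∈ Subgroup.zpowers σ := mem_zpowers_of_prime_card hG hσ
  obtain ⟨n, hn⟩ := (mem_powers_iff_mem_zpowers (x := σ) (y := g)).2 h
  exact ⟨n, hn⟩

theorem cd_ker (hp : p.Prime) (hG : Nat.card G = p) (hD : DataW ι S T r w fr) {σ : G}
    (hσ : σ ≠ 1) : (cd_theta ι S T σ).ker = (Pr S T).addSubgroupOf (cd_K F H S T) := by
  ext D
  rw [AddMonoidHom.mem_ker, AddSubgroup.mem_addSubgroupOf]
  constructor
  · intro h
    have h1 : (QuotientAddGroup.mk (cd_y ι σ (cd_K_exists D.2).choose_spec) :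
        mMinus G (UM ι S T) ⧸ ((mSub (UM ι S T) σ).addSubgroupOf (mMinus G (UM ι S T)))) = 0 := h
    rw [QuotientAddGroup.eq_zero_iff, AddSubgroup.mem_addSubgroupOf] at h1
    set x := (cd_K_exists D.2).choose with hx
    have hPx : cd_P S T D.1 x := (cd_K_exists D.2).choose_spec
    obtain ⟨u, hu⟩ := h1
    have hu2 : ((MonoidAlgebra.single σ (1 : ℤ) - 1 : MonoidAlgebra ℤ G) • u : UM ι S T).val =
        (ι σ • x) * x⁻¹ := congrArg UM.val hu
    rw [cd_sub_smul] at hu2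
    have hfix : ι σ • (x * u.val⁻¹) = x * u.val⁻¹ := by
      rw [smul_mul', smul_inv']
      have e1 : ι σ • x = (ι σ • u.val) * u.val⁻¹ * x := by
        rw [hu2, inv_mul_cancel_right]
      rw [e1]
      rw [mul_comm ((ι σ • u.val) * u.val⁻¹ * x) _, mul_assoc (ι σ • u.val),
        inv_mul_cancel_left, mul_comm]
    have hfix2 : ∀ τ : H ≃ₐ[F] H, τ • (x * u.val⁻¹) = x * u.val⁻¹ := by
      intro τ
      obtain ⟨g, rfl⟩ := ι.surjective τ
      obtain ⟨n, rfl⟩ := cd_gen hp hG hσ g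
      rw [map_pow]
      induction n with
      | zero => rw [pow_zero, one_smul]
      | succ n ih => rw [pow_succ, mul_smul, hfix, ih]
    obtain ⟨y, hy⟩ := fixed_unit _ hfix2
    have hyK : y ∈ KT T := by
      rw [← kt_map (H := H), hy]
      exact (KT _).mul_mem hPx.1 ((KT _).inv_mem u.val_mem.2)
    refine ⟨D.2.1, y, hyK, fun v hv => ?_⟩
    obtain ⟨W, hW⟩ := dn_surj (H := H) (Sum.inr v : Pl F)
    rcases W with W | W
    · exact absurd hW (by simp [dn])
    · have hWv : W.under (𝓞 F) = v := by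
        have : (Sum.inr (W.under (𝓞 F)) : Pl F) = Sum.inr v := hW
        exact Sum.inr.inj this
      have hWS : W ∉ ovr H S := by rw [mem_ovr, hWv]; exact hv
      have hunr := hD.unram W (by rw [hWv]; exact hv)
      have e2 := ordv_unr hunr (y : F)
      have e3 : algebraMap F H (y : F) = ((x * u.val⁻¹ : Hˣ) : H) := by
        rw [← hy]; rfl
      rw [e3, ordv_mul, ordv_inv, cd_ordv_of_val (u.val_mem.1 W hWS), ← hPx.2 W hWS, hWv] at e2
      rw [← e2]
      ring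
  · rintro ⟨hDT, y, hy, hyD⟩
    show (QuotientAddGroup.mk (cd_y ι σ (cd_K_exists D.2).choose_spec) :
        mMinus G (UM ι S T) ⧸ ((mSub (UM ι S T) σ).addSubgroupOf (mMinus G (UM ι S T)))) = 0
    have hP : cd_P (H := H) S T D.1 (Units.map (algebraMap F H : F →* H) y) := by
      refine ⟨(kt_map y).2 hy, fun W hW => ?_⟩
      have hW' : W.under (𝓞 F) ∉ S := by rwa [mem_ovr] at hW
      rw [hyD _ hW']
      exact (ordv_unr (hD.unram W hW') (y : F)).symm
    have h := cd_wd (ι := ι) σ (cd_K_exists D.2).choose_spec hP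
    rw [QuotientAddGroup.eq_zero_iff, AddSubgroup.mem_addSubgroupOf]
    have h0 : (cd_y ι σ hP : UM ι S T) = 0 := by
      refine UM.ext ?_
      show (ι σ • (Units.map (algebraMap F H : F →* H) y)) *
        (Units.map (algebraMap F H : F →* H) y)⁻¹ = 1
      have e : ι σ • (Units.map (algebraMap F H : F →* H) y) =
          Units.map (algebraMap F H : F →* H) y := by
        ext
        exact (ι σ).commutes (y : F)
      rw [e, mul_inv_cancel]
    rw [h0, sub_zero] at h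
    exact h

theorem cd_Pr_le (hD : DataW ι S T r w fr) : Pr S T ≤ cd_K F H S T := by
  rintro D ⟨hDT, y, hy, hyD⟩
  refine ⟨hDT, fun W hW => ?_, Units.map (algebraMap F H : F →* H) y, (kt_map y).2 hy,
    fun W hW => ?_⟩
  · rw [cd_ext_apply]
    exact hDT _ (mem_ovr.1 hW)
  · have hW' : W.under (𝓞 F) ∉ S := by rwa [mem_ovr] at hW
    rw [cd_ext_apply, hyD _ hW']
    exact (ordv_unr (hD.unram W hW') (y : F)).symm

theorem cap_dvd (hp : p.Prime) (hG : Nat.card G = p) (hD : DataW ι S T r w fr) {σ : G}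
    (hσ : σ ≠ 1) :
    hA S T ∣ hA (ovr H S) (ovr H T) * (mSub (UM ι S T) σ).relIndex (mMinus G (UM ι S T)) := by
  have h1 : (Pr S T).relIndex (cd_K F H S T) * (cd_K F H S T).relIndex (Dv T) =
      (Pr S T).relIndex (Dv T) :=
    AddSubgroup.relIndex_mul_relIndex _ _ _ (cd_Pr_le hD) inf_le_left
  have h2 : (Pr S T).relIndex (cd_K F H S T) ∣
      (mSub (UM ι S T) σ).relIndex (mMinus G (UM ι S T)) := by
    have e1 : (Pr S T).relIndex (cd_K F H S T) = Nat.card (cd_theta ι S T σ).range := by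
      rw [← AddSubgroup.index_ker, cd_ker hp hG hD hσ]
      rfl
    rw [e1]
    exact AddSubgroup.card_addSubgroup_dvd_card _
  have h3 : (cd_K F H S T).relIndex (Dv T) ∣ hA (ovr H S) (ovr H T) := by
    have e1 : (cd_K F H S T).relIndex (Dv T) =
        ((Pr (ovr H S) (ovr H T)).comap (cd_ext F H)).relIndex (Dv T) := by
      rw [cd_K, AddSubgroup.inf_relIndex_left]
    rw [e1, AddSubgroup.relIndex_comap]
    have hle : (Dv T).map (cd_ext F H) ≤ Dv (ovr H T) := by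
      rintro _ ⟨D, hDT, rfl⟩ W hW
      rw [cd_ext_apply]
      exact hDT _ (mem_ovr.1 hW)
    rw [← AddSubgroup.relIndex_addSubgroupOf hle]
    exact AddSubgroup.relIndex_dvd_index_of_normal _ _
  rw [hA, ← h1, mul_comm]
  exact mul_dvd_mul h3 h2

end CDBlock

end Pool.Agent.RS2
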