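import Pool.Agent.Lib_helper35.RS2.Defs2
import Pool.Agent.Lib_helper17.RS.P_AD1
import Pool.Agent.Lib_helper17.RS.P_PF
import Pool.Agent.Lib_helper35.RS2.K_PH
import Pool.Agent.Lib_helper17.RS.P_RB
/-!
# Rubin-Stark, block RF1: regulators for `H/F`
-/

namespace Pool.Agent.RS2

open Pool.Agent.RSK

set_option linter.unusedSectionVars false

open NumberField NumberField.InfinitePlace NumberField.Units IsDedekindDomain Filter Topology
  Complex

section DEGP

variable {F H : Type} [Field F] [NumberField F] [Field H] [NumberField H] [Algebra F H]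
  [IsGalois F H] {G : Type} [CommGroup G] [Fintype G] {p : ℕ} {ι : G ≃* (H ≃ₐ[F] H)}
  {S T : Finset (HeightOneSpectrum (𝓞 F))} {r : ℕ} {w : Fin r → Pl H}
  {fr : HeightOneSpectrum (𝓞 F) → G}

/-- the additive map `u ↦ log |u|_W` -/
noncomputable def rf1_lg (ι : G ≃* (H ≃ₐ[F] H)) (S T : Finset (HeightOneSpectrum (𝓞 F)))
    (W : Pl H) : UM ι S T →+ ℝ where
  toFun u := lg W (u.val : H)
  map_zero' := by rw [UM.val_zero, Units.val_one, lg_one]
  map_add' u v := by rw [UM.val_add, Units.val_mul, lg_mul _ u.val.ne_zero v.val.ne_zero]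

theorem rf1_sum {u : UM ι S T} (hu : nrm G • u = 0) (W : Pl H) :
    ∑ γ : G, lg W ((ι γ • u.val : Hˣ) : H) = 0 := by
  have h := congrArg (rf1_lg ι S T W) hu
  rw [map_zero, nrm, Finset.sum_smul, map_sum] at h
  rw [← h]
  refine Finset.sum_congr rfl fun γ _ => ?_
  show _ = lg W ((MonoidAlgebra.single γ (1 : ℤ) • u : UM ι S T).val : H)
  rw [um_single_smul]

/-- `log |g u|_{γ W} = log |u|_{g⁻¹ γ W}` -/
theorem rf1_lg_act (g γ : G) (W : Pl H) (x : Hˣ) :
    lg (act (ι γ) W) ((ι g • x : Hˣ) : H) = lg (act (ι (g⁻¹ * γ)) W) (x : H) := by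
  have h : act (ι γ) W = act (ι g) (act (ι (g⁻¹ * γ)) W) := by
    rw [← act_mul, ← map_mul, mul_inv_cancel_left]
  rw [h]
  exact lg_act (ι g) _ (x : H)

theorem rf1_sum' {u : UM ι S T} (hu : nrm G • u = 0) (W : Pl H) :
    ∑ γ : G, lg (act (ι γ) W) (u.val : H) = 0 := by
  rw [← rf1_sum hu W, ← Equiv.sum_comp (Equiv.inv G)]
  refine Finset.sum_congr rfl fun γ _ => ?_
  have h := rf1_lg_act (ι := ι) γ 1 W u.val
  rw [map_one, act_one, mul_one] at h
  rw [h]
  rfl

/-- elements of norm zero are units at the places which do not split -/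
theorem rf1_zero {u : UM ι S T} (hu : nrm G • u = 0) {W : Pl H}
    (hW : ∀ σ : H ≃ₐ[F] H, act σ W = W) : lg W (u.val : H) = 0 := by
  have h := rf1_sum' hu W
  have h2 : ∀ γ : G, lg (act (ι γ) W) (u.val : H) = lg W (u.val : H) := fun γ => by rw [hW]
  rw [Finset.sum_congr rfl fun γ _ => h2 γ, Finset.sum_const, nsmul_eq_mul] at h
  rcases mul_eq_zero.1 h with h3 | h3
  · have : (Finset.univ : Finset G).card ≠ 0 := by
      rw [Finset.card_univ]
      exact Fintype.card_ne_zero
    exact absurd (Nat.cast_eq_zero.1 h3) this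
  · exact h3

theorem rf1_zero' {u : UM ι S T} (hu : nrm G • u = 0) {W : Pl H}
    (hW : ∀ σ : H ≃ₐ[F] H, act σ W = W) (g : G) : lg W ((ι g • u.val : Hˣ) : H) = 0 := by
  have h := rf1_lg_act (ι := ι) g 1 W u.val
  rw [map_one, act_one, hW] at h
  rw [h, rf1_zero hu hW]

theorem rf1_ev (χ : G →* ℂˣ) (b : Fin r → UM ι S T) :
    evR χ (wmat ι S T w b).det = Matrix.det (Matrix.of fun i j : Fin r =>
      ∑ γ, ((lg (act (ι γ) (w i)) ((b j).val : H) : ℝ) : ℂ) * (χ γ : ℂ)) := by
  rw [AlgHom.map_det]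
  congr 1
  ext i j
  rw [AlgHom.mapMatrix_apply, Matrix.map_apply, wmat, Matrix.of_apply, Matrix.of_apply]
  show evR χ (∑ γ : G, MonoidAlgebra.single γ (lg (act (ι γ) (w i)) ((b j).val : H))) = _
  rw [map_sum]
  refine Finset.sum_congr rfl fun γ _ => ?_
  rw [evR, MonoidAlgebra.lift_single]
  rfl

theorem reg_HF (hp : p.Prime) (hG : Nat.card G = p) (hD : DataW ι S T r w fr) {σ : G} (hσ : σ ≠ 1)
    {m : ℕ} (hm : Fintype.card (PS S) = r + m + 1) {n : ℕ} (hn : n + 1 = Fintype.card (PS S))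
    (a : Fin n → Fˣ) (ha : ∀ j, a j ∈ Un S T) (b : Fin r → UM ι S T)
    (hb : ∀ j, nrm G • b j = 0) :
    regS (ovr H S) (Sum.elim (fun j => Units.map (algebraMap F H : F →* H) (a j))
      (fun j : Fin r × Fin (p - 1) => ι (σ ^ (j.2 : ℕ)) • (b j.1).val)) =
      (p : ℝ) ^ m * regS S a * ‖pX (fun χ : G →* ℂˣ => evR χ (wmat ι S T w b).det)‖ := by
  obtain ⟨m', eH, eF, h1, h2, h3, h4, h5, h6⟩ := places_HF hp hG hD
  have hcF : Fintype.card (PS S) = r + m' := by
    rw [← Fintype.card_congr eF, Fintype.card_sum, Fintype.card_fin, Fintype.card_fin]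
  have hm' : m' = m + 1 := by omega
  have hcH : Fintype.card (PS (ovr H S)) = p * r + m' := by
    rw [← Fintype.card_congr eH, Fintype.card_sum, Fintype.card_prod, Fintype.card_fin,
      Fintype.card_fin, ← hG, Nat.card_eq_fintype_card, mul_comm]
  have key := reg_id hp hG hσ (r := r) (m := m') (by omega) (Q := Fin n)
    (by rw [Fintype.card_fin, hn, hcF])
    (fun j i => lg (dn F (w i)) (a j : F)) (fun j q => lg (dn F (eH (Sum.inr q)).pl) (a j : F))
    (fun j => by
      have h := sum_lg (ha j)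
      rw [← Equiv.sum_comp eF, Fintype.sum_sum_type] at h
      rw [← h]
      congr 1
      · exact Finset.sum_congr rfl fun i _ => by rw [h2]
      · exact Finset.sum_congr rfl fun q _ => by rw [h3])
    (fun i j γ => lg (act (ι γ) (w i)) ((b j).val : H))
    (fun i j => rf1_sum' (hb j) (w i))
  have e1 : adet (lmat (ovr H S) (Sum.elim (fun j => Units.map (algebraMap F H : F →* H) (a j))
      (fun j : Fin r × Fin (p - 1) => ι (σ ^ (j.2 : ℕ)) • (b j.1).val))) =
      adet (hmat p σ (fun j i => lg (dn F (w i)) (a j : F))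
        (fun j q => lg (dn F (eH (Sum.inr q)).pl) (a j : F))
        (fun i j γ => lg (act (ι γ) (w i)) ((b j).val : H))) := by
    rw [← adet_reindex eH (Equiv.refl _)]
    congr 1
    funext i j
    rcases i with ⟨i, γ⟩ | q
    · rcases j with _ | j | ⟨j, k⟩
      · rfl
      · show lg (eH (Sum.inl (i, γ))).pl (algebraMap F H (a j : F)) = lg (dn F (w i)) (a j : F)
        rw [h1, h5]
      · show lg (eH (Sum.inl (i, γ))).pl ((ι (σ ^ (k : ℕ)) • (b j).val : Hˣ) : H) =
          lg (act (ι ((σ ^ (k : ℕ))⁻¹ * γ)) (w i)) ((b j).val : H)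
        rw [h1, rf1_lg_act]
    · rcases j with _ | j | ⟨j, k⟩
      · rfl
      · show lg (eH (Sum.inr q)).pl (algebraMap F H (a j : F)) =
          p * lg (dn F (eH (Sum.inr q)).pl) (a j : F)
        rw [h6]
      · show lg (eH (Sum.inr q)).pl ((ι (σ ^ (k : ℕ)) • (b j).val : Hˣ) : H) = 0
        exact rf1_zero' (hb j) (h4 q) _
  have e2 : adet (lmat S a) = adet (fmat (fun j i => lg (dn F (w i)) (a j : F))
      (fun j q => lg (dn F (eH (Sum.inr q)).pl) (a j : F))) := by
    rw [← adet_reindex eF (Equiv.refl _)]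
    congr 1
    funext i j
    rcases i with i | q
    · rcases j with _ | j
      · rfl
      · show lg (eF (Sum.inl i)).pl (a j : F) = lg (dn F (w i)) (a j : F)
        rw [h2]
    · rcases j with _ | j
      · rfl
      · show lg (eF (Sum.inr q)).pl (a j : F) = lg (dn F (eH (Sum.inr q)).pl) (a j : F)
        rw [h3]
  have e3 : pX (fun χ : G →* ℂˣ => evR χ (wmat ι S T w b).det) =
      pX (fun χ : G →* ℂˣ => Matrix.det (Matrix.of fun i j : Fin r =>
        ∑ γ, ((lg (act (ι γ) (w i)) ((b j).val : H) : ℝ) : ℂ) * (χ γ : ℂ))) := by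
    congr 1
    funext χ
    exact rf1_ev χ b
  rw [regS, regS, e1, e2, e3, hcH, hcF]
  have hm2 : m = m' - 1 := by omega
  rw [hm2]
  push_cast at key ⊢
  exact key

end DEGP

end Pool.Agent.RS2
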