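import Pool.Agent.Lib_helper35.RS2.Defs2
import Pool.Agent.Lib_helper17.RS.P_UP1
import Pool.Agent.Lib_helper17.RS.P_UP2
import Pool.Agent.Lib_helper35.RS2.K_PH
import Pool.Agent.Lib_helper17.RS.P_XF
import Pool.Agent.Lib_helper17.RS.P_CN
import Pool.Agent.Lib_helper35.RS2.K_UR
/-!
# Rubin-Stark, block RF2: the regulator and the index (helper48)

Uses `un_map`, `fixed_unit`, `reg_index`, `reg_index_zero`, `places_HF`, `cnf`, `tf_H`, `tf_F`.
-/

namespace Pool.Agent.RS2

open Pool.Agent.RSK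

set_option linter.unusedSectionVars false

open NumberField NumberField.InfinitePlace NumberField.Units IsDedekindDomain Filter Topology
  Complex

section DEGP

variable {F H : Type} [Field F] [NumberField F] [Field H] [NumberField H] [Algebra F H]
  [IsGalois F H] {G : Type} [CommGroup G] [Fintype G] {p : ℕ} {ι : G ≃* (H ≃ₐ[F] H)}
  {S T : Finset (HeightOneSpectrum (𝓞 F))} {r : ℕ} {w : Fin r → Pl H}
  {fr : HeightOneSpectrum (𝓞 F) → G}

/-- the inclusion `U_F → U_H` -/
noncomputable def rf2_inc (ι : G ≃* (H ≃ₐ[F] H)) (S T : Finset (HeightOneSpectrum (𝓞 F))) :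
    Additive (Un S T) →+ UM ι S T where
  toFun y := UM.mk (Units.map (algebraMap F H : F →* H) ((Additive.toMul y : Un S T) : Fˣ))
    ((un_map _).2 (Additive.toMul y : Un S T).2)
  map_zero' := UM.ext (by
    rw [UM.val_mk, UM.val_zero]
    simp)
  map_add' x y := UM.ext (by
    rw [UM.val_mk, UM.val_add, UM.val_mk, UM.val_mk]
    simp)

theorem rf2_inc_val (y : Additive (Un S T)) : (rf2_inc ι S T y).val =
    Units.map (algebraMap F H : F →* H) ((Additive.toMul y : Un S T) : Fˣ) := rfl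

/-- the family -/
noncomputable def rf2_fam {nF : ℕ} (bF : Module.Basis (Fin nF) ℤ (Additive (Un S T))) (σ : G)
    (p : ℕ) (b : Fin r → UM ι S T) : Fin nF ⊕ (Fin r × Fin (p - 1)) → UM ι S T :=
  Sum.elim (fun j => rf2_inc ι S T (bF j))
    (fun j => MonoidAlgebra.single (σ ^ (j.2 : ℕ)) (1 : ℤ) • b j.1)

theorem rf2_plus (u : UM ι S T) (hu : u ∈ mPlus G (UM ι S T)) :
    ∃ y : Additive (Un S T), rf2_inc ι S T y = u := by
  have h : ∀ τ : H ≃ₐ[F] H, τ • u.val = u.val := fun τ => by
    have h := hu (ι.symm τ)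
    have h2 := congrArg UM.val h
    rw [um_single_smul, MulEquiv.apply_symm_apply] at h2
    exact h2
  obtain ⟨y, hy⟩ := fixed_unit u.val h
  have hy' : y ∈ Un S T := by
    rw [← un_map (H := H), hy]
    exact u.val_mem
  refine ⟨Additive.ofMul ⟨y, hy'⟩, UM.ext ?_⟩
  rw [rf2_inc_val]
  exact hy

theorem rf2_inc_plus (y : Additive (Un S T)) : rf2_inc ι S T y ∈ mPlus G (UM ι S T) := by
  intro g
  refine UM.ext ?_
  rw [um_single_smul, rf2_inc_val]
  ext
  exact (ι g).commutes _

theorem rf2_inc_mem {nF : ℕ} (bF : Module.Basis (Fin nF) ℤ (Additive (Un S T))) (σ : G)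
    (p : ℕ) (b : Fin r → UM ι S T) (y : Additive (Un S T)) :
    rf2_inc ι S T y ∈ AddSubgroup.closure (Set.range (rf2_fam bF σ p b)) := by
  rw [← bF.sum_repr y, map_sum]
  refine AddSubgroup.sum_mem _ fun j _ => ?_
  rw [map_zsmul]
  have h : rf2_inc ι S T (bF j) ∈ AddSubgroup.closure (Set.range (rf2_fam bF σ p b)) :=
    AddSubgroup.subset_closure ⟨Sum.inl j, rfl⟩
  exact AddSubgroup.zsmul_mem _ h _

theorem rf2_smul_mem (hp : p.Prime) (hG : Nat.card G = p) {σ : G} (hσ : σ ≠ 1) {nF : ℕ}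
    (bF : Module.Basis (Fin nF) ℤ (Additive (Un S T))) (b : Fin r → UM ι S T)
    (hb : ∀ j, nrm G • b j = 0) (x : MonoidAlgebra ℤ G) (j : Fin r) :
    x • b j ∈ AddSubgroup.closure (Set.range (rf2_fam bF σ p b)) := by
  set A := AddSubgroup.closure (Set.range (rf2_fam bF σ p b)) with hA
  have horder : orderOf σ = p := by
    have h1 : orderOf σ ∣ p := hG ▸ orderOf_dvd_natCard σ
    rcases (Nat.dvd_prime hp).1 h1 with h | h
    · exact absurd (orderOf_eq_one_iff.1 h) hσ
    · exact h
  have hsm : ∀ k : ℕ, k < p - 1 → MonoidAlgebra.single (σ ^ k) (1 : ℤ) • b j ∈ A := fun k hk =>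
    AddSubgroup.subset_closure ⟨Sum.inr (j, ⟨k, hk⟩), rfl⟩
  have hbij : Function.Bijective (fun k : Fin p => σ ^ (k : ℕ)) := by
    have : Fintype.card (Fin p) = Fintype.card G := by
      rw [Fintype.card_fin, ← Nat.card_eq_fintype_card, hG]
    rw [Fintype.bijective_iff_injective_and_card]
    refine ⟨fun k l hkl => ?_, this⟩
    have h := pow_injOn_Iio_orderOf (x := σ) (by
      show (k : ℕ) < orderOf σ
      rw [horder]
      exact k.2) (by
      show (l : ℕ) < orderOf σ
      rw [horder]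
      exact l.2) hkl
    exact Fin.ext h
  have hone : ∀ g : G, MonoidAlgebra.single g (1 : ℤ) • b j ∈ A := by
    intro g
    obtain ⟨k, rfl⟩ := hbij.2 g
    show MonoidAlgebra.single (σ ^ (k : ℕ)) (1 : ℤ) • b j ∈ A
    by_cases hk : (k : ℕ) < p - 1
    · exact hsm k hk
    · have hk' : (k : ℕ) = p - 1 := by
        have := k.2
        omega
      rw [hk']
      have hsum : nrm G • b j =
          ∑ k ∈ Finset.range p, MonoidAlgebra.single (σ ^ k) (1 : ℤ) • b j := by
        unfold nrm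
        rw [Finset.sum_smul, Finset.sum_range]
        exact (Function.Bijective.sum_comp hbij
          (fun g => MonoidAlgebra.single g (1 : ℤ) • b j)).symm
      rw [hb j] at hsum
      obtain ⟨q, rfl⟩ : ∃ q, p = q + 1 := ⟨p - 1, by have := hp.pos; omega⟩
      rw [Finset.sum_range_succ] at hsum
      have h : MonoidAlgebra.single (σ ^ (q + 1 - 1)) (1 : ℤ) • b j =
          -∑ k ∈ Finset.range q, MonoidAlgebra.single (σ ^ k) (1 : ℤ) • b j := by
        rw [eq_neg_iff_add_eq_zero, add_comm]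
        exact hsum.symm
      rw [h]
      refine A.neg_mem (A.sum_mem fun k hk => hsm k ?_)
      have := Finset.mem_range.1 hk
      omega
  induction x using MonoidAlgebra.induction_on with
  | of g => exact hone g
  | add x y hx hy =>
    rw [add_smul]
    exact A.add_mem hx hy
  | smul c x hx =>
    rw [smul_assoc]
    exact A.zsmul_mem hx c

theorem rf2_closure (hp : p.Prime) (hG : Nat.card G = p) {σ : G} (hσ : σ ≠ 1) {nF : ℕ}
    (bF : Module.Basis (Fin nF) ℤ (Additive (Un S T))) (b : Fin r → UM ι S T)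
    (hb : ∀ j, nrm G • b j = 0) :
    mPlus G (UM ι S T) ⊔ mSpn G b = AddSubgroup.closure (Set.range (rf2_fam bF σ p b)) := by
  refine le_antisymm (sup_le ?_ ?_) ?_
  · intro u hu
    obtain ⟨y, rfl⟩ := rf2_plus u hu
    exact rf2_inc_mem bF σ p b y
  · intro u hu
    have hu' : u ∈ Submodule.span (MonoidAlgebra ℤ G) (Set.range b) := hu
    obtain ⟨c, rfl⟩ := (Submodule.mem_span_range_iff_exists_fun _).1 hu'
    exact AddSubgroup.sum_mem _ fun j _ => rf2_smul_mem hp hG hσ bF b hb (c j) j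
  · rw [AddSubgroup.closure_le]
    rintro _ ⟨j, rfl⟩
    rcases j with j | j
    · exact AddSubgroup.mem_sup_left (rf2_inc_plus _)
    · refine AddSubgroup.mem_sup_right ?_
      show MonoidAlgebra.single (σ ^ (j.2 : ℕ)) (1 : ℤ) • b j.1 ∈
        Submodule.span (MonoidAlgebra ℤ G) (Set.range b)
      exact Submodule.smul_mem _ _ (Submodule.subset_span ⟨j.1, rfl⟩)

theorem reg_idx (hp : p.Prime) (hG : Nat.card G = p) (hD : DataW ι S T r w fr) {σ : G} (hσ : σ ≠ 1)
    {nF nH : ℕ} (bF : Module.Basis (Fin nF) ℤ (Additive (Un S T)))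
    (bH : Module.Basis (Fin nH) ℤ (Additive (Un (ovr H S) (ovr H T)))) (b : Fin r → UM ι S T)
    (hb : ∀ j, nrm G • b j = 0) :
    regS (ovr H S) (Sum.elim (fun j => Units.map (algebraMap F H : F →* H) (bu bF j))
      (fun j : Fin r × Fin (p - 1) => ι (σ ^ (j.2 : ℕ)) • (b j.1).val)) =
      (mPlus G (UM ι S T) ⊔ mSpn G b).index * regS (ovr H S) (bu bH) := by
  obtain ⟨hTH, hDH⟩ := tf_H hD
  have hTF : TFree S T := tf_F (H := H) hTH
  obtain ⟨hnF, -⟩ := cnf hD.disj hTF bF
  obtain ⟨hnH, -⟩ := cnf hDH hTH bH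
  obtain ⟨m, eH, eF, -⟩ := places_HF hp hG hD
  have hcH : Fintype.card (PS (ovr H S)) = r * p + m := by
    rw [← Fintype.card_congr eH, Fintype.card_sum, Fintype.card_prod, Fintype.card_fin,
      Fintype.card_fin, ← Nat.card_eq_fintype_card (α := G), hG]
  have hcF : Fintype.card (PS S) = r + m := by
    rw [← Fintype.card_congr eF, Fintype.card_sum, Fintype.card_fin, Fintype.card_fin]
  have hQ : Fintype.card (Fin nH) = Fintype.card (Fin nF ⊕ (Fin r × Fin (p - 1))) := by
    rw [Fintype.card_sum, Fintype.card_prod, Fintype.card_fin, Fintype.card_fin, Fintype.card_fin,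
      Fintype.card_fin]
    have h1 : r * p = r * (p - 1) + r := by
      obtain ⟨q, rfl⟩ : ∃ q, p = q + 1 := ⟨p - 1, by have := hp.pos; omega⟩
      rw [Nat.add_sub_cancel, mul_add, mul_one]
    omega
  set u : Fin nF ⊕ (Fin r × Fin (p - 1)) → Un (ovr H S) (ovr H T) :=
    fun j => Additive.toMul (α := Un (ovr H S) (ovr H T)) (rf2_fam bF σ p b j) with hu
  have hidx : (Subgroup.closure (Set.range u)).index = (mPlus G (UM ι S T) ⊔ mSpn G b).index := by
    rw [rf2_closure hp hG hσ bF b hb]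
    have h := Subgroup.toAddSubgroup_closure (Set.range u)
    have h2 : (AddSubgroup.closure (Set.range (rf2_fam bF σ p b))) =
        Subgroup.toAddSubgroup (Subgroup.closure (Set.range u)) := by
      rw [h]
      rfl
    rw [h2]
    rfl
  have hfam : (Sum.elim (fun j => Units.map (algebraMap F H : F →* H) (bu bF j))
      (fun j : Fin r × Fin (p - 1) => ι (σ ^ (j.2 : ℕ)) • (b j.1).val)) =
      fun j => ((u j : Un (ovr H S) (ovr H T)) : Hˣ) := by
    funext j
    rcases j with j | j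
    · rfl
    · exact (um_single_smul ι S T (σ ^ (j.2 : ℕ)) (b j.1)).symm
  rw [hfam]
  by_cases h0 : (Subgroup.closure (Set.range u)).index = 0
  · rw [reg_index_zero bH u hQ h0, ← hidx, h0, Nat.cast_zero, zero_mul]
  · have h := reg_index (S := ovr H S) bH u hQ rfl h0
    rw [h, hidx]
    rfl

end DEGP

end Pool.Agent.RS2
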