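import Pool.Agent.Lib_helper35.RS2.Defs2
import Pool.Agent.Lib_helper17.RS.P_PX1
import Pool.Agent.Lib_helper17.RS.P_PX2
import Pool.Agent.Lib_helper17.RS.P_IA
import Pool.Agent.Lib_helper17.RS.P_IB
import Pool.Agent.Lib_helper17.RS.P_CN
import Pool.Agent.Lib_helper35.RS2.K_UR
import Pool.Agent.Lib_helper35.RS2.K_CD
import Pool.Agent.Lib_helper35.RS2.K_NM1
/-!
# Rubin-Stark: block NM2 (integrality of norms)
-/

namespace Pool.Agent.RS2

open Pool.Agent.RSK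

set_option linter.unusedSectionVars false

open NumberField NumberField.InfinitePlace NumberField.Units IsDedekindDomain Filter Topology
  Complex

section DEGP

variable {F H : Type} [Field F] [NumberField F] [Field H] [NumberField H] [Algebra F H]
  [IsGalois F H] {G : Type} [CommGroup G] [Fintype G] {p : ℕ} {ι : G ≃* (H ≃ₐ[F] H)}
  {S T : Finset (HeightOneSpectrum (𝓞 F))} {r : ℕ} {w : Fin r → Pl H}
  {fr : HeightOneSpectrum (𝓞 F) → G}

theorem nm2_sigma (hp : p.Prime) (hG : Nat.card G = p) : ∃ σ : G, σ ≠ 1 := by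
  have h : 1 < Nat.card G := by rw [hG]; exact hp.one_lt
  have := (Finite.one_lt_card_iff_nontrivial).1 h
  exact exists_ne 1

theorem nm2_hA_pos (hD : DataW ι S T r w fr) : 0 < hA S T := by
  obtain ⟨htH, hdH⟩ := tf_H hD
  have htF : TFree S T := tf_F (H := H) htH
  obtain ⟨nF, ⟨bF⟩⟩ := un_exists hD.disj htF
  exact (cnf hD.disj htF bF).2.2.1

/-- `|N x| [U : U⁺ + B] h₁ = p^m k` -/
theorem nm2_main (hp : p.Prime) (hG : Nat.card G = p) (hD : DataW ι S T r w fr)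
    {m : ℕ} (hm : Fintype.card (PS S) = r + m + 1)
    {c : (G →* ℂˣ) → ℂ} (hc : LeadX S T r fr c) {b : Fin r → UM ι S T} {x : MonoidAlgebra ℚ G}
    (hco : Core ι S T w c b x) :
    ∃ k : ℕ, ‖pX (fun χ => evQ χ x)‖ * ((p : ℝ) ^ r *
      ((mSpn G b).relIndex (mMinus G (UM ι S T)) : ℝ)) = (p : ℝ) ^ m * k := by
  obtain ⟨σ, hσ⟩ := nm2_sigma hp hG
  have hfin : Module.Finite ℤ (UM ι S T) := um_finite hD
  have htf : Module.IsTorsionFree ℤ (UM ι S T) := um_tf hD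
  have hrk : Module.finrank ℤ (mMinus G (UM ι S T)) = r * (p - 1) := um_rank hp hG hD
  have h1 := idx_one hp hG hσ hrk b (fun j => hco.minus j)
  obtain ⟨k, hk⟩ := cap_dvd hp hG hD hσ
  have h2 := norm_x hp hG hD hm hc hco
  have hF : (hA S T : ℝ) ≠ 0 := Nat.cast_ne_zero.2 (nm2_hA_pos hD).ne'
  have h1' : ((mPlus G (UM ι S T) ⊔ mSpn G b).index : ℝ) *
      ((mSub (UM ι S T) σ).relIndex (mMinus G (UM ι S T)) : ℝ) =
      (p : ℝ) ^ r * ((mSpn G b).relIndex (mMinus G (UM ι S T)) : ℝ) := by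
    exact_mod_cast h1
  have hk' : (hA (ovr H S) (ovr H T) : ℝ) *
      ((mSub (UM ι S T) σ).relIndex (mMinus G (UM ι S T)) : ℝ) = (hA S T : ℝ) * k := by
    exact_mod_cast hk
  refine ⟨k, mul_left_cancel₀ hF ?_⟩
  calc (hA S T : ℝ) * (‖pX (fun χ => evQ χ x)‖ * ((p : ℝ) ^ r *
        ((mSpn G b).relIndex (mMinus G (UM ι S T)) : ℝ)))
      = (hA S T : ℝ) * (‖pX (fun χ => evQ χ x)‖ * (((mPlus G (UM ι S T) ⊔ mSpn G b).index : ℝ) *
      ((mSub (UM ι S T) σ).relIndex (mMinus G (UM ι S T)) : ℝ))) := by rw [h1']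
    _ = (‖pX (fun χ => evQ χ x)‖ * (hA S T * (mPlus G (UM ι S T) ⊔ mSpn G b).index)) *
      ((mSub (UM ι S T) σ).relIndex (mMinus G (UM ι S T)) : ℝ) := by ring
    _ = ((p : ℝ) ^ m * hA (ovr H S) (ovr H T)) *
      ((mSub (UM ι S T) σ).relIndex (mMinus G (UM ι S T)) : ℝ) := by rw [h2]
    _ = (p : ℝ) ^ m * (hA (ovr H S) (ovr H T) *
      ((mSub (UM ι S T) σ).relIndex (mMinus G (UM ι S T)) : ℝ)) := by ring
    _ = (p : ℝ) ^ m * ((hA S T : ℝ) * k) := by rw [hk']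
    _ = (hA S T : ℝ) * ((p : ℝ) ^ m * k) := by ring

/-- a complex number which is rational and has an integral absolute value -/
theorem nm2_abs {z : ℂ} (hz : ∃ q : ℚ, z = q) {n : ℤ} (hn : ‖z‖ = n) : ∃ n' : ℤ,
    (n' = n ∨ n' = -n) ∧ z = n' := by
  obtain ⟨q, rfl⟩ := hz
  have h : |(q : ℝ)| = (n : ℝ) := by
    rw [← hn]
    have : ((q : ℚ) : ℂ) = ((q : ℝ) : ℂ) := by push_cast; rfl
    rw [this, Complex.norm_real, Real.norm_eq_abs]
  rcases abs_choice (q : ℝ) with h' | h'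
  · refine ⟨n, Or.inl rfl, ?_⟩
    rw [h'] at h
    have : ((q : ℚ) : ℂ) = ((q : ℝ) : ℂ) := by push_cast; rfl
    rw [this, h]
    push_cast
    rfl
  · refine ⟨-n, Or.inr rfl, ?_⟩
    rw [h'] at h
    have : ((q : ℚ) : ℂ) = ((q : ℝ) : ℂ) := by push_cast; rfl
    rw [this, show (q : ℝ) = -(n : ℝ) by linarith]
    push_cast
    rfl

theorem nm2_evQ_toQ (χ : G →* ℂˣ) (a : MonoidAlgebra ℤ G) : evQ χ (toQ G a) = evZ χ a := rfl

theorem norm_dvd (hp : p.Prime) (hG : Nat.card G = p) (hD : DataW ι S T r w fr)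
    {m : ℕ} (hm : Fintype.card (PS S) = r + m + 1)
    {c : (G →* ℂˣ) → ℂ} (hc : LeadX S T r fr c) {b : Fin r → UM ι S T} {x : MonoidAlgebra ℚ G}
    (hco : Core ι S T w c b x)
    (ψ : Fin r → (UM ι S T →ₗ[MonoidAlgebra ℤ G] MonoidAlgebra ℤ G)) :
    ∃ t : ℤ, pX (fun χ => evQ χ (x * toQ G (pmat ψ b).det)) = (p : ℂ) ^ m * t := by
  have hfin : Module.Finite ℤ (UM ι S T) := um_finite hD
  have htf : Module.IsTorsionFree ℤ (UM ι S T) := um_tf hD
  have hrk : Module.finrank ℤ (mMinus G (UM ι S T)) = r * (p - 1) := um_rank hp hG hD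
  obtain ⟨t, ht⟩ := idx_two hp hG hrk b (fun j => hco.minus j) ψ
  obtain ⟨k, hk⟩ := nm2_main hp hG hD hm hc hco
  have h1 : pX (fun χ => evQ χ (x * toQ G (pmat ψ b).det)) =
      pX (fun χ => evQ χ x) * (t * ((p : ℂ) ^ r *
        ((mSpn G b).relIndex (mMinus G (UM ι S T)) : ℂ))) := by
    rw [← ht, ← pX_mul]
    congr 1
    funext χ
    rw [map_mul, nm2_evQ_toQ]
    rfl
  have h2 : ‖pX (fun χ => evQ χ (x * toQ G (pmat ψ b).det))‖ =
      ((|t| * ((p : ℤ) ^ m * k) : ℤ) : ℝ) := by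
    rw [h1, norm_mul, norm_mul, norm_mul, _root_.norm_pow, Complex.norm_natCast, Complex.norm_natCast,
      Complex.norm_intCast]
    push_cast
    rw [← hk]
    ring
  obtain ⟨n', hn', hn''⟩ := nm2_abs (pX_rat hp hG _) h2
  rcases abs_choice t with ht' | ht'
  · rcases hn' with h | h
    · refine ⟨t * k, ?_⟩
      rw [hn'', h, ht']
      push_cast
      ring
    · refine ⟨-(t * k), ?_⟩
      rw [hn'', h, ht']
      push_cast
      ring
  · rcases hn' with h | h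
    · refine ⟨-(t * k), ?_⟩
      rw [hn'', h, ht']
      push_cast
      ring
    · refine ⟨t * k, ?_⟩
      rw [hn'', h, ht']
      push_cast
      ring

/-- if `[U⁻ : B]` is a power of `p`, the norm of `x` is integral outside `p` -/
theorem rs_norm_pow (hp : p.Prime) (hG : Nat.card G = p) (hD : DataW ι S T r w fr)
    {m : ℕ} (hm : Fintype.card (PS S) = r + m + 1)
    {c : (G →* ℂˣ) → ℂ} (hc : LeadX S T r fr c) {b : Fin r → UM ι S T} {x : MonoidAlgebra ℚ G}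
    (hco : Core ι S T w c b x)
    (hB : ∃ e : ℕ, (mSpn G b).relIndex (mMinus G (UM ι S T)) = p ^ e) :
    ∃ (a : ℕ) (n : ℤ), (p : ℂ) ^ a * pX (fun χ => evQ χ x) = n := by
  obtain ⟨e, he⟩ := hB
  obtain ⟨k, hk⟩ := nm2_main hp hG hD hm hc hco
  rw [he] at hk
  refine ⟨r + e, ?_⟩
  obtain ⟨q, hq⟩ := pX_rat hp hG x
  have h2 : ‖(p : ℂ) ^ (r + e) * pX (fun χ => evQ χ x)‖ = (((p : ℤ) ^ m * k : ℤ) : ℝ) := by
    rw [norm_mul, _root_.norm_pow, Complex.norm_natCast]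
    push_cast
    rw [← hk]
    push_cast
    ring
  obtain ⟨n', -, hn'⟩ := nm2_abs ⟨(p : ℚ) ^ (r + e) * q, by rw [hq]; push_cast; rfl⟩ h2
  exact ⟨n', hn'⟩

end DEGP

end Pool.Agent.RS2
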