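import Pool.Agent.Lib_helper35.RS2.K_NM1
import Pool.Agent.Lib_helper35.RS2.K_NM2
import Pool.Agent.Lib_helper17.RS.P_PX1
import Pool.Agent.Lib_helper17.RS.P_PX2
import Pool.Agent.Lib_helper35.RS2.P_CE
import Pool.Agent.Lib_helper35.RS2.P_B7
import Pool.Agent.Lib_helper35.RS2.P_LC2
import Pool.Agent.Lib_helper35.RS2.P_B4
import Pool.Agent.Lib_helper35.RS2.P_LE
import Pool.Agent.Lib_helper35.RS2.P_PE
import Pool.Agent.Lib_helper35.RS2.Bas2
import Pool.Agent.Lib_helper35.RS2.Defs2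

/-!
# RS2, block NF: the norm formula
-/

namespace Pool.Agent.RS2

set_option linter.unusedSectionVars false

open Pool.Agent.RSK
open NumberField IsDedekindDomain Filter Topology Complex

section LAY

variable {F E H : Type} [Field F] [NumberField F] [Field E] [NumberField E] [Field H]
  [NumberField H] [Algebra F E] [Algebra F H] [Algebra E H] [IsScalarTower F E H]
  [IsGalois F H] {G : Type} [CommGroup G] [Fintype G] {p j : ℕ} {P : Subgroup G}
  {ι : G ≃* (H ≃ₐ[F] H)} {ιE : P ≃* (H ≃ₐ[E] H)} {S T : Finset (HeightOneSpectrum (𝓞 F))}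
  {r : ℕ} {w : Fin r → Pl H} {fr : HeightOneSpectrum (𝓞 F) → G}

/-- a transversal and the numbering of the split places of `E` -/
theorem nf_trv (hC : CycP p j P) (r : ℕ) : ∃ (t : (G ⧸ P) → G), Trv P t ∧
    Nonempty (Fin (r * p ^ (j - 1)) ≃ Fin r × (G ⧸ P)) := by
  classical
  refine ⟨Quotient.out, ?_, ?_⟩
  · have h : (fun a : G ⧸ P => (QuotientGroup.mk (Quotient.out a) : G ⧸ P)) = id :=
      funext fun a => Quotient.out_eq' a
    show Function.Bijective (fun a : G ⧸ P => (QuotientGroup.mk (Quotient.out a) : G ⧸ P))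
    rw [h]
    exact Function.bijective_id
  · have hfin : Fintype (G ⧸ P) := Fintype.ofFinite _
    have h1 : Nat.card G = Nat.card (G ⧸ P) * Nat.card P :=
      Subgroup.card_eq_card_quotient_mul_card_subgroup P
    have h2 : Nat.card (G ⧸ P) = p ^ (j - 1) := by
      rw [hC.card, hC.cardP] at h1
      have h3 : p ^ j = p ^ (j - 1) * p := by
        rw [← pow_succ, Nat.sub_add_cancel hC.pos]
      rw [h3] at h1
      exact (Nat.eq_of_mul_eq_mul_right hC.prime.pos h1).symm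
    refine ⟨Fintype.equivOfCardEq ?_⟩
    rw [Fintype.card_fin, Fintype.card_prod, Fintype.card_fin, ← Nat.card_eq_fintype_card
      (α := G ⧸ P), h2]

/-- the layer `H/E` -/
theorem nf_layer (hC : CycP p j P) (hD : DataW ι S T r w fr) (hE : Lay ι P ιE) :
    ∃ (t : (G ⧸ P) → G) (e : Fin (r * p ^ (j - 1)) ≃ Fin r × (G ⧸ P))
      (frE : HeightOneSpectrum (𝓞 E) → P), Trv P t ∧
      (∀ u, u ∉ ovr E S → IsFr u (ιE (frE u))) ∧
      DataW ιE (ovr E S) (ovr E T) (r * p ^ (j - 1))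
        (fun k => act (ι (t (e k).2)) (w (e k).1)) frE := by
  have hg : IsGalois E H := IsGalois.tower_top_of_isGalois F E H
  obtain ⟨t, ht, ⟨e⟩⟩ := nf_trv hC r
  obtain ⟨frE, hfrE⟩ := frE_exists hE hD.unram hD.frob
  exact ⟨t, e, frE, ht, fun u hu => (hfrE u hu).1, data_E hC hE hD (fun u hu => (hfrE u hu).1) t ht e⟩

/-- the new parts for `H/F` and `H/E` -/
theorem nf_mem [Fintype P] (hE : Lay ι P ιE) (u : UM ιE (ovr E S) (ovr E T)) :
    umE ι ιE S T u ∈ mM P (UM ι S T) ↔ u ∈ mMinus P (UM ιE (ovr E S) (ovr E T)) := by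
  have h1 : umE ι ιE S T u ∈ mM P (UM ι S T) ↔ nP P • umE ι ιE S T u = 0 := Iff.rfl
  have h2 : u ∈ mMinus P (UM ιE (ovr E S) (ovr E T)) ↔ nrm P • u = 0 := Iff.rfl
  rw [h1, h2, ← ce_nrm, ← ce_umE_smul hE, AddEquiv.map_eq_zero_iff]

theorem nf_map [Fintype P] (hE : Lay ι P ιE) :
    (mMinus P (UM ιE (ovr E S) (ovr E T))).map (umE ι ιE S T).toAddMonoidHom =
      mM P (UM ι S T) := by
  ext u
  rw [AddSubgroup.mem_map]
  constructor
  · rintro ⟨y, hy, rfl⟩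
    exact (nf_mem hE y).2 hy
  · intro hu
    refine ⟨(umE ι ιE S T).symm u, (nf_mem hE _).1 ?_, ?_⟩
    · rw [AddEquiv.apply_symm_apply]
      exact hu
    · exact AddEquiv.apply_symm_apply _ _

theorem nf_rel [Fintype P] (hE : Lay ι P ιE) {b : Fin r → UM ι S T} {r' : ℕ}
    {bE : Fin r' → UM ιE (ovr E S) (ovr E T)}
    (h : (mSpn P bE).map (umE ι ιE S T).toAddMonoidHom = mSpn G b) :
    (mSpn G b).relIndex (mM P (UM ι S T)) =
      (mSpn P bE).relIndex (mMinus P (UM ιE (ovr E S) (ovr E T))) := by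
  rw [← h, ← nf_map hE]
  exact AddSubgroup.relIndex_map_map_of_injective _ _ (umE ι ιE S T).injective

theorem um_rank2 (hC : CycP p j P) (hD : DataW ι S T r w fr) (hE : Lay ι P ιE) :
    Module.finrank ℤ (mM P (UM ι S T)) = r * (p ^ (j - 1) * (p - 1)) := by
  classical
  have : Fintype P := Fintype.ofFinite P
  have hg : IsGalois E H := IsGalois.tower_top_of_isGalois F E H
  obtain ⟨t, e, frE, ht, hfrE, hDE⟩ := nf_layer hC hD hE
  have h1 := um_rank hC.prime hC.cardP hDE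
  have h2 : (mMinus P (UM ιE (ovr E S) (ovr E T))) ≃+ (mM P (UM ι S T)) :=
    { toFun := fun u => ⟨umE ι ιE S T u.1, (nf_mem hE _).2 u.2⟩
      invFun := fun u => ⟨(umE ι ιE S T).symm u.1, (nf_mem hE _).1 (by
        rw [AddEquiv.apply_symm_apply]; exact u.2)⟩
      left_inv := fun u => Subtype.ext (AddEquiv.symm_apply_apply _ _)
      right_inv := fun u => Subtype.ext (AddEquiv.apply_symm_apply _ _)
      map_add' := fun u v => Subtype.ext (map_add _ _ _) }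
  rw [← LinearEquiv.finrank_eq h2.toIntLinearEquiv, h1, mul_assoc]

theorem nf_x (P : Subgroup G) : ∃ x : MonoidAlgebra ℚ G, toQ G (nP P) * x = 0 ∧
    ∀ χ : G →* ℂˣ, Fth P χ → evQ χ x = 1 := by
  obtain ⟨z, hz, hz'⟩ := div_exists_nP (P := P) (1 : MonoidAlgebra ℚ G) 1
    (fun χ _ => by rw [map_one]; exact one_ne_zero)
  refine ⟨z, hz, fun χ hχ => ?_⟩
  have h := hz' χ hχ
  rwa [map_one, mul_one] at h

/-- the auxiliary element -/
theorem nf_core {b : Fin r → UM ι S T} (hb : ∀ i, nP P • b i = 0) {x : MonoidAlgebra ℚ G}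
    (hx : toQ G (nP P) * x = 0) (hx1 : ∀ χ : G →* ℂˣ, Fth P χ → evQ χ x = 1) :
    Core2 ι S T P w (fun χ => evR χ⁻¹ (wmat ι S T w b).det) b x := by
  refine ⟨hb, hx, fun χ hχ => ?_⟩
  rw [hx1 χ hχ, one_mul, px1_inv_inv]

theorem nf_m {r' : ℕ} {w' : Fin r' → Pl H} {frE : HeightOneSpectrum (𝓞 E) → P}
    (hDE : DataW ιE (ovr E S) (ovr E T) r' w' frE) :
    ∃ m, Fintype.card (PS (ovr E S)) = r' + m + 1 := by
  have h1 := hDE.card
  have h2 : Fintype.card (PS (ovr E S)) =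
      Fintype.card (InfinitePlace E) + (ovr E S).card := by simp [PS]
  refine ⟨Fintype.card (PS (ovr E S)) - (r' + 1), ?_⟩
  omega

/-- the product of the determinants does not vanish for an extension of degree `p` -/
theorem nf_wdet [IsGalois E H] [Fintype P] (hp : p.Prime) (hP : Nat.card P = p) {r' : ℕ}
    {w' : Fin r' → Pl H} {frE : HeightOneSpectrum (𝓞 E) → P}
    (hDE : DataW ιE (ovr E S) (ovr E T) r' w' frE) {bE : Fin r' → UM ιE (ovr E S) (ovr E T)}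
    (hb : ∀ k, nrm P • bE k = 0)
    (hrel : (mSpn P bE).relIndex (mMinus P (UM ιE (ovr E S) (ovr E T))) ≠ 0) :
    pX (fun ψ : P →* ℂˣ => evR ψ (wmat ιE (ovr E S) (ovr E T) w' bE).det) ≠ 0 := by
  obtain ⟨σ, hσ⟩ := nm1_sigma hp hP
  obtain ⟨htH, hdH⟩ := tf_H hDE
  have htF : TFree (ovr E S) (ovr E T) := tf_F (H := H) htH
  obtain ⟨nF, ⟨bF⟩⟩ := un_exists hDE.disj htF
  obtain ⟨nH, ⟨bH⟩⟩ := un_exists hdH htH
  obtain ⟨hnF, hrF, hhF, -⟩ := cnf hDE.disj htF bF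
  obtain ⟨hnH, hrH, hhH, -⟩ := cnf hdH htH bH
  obtain ⟨m, hm⟩ := nf_m hDE
  have h1 := reg_idx hp hP hDE hσ bF bH bE hb
  have h2 := reg_HF hp hP hDE hσ hm hnF (bu bF) (fun j => Subtype.prop _) bE hb
  have hrk := um_rank hp hP hDE
  have hfinM : Module.Finite ℤ (UM ιE (ovr E S) (ovr E T)) := um_finite hDE
  have htfM : Module.IsTorsionFree ℤ (UM ιE (ovr E S) (ovr E T)) := um_tf hDE
  have h3 := idx_one hp hP hσ hrk bE (fun j => hb j)
  have hidx : (mPlus P (UM ιE (ovr E S) (ovr E T)) ⊔ mSpn P bE).index ≠ 0 := by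
    intro h4
    rw [h4, zero_mul] at h3
    exact (mul_ne_zero (pow_ne_zero _ hp.ne_zero) hrel) h3.symm
  intro h4
  rw [h4, norm_zero, mul_zero, h1] at h2
  exact mul_ne_zero (Nat.cast_ne_zero.2 hidx) hrH.ne' h2

theorem nf_pF_zero {φ : (G →* ℂˣ) → ℂ} {χ : G →* ℂˣ} (hχ : Fth P χ) (h : φ χ = 0) :
    pF P φ = 0 := by
  classical
  unfold pF
  have hfinX : Finite {χ : G →* ℂˣ // Fth P χ} := by
    have := px2_finite (G := G)
    infer_instance
  have : Fintype {χ : G →* ℂˣ // Fth P χ} := Fintype.ofFinite _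
  rw [finprod_eq_prod_of_fintype]
  exact Finset.prod_eq_zero (Finset.mem_univ ⟨χ, hχ⟩) h

theorem nf_pX [Fintype P] (hC : CycP p j P) {φ : (G →* ℂˣ) → ℂ} {φE : (P →* ℂˣ) → ℂ}
    {x : MonoidAlgebra ℚ G} {xE : MonoidAlgebra ℚ P}
    (hx1 : ∀ χ : G →* ℂˣ, Fth P χ → evQ χ x = 1)
    (hxE : ∀ ψ : P →* ℂˣ, evQ ψ xE = ∏ᶠ χ : {χ : G →* ℂˣ // χ.comp P.subtype = ψ}, evQ χ.1 x)
    (h : ∀ ψ : P →* ℂˣ, ψ ≠ 1 → evQ ψ xE * φE ψ =
      ∏ᶠ χ : {χ : G →* ℂˣ // χ.comp P.subtype = ψ⁻¹}, φ χ.1⁻¹) : pX φE = pF P φ := by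
  rw [← pX_pF hC]
  refine pX_congr fun ψ hψ => ?_
  have h5 := h ψ hψ
  have h6 : evQ ψ xE = 1 := by
    rw [hxE]
    refine (finprod_congr fun χ => ?_).trans finprod_one
    exact hx1 χ.1 ((ce_fth χ.2).2 hψ)
  rw [h6, one_mul, ← ce_inv (fun χ => φ χ⁻¹) ψ] at h5
  rw [h5]
  exact finprod_congr fun χ => by rw [px1_inv_inv]

/-- the determinant of the logarithms does not vanish -/
theorem wdet_ne2 (hC : CycP p j P) (hD : DataW ι S T r w fr) (hE : Lay ι P ιE)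
    {b : Fin r → UM ι S T} (hb : ∀ i, nP P • b i = 0)
    (hfin : (mSpn G b).relIndex (mM P (UM ι S T)) ≠ 0) {χ : G →* ℂˣ} (hχ : Fth P χ) :
    evR χ (wmat ι S T w b).det ≠ 0 := by
  classical
  have : Fintype P := Fintype.ofFinite P
  have hg : IsGalois E H := IsGalois.tower_top_of_isGalois F E H
  obtain ⟨t, e, frE, ht, hfrE, hDE⟩ := nf_layer hC hD hE
  obtain ⟨x, hx, hx1⟩ := nf_x P
  obtain ⟨bE, xE, hcoE, hspan, hxE, -⟩ := core_E hC hD hE (nf_core hb hx hx1) t ht e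
  have hrel := nf_rel hE hspan
  rw [hrel] at hfin
  have h1 := nf_wdet hC.prime hC.cardP hDE hcoE.minus hfin
  intro h0
  apply h1
  rw [nf_pX hC (φ := fun χ => evR χ (wmat ι S T w b).det) hx1 hxE hcoE.value]
  exact nf_pF_zero hχ h0

theorem norm_dvd2 (hC : CycP p j P) (hD : DataW ι S T r w fr) (hE : Lay ι P ιE) {m : ℕ}
    (hm : Fintype.card (PS (ovr E S)) = r * p ^ (j - 1) + m + 1)
    {c : (G →* ℂˣ) → ℂ} (hc : LeadF S T r fr P c) {b : Fin r → UM ι S T} {x : MonoidAlgebra ℚ G}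
    (hco : Core2 ι S T P w c b x)
    (ψ : Fin r → (UM ι S T →ₗ[MonoidAlgebra ℤ G] MonoidAlgebra ℤ G)) :
    ∃ t : ℤ, pF P (fun χ => evQ χ (x * toQ G (pmat ψ b).det)) = (p : ℂ) ^ m * t := by
  classical
  have : Fintype P := Fintype.ofFinite P
  have hg : IsGalois E H := IsGalois.tower_top_of_isGalois F E H
  obtain ⟨t, e, frE, ht, hfrE, hDE⟩ := nf_layer hC hD hE
  obtain ⟨bE, xE, hcoE, hspan, hxE, hψ⟩ := core_E hC hD hE hco t ht e
  obtain ⟨ψE, hψE⟩ := hψ ψ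
  have hcE := lead_E hC hD hE hfrE hc
  obtain ⟨t', ht'⟩ := norm_dvd hC.prime hC.cardP hDE hm hcE hcoE ψE
  exact ⟨t', by rw [← hψE, ht']⟩

theorem norm_int2 (hC : CycP p j P) (hD : DataW ι S T r w fr) (hE : Lay ι P ιE)
    {c : (G →* ℂˣ) → ℂ} (hc : LeadF S T r fr P c) {b : Fin r → UM ι S T} {x : MonoidAlgebra ℚ G}
    (hco : Core2 ι S T P w c b x) :
    ∃ (a : ℕ) (n : ℤ), (p : ℂ) ^ a * ((mSpn G b).relIndex (mM P (UM ι S T)) : ℂ) *
      pF P (fun χ => evQ χ x) = n := by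
  classical
  have : Fintype P := Fintype.ofFinite P
  have hg : IsGalois E H := IsGalois.tower_top_of_isGalois F E H
  obtain ⟨t, e, frE, ht, hfrE, hDE⟩ := nf_layer hC hD hE
  obtain ⟨bE, xE, hcoE, hspan, hxE, -⟩ := core_E hC hD hE hco t ht e
  have hcE := lead_E hC hD hE hfrE hc
  obtain ⟨m, hm⟩ : ∃ m, Fintype.card (PS (ovr E S)) = r * p ^ (j - 1) + m + 1 := by
    have h1 := hDE.card
    have h2 : Fintype.card (PS (ovr E S)) =
        Fintype.card (InfinitePlace E) + (ovr E S).card := by simp [PS]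
    refine ⟨Fintype.card (PS (ovr E S)) - (r * p ^ (j - 1) + 1), ?_⟩
    omega
  obtain ⟨k, hk⟩ := nm2_main hC.prime hC.cardP hDE hm hcE hcoE
  rw [← nf_rel hE hspan] at hk
  have h1 : pX (fun ψ : P →* ℂˣ => evQ ψ xE) = pF P (fun χ => evQ χ x) := by
    rw [← pX_pF hC]
    exact pX_congr fun ψ _ => hxE ψ
  obtain ⟨q, hq⟩ := pX_rat hC.prime hC.cardP xE
  have h2 : ‖(p : ℂ) ^ (r * p ^ (j - 1)) * ((mSpn G b).relIndex (mM P (UM ι S T)) : ℂ) *
      pF P (fun χ => evQ χ x)‖ = (((p : ℤ) ^ m * k : ℤ) : ℝ) := by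
    rw [← h1, norm_mul, norm_mul, _root_.norm_pow, Complex.norm_natCast, Complex.norm_natCast]
    push_cast
    rw [← hk]
    ring
  obtain ⟨n', -, hn'⟩ := nm2_abs ⟨(p : ℚ) ^ (r * p ^ (j - 1)) *
    ((mSpn G b).relIndex (mM P (UM ι S T)) : ℚ) * q, by rw [← h1, hq]; push_cast; rfl⟩ h2
  exact ⟨r * p ^ (j - 1), n', hn'⟩

end LAY

end Pool.Agent.RS2
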