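import Pool.Agent.Lib_helper35.RS2.P_A3a
import Pool.Agent.Lib_helper35.RS2.ArtD
import Pool.Agent.Lib_helper35.RS2.Defs2

/-!
# RS2, block A3b: Frobenius automorphisms
-/

namespace Pool.Agent.RS2

set_option linter.unusedSectionVars false

open Pool.Agent.RSK
open NumberField IsDedekindDomain Filter Topology Complex
open scoped Pointwise

section DG

variable {F₀ K H : Type} [Field F₀] [NumberField F₀] [Field K] [NumberField K] [Field H]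
  [NumberField H] [Algebra F₀ K] [Algebra F₀ H] [Algebra K H] [IsScalarTower F₀ K H]

/-- the Frobenius automorphism at `γ⁻¹ W` -/
theorem frAt_conj {W : HeightOneSpectrum (𝓞 H)} {φ : H ≃ₐ[F₀] H} (hφ : FrAt W φ)
    (γ : H ≃ₐ[F₀] H) :
    FrAt (HeightOneSpectrum.equivOfRingEquiv (RingOfIntegers.mapRingEquiv (γ⁻¹).toRingEquiv) W)
      (γ⁻¹ * φ * γ) := by
  intro x
  rw [under_equiv, ee_asIdeal, ee_smul, Ideal.pointwise_smul_eq_comap, Ideal.mem_comap]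
  have h := hφ (γ • x)
  rw [ee_smul] at h
  show (γ⁻¹)⁻¹ • ((γ⁻¹ * φ * γ) • x - x ^ nv (W.under (𝓞 F₀))) ∈ W.asIdeal
  rw [inv_inv, smul_sub, smul_pow', mul_smul, mul_smul, smul_inv_smul]
  exact h

/-- the Frobenius automorphism over `K` -/
theorem frAt_pow {W : HeightOneSpectrum (𝓞 H)} {φ : H ≃ₐ[F₀] H} (hφ : FrAt W φ)
    (σ : H ≃ₐ[K] H) (hσ : σ.restrictScalars F₀ = φ ^ rdeg F₀ (W.under (𝓞 K))) : FrAt W σ := by
  intro x
  rw [(rdeg_spec (F₀ := F₀) (W.under (𝓞 K))).2, ee_under_under]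
  have h := a3a_pow hφ (rdeg F₀ (W.under (𝓞 K))) x
  rw [← hσ] at h
  exact h

/-- there is a Frobenius automorphism at every place -/
theorem frAt_exists [IsGalois F₀ H] (W : HeightOneSpectrum (𝓞 H)) :
    ∃ φ : H ≃ₐ[F₀] H, FrAt W φ := by
  have hcomm : SMulCommClass (H ≃ₐ[F₀] H) (𝓞 F₀) (𝓞 H) := IsGaloisGroup.commutes
  have hinv : Algebra.IsInvariant (𝓞 F₀) (𝓞 H) (H ≃ₐ[F₀] H) := IsGaloisGroup.isInvariant
  have hp : W.asIdeal.IsPrime := W.isPrime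
  have hm : W.asIdeal.IsMaximal := W.isMaximal
  have hfin : Finite (𝓞 H ⧸ W.asIdeal) := inferInstance
  obtain ⟨φ, hφ⟩ := IsArithFrobAt.exists_of_isInvariant (𝓞 F₀) (H ≃ₐ[F₀] H) W.asIdeal
  refine ⟨φ, fun x => ?_⟩
  have e : nv (W.under (𝓞 F₀)) = Nat.card (𝓞 F₀ ⧸ W.asIdeal.under (𝓞 F₀)) := ee_nv _
  rw [e]
  exact hφ x

/-- the index of the stabilizer of `W` in `Gal(H/K)` in the stabilizer of `W` -/
theorem frAt_index [IsGalois F₀ H] {W : HeightOneSpectrum (𝓞 H)}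
    (hW : Algebra.IsUnramifiedAt (𝓞 F₀) W.asIdeal) {φ : H ≃ₐ[F₀] H} (hφ : FrAt W φ) :
    Nat.card (MulAction.stabilizer (H ≃ₐ[F₀] H) W.asIdeal) =
      Nat.card (MulAction.stabilizer (H ≃ₐ[F₀] H) W.asIdeal ⊓ eeR F₀ K H :
        Subgroup (H ≃ₐ[F₀] H)) * rdeg F₀ (W.under (𝓞 K)) ∧
    ∃ σ : H ≃ₐ[K] H, σ.restrictScalars F₀ = φ ^ rdeg F₀ (W.under (𝓞 K)) := by
  have hGK : IsGalois K H := IsGalois.tower_top_of_isGalois F₀ K H
  have hin : W.asIdeal.inertia (H ≃ₐ[F₀] H) = ⊥ := ee_inertia hW (τ := φ) hφ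
  have hr := (rdeg_spec (F₀ := F₀) (W.under (𝓞 K))).2
  rw [ee_under_under] at hr
  constructor
  · obtain ⟨f, hf, h1, h2⟩ := ee_f (k := F₀) W
    obtain ⟨f', hf', h1', h2'⟩ := ee_f' (F₀ := F₀) (K := K) W
    rw [hin, Subgroup.card_bot, one_mul] at h2
    rw [hin, bot_inf_eq, Subgroup.card_bot, one_mul] at h2'
    rw [h2, h2']
    rw [hr, ← pow_mul, h1] at h1'
    have h3 := Nat.pow_right_injective (nv_two_le (W.under (𝓞 F₀))) h1'
    rw [h3, mul_comm]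
  · obtain ⟨τ, hτ⟩ := frAt_exists (F₀ := K) W
    refine ⟨τ, ?_⟩
    have h3 : τ.restrictScalars F₀ * (φ ^ rdeg F₀ (W.under (𝓞 K)))⁻¹ ∈
        W.asIdeal.inertia (H ≃ₐ[F₀] H) := by
      intro x
      set y := (φ ^ rdeg F₀ (W.under (𝓞 K)))⁻¹ • x with hy
      have hx : x = (φ ^ rdeg F₀ (W.under (𝓞 K))) • y := by
        rw [hy, smul_inv_smul]
      have h4 := hτ y
      rw [hr] at h4
      have h5 := a3a_pow hφ (rdeg F₀ (W.under (𝓞 K))) y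
      have h6 := W.asIdeal.sub_mem h4 h5
      rw [sub_sub_sub_cancel_right, ← hx] at h6
      have h7 : (τ.restrictScalars F₀ * (φ ^ rdeg F₀ (W.under (𝓞 K)))⁻¹) • x =
          RingOfIntegers.mapRingEquiv τ.toRingEquiv y := by
        rw [mul_smul, ← hy]
        rfl
      show (τ.restrictScalars F₀ * (φ ^ rdeg F₀ (W.under (𝓞 K)))⁻¹) • x - x ∈ W.asIdeal
      rw [h7]
      exact h6
    rw [hin, Subgroup.mem_bot, mul_inv_eq_one] at h3
    exact h3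

theorem frSys_exists [IsGalois F₀ H] (S₀ : Finset (HeightOneSpectrum (𝓞 F₀))) :
    ∃ φ : HeightOneSpectrum (𝓞 F₀) → H ≃ₐ[F₀] H, FrSys S₀ φ := by
  have h : ∀ v : HeightOneSpectrum (𝓞 F₀), ∃ φ : H ≃ₐ[F₀] H,
      ∃ W : HeightOneSpectrum (𝓞 H), W.under (𝓞 F₀) = v ∧ FrAt W φ := by
    intro v
    obtain ⟨W, hW⟩ := dn_surj (F := F₀) (H := H) (Sum.inr v)
    rcases W with W | W
    · exact absurd hW (by simp [dn])
    · obtain ⟨φ, hφ⟩ := frAt_exists (F₀ := F₀) W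
      exact ⟨φ, W, Sum.inr.inj hW, hφ⟩
  choose φ hφ using h
  exact ⟨φ, fun v _ => hφ v⟩

end DG

end Pool.Agent.RS2
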