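import Pool.Agent.Lib_helper35.RS2.ArtD
import Pool.Agent.Lib_helper35.RS2.Defs2

namespace Pool.Agent.RS2

set_option linter.unusedSectionVars false

open Pool.Agent.RSK
open NumberField IsDedekindDomain Filter Topology Complex
open scoped Pointwise

section DC

theorem a2_conj_pow {Γ : Type} [Group Γ] (γ φ : Γ) (k : ℕ) :
    γ⁻¹ * φ ^ k * γ = (γ⁻¹ * φ * γ) ^ k := by
  have := conj_pow (a := γ⁻¹) (b := φ) (i := k)
  rw [inv_inv] at this
  exact this.symm

theorem a2_pow_mem {Γ : Type} [Group Γ] [Finite Γ] (U : Subgroup Γ) (ψ : Γ) (n : ℕ)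
    (h : Nat.card (Subgroup.zpowers ψ) =
      Nat.card (Subgroup.zpowers ψ ⊓ U : Subgroup Γ) * n) (k : ℕ) :
    ψ ^ k ∈ U ↔ n ∣ k := by
  let P : Subgroup Γ := Subgroup.zpowers ψ
  let K : Subgroup P := U.subgroupOf P
  have hcomm : ∀ a b : P, a * b = b * a := by
    rintro ⟨a, ha⟩ ⟨b, hb⟩
    obtain ⟨i, rfl⟩ := Subgroup.mem_zpowers_iff.1 ha
    obtain ⟨j, rfl⟩ := Subgroup.mem_zpowers_iff.1 hb
    apply Subtype.ext
    simp only [Subgroup.coe_mul]
    rw [← zpow_add, ← zpow_add, add_comm]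
  have hn : K.Normal := ⟨fun a ha b => by
    rw [hcomm b a, mul_assoc, mul_inv_cancel, mul_one]; exact ha⟩
  have hidx : K.index = n := by
    have h1 : Nat.card K = Nat.card (P ⊓ U : Subgroup Γ) := by
      have e := Subgroup.subgroupOfEquivOfLe (H := P ⊓ U) (K := P) inf_le_left
      have e2 : (P ⊓ U).subgroupOf P = K := by
        ext x
        simp only [Subgroup.mem_subgroupOf, Subgroup.mem_inf, K]
        exact ⟨fun h => h.2, fun h => ⟨x.2, h⟩⟩
      rw [← e2]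
      exact Nat.card_congr e.toEquiv
    have h2 := Subgroup.card_mul_index K
    rw [h1] at h2
    have h3 : Nat.card (P ⊓ U : Subgroup Γ) * K.index =
        Nat.card (P ⊓ U : Subgroup Γ) * n := h2.trans h
    exact Nat.eq_of_mul_eq_mul_left Nat.card_pos h3
  let x : P ⧸ K := QuotientGroup.mk (⟨ψ, Subgroup.mem_zpowers ψ⟩ : P)
  have hgen : ∀ y : P ⧸ K, y ∈ Subgroup.zpowers x := by
    intro y
    obtain ⟨⟨a, ha⟩, rfl⟩ := QuotientGroup.mk_surjective y
    obtain ⟨i, rfl⟩ := Subgroup.mem_zpowers_iff.1 ha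
    refine Subgroup.mem_zpowers_iff.2 ⟨i, ?_⟩
    rw [← QuotientGroup.mk_zpow]
    congr 1
  have hord : orderOf x = n := by
    rw [orderOf_eq_card_of_forall_mem_zpowers hgen]
    exact hidx
  rw [← hord, orderOf_dvd_iff_pow_eq_one, ← QuotientGroup.mk_pow, QuotientGroup.eq_one_iff]
  simp only [K, Subgroup.mem_subgroupOf, SubmonoidClass.mk_pow]

theorem dc_sum {Γ Ω B : Type} [Group Γ] [Finite Γ] [MulAction Γ Ω] [Finite Ω] (U : Subgroup Γ)
    (π : Ω → B) (s : Finset B) (hs : ∀ b, b ∈ s ↔ ∃ W, π W = b)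
    (hπ : ∀ W W' : Ω, π W = π W' ↔ ∃ u ∈ U, u • W = W')
    (W₀ : Ω) (htr : ∀ W : Ω, ∃ γ : Γ, γ • W₀ = W)
    {φ : Γ} (hφ : ∀ γ : Γ, γ • W₀ = W₀ ↔ γ ∈ Subgroup.zpowers φ) (Θ : Γ → ℂ)
    (hΘ : ∀ γ, γ ∉ U → Θ γ = 0) (hΘm : ∀ a ∈ U, ∀ b ∈ U, Θ (a * b) = Θ a * Θ b)
    (hΘ1 : Θ 1 = 1) (n : B → ℕ)
    (hn : ∀ W : Ω, Nat.card (MulAction.stabilizer Γ W) =
      Nat.card (MulAction.stabilizer Γ W ⊓ U : Subgroup Γ) * n (π W)) (z : B → ℂ)
    (hz : ∀ γ : Γ, z (π (γ⁻¹ • W₀)) = Θ ((γ⁻¹ * φ * γ) ^ n (π (γ⁻¹ • W₀))))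
    (k : ℕ) :
    ∑ᶠ γ : Γ, Θ (γ⁻¹ * φ ^ k * γ) =
      Nat.card U * ∑ b ∈ s, if n b ∣ k then (n b : ℂ) * z b ^ (k / n b) else 0 := by
  classical
  have := Fintype.ofFinite Γ
  have := Fintype.ofFinite Ω
  have hstab : ∀ γ : Γ, MulAction.stabilizer Γ (γ⁻¹ • W₀) =
      Subgroup.zpowers (γ⁻¹ * φ * γ) := by
    intro γ
    ext g
    rw [MulAction.mem_stabilizer_iff]
    have h1 : g • γ⁻¹ • W₀ = γ⁻¹ • W₀ ↔ (γ * g * γ⁻¹) • W₀ = W₀ := by
      rw [mul_assoc, mul_smul, mul_smul]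
      constructor
      · intro h
        rw [h, smul_inv_smul]
      · intro h
        have h2 : γ⁻¹ • (γ • g • γ⁻¹ • W₀) = γ⁻¹ • W₀ := by rw [h]
        rwa [inv_smul_smul] at h2
    rw [h1, hφ, Subgroup.mem_zpowers_iff, Subgroup.mem_zpowers_iff]
    constructor
    · rintro ⟨i, hi⟩
      refine ⟨i, ?_⟩
      have h2 := conj_zpow (a := γ⁻¹) (b := φ) (i := i)
      rw [inv_inv] at h2
      rw [h2, hi]
      group
    · rintro ⟨i, hi⟩
      refine ⟨i, ?_⟩
      have h2 := conj_zpow (a := γ⁻¹) (b := φ) (i := i)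
      rw [inv_inv] at h2
      rw [h2] at hi
      rw [← hi]
      group
  have hmem : ∀ γ : Γ, ∀ k : ℕ, (γ⁻¹ * φ * γ) ^ k ∈ U ↔ n (π (γ⁻¹ • W₀)) ∣ k := by
    intro γ k
    have h1 := hn (γ⁻¹ • W₀)
    rw [hstab γ] at h1
    exact a2_pow_mem U _ _ h1 k
  have key : ∀ γ : Γ, Θ (γ⁻¹ * φ ^ k * γ) =
      (fun b => if n b ∣ k then z b ^ (k / n b) else (0 : ℂ)) (π (γ⁻¹ • W₀)) := by
    intro γ
    rw [a2_conj_pow]
    show _ = if n (π (γ⁻¹ • W₀)) ∣ k then _ else _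
    split_ifs with hd
    · have hu : (γ⁻¹ * φ * γ) ^ n (π (γ⁻¹ • W₀)) ∈ U := (hmem γ _).2 dvd_rfl
      have hpow : ∀ m : ℕ, Θ (((γ⁻¹ * φ * γ) ^ n (π (γ⁻¹ • W₀))) ^ m) =
          Θ ((γ⁻¹ * φ * γ) ^ n (π (γ⁻¹ • W₀))) ^ m := by
        intro m
        induction m with
        | zero => rw [pow_zero, pow_zero, hΘ1]
        | succ m ih => rw [pow_succ, hΘm _ (U.pow_mem hu m) _ hu, ih, pow_succ]
      rw [hz γ, ← hpow, ← pow_mul, Nat.mul_div_cancel' hd]
    · exact hΘ _ (fun h => hd ((hmem γ k).1 h))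
  have hfib : ∀ W : Ω, (Finset.univ.filter (fun γ : Γ => γ⁻¹ • W₀ = W)).card =
      Nat.card (MulAction.stabilizer Γ W) := by
    intro W
    obtain ⟨δ, hδ⟩ := htr W
    rw [← Fintype.card_subtype, ← Nat.card_eq_fintype_card]
    refine Nat.card_congr ⟨fun γ => ⟨δ * γ.1, ?_⟩, fun g => ⟨δ⁻¹ * g.1, ?_⟩, ?_, ?_⟩
    · rw [MulAction.mem_stabilizer_iff]
      have h1 : γ.1⁻¹ • W₀ = W := γ.2
      calc (δ * γ.1) • W = (δ * γ.1) • (γ.1⁻¹ • W₀) := by rw [h1]
        _ = W := by rw [mul_smul, smul_inv_smul, hδ]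
    · have h1 : g.1 • W = W := MulAction.mem_stabilizer_iff.1 g.2
      calc (δ⁻¹ * g.1)⁻¹ • W₀ = g.1⁻¹ • W := by rw [mul_inv_rev, inv_inv, mul_smul, hδ]
        _ = g.1⁻¹ • (g.1 • W) := by rw [h1]
        _ = W := inv_smul_smul _ _
    · intro γ
      simp
    · intro g
      simp
  have horb : ∀ W : Ω, (Finset.univ.filter (fun W' : Ω => π W' = π W)).card *
      Nat.card (MulAction.stabilizer Γ W ⊓ U : Subgroup Γ) = Nat.card U := by
    intro W
    have h1 := Nat.card_congr (MulAction.orbitProdStabilizerEquivGroup U W)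
    rw [Nat.card_prod] at h1
    have h2 : Nat.card (MulAction.orbit U W) =
        (Finset.univ.filter (fun W' : Ω => π W' = π W)).card := by
      rw [← Fintype.card_subtype, ← Nat.card_eq_fintype_card]
      refine Nat.card_congr (Equiv.subtypeEquivRight (fun W' => ?_))
      constructor
      · rintro ⟨u, hu⟩
        exact ((hπ W W').2 ⟨u.1, u.2, hu⟩).symm
      · intro h
        obtain ⟨u, hu, hu'⟩ := (hπ W W').1 h.symm
        exact ⟨⟨u, hu⟩, hu'⟩
    have h3 : Nat.card (MulAction.stabilizer U W) =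
        Nat.card (MulAction.stabilizer Γ W ⊓ U : Subgroup Γ) :=
      Nat.card_congr
        { toFun := fun u => ⟨u.1.1, Subgroup.mem_inf.2 ⟨u.2, u.1.2⟩⟩
          invFun := fun g => ⟨⟨g.1, (Subgroup.mem_inf.1 g.2).2⟩, (Subgroup.mem_inf.1 g.2).1⟩
          left_inv := fun u => rfl
          right_inv := fun g => rfl }
    rw [← h2, ← h3, h1]
  have hcard : ∀ b ∈ s, ((Finset.univ.filter (fun γ : Γ => π (γ⁻¹ • W₀) = b)).card) =
      Nat.card U * n b := by
    intro b hb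
    obtain ⟨W₁, rfl⟩ := (hs b).1 hb
    have h1 : (Finset.univ.filter (fun γ : Γ => π (γ⁻¹ • W₀) = π W₁)).card =
        ∑ W ∈ Finset.univ.filter (fun W' : Ω => π W' = π W₁),
          Nat.card (MulAction.stabilizer Γ W) := by
      rw [Finset.card_eq_sum_card_fiberwise (f := fun γ : Γ => γ⁻¹ • W₀)
        (t := Finset.univ.filter (fun W' : Ω => π W' = π W₁))]
      · refine Finset.sum_congr rfl (fun W hW => ?_)
        rw [Finset.mem_filter] at hW
        rw [← hfib W, Finset.filter_filter]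
        congr 1
        ext γ
        simp only [Finset.mem_filter, Finset.mem_univ, true_and]
        constructor
        · exact fun h => h.2
        · intro h
          exact ⟨by rw [h]; exact hW.2, h⟩
      · intro γ hγ
        simp only [Finset.coe_filter, Finset.mem_univ, true_and, Set.mem_setOf_eq] at hγ ⊢
        exact hγ
    have h2 : ∀ W ∈ Finset.univ.filter (fun W' : Ω => π W' = π W₁),
        Nat.card (MulAction.stabilizer Γ W) =
          Nat.card (MulAction.stabilizer Γ W₁ ⊓ U : Subgroup Γ) * n (π W₁) := by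
      intro W hW
      rw [Finset.mem_filter] at hW
      have h3 := horb W
      have h4 := horb W₁
      rw [hW.2, ← h4] at h3
      have h5 : 0 < (Finset.univ.filter (fun W' : Ω => π W' = π W₁)).card :=
        Finset.card_pos.2 ⟨W₁, by simp⟩
      rw [hn W, Nat.eq_of_mul_eq_mul_left h5 h3, hW.2]
    rw [h1, Finset.sum_congr rfl h2, Finset.sum_const, smul_eq_mul, ← mul_assoc, horb W₁]
  rw [finsum_eq_sum_of_fintype, Finset.sum_congr rfl (fun γ _ => key γ),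
    ← Finset.sum_fiberwise_of_maps_to (s := Finset.univ) (t := s)
      (g := fun γ : Γ => π (γ⁻¹ • W₀)) (fun γ _ => (hs _).2 ⟨_, rfl⟩), Finset.mul_sum]
  refine Finset.sum_congr rfl (fun b hb => ?_)
  rw [Finset.sum_congr rfl (g := fun _ => if n b ∣ k then z b ^ (k / n b) else (0 : ℂ))
    (fun γ hγ => by rw [Finset.mem_filter] at hγ; simp only [hγ.2]), Finset.sum_const, hcard b hb,
    nsmul_eq_mul]
  push_cast
  split_ifs
  · ring
  · simp

end DC

end Pool.Agent.RS2
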