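import Pool.Agent.Lib_helper35.RS2.ArtD
import Pool.Agent.Lib_helper35.RS2.P_A2
import Pool.Agent.Lib_helper35.RS2.P_A3b
import Pool.Agent.Lib_helper35.RS2.P_A3a
import Pool.Agent.Lib_helper35.RS2.Defs2

/-!
# RS2, block A4: the power sums of the Euler factor

Cites `dc_sum` (A2), `frAt_gen`, `frAt_conj`, `frAt_pow`, `frAt_index`, `frAt_exists` (A3).
-/

namespace Pool.Agent.RS2

set_option linter.unusedSectionVars false

open Pool.Agent.RSK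
open NumberField IsDedekindDomain Filter Topology Complex
open scoped Pointwise

section A4

attribute [local instance] ee_act

variable {F₀ K H : Type} [Field F₀] [NumberField F₀] [Field K] [NumberField K] [Field H]
  [NumberField H] [Algebra F₀ K] [Algebra F₀ H] [Algebra K H] [IsScalarTower F₀ K H]

/-- the extension by `0` of `ψ` -/
private noncomputable def a4_th (F₀ : Type) {K H : Type} [Field F₀] [Field K] [Field H]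
    [Algebra F₀ K] [Algebra F₀ H] [Algebra K H] [IsScalarTower F₀ K H]
    (ψ : (H ≃ₐ[K] H) →* ℂˣ) (g : H ≃ₐ[F₀] H) : ℂ :=
  ∑ᶠ σ : {σ : H ≃ₐ[K] H // σ.restrictScalars F₀ = g}, ((ψ σ.1 : ℂˣ) : ℂ)

private theorem a4_th_of (ψ : (H ≃ₐ[K] H) →* ℂˣ) (σ : H ≃ₐ[K] H) :
    a4_th F₀ ψ (σ.restrictScalars F₀) = ψ σ := by
  unfold a4_th
  have : Unique {τ : H ≃ₐ[K] H // τ.restrictScalars F₀ = σ.restrictScalars F₀} :=
    { default := ⟨σ, rfl⟩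
      uniq := fun τ => Subtype.ext (AlgEquiv.restrictScalars_injective F₀ τ.2) }
  rw [finsum_unique]
  congr 2
  exact AlgEquiv.restrictScalars_injective F₀
    (default : {τ : H ≃ₐ[K] H // τ.restrictScalars F₀ = σ.restrictScalars F₀}).2

private theorem a4_th_zero (ψ : (H ≃ₐ[K] H) →* ℂˣ) {g : H ≃ₐ[F₀] H} (hg : g ∉ eeR F₀ K H) :
    a4_th F₀ ψ g = 0 := by
  unfold a4_th
  have : IsEmpty {σ : H ≃ₐ[K] H // σ.restrictScalars F₀ = g} :=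
    ⟨fun σ => hg ⟨σ.1, σ.2⟩⟩
  exact finsum_of_isEmpty _

/-- block A4: the power sums of the Euler factor -/
theorem indF_pow [IsGalois F₀ H] {v₀ : HeightOneSpectrum (𝓞 F₀)}
    (hv : ∀ W : HeightOneSpectrum (𝓞 H), W.under (𝓞 F₀) = v₀ →
      Algebra.IsUnramifiedAt (𝓞 F₀) W.asIdeal)
    {W₀ : HeightOneSpectrum (𝓞 H)} (hW₀ : W₀.under (𝓞 F₀) = v₀) {φ : H ≃ₐ[F₀] H}
    (hφ : FrAt W₀ φ) (ψ : (H ≃ₐ[K] H) →* ℂˣ) (z : HeightOneSpectrum (𝓞 K) → ℂ)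
    (hz : ∀ W : HeightOneSpectrum (𝓞 H), W.under (𝓞 F₀) = v₀ → ∀ σ : H ≃ₐ[K] H, FrAt W σ →
      z (W.under (𝓞 K)) = ψ σ) (k : ℕ) :
    indF F₀ ψ (φ ^ k) = ∑ v ∈ ovr K {v₀},
      if rdeg F₀ v ∣ k then (rdeg F₀ v : ℂ) * z v ^ (k / rdeg F₀ v) else 0 := by
  have hW₀' : W₀ ∈ ovr H {v₀} := by
    rw [mem_ovr, hW₀, Finset.mem_singleton]
  set W₀' : ovr H {v₀} := ⟨W₀, hW₀'⟩ with hW₀d
  have key := dc_sum (Γ := H ≃ₐ[F₀] H) (Ω := ovr H {v₀}) (eeR F₀ K H)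
    (fun W => W.1.under (𝓞 K)) (ovr K {v₀}) ?_ ?_ W₀' (ee_tr W₀') (φ := φ) ?_
    (a4_th F₀ ψ) (fun γ hγ => a4_th_zero ψ hγ) ?_ ?_ (rdeg F₀) ?_ z ?_ k
  · have h1 : indF F₀ ψ (φ ^ k) =
        (Nat.card (H ≃ₐ[K] H) : ℂ)⁻¹ * ∑ᶠ γ : H ≃ₐ[F₀] H, a4_th F₀ ψ (γ⁻¹ * φ ^ k * γ) := rfl
    rw [h1, key, ee_card_R, ← mul_assoc, inv_mul_cancel₀, one_mul]
    exact_mod_cast (Nat.card_pos (α := H ≃ₐ[K] H)).ne'
  · intro b
    constructor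
    · intro hb
      obtain ⟨W, hW⟩ := ee_pi_surj (H := H) (⟨b, hb⟩ : ovr K {v₀})
      exact ⟨W, congrArg Subtype.val hW⟩
    · rintro ⟨W, rfl⟩
      exact (ee_pi K W).2
  · intro W W'
    rw [← ee_pi_iff (K := K) W W', Subtype.ext_iff]
    rfl
  · intro γ
    rw [← frAt_gen (hv W₀ hW₀) hφ γ, Subtype.ext_iff]
    rfl
  · rintro _ ⟨σ, rfl⟩ _ ⟨τ, rfl⟩
    have h1 : AlgEquiv.restrictScalarsHom (S := K) (A := H) F₀ σ *
        AlgEquiv.restrictScalarsHom (S := K) (A := H) F₀ τ = (σ * τ).restrictScalars F₀ := rfl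
    rw [h1, a4_th_of]
    have h2 : ∀ ρ : H ≃ₐ[K] H, a4_th F₀ ψ
        (AlgEquiv.restrictScalarsHom (S := K) (A := H) F₀ ρ) = ψ ρ := fun ρ => a4_th_of ψ ρ
    rw [h2, h2, map_mul, Units.val_mul]
  · have h1 : (1 : H ≃ₐ[F₀] H) = (1 : H ≃ₐ[K] H).restrictScalars F₀ := rfl
    rw [h1, a4_th_of, map_one, Units.val_one]
  · intro W
    obtain ⟨φ', hφ'⟩ := frAt_exists (F₀ := F₀) W.1
    have h1 := (frAt_index (K := K) (hv W.1 (ee_v0 W)) hφ').1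
    rw [ee_stabO]
    exact h1
  · intro γ
    have h0 : (γ⁻¹ • W₀').1.under (𝓞 F₀) = v₀ := ee_v0 _
    have h1 : FrAt (γ⁻¹ • W₀').1 (γ⁻¹ * φ * γ) := frAt_conj hφ γ
    obtain ⟨σ, hσ⟩ := (frAt_index (K := K) (hv _ h0) h1).2
    rw [hz _ h0 σ (frAt_pow h1 σ hσ), ← hσ, a4_th_of]

end A4

end Pool.Agent.RS2
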