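import Pool.Agent.Lib_helper35.RS2.ArtD
import Pool.Agent.Lib_helper35.RS2.Defs2

/-!
# RS2, block A1: power series
-/

namespace Pool.Agent.RS2

set_option linter.unusedSectionVars false

open Pool.Agent.RSK
open NumberField IsDedekindDomain Filter Topology Complex
open scoped Pointwise

section PS

variable {Γ : Type} [Group Γ] [Finite Γ]

private theorem a1_bdd (A : Γ → ℂ) : ∃ M : ℝ, 0 ≤ M ∧ ∀ g, ‖A g‖ ≤ M := by
  obtain ⟨M, hM⟩ := (Set.finite_range fun g => ‖A g‖).bddAbove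
  exact ⟨M, (norm_nonneg _).trans (hM ⟨1, rfl⟩), fun g => hM ⟨g, rfl⟩⟩

private theorem a1_term {M : ℝ} {A : Γ → ℂ} (hM : ∀ g, ‖A g‖ ≤ M) (φ : Γ) (X : ℂ)
    (k : ℕ) : ‖A (φ ^ (k + 1)) * X ^ (k + 1) / ((k : ℂ) + 1)‖ ≤ M * ‖X‖ * ‖X‖ ^ k := by
  rw [norm_div, norm_mul, norm_pow]
  have h1 : (1 : ℝ) ≤ ‖(k : ℂ) + 1‖ := by
    rw [show (k : ℂ) + 1 = ((k + 1 : ℕ) : ℂ) by push_cast; ring, Complex.norm_natCast]
    exact_mod_cast Nat.succ_le_succ (Nat.zero_le k)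
  have h2 : ‖A (φ ^ (k + 1))‖ * ‖X‖ ^ (k + 1) ≤ M * ‖X‖ * ‖X‖ ^ k := by
    rw [pow_succ, mul_assoc M, mul_comm ‖X‖ (‖X‖ ^ k)]
    exact mul_le_mul_of_nonneg_right (hM _) (by positivity)
  exact (div_le_self (by positivity) h1).trans h2

private theorem a1_summable (A : Γ → ℂ) (φ : Γ) {X : ℂ} (hX : ‖X‖ < 1) :
    Summable fun k : ℕ => A (φ ^ (k + 1)) * X ^ (k + 1) / ((k : ℂ) + 1) := by
  obtain ⟨M, hM0, hM⟩ := a1_bdd A
  refine Summable.of_norm_bounded (g := fun k : ℕ => M * ‖X‖ * ‖X‖ ^ k) ?_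
    (a1_term hM φ X)
  exact (summable_geometric_of_lt_one (norm_nonneg _) hX).mul_left _

theorem lgF_add (A B : Γ → ℂ) (φ : Γ) {X : ℂ} (hX : ‖X‖ < 1) :
    lgF (A + B) φ X = lgF A φ X + lgF B φ X := by
  unfold lgF
  rw [← (a1_summable A φ hX).tsum_add (a1_summable B φ hX)]
  refine tsum_congr fun k => ?_
  rw [Pi.add_apply, add_mul, add_div]

theorem lgF_smul (c : ℂ) (A : Γ → ℂ) (φ : Γ) {X : ℂ} (hX : ‖X‖ < 1) :
    lgF (fun g => c * A g) φ X = c * lgF A φ X := by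
  unfold lgF
  rw [← tsum_mul_left]
  refine tsum_congr fun k => ?_
  rw [mul_assoc, mul_div_assoc]

theorem lgF_norm (A : Γ → ℂ) : ∃ C : ℝ, ∀ (φ : Γ) (X : ℂ), ‖X‖ ≤ 1 / 2 → ‖lgF A φ X‖ ≤ C * ‖X‖ := by
  obtain ⟨M, hM0, hM⟩ := a1_bdd A
  refine ⟨2 * M, fun φ X hX => ?_⟩
  have hX1 : ‖X‖ < 1 := lt_of_le_of_lt hX (by norm_num)
  have hg := (hasSum_geometric_of_lt_one (norm_nonneg X) hX1).mul_left (M * ‖X‖)
  have h1 : ‖lgF A φ X‖ ≤ M * ‖X‖ * (1 - ‖X‖)⁻¹ :=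
    tsum_of_norm_bounded hg (a1_term hM φ X)
  have h2 : (1 - ‖X‖)⁻¹ ≤ 2 := by
    rw [inv_le_comm₀ (by linarith) (by norm_num)]
    linarith
  calc ‖lgF A φ X‖ ≤ M * ‖X‖ * (1 - ‖X‖)⁻¹ := h1
    _ ≤ M * ‖X‖ * 2 := mul_le_mul_of_nonneg_left h2 (by positivity)
    _ = 2 * M * ‖X‖ := by ring

/-- If `A(φ^k) = ∑_{f_i ∣ k} f_i z_i^{k / f_i}` for all `k ≥ 1`, then `exp (-lgF A φ X)` is the
product of the `1 - z_i X ^ f_i`. -/
theorem lgF_eq {I : Type} (s : Finset I) (f : I → ℕ) (z : I → ℂ) (hf : ∀ i ∈ s, 0 < f i)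
    (hz : ∀ i ∈ s, ‖z i‖ ≤ 1) {A : Γ → ℂ} {φ : Γ}
    (hA : ∀ k : ℕ, 0 < k → A (φ ^ k) = ∑ i ∈ s, if f i ∣ k then (f i : ℂ) * z i ^ (k / f i) else 0)
    {X : ℂ} (hX : ‖X‖ < 1) :
    ∏ i ∈ s, (1 - z i * X ^ f i) = Complex.exp (-lgF A φ X) := by
  have hw : ∀ i ∈ s, ‖z i * X ^ f i‖ < 1 := fun i hi => by
    rw [norm_mul, norm_pow]
    have h1 : ‖X‖ ^ f i < 1 := pow_lt_one₀ (norm_nonneg _) hX (hf i hi).ne'
    exact lt_of_le_of_lt (mul_le_of_le_one_left (by positivity) (hz i hi)) h1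
  have key : ∀ i ∈ s, HasSum (fun k : ℕ =>
      (if f i ∣ k then (f i : ℂ) * z i ^ (k / f i) else 0) * X ^ k / (k : ℂ))
      (-Complex.log (1 - z i * X ^ f i)) := fun i hi => by
    have h0 := Complex.hasSum_taylorSeries_neg_log (hw i hi)
    have hinj : Function.Injective fun m : ℕ => f i * m := fun a b hab =>
      Nat.eq_of_mul_eq_mul_left (hf i hi) hab
    rw [← hinj.hasSum_iff (fun k hk => ?_)]
    · have e : (fun k : ℕ => (if f i ∣ k then (f i : ℂ) * z i ^ (k / f i) else 0) * X ^ k /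
          (k : ℂ)) ∘ (fun m : ℕ => f i * m) = fun n : ℕ => (z i * X ^ f i) ^ n / (n : ℂ) := by
        funext m
        show (if f i ∣ f i * m then (f i : ℂ) * z i ^ (f i * m / f i) else 0) * X ^ (f i * m) /
          ((f i * m : ℕ) : ℂ) = _
        rw [if_pos ⟨m, rfl⟩, Nat.mul_div_cancel_left m (hf i hi), Nat.cast_mul, mul_pow,
          ← pow_mul, mul_assoc (f i : ℂ), mul_div_mul_left]
        exact_mod_cast (hf i hi).ne'
      rw [e]
      exact h0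
    · rw [if_neg, zero_mul, zero_div]
      rintro ⟨m, rfl⟩
      exact hk ⟨m, rfl⟩
  have hs : HasSum (fun k : ℕ => A (φ ^ k) * X ^ k / (k : ℂ))
      (∑ i ∈ s, -Complex.log (1 - z i * X ^ f i)) := by
    have h1 := hasSum_sum key
    convert h1 using 2 with k
    rcases Nat.eq_zero_or_pos k with rfl | hk
    · rw [Nat.cast_zero, div_zero]
      exact (Finset.sum_eq_zero fun i _ => div_zero _).symm
    · rw [hA k hk, Finset.sum_mul, Finset.sum_div]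
  have hl : lgF A φ X = ∑ i ∈ s, -Complex.log (1 - z i * X ^ f i) := by
    have h1 := (hasSum_nat_add_iff' 1).2 hs
    rw [Finset.sum_range_one, Nat.cast_zero, div_zero, sub_zero] at h1
    have h2 : (fun k : ℕ => A (φ ^ (k + 1)) * X ^ (k + 1) / ((k : ℂ) + 1)) =
        fun n : ℕ => A (φ ^ (n + 1)) * X ^ (n + 1) / ((n + 1 : ℕ) : ℂ) := funext fun k => by
      rw [Nat.cast_add, Nat.cast_one]
    unfold lgF
    rw [h2]
    exact h1.tsum_eq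
  rw [hl, ← Finset.sum_neg_distrib, Complex.exp_sum]
  refine Finset.prod_congr rfl fun i hi => ?_
  rw [neg_neg, Complex.exp_log]
  intro h
  have := hw i hi
  rw [← sub_eq_zero.1 h, norm_one] at this
  exact lt_irrefl _ this

end PS

end Pool.Agent.RS2
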