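import Pool.Agent.Lib_helper35.RS2.ArtD
import Pool.Agent.Lib_helper17.RS.P_EA
import Pool.Agent.Lib_helper35.RS2.P_A1
import Pool.Agent.Lib_helper35.RS2.Defs2

/-! RS2, block A6 (cites lgF_add, lgF_smul, lgF_norm) -/

namespace Pool.Agent.RS2

set_option linter.unusedSectionVars false

open Pool.Agent.RSK
open NumberField IsDedekindDomain Filter Topology Complex
open scoped Pointwise

section A6

variable {F₀ H : Type} [Field F₀] [NumberField F₀] [Field H] [NumberField H] [Algebra F₀ H]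
  [IsGalois F₀ H]
  {S₀ T₀ : Finset (HeightOneSpectrum (𝓞 F₀))} {φ : HeightOneSpectrum (𝓞 F₀) → H ≃ₐ[F₀] H}

private theorem a6_lt {s : ℂ} (hs : 1 < s.re) (v : HeightOneSpectrum (𝓞 F₀)) :
    ‖(nv v : ℂ) ^ (-s)‖ < 1 :=
  lt_of_le_of_lt (ea_norm_le hs v) (by norm_num)

private theorem a6_lt' {s : ℂ} (hs : 1 < s.re) (v : HeightOneSpectrum (𝓞 F₀)) :
    ‖(nv v : ℂ) ^ (1 - s)‖ < 1 := by
  have h2 := ea_two_le v
  have h3 : (1 : ℝ) < nv v := by exact_mod_cast (by omega : 1 < nv v)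
  rw [Complex.norm_natCast_cpow_of_pos (by omega)]
  refine Real.rpow_lt_one_of_one_lt_of_neg h3 ?_
  simp only [Complex.sub_re, Complex.one_re]
  linarith

/-- block A6 -/
theorem lgF_summable (A : (H ≃ₐ[F₀] H) → ℂ) {s : ℂ} (hs : 1 < s.re) :
    Summable fun v : {v : HeightOneSpectrum (𝓞 F₀) // v ∉ S₀} =>
      lgF A (φ v.1) ((nv v.1 : ℂ) ^ (-s)) := by
  obtain ⟨C, hC⟩ := lgF_norm (Γ := (H ≃ₐ[F₀] H)) A
  refine Summable.of_norm_bounded
    (g := fun v : {v : HeightOneSpectrum (𝓞 F₀) // v ∉ S₀} => C * ‖(nv v.1 : ℂ) ^ (-s)‖) ?_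
    (fun v => hC _ _ (ea_norm_le hs v.1))
  exact ((summable_nv (k := F₀) hs).comp_injective
    (Subtype.val_injective (p := fun v => v ∉ S₀))).mul_left C

/-- block A6 -/
theorem artL_add (A B : (H ≃ₐ[F₀] H) → ℂ) {s : ℂ} (hs : 1 < s.re) :
    artL S₀ T₀ φ (A + B) s = artL S₀ T₀ φ A s * artL S₀ T₀ φ B s := by
  unfold artL
  rw [← Complex.exp_add]
  congr 1
  have h1 : ∀ v : {v : HeightOneSpectrum (𝓞 F₀) // v ∉ S₀},
      lgF (A + B) (φ v.1) ((nv v.1 : ℂ) ^ (-s)) =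
        lgF A (φ v.1) ((nv v.1 : ℂ) ^ (-s)) + lgF B (φ v.1) ((nv v.1 : ℂ) ^ (-s)) :=
    fun v => lgF_add A B _ (a6_lt hs v.1)
  have h2 : ∀ v ∈ T₀, lgF (A + B) (φ v) ((nv v : ℂ) ^ (1 - s)) =
      lgF A (φ v) ((nv v : ℂ) ^ (1 - s)) + lgF B (φ v) ((nv v : ℂ) ^ (1 - s)) :=
    fun v _ => lgF_add A B _ (a6_lt' hs v)
  rw [Finset.sum_congr rfl h2, Finset.sum_add_distrib, tsum_congr h1,
    (lgF_summable (S₀ := S₀) (φ := φ) A hs).tsum_add (lgF_summable B hs)]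
  ring

/-- block A6 -/
theorem artL_smul (c : ℤ) (A : (H ≃ₐ[F₀] H) → ℂ) {s : ℂ} (hs : 1 < s.re) :
    artL S₀ T₀ φ (fun g => c * A g) s = artL S₀ T₀ φ A s ^ c := by
  unfold artL
  rw [← Complex.exp_int_mul]
  congr 1
  have h1 : ∀ v : {v : HeightOneSpectrum (𝓞 F₀) // v ∉ S₀},
      lgF (fun g => (c : ℂ) * A g) (φ v.1) ((nv v.1 : ℂ) ^ (-s)) =
        c * lgF A (φ v.1) ((nv v.1 : ℂ) ^ (-s)) :=
    fun v => lgF_smul c A _ (a6_lt hs v.1)
  have h2 : ∀ v ∈ T₀, lgF (fun g => (c : ℂ) * A g) (φ v) ((nv v : ℂ) ^ (1 - s)) =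
      c * lgF A (φ v) ((nv v : ℂ) ^ (1 - s)) :=
    fun v _ => lgF_smul c A _ (a6_lt' hs v)
  rw [Finset.sum_congr rfl h2, ← Finset.mul_sum, tsum_congr h1, tsum_mul_left]
  ring

/-- block A6 -/
theorem artL_sum {I : Type} (J : Finset I) (c : I → ℤ) (A : I → (H ≃ₐ[F₀] H) → ℂ) {s : ℂ}
    (hs : 1 < s.re) :
    artL S₀ T₀ φ (fun g => ∑ i ∈ J, c i * A i g) s = ∏ i ∈ J, artL S₀ T₀ φ (A i) s ^ c i := by
  classical
  induction J using Finset.induction_on with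
  | empty =>
    have h := artL_smul (S₀ := S₀) (T₀ := T₀) (φ := φ) 0 (fun _ => (0 : ℂ)) hs
    simpa using h
  | insert a J ha ih =>
    rw [Finset.prod_insert ha, ← ih, ← artL_smul (c a) (A a) hs, ← artL_add _ _ hs]
    congr 1
    funext g
    rw [Pi.add_apply, Finset.sum_insert ha]

end A6

end Pool.Agent.RS2
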