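import Pool.Agent.Lib_helper35.RS2.ArtD
import Pool.Agent.Lib_helper17.RS.P_EA
import Pool.Agent.Lib_helper17.RS.P_UP1
import Pool.Agent.Lib_helper35.RS2.P_A3b
import Pool.Agent.Lib_helper35.RS2.P_A4
import Pool.Agent.Lib_helper35.RS2.P_A1
import Pool.Agent.Lib_helper35.RS2.P_A3a
import Pool.Agent.Lib_helper35.RS2.Defs2

/-! RS2, block A5 (cites lgF_eq, rdeg_spec, indF_pow, frAt_exists) -/

namespace Pool.Agent.RS2

set_option linter.unusedSectionVars false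

open Pool.Agent.RSK
open NumberField IsDedekindDomain Filter Topology Complex
open scoped Pointwise

section A5

variable {F₀ K H : Type} [Field F₀] [NumberField F₀] [Field K] [NumberField K] [Field H]
  [NumberField H] [Algebra F₀ K] [Algebra F₀ H] [Algebra K H] [IsScalarTower F₀ K H]

/-- block A5: the Euler factor -/
theorem euler_ind [IsGalois F₀ H] {v₀ : HeightOneSpectrum (𝓞 F₀)}
    (hv : ∀ W : HeightOneSpectrum (𝓞 H), W.under (𝓞 F₀) = v₀ →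
      Algebra.IsUnramifiedAt (𝓞 F₀) W.asIdeal)
    {W₀ : HeightOneSpectrum (𝓞 H)} (hW₀ : W₀.under (𝓞 F₀) = v₀) {φ : H ≃ₐ[F₀] H}
    (hφ : FrAt W₀ φ) (ψ : (H ≃ₐ[K] H) →* ℂˣ) (z : HeightOneSpectrum (𝓞 K) → ℂ)
    (hz : ∀ W : HeightOneSpectrum (𝓞 H), W.under (𝓞 F₀) = v₀ → ∀ σ : H ≃ₐ[K] H, FrAt W σ →
      z (W.under (𝓞 K)) = ψ σ) {t : ℂ} (ht : t.re < 0) :
    ∏ v ∈ ovr K {v₀}, (1 - z v * (nv v : ℂ) ^ t) =
      Complex.exp (-lgF (indF F₀ ψ) φ ((nv v₀ : ℂ) ^ t)) := by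
  have hGal : IsGalois K H := IsGalois.tower_top_of_isGalois F₀ K H
  have h2 : 2 ≤ nv v₀ := ea_two_le v₀
  have hX : ‖(nv v₀ : ℂ) ^ t‖ < 1 := by
    have h3 : (1 : ℝ) < nv v₀ := by exact_mod_cast (by omega : 1 < nv v₀)
    rw [Complex.norm_natCast_cpow_of_pos (by omega)]
    exact Real.rpow_lt_one_of_one_lt_of_neg h3 ht
  rw [← lgF_eq (Γ := (H ≃ₐ[F₀] H)) (ovr K {v₀}) (fun v => rdeg F₀ v) z
    (fun v _ => (rdeg_spec (F₀ := F₀) v).1) ?_
    (fun k _ => indF_pow hv hW₀ hφ ψ z hz k) hX]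
  · refine Finset.prod_congr rfl fun v hvm => ?_
    have hvu : v.under (𝓞 F₀) = v₀ := by
      rw [mem_ovr, Finset.mem_singleton] at hvm
      exact hvm
    congr 2
    have h := (rdeg_spec (F₀ := F₀) v).2
    rw [hvu] at h
    rw [h, Nat.cast_pow, ← Complex.natCast_cpow_natCast_mul, ← Complex.cpow_nat_mul]
  · intro v hvm
    have hvu : v.under (𝓞 F₀) = v₀ := by
      rw [mem_ovr, Finset.mem_singleton] at hvm
      exact hvm
    obtain ⟨W, hW⟩ := up1_surj (F := K) (H := H) v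
    obtain ⟨σ, hσ⟩ := frAt_exists (F₀ := K) (H := H) W
    have hWu : W.under (𝓞 F₀) = v₀ := by
      rw [← hvu, ← hW]
      exact (HeightOneSpectrum.ext (Ideal.under_under (A := 𝓞 F₀) (B := 𝓞 K) W.asIdeal)).symm
    have h := hz W hWu σ hσ
    rw [hW] at h
    rw [h]
    obtain ⟨n, hn, hpow⟩ := isOfFinOrder_iff_pow_eq_one.1 (isOfFinOrder_of_finite σ)
    have h4 : ((ψ σ : ℂˣ) : ℂ) ^ n = 1 := by
      rw [← Units.val_pow_eq_pow_val, ← map_pow, hpow, map_one, Units.val_one]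
    exact (Complex.norm_eq_one_of_pow_eq_one h4 (by omega)).le

end A5

end Pool.Agent.RS2
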