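import Pool.Agent.Lib_helper17.RS.P_EH
import Pool.Agent.Lib_helper17.RS.P_EC
import Pool.Agent.Lib_helper17.RS.P_EA
import Pool.Agent.Lib_helper17.RS.P_EF
import Pool.Agent.Lib_helper35.RS2.P_A5
import Pool.Agent.Lib_helper35.RS2.P_A3a
import Pool.Agent.Lib_helper35.RS2.P_A6
import Pool.Agent.Lib_helper35.RS2.ArtD
import Pool.Agent.Lib_helper35.RS2.Defs2

/-! # RS2 block A7: L-functions as Artin L-functions of induced characters

NEEDS (Art2): euler_ind, lgF_summable, frAt_uniq, unr_up -/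

namespace Pool.Agent.RS2

set_option linter.unusedSectionVars false

open Pool.Agent.RSK
open NumberField IsDedekindDomain Filter Topology Complex
open scoped Pointwise

section A7

variable {F₀ K H : Type} [Field F₀] [NumberField F₀] [Field K] [NumberField K] [Field H]
  [NumberField H] [Algebra F₀ K] [Algebra F₀ H] [Algebra K H] [IsScalarTower F₀ K H]
  [IsGalois F₀ H]
  {S₀ T₀ : Finset (HeightOneSpectrum (𝓞 F₀))} {φ : HeightOneSpectrum (𝓞 F₀) → H ≃ₐ[F₀] H}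

theorem a7_norm {G : Type} [CommGroup G] [Finite G] (χ : G →* ℂˣ) (g : G) :
    ‖((χ g : ℂˣ) : ℂ)‖ = 1 := by
  have h1 : ((χ g : ℂˣ) : ℂ) ^ Nat.card G = 1 := by
    rw [← Units.val_pow_eq_pow_val, ← map_pow, pow_card_eq_one', map_one, Units.val_one]
  exact Complex.norm_eq_one_of_pow_eq_one h1 Nat.card_pos.ne'

theorem artL_lst (hφ : FrSys S₀ φ) (hST : Disjoint S₀ T₀)
    (hunr : ∀ W : HeightOneSpectrum (𝓞 H), W.under (𝓞 F₀) ∉ S₀ →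
      Algebra.IsUnramifiedAt (𝓞 F₀) W.asIdeal)
    {G : Type} [CommGroup G] [Finite G] (π : (H ≃ₐ[K] H) →* G)
    (fr : HeightOneSpectrum (𝓞 K) → G)
    (hfr : ∀ W : HeightOneSpectrum (𝓞 H), W.under (𝓞 F₀) ∉ S₀ → ∀ σ : H ≃ₐ[K] H, FrAt W σ →
      fr (W.under (𝓞 K)) = π σ) (χ : G →* ℂˣ) {s : ℂ} (hs : 1 < s.re) :
    artL S₀ T₀ φ (indF F₀ (χ.comp π)) s = LST (ovr K S₀) (ovr K T₀) fr χ s := by
  classical
  -- the Euler factors
  have key : ∀ v : HeightOneSpectrum (𝓞 F₀), v ∉ S₀ → ∀ t : ℂ, t.re < 0 →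
      ∏ w ∈ ovr K {v}, (1 - ((χ (fr w) : ℂˣ) : ℂ) * (nv w : ℂ) ^ t) =
        Complex.exp (-lgF (indF F₀ (χ.comp π)) (φ v) ((nv v : ℂ) ^ t)) := by
    intro v hv t ht
    obtain ⟨W₀, hW₀, hF⟩ := hφ v hv
    refine euler_ind (v₀ := v) (fun W hW => hunr W (by rw [hW]; exact hv)) hW₀ hF (χ.comp π)
      (fun w => ((χ (fr w) : ℂˣ) : ℂ)) ?_ ht
    intro W hW σ hσ
    show ((χ (fr (W.under (𝓞 K))) : ℂˣ) : ℂ) = _
    rw [hfr W (by rw [hW]; exact hv) σ hσ]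
    rfl
  have hm := (mult_euler (k := K) hs (fun w => w ∉ ovr K S₀)
    (fun w => ((χ (fr w) : ℂˣ) : ℂ)) (fun w => (a7_norm χ (fr w)).le)).1
  have h1 := eh_fiber (F := F₀) (H := K) S₀
    (fun w => (1 - ((χ (fr w) : ℂˣ) : ℂ) * (nv w : ℂ) ^ (-s))⁻¹) hm
  have h2 : HasProd (fun v : {v : HeightOneSpectrum (𝓞 F₀) // v ∉ S₀} =>
      Complex.exp (lgF (indF F₀ (χ.comp π)) (φ v.1) ((nv v.1 : ℂ) ^ (-s))))
      (∏' w : {w : HeightOneSpectrum (𝓞 K) // w ∉ ovr K S₀},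
        (1 - ((χ (fr w.1) : ℂˣ) : ℂ) * (nv w.1 : ℂ) ^ (-s))⁻¹) := by
    refine h1.congr_fun fun v => ?_
    rw [Finset.prod_inv_distrib, key v.1 v.2 (-s) (by rw [Complex.neg_re]; linarith),
      ← Complex.exp_neg, neg_neg]
  have h3 := (lgF_summable (S₀ := S₀) (φ := φ) (indF F₀ (χ.comp π)) hs).hasSum.cexp
  have h4 := h2.unique h3
  have h5 : ∏ w ∈ ovr K T₀, (1 - ((χ (fr w) : ℂˣ) : ℂ) * (nv w : ℂ) ^ (1 - s)) =
      Complex.exp (-∑ v ∈ T₀, lgF (indF F₀ (χ.comp π)) (φ v) ((nv v : ℂ) ^ (1 - s))) := by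
    rw [prod_fiber, ← Finset.sum_neg_distrib, Complex.exp_sum]
    refine Finset.prod_congr rfl fun v hv => ?_
    refine key v (fun h => Finset.disjoint_left.1 hST h hv) (1 - s) ?_
    simp only [Complex.sub_re, Complex.one_re]
    linarith
  unfold artL LST
  rw [h5, h4, ← Complex.exp_add]
  congr 1
  ring

theorem artL_zst (hφ : FrSys S₀ φ) (hST : Disjoint S₀ T₀)
    (hunr : ∀ W : HeightOneSpectrum (𝓞 H), W.under (𝓞 F₀) ∉ S₀ →
      Algebra.IsUnramifiedAt (𝓞 F₀) W.asIdeal) {s : ℂ} (hs : 1 < s.re) :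
    artL S₀ T₀ φ (indF F₀ (1 : (H ≃ₐ[K] H) →* ℂˣ)) s = zST (ovr K S₀) (ovr K T₀) s := by
  have h := artL_lst (K := K) hφ hST hunr (1 : (H ≃ₐ[K] H) →* PUnit) (fun _ => 1)
    (fun _ _ _ _ => rfl) 1 hs
  rw [lst_one] at h
  exact h

theorem artL_ab (hφ : FrSys S₀ φ) (hST : Disjoint S₀ T₀)
    (hunr : ∀ W : HeightOneSpectrum (𝓞 H), W.under (𝓞 F₀) ∉ S₀ →
      Algebra.IsUnramifiedAt (𝓞 F₀) W.asIdeal)
    {G : Type} [CommGroup G] [Finite G] (ι : G ≃* (H ≃ₐ[K] H))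
    (fr : HeightOneSpectrum (𝓞 K) → G) (hfr : ∀ v, v ∉ ovr K S₀ → IsFr v (ι (fr v)))
    (χ : G →* ℂˣ) {s : ℂ} (hs : 1 < s.re) :
    artL S₀ T₀ φ (indF F₀ (χ.comp ι.symm.toMonoidHom)) s =
      LST (ovr K S₀) (ovr K T₀) fr χ s := by
  have : IsGalois K H := IsGalois.tower_top_of_isGalois F₀ K H
  refine artL_lst hφ hST hunr ι.symm.toMonoidHom fr ?_ χ hs
  intro W hW σ hσ
  have h1 : W.under (𝓞 K) ∉ ovr K S₀ := by
    rw [mem_ovr, ee_under_under]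
    exact hW
  have h2 : FrAt W (ι (fr (W.under (𝓞 K)))) := hfr _ h1 W rfl
  have h3 := frAt_uniq (K := K) (unr_up (F₀ := F₀) (K := K) (hunr W hW)) h2 hσ
  show fr (W.under (𝓞 K)) = ι.symm σ
  rw [← h3, MulEquiv.symm_apply_apply]

end A7

end Pool.Agent.RS2
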