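import Pool.Agent.Lib_helper35.RS2.P_B1
import Pool.Agent.Lib_helper35.RS2.ArtD
import Pool.Agent.Lib_helper35.RS2.Defs2

/-!
# RS2, block B2: the induced characters for the holomorph

Cites the wanted statement `fix_hol` (WEul2, block B1).
-/

namespace Pool.Agent.RS2

set_option linter.unusedSectionVars false

open Pool.Agent.RSK
open NumberField IsDedekindDomain Filter Topology Complex

section HLM

variable {F₀ F L L' H : Type} [Field F₀] [NumberField F₀] [Field F] [NumberField F] [Field L]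
  [NumberField L] [Field L'] [NumberField L'] [Field H] [NumberField H] [Algebra F₀ F]
  [Algebra F₀ L] [Algebra F₀ L'] [Algebra F₀ H] [Algebra F H] [Algebra L H] [Algebra L' H]
  [Algebra L' L] [IsScalarTower F₀ F H] [IsScalarTower F₀ L H] [IsScalarTower F₀ L' H]
  [IsScalarTower L' L H] [IsScalarTower F₀ L' L] [IsGalois F₀ H] [IsGalois F₀ F] [IsGalois F H]
  [IsGalois L H] [IsGalois L' H] {G : Type} [CommGroup G] [Fintype G] {P : Subgroup G} {p j : ℕ}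
  {ι : G ≃* (H ≃ₐ[F] H)} {S₀ T₀ : Finset (HeightOneSpectrum (𝓞 F₀))} {r : ℕ}
  {w : Fin r → Pl H} {fr : HeightOneSpectrum (𝓞 F) → G}

/-- block B2 -/
theorem indF_one (K : Type) [Field K] [NumberField K] [Algebra F₀ K] [Algebra K H]
    [IsScalarTower F₀ K H] (g : H ≃ₐ[F₀] H) :
    indF F₀ (1 : (H ≃ₐ[K] H) →* ℂˣ) g =
      (Nat.card (eeR F₀ K H) : ℂ)⁻¹ * Nat.card {γ : H ≃ₐ[F₀] H // γ⁻¹ * g * γ ∈ eeR F₀ K H} := by
  classical
  have : Fintype (H ≃ₐ[F₀] H) := Fintype.ofFinite _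
  unfold indF
  rw [ee_card_R]
  congr 1
  have h1 : ∀ γ : H ≃ₐ[F₀] H,
      (∑ᶠ σ : {σ : H ≃ₐ[K] H // σ.restrictScalars F₀ = γ⁻¹ * g * γ},
        (((1 : (H ≃ₐ[K] H) →* ℂˣ) σ.1 : ℂˣ) : ℂ)) =
      if γ⁻¹ * g * γ ∈ eeR F₀ K H then 1 else 0 := by
    intro γ
    split_ifs with h
    · obtain ⟨σ, hσ⟩ := h
      have hu : ∀ τ : {σ : H ≃ₐ[K] H // σ.restrictScalars F₀ = γ⁻¹ * g * γ}, τ = ⟨σ, hσ⟩ :=
        fun τ => Subtype.ext (AlgEquiv.restrictScalars_injective F₀ (τ.2.trans hσ.symm))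
      rw [finsum_eq_single _ (⟨σ, hσ⟩ : {σ : H ≃ₐ[K] H // σ.restrictScalars F₀ = γ⁻¹ * g * γ})
        (fun τ hτ => absurd (hu τ) hτ)]
      simp
    · have : IsEmpty {σ : H ≃ₐ[K] H // σ.restrictScalars F₀ = γ⁻¹ * g * γ} :=
        ⟨fun τ => h ⟨τ.1, τ.2⟩⟩
      exact finsum_of_isEmpty _
  rw [finsum_congr h1, finsum_eq_sum_of_fintype, Finset.sum_boole, Nat.card_eq_fintype_card,
    Fintype.card_subtype]

/-- block B2 -/
theorem indF_hlm (h : Hlm F₀ F L L' H ι P p j) {χ : G →* ℂˣ} (hχ : Fth P χ) :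
    indF F₀ (1 : (H ≃ₐ[L] H) →* ℂˣ) =
      indF F₀ (1 : (H ≃ₐ[L'] H) →* ℂˣ) + indF F₀ (χ.comp ι.symm.toMonoidHom) := by
  classical
  set i : G →* (H ≃ₐ[F₀] H) :=
    (AlgEquiv.restrictScalarsHom (S := F) (A := H) F₀).comp ι.toMonoidHom with hi
  have hiv : ∀ (g : G) (x : H), i g x = ι g x := fun _ _ => rfl
  have hinj : Function.Injective i := by
    intro a b hab
    exact ι.injective (AlgEquiv.restrictScalars_injective F₀ hab)
  have hrange : i.range = eeR F₀ F H := by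
    ext γ
    constructor
    · rintro ⟨g, rfl⟩
      exact ⟨ι g, rfl⟩
    · rintro ⟨σ, rfl⟩
      exact ⟨ι.symm σ, by rw [hi, MonoidHom.comp_apply]; congr 1; exact ι.apply_symm_apply σ⟩
  have hn : i.range.Normal := by
    rw [hrange]
    refine ⟨fun n hn γ => ?_⟩
    rw [ee_mem_R] at hn ⊢
    intro x
    have h1 := AlgEquiv.restrictNormal_commutes (γ⁻¹ : H ≃ₐ[F₀] H) F x
    show γ (n (γ⁻¹ (algebraMap F H x))) = _
    rw [← h1, hn, h1]
    exact AlgEquiv.apply_symm_apply γ _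
  have hdec : ∀ γ : H ≃ₐ[F₀] H, ∃ g : G, ∃ δ ∈ eeR F₀ L H, γ = i g * δ := by
    intro γ
    obtain ⟨g, δ, h1⟩ := h.dec γ
    refine ⟨g, AlgEquiv.restrictScalarsHom F₀ δ, ⟨δ, rfl⟩, ?_⟩
    ext x
    exact h1 x
  have htriv : ∀ g : G, i g ∈ eeR F₀ L H → g = 1 := by
    intro g hg
    have h1 := ee_mem_R.1 hg
    exact h.triv g fun x => h1 x
  have hD' : ∀ γ : H ≃ₐ[F₀] H, γ ∈ eeR F₀ L' H ↔ ∃ h ∈ P, ∃ δ ∈ eeR F₀ L H, γ = i h * δ := by
    intro γ
    constructor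
    · rintro ⟨τ, rfl⟩
      obtain ⟨g, hg, δ, h1⟩ := h.dec' τ
      refine ⟨g, hg, AlgEquiv.restrictScalarsHom F₀ δ, ⟨δ, rfl⟩, ?_⟩
      ext x
      exact h1 x
    · rintro ⟨g, hg, δ, hδ, rfl⟩
      rw [ee_mem_R] at hδ ⊢
      intro x
      show ι g (δ (algebraMap L' H x)) = _
      rw [IsScalarTower.algebraMap_apply L' L H, hδ, ← IsScalarTower.algebraMap_apply L' L H]
      exact h.fixP g hg x
  obtain ⟨c, hc, hcc⟩ := h.conj
  let e : (H ≃ₐ[L] H) ≃* eeR F₀ L H := MonoidHom.ofInjective (ee_inj (F₀ := F₀) (K := L) (H := H))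
  have he : ∀ δ : H ≃ₐ[L] H, ((e δ : eeR F₀ L H) : H ≃ₐ[F₀] H) =
      AlgEquiv.restrictScalarsHom F₀ δ := fun δ => rfl
  funext g
  rw [Pi.add_apply, indF_one, indF_one]
  rw [fix_hol i hinj hn (eeR F₀ L H) (eeR F₀ L' H) h.cyc hdec htriv hD'
    (c.comp e.symm.toMonoidHom) (hc.comp e.symm.bijective) ?_ hχ g]
  · congr 1
    unfold indF
    congr 1
    · rw [Nat.card_congr ι.toEquiv]
    · refine finsum_congr fun γ => ?_
      refine finsum_eq_of_bijective (fun a => (⟨ι a.1, a.2⟩ :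
        {σ : H ≃ₐ[F] H // σ.restrictScalars F₀ = γ⁻¹ * g * γ})) ?_ ?_
      · constructor
        · intro a b hab
          exact Subtype.ext (ι.injective (congrArg Subtype.val hab))
        · rintro ⟨σ, hσ⟩
          refine ⟨⟨ι.symm σ, ?_⟩, ?_⟩
          · show (ι (ι.symm σ)).restrictScalars F₀ = _
            rw [ι.apply_symm_apply, hσ]
          · exact Subtype.ext (ι.apply_symm_apply σ)
      · intro a
        show ((χ a.1 : ℂˣ) : ℂ) = ((χ (ι.symm (ι a.1)) : ℂˣ) : ℂ)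
        rw [ι.symm_apply_apply]
  · intro δ g'
    obtain ⟨δ', rfl⟩ := e.surjective δ
    show _ = i (c (e.symm (e δ')) g')
    rw [e.symm_apply_apply, mul_inv_eq_iff_eq_mul]
    ext x
    exact hcc δ' g' x

end HLM

end Pool.Agent.RS2
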