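import Pool.Agent.Lib_helper35.RS2.Defs2
import Pool.Agent.Lib_helper17.RS.P_TF

/-!
Block D3: the places of large residue characteristic.
-/

namespace Pool.Agent.RS2

set_option linter.unusedSectionVars false

open Pool.Agent.RSK
open NumberField IsDedekindDomain Filter Topology Complex

/-- block D3: the places of large residue characteristic -/
theorem tf_big {F H : Type} [Field F] [NumberField F] [Field H] [NumberField H] [Algebra F H]
    {T : Finset (HeightOneSpectrum (𝓞 F))} {v : HeightOneSpectrum (𝓞 F)} (hv : v ∈ T)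
    (h : Module.finrank ℚ H + 1 < ringChar (𝓞 F ⧸ v.asIdeal)) :
    ∀ x : Hˣ, x ∈ KT (ovr H T) → ∀ n : ℕ, 0 < n → x ^ n = 1 → x = 1 := by
  intro x hx n hn hxn
  by_contra hx1
  have hfin : IsOfFinOrder x := isOfFinOrder_iff_pow_eq_one.2 ⟨n, hn, hxn⟩
  have ho : orderOf x ≠ 1 := fun h => hx1 (orderOf_eq_one_iff.1 h)
  obtain ⟨l, hl, hlo⟩ := Nat.exists_prime_and_dvd ho
  obtain ⟨m, hm⟩ := hlo
  have hm0 : m ≠ 0 := by
    rintro rfl
    rw [mul_zero] at hm
    exact hfin.orderOf_pos.ne' hm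
  have hyo : orderOf (x ^ m) = l := by
    rw [orderOf_pow_of_dvd hm0 (by rw [hm]; exact dvd_mul_left m l), hm,
      Nat.mul_div_cancel _ (Nat.pos_of_ne_zero hm0)]
  have hy : x ^ m ∈ KT (ovr H T) := Subgroup.pow_mem _ hx m
  set y := x ^ m with hydef
  have hyp : IsPrimitiveRoot (y : H) l := by
    have h1 : IsPrimitiveRoot y l := by
      rw [← hyo]
      exact IsPrimitiveRoot.orderOf y
    exact IsPrimitiveRoot.coe_units_iff.2 h1
  have hint : IsIntegral ℤ (y : H) := hyp.isIntegral hl.pos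
  obtain ⟨z, hz⟩ : ∃ z : 𝓞 H, (algebraMap (𝓞 H) H z) = (y : H) :=
    ⟨⟨(y : H), hint⟩, rfl⟩
  have hzp : IsPrimitiveRoot z l :=
    IsPrimitiveRoot.of_map_of_injective (f := algebraMap (𝓞 H) H) (by rw [hz]; exact hyp)
      (RingOfIntegers.coe_injective)
  obtain ⟨W, hW⟩ := dn_surj (F := F) (H := H) (Sum.inr v)
  rcases W with W | W
  · exact absurd hW (by simp [dn])
  · have hW' : W.under (𝓞 F) = v := Sum.inr_injective hW
    have key : (l : 𝓞 H) ∈ W.asIdeal ^ (l - 1) := by
      refine tf_mem_pow hl.pos hzp ?_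
      have h1 := hy W (mem_ovr.2 (by rw [hW']; exact hv))
      rw [← hz, ← map_one (algebraMap (𝓞 H) H), ← map_sub, HeightOneSpectrum.valuation_of_algebraMap,
        HeightOneSpectrum.intValuation_lt_one_iff_mem] at h1
      exact h1
    have h2 : (l : 𝓞 H) ∈ W.asIdeal :=
      Ideal.pow_le_self (I := W.asIdeal) (n := l - 1) (by have := hl.two_le; omega) key
    have h3 : ringChar (𝓞 F ⧸ v.asIdeal) = l := by
      refine tf_char v hl ?_
      rw [← hW']
      show algebraMap (𝓞 F) (𝓞 H) (l : 𝓞 F) ∈ W.asIdeal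
      rw [map_natCast]
      exact h2
    have h4 := tf_le W hl key
    rw [h3] at h
    omega

end Pool.Agent.RS2
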