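import Pool.Agent.Lib_helper35.RS2.P_AF
import Pool.Agent.Lib_helper35.RS2.P_UQ2
import Pool.Agent.Lib_helper35.RS2.P_QK
import Pool.Agent.Lib_helper35.RS2.P_NF
import Pool.Agent.Lib_helper35.RS2.Defs2

/-!
# RS2, block CG: integrality
-/

namespace Pool.Agent.RS2

set_option linter.unusedSectionVars false

open Pool.Agent.RSK
open NumberField IsDedekindDomain Filter Topology Complex

section LAY

variable {F E H : Type} [Field F] [NumberField F] [Field E] [NumberField E] [Field H]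
  [NumberField H] [Algebra F E] [Algebra F H] [Algebra E H] [IsScalarTower F E H]
  [IsGalois F H] {G : Type} [CommGroup G] [Fintype G] {p j : ℕ} {P : Subgroup G}
  {ι : G ≃* (H ≃ₐ[F] H)} {ιE : P ≃* (H ≃ₐ[E] H)} {S T : Finset (HeightOneSpectrum (𝓞 F))}
  {r : ℕ} {w : Fin r → Pl H} {fr : HeightOneSpectrum (𝓞 F) → G}

theorem cg_prime (p : ℕ) : ∃ l : ℕ, l.Prime ∧ l ≠ p := by
  by_cases h : p = 2
  · exact ⟨3, Nat.prime_three, by omega⟩
  · exact ⟨2, Nat.prime_two, Ne.symm h⟩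

theorem core_gen2 (hC : CycP p j P) (hD : Data ι S T r w fr) (hE : Lay ι P ιE) {m : ℕ}
    (hm : Fintype.card (PS (ovr E S)) = r * p ^ (j - 1) + m + 1)
    (hl : ∀ l : ℕ, l.Prime → l ≠ p → LCore2 ι S T P w fr l) {κ : ℕ}
    (hκ : p ^ (j - 1) * (κ * (p - 1) + 1) ≤ m) :
    ∃ c : (G →* ℂˣ) → ℂ, LeadF S T r fr P c ∧ (∀ χ, Fth P χ → c χ ≠ 0) ∧
      ∃ (b : Fin r → UM ι S T) (x : MonoidAlgebra ℚ G), Core2 ι S T P w c b x ∧
        ∀ ψ : Fin r → (UM ι S T →ₗ[MonoidAlgebra ℤ G] MonoidAlgebra ℤ G),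
          ∃ a : MonoidAlgebra ℤ G, x * toQ G (pmat ψ b).det =
            toQ G (MonoidAlgebra.single 1 ((p : ℤ) ^ κ) * a) := by
  have hDW := data_W hD
  obtain ⟨l₀, hl₀, hlp₀⟩ := cg_prime p
  obtain ⟨c, hc, hc0, b, x, hco, -⟩ := hl l₀ hl₀ hlp₀
  refine ⟨c, hc, hc0, b, x, hco, fun ψ => ?_⟩
  have hy : toQ G (nP P) * (x * toQ G (pmat ψ b).det) = 0 := by
    rw [← mul_assoc, hco.xminus, zero_mul]
  refine alg_fin hC _ hy (norm_dvd2 hC hDW hE hm hc hco ψ) hκ ?_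
  intro l hl' hlp
  obtain ⟨c', hc', hc0', b', x', hco', hint'⟩ := hl l hl' hlp
  rw [core_uniq2 hC hD (um_rank2 hC hDW hE) (leadf_uniq hc hc') hc0 hco hco' ψ]
  exact hint' ψ

end LAY

end Pool.Agent.RS2
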