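import Pool.Agent.Lib_helper35.RS2.P_GP
import Pool.Agent.Lib_helper17.RS.P_AA
import Pool.Agent.Lib_helper35.RS2.Defs2

/-!
# RS2, block AW: symmetric elements of the new part whose norm is integral outside `p`
-/

namespace Pool.Agent.RS2

set_option linter.unusedSectionVars false

open Pool.Agent.RSK
open Complex

section AW

variable {G : Type} [CommGroup G] [Fintype G] {P : Subgroup G} {p j : ℕ}

theorem aw_range (hC : CycP p j P) {χ : G →* ℂˣ} (hχ : Fth P χ) :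
    χ.range = rootsOfUnity (p ^ j) ℂ := by
  have : NeZero (p ^ j) := ⟨(pow_pos hC.prime.pos j).ne'⟩
  apply Subgroup.eq_of_le_of_card_ge
  · rintro z ⟨g, rfl⟩
    rw [_root_.mem_rootsOfUnity, ← map_pow, ← hC.card, pow_card_eq_one', map_one]
  · refine (card_rootsOfUnity ℂ (p ^ j)).trans ?_
    have h1 : Nat.card χ.range = Nat.card G :=
      Nat.card_congr (MonoidHom.ofInjective (fth_inj hC hχ)).toEquiv.symm
    rw [h1, hC.card]

theorem aw_aut (hC : CycP p j P) {χ ψ : G →* ℂˣ} (hχ : Fth P χ) (hψ : Fth P ψ) :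
    ∃ e : MulAut G, ∀ g, χ (e g) = ψ g := by
  refine ⟨(MonoidHom.ofInjective (fth_inj hC hψ)).trans ((MulEquiv.subgroupCongr
    ((aw_range hC hψ).trans (aw_range hC hχ).symm)).trans
      (MonoidHom.ofInjective (fth_inj hC hχ)).symm), fun g => ?_⟩
  have h1 := MulEquiv.apply_symm_apply (MonoidHom.ofInjective (fth_inj hC hχ))
    (MulEquiv.subgroupCongr ((aw_range hC hψ).trans (aw_range hC hχ).symm)
      (MonoidHom.ofInjective (fth_inj hC hψ) g))
  have h2 := congrArg (fun z : χ.range => (z : ℂˣ)) h1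
  exact h2

theorem aw_congr {φ ψ : (G →* ℂˣ) → ℂ} (h : ∀ χ, Fth P χ → φ χ = ψ χ) : pF P φ = pF P ψ := by
  unfold pF
  exact finprod_congr fun χ => h χ.1 χ.2

theorem aw_const (z : ℂ) :
    pF P (fun _ : G →* ℂˣ => z) = z ^ Nat.card {χ : G →* ℂˣ // Fth P χ} := by
  classical
  have : Finite (G →* ℂˣ) := dual_finite
  have : Fintype {χ : G →* ℂˣ // Fth P χ} := Fintype.ofFinite _
  unfold pF
  rw [finprod_eq_prod_of_fintype, Finset.prod_const, Finset.card_univ, Nat.card_eq_fintype_card]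

theorem aw_pow (φ : (G →* ℂˣ) → ℂ) (m : ℕ) : pF P (fun χ => φ χ ^ m) = (pF P φ) ^ m := by
  have : Finite (G →* ℂˣ) := dual_finite
  unfold pF
  rw [finprod_pow (Set.toFinite _)]

/-- block AW -/
theorem alg_away2 (hC : CycP p j P) (x : MonoidAlgebra ℚ G) (hx : toQ G (nP P) * x = 0)
    (hsym : ∀ e : MulAut G, ∃ (g : G) (ε : ℤ), (ε = 1 ∨ ε = -1) ∧
      MonoidAlgebra.mapDomain e x = MonoidAlgebra.single g (ε : ℚ) * x)
    (hN : ∃ (a : ℕ) (n : ℤ), (p : ℂ) ^ a * pF P (fun χ => evQ χ x) = n) :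
    ∃ (k : ℕ) (a : MonoidAlgebra ℤ G), MonoidAlgebra.single 1 ((p : ℚ) ^ k) * x = toQ G a := by
  obtain ⟨A, n, hn⟩ := hN
  have hfin : Finite (G →* ℂˣ) := dual_finite
  have : Fintype (G →* ℂˣ) := Fintype.ofFinite _
  have hx1 : ∀ χ : G →* ℂˣ, ¬ Fth P χ → evQ χ x = 0 := (nP_zero_iff x).1 hx
  have hpj : 0 < p ^ j := pow_pos hC.prime.pos j
  -- the powers of the values agree
  have hpow : ∀ χ ψ : G →* ℂˣ, Fth P χ → Fth P ψ →
      (evQ ψ x) ^ (2 * p ^ j) = (evQ χ x) ^ (2 * p ^ j) := by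
    intro χ ψ hχ hψ
    obtain ⟨e, he⟩ := aw_aut hC hχ hψ
    obtain ⟨g, ε, hε, h1⟩ := hsym e
    have h2 := congrArg (evQ χ) h1
    rw [aa_map, map_mul] at h2
    have h3 : χ.comp e.toMonoidHom = ψ := by
      ext g
      exact congrArg Units.val (he g)
    rw [h3] at h2
    have h4 : evQ χ (MonoidAlgebra.single g (ε : ℚ)) = (ε : ℂ) * (χ g : ℂ) := by
      simp [evQ, Algebra.smul_def]
    have h5 : (χ g : ℂ) ^ (2 * p ^ j) = 1 := by
      have : (χ g) ^ (2 * p ^ j) = 1 := by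
        rw [← map_pow, mul_comm, pow_mul, ← hC.card, pow_card_eq_one', one_pow, map_one]
      rw [← Units.val_pow_eq_pow_val, this, Units.val_one]
    have h6 : (ε : ℂ) ^ (2 * p ^ j) = 1 := by
      rcases hε with h | h
      · rw [h]
        simp
      · rw [h, pow_mul]
        simp
    rw [h2, h4, mul_pow, mul_pow, h5, h6]
    ring
  set N : ℕ := Nat.card {χ : G →* ℂˣ // Fth P χ} with hNd
  have hprod : ∀ χ : G →* ℂˣ, Fth P χ →
      ((evQ χ x) ^ (2 * p ^ j)) ^ N = (pF P (fun χ => evQ χ x)) ^ (2 * p ^ j) := by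
    intro χ hχ
    rw [hNd, ← aw_const (P := P), aw_congr (fun ψ hψ => (hpow χ ψ hχ hψ).symm), aw_pow]
  have hint : ∀ χ : G →* ℂˣ, IsIntegral ℤ ((p : ℂ) ^ A * evQ χ x) := by
    intro χ
    by_cases hχ : Fth P χ
    · have hN1 : 0 < N := by
        rw [hNd]
        have : Nonempty {χ : G →* ℂˣ // Fth P χ} := ⟨⟨χ, hχ⟩⟩
        exact Nat.card_pos
      obtain ⟨q, hq⟩ : ∃ q, N = q + 1 := ⟨N - 1, by omega⟩
      have h1 : (((p : ℂ) ^ A * evQ χ x) ^ (2 * p ^ j)) ^ N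
          = (((((p : ℤ) ^ A) ^ (2 * p ^ j)) ^ q * n ^ (2 * p ^ j) : ℤ) : ℂ) := by
        have h2 := hprod χ hχ
        rw [mul_pow, mul_pow, h2, hq, pow_succ]
        push_cast
        rw [← hn]
        ring
      have h3 : IsIntegral ℤ ((((p : ℂ) ^ A * evQ χ x) ^ (2 * p ^ j)) ^ N) := by
        rw [h1]
        exact isIntegral_algebraMap (R := ℤ) (A := ℂ)
      exact IsIntegral.of_pow (by omega) (IsIntegral.of_pow hN1 h3)
    · rw [hx1 χ hχ, mul_zero]
      exact isIntegral_zero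
  have hcoef : ∀ g : G, ∃ m : ℤ, (m : ℚ) = (p : ℚ) ^ (A + j) * x.coeff g := by
    intro g
    have h1 : (((p : ℚ) ^ (A + j) * x.coeff g : ℚ) : ℂ) =
        ∑ χ : G →* ℂˣ, ((p : ℂ) ^ A * evQ χ x) * (χ g⁻¹ : ℂ) := by
      have h2 : ∀ χ : G →* ℂˣ, ((p : ℂ) ^ A * evQ χ x) * (χ g⁻¹ : ℂ) =
          (p : ℂ) ^ A * (evQ χ x * (χ g⁻¹ : ℂ)) := by
        intro χ
        ring
      rw [Finset.sum_congr rfl fun χ _ => h2 χ, ← Finset.mul_sum, aa_inv, hC.card]
      push_cast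
      ring
    have h3 : IsIntegral ℤ (((p : ℚ) ^ (A + j) * x.coeff g : ℚ) : ℂ) := by
      rw [h1]
      refine IsIntegral.sum _ fun χ _ => (hint χ).mul ?_
      refine IsIntegral.of_pow (n := p ^ j) hpj ?_
      have : (χ g⁻¹) ^ (p ^ j) = 1 := by
        rw [← map_pow, ← hC.card, pow_card_eq_one', map_one]
      rw [← Units.val_pow_eq_pow_val, this, Units.val_one]
      exact isIntegral_one
    have h4 : IsIntegral ℤ ((p : ℚ) ^ (A + j) * x.coeff g : ℚ) :=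
      (isIntegral_algebraMap_iff (R := ℤ) (A := ℚ) (B := ℂ) (algebraMap ℚ ℂ).injective).1 h3
    obtain ⟨m, hm⟩ := IsIntegrallyClosed.isIntegral_iff.1 h4
    exact ⟨m, hm⟩
  choose m hm using hcoef
  refine ⟨A + j, MonoidAlgebra.ofCoeff (Finsupp.equivFunOnFinite.symm m), ?_⟩
  ext g
  rw [MonoidAlgebra.coeff_single_one_mul, ← hm g]
  simp [toQ]

end AW

end Pool.Agent.RS2
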