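import Pool.Agent.Lib_helper35.RS2.Defs2
import Pool.Agent.Lib_helper17.RS.P_TW

namespace Pool.Agent.RS2

set_option linter.unusedSectionVars false

open Pool.Agent.RSK
open NumberField IsDedekindDomain Filter Topology Complex
open scoped Pointwise

section HLM

variable {F₀ F L L' H : Type} [Field F₀] [NumberField F₀] [Field F] [NumberField F] [Field L]
  [NumberField L] [Field L'] [NumberField L'] [Field H] [NumberField H] [Algebra F₀ F]
  [Algebra F₀ L] [Algebra F₀ L'] [Algebra F₀ H] [Algebra F H] [Algebra L H] [Algebra L' H]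
  [Algebra L' L] [IsScalarTower F₀ F H] [IsScalarTower F₀ L H] [IsScalarTower F₀ L' H]
  [IsScalarTower L' L H] [IsScalarTower F₀ L' L] [IsGalois F₀ H] [IsGalois F₀ F] [IsGalois F H]
  [IsGalois L H] [IsGalois L' H] {G : Type} [CommGroup G] [Fintype G] {P : Subgroup G} {p j : ℕ}
  {ι : G ≃* (H ≃ₐ[F] H)} {S₀ T₀ : Finset (HeightOneSpectrum (𝓞 F₀))} {r : ℕ}
  {w : Fin r → Pl H} {fr : HeightOneSpectrum (𝓞 F) → G}

theorem c1_mem (δ : H ≃ₐ[L] H) {x : Hˣ} (hx : x ∈ Un (ovr H (ovr F S₀)) (ovr H (ovr F T₀))) :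
    δ • x ∈ Un (ovr H (ovr F S₀)) (ovr H (ovr F T₀)) := by
  have e1 : ovr H (ovr F S₀) = ovr H (ovr L S₀) := by rw [ovr_ovr, ovr_ovr]
  have e2 : ovr H (ovr F T₀) = ovr H (ovr L T₀) := by rw [ovr_ovr, ovr_ovr]
  rw [e1, e2] at hx ⊢
  exact un_smul δ hx

theorem dact_exists2 (c : (H ≃ₐ[L] H) →* MulAut G)
    (hc : ∀ (δ : H ≃ₐ[L] H) (g : G) (x : H), δ (ι g x) = ι (c δ g) (δ x)) :
    ∃ A : (H ≃ₐ[L] H) →* AddMonoid.End (UM ι (ovr F S₀) (ovr F T₀)),
      (∀ δ u, (A δ u).val = δ • u.val) ∧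
      ∀ (δ : H ≃ₐ[L] H) (g : G) (u : UM ι (ovr F S₀) (ovr F T₀)),
        A δ (MonoidAlgebra.single g (1 : ℤ) • u) = MonoidAlgebra.single (c δ g) (1 : ℤ) • A δ u := by
  let A₀ : (H ≃ₐ[L] H) → AddMonoid.End (UM ι (ovr F S₀) (ovr F T₀)) := fun δ =>
    { toFun := fun u => UM.mk (δ • u.val) (c1_mem δ u.val_mem)
      map_zero' := UM.ext (by rw [UM.val_mk, UM.val_zero, smul_one])
      map_add' := fun u v => UM.ext (by
        rw [UM.val_mk, UM.val_add, UM.val_add, UM.val_mk, UM.val_mk, smul_mul']) }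
  have hA₀ : ∀ δ u, (A₀ δ u).val = δ • u.val := fun δ u => rfl
  let A : (H ≃ₐ[L] H) →* AddMonoid.End (UM ι (ovr F S₀) (ovr F T₀)) :=
    { toFun := A₀
      map_one' := by
        refine AddMonoidHom.ext fun u => UM.ext ?_
        show ((1 : H ≃ₐ[L] H) • u.val) = u.val
        rw [one_smul]
      map_mul' := fun δ δ' => by
        refine AddMonoidHom.ext fun u => UM.ext ?_
        show ((δ * δ') • u.val) = δ • δ' • u.val
        rw [mul_smul] }
  refine ⟨A, fun δ u => rfl, fun δ g u => UM.ext ?_⟩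
  have h1 : (A δ (MonoidAlgebra.single g (1 : ℤ) • u)).val =
    δ • (MonoidAlgebra.single g (1 : ℤ) • u).val := rfl
  rw [h1, um_single_smul, um_single_smul]
  have h2 : (A δ u).val = δ • u.val := rfl
  rw [h2]
  ext
  exact hc δ g (u.val : H)

end HLM

end Pool.Agent.RS2
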