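import Pool.Agent.Lib_helper35.RS2.Defs2
import Pool.Agent.Lib_helper35.RS2.K_UR
import Pool.Agent.Lib_helper17.RS.P_UP1
import Pool.Agent.Lib_helper17.RS.P_UP2
import Pool.Agent.Lib_helper17.RS.P_TW
import Pool.Agent.Lib_helper17.RS.P_XF

/-!
# RS2, block C3: the units of `L`
-/

namespace Pool.Agent.RS2

set_option linter.unusedSectionVars false

open Pool.Agent.RSK
open NumberField NumberField.InfinitePlace NumberField.Units IsDedekindDomain Filter Topology
  Complex

/-- elements of the subgroup of order `p` of a cyclic `p`-group -/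
theorem c3_memP {G : Type} [CommGroup G] [Fintype G] {P : Subgroup G} {p j : ℕ}
    (hC : CycP p j P) (g : G) : g ∈ P ↔ g ^ p = 1 := by
  classical
  have : IsCyclic G := hC.cyc
  have hp : 0 < p := hC.prime.pos
  have h1 : ∀ x ∈ P, x ^ p = 1 := by
    intro x hx
    have h2 : (⟨x, hx⟩ : P) ^ Nat.card P = 1 := pow_card_eq_one'
    rw [hC.cardP] at h2
    exact congrArg Subtype.val h2
  have h2 := IsCyclic.card_pow_eq_one_le (α := G) hp
  have h3 : (Finset.univ.filter (fun x : G => x ∈ P)).card = p := by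
    rw [← hC.cardP, Nat.card_eq_fintype_card, Fintype.card_subtype]
  have h4 : Finset.univ.filter (fun x : G => x ∈ P) = Finset.univ.filter (fun x : G => x ^ p = 1) := by
    refine Finset.eq_of_subset_of_card_le ?_ (by rw [h3]; exact h2)
    intro x hx
    rw [Finset.mem_filter] at hx ⊢
    exact ⟨Finset.mem_univ _, h1 x hx.2⟩
  have h5 : g ∈ Finset.univ.filter (fun x : G => x ∈ P) ↔
      g ∈ Finset.univ.filter (fun x : G => x ^ p = 1) := by rw [h4]
  simpa using h5

theorem c3_autP {G : Type} [CommGroup G] [Fintype G] {P : Subgroup G} {p j : ℕ}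
    (hC : CycP p j P) (c : MulAut G) (g : G) : c g ∈ P ↔ g ∈ P := by
  rw [c3_memP hC, c3_memP hC, ← map_pow]
  constructor
  · intro h
    exact c.injective (by rw [h, map_one])
  · intro h
    rw [h, map_one]

/-- the restriction of an automorphism to `P` -/
noncomputable def c3_aut {G : Type} [CommGroup G] [Fintype G] {P : Subgroup G} {p j : ℕ}
    (hC : CycP p j P) (c : MulAut G) : P ≃ P where
  toFun x := ⟨c x.1, (c3_autP hC c x.1).2 x.2⟩
  invFun x := ⟨c.symm x.1, (c3_autP hC c.symm x.1).2 x.2⟩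
  left_inv x := Subtype.ext (c.symm_apply_apply x.1)
  right_inv x := Subtype.ext (c.apply_symm_apply x.1)

section HLM2

variable {F₀ F L L' H : Type} [Field F₀] [NumberField F₀] [Field F] [NumberField F] [Field L]
  [NumberField L] [Field L'] [NumberField L'] [Field H] [NumberField H] [Algebra F₀ F]
  [Algebra F₀ L] [Algebra F₀ L'] [Algebra F₀ H] [Algebra F H] [Algebra L H] [Algebra L' H]
  [Algebra L' L] [IsScalarTower F₀ F H] [IsScalarTower F₀ L H] [IsScalarTower F₀ L' H]
  [IsScalarTower L' L H] [IsScalarTower F₀ L' L] [IsGalois F₀ H] [IsGalois F₀ F] [IsGalois F H]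
  [IsGalois L H] [IsGalois L' H] {G : Type} [CommGroup G] [Fintype G] {P : Subgroup G} {p j : ℕ}
  {ι : G ≃* (H ≃ₐ[F] H)} {S₀ T₀ : Finset (HeightOneSpectrum (𝓞 F₀))} {r : ℕ}
  {w : Fin r → Pl H} {fr : HeightOneSpectrum (𝓞 F) → G}

theorem c3_memL (F₀ F L H : Type) [Field F₀] [NumberField F₀] [Field F] [NumberField F] [Field L]
    [NumberField L] [Field H] [NumberField H] [Algebra F₀ F] [Algebra F₀ L] [Algebra F₀ H]
    [Algebra F H] [Algebra L H] [IsScalarTower F₀ F H] [IsScalarTower F₀ L H]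
    (S₀ T₀ : Finset (HeightOneSpectrum (𝓞 F₀))) (x : Lˣ) :
    Units.map (algebraMap L H : L →* H) x ∈ Un (ovr H (ovr F S₀)) (ovr H (ovr F T₀)) ↔
      x ∈ Un (ovr L S₀) (ovr L T₀) := by
  rw [← un_map (F := L) (H := H) x, ovr_ovr (F₀ := F₀) (F := F) (H := H) S₀,
    ovr_ovr (F₀ := F₀) (F := F) (H := H) T₀, ovr_ovr (F₀ := F₀) (F := L) (H := H) S₀,
    ovr_ovr (F₀ := F₀) (F := L) (H := H) T₀]

theorem c3_memL' (F₀ L' L : Type) [Field F₀] [NumberField F₀] [Field L'] [NumberField L']
    [Field L] [NumberField L] [Algebra F₀ L'] [Algebra F₀ L] [Algebra L' L]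
    [IsScalarTower F₀ L' L] (S₀ T₀ : Finset (HeightOneSpectrum (𝓞 F₀))) (x : L'ˣ) :
    Units.map (algebraMap L' L : L' →* L) x ∈ Un (ovr L S₀) (ovr L T₀) ↔
      x ∈ Un (ovr L' S₀) (ovr L' T₀) := by
  rw [← un_map (F := L') (H := L) x, ovr_ovr (F₀ := F₀) (F := L') (H := L) S₀,
    ovr_ovr (F₀ := F₀) (F := L') (H := L) T₀]

/-- inclusion of the units of `L` -/
noncomputable def c3_jL (L : Type) [Field L] [NumberField L] [Algebra F₀ L] [Algebra L H]
    [IsScalarTower F₀ L H] (ι : G ≃* (H ≃ₐ[F] H))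
    (S₀ T₀ : Finset (HeightOneSpectrum (𝓞 F₀))) :
    Additive (Un (ovr L S₀) (ovr L T₀)) →ₗ[ℤ] UM ι (ovr F S₀) (ovr F T₀) :=
  AddMonoidHom.toIntLinearMap
    { toFun := fun x => UM.mk (Units.map (algebraMap L H : L →* H)
        ((Additive.toMul x : Un (ovr L S₀) (ovr L T₀)) : Lˣ))
        ((c3_memL F₀ F L H S₀ T₀ _).2 (Additive.toMul x : Un (ovr L S₀) (ovr L T₀)).2)
      map_zero' := UM.ext (by
        rw [UM.val_mk, UM.val_zero]
        exact map_one _)
      map_add' := fun x y => UM.ext (by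
        rw [UM.val_mk, UM.val_add, UM.val_mk, UM.val_mk]
        exact map_mul _ _ _) }

theorem c3_jL_val (x : Additive (Un (ovr L S₀) (ovr L T₀))) :
    (c3_jL L ι S₀ T₀ x).val = Units.map (algebraMap L H : L →* H)
      ((Additive.toMul x : Un (ovr L S₀) (ovr L T₀)) : Lˣ) := rfl

/-- inclusion of the units of `L'` in the units of `L` -/
noncomputable def c3_i (L' L : Type) [Field L'] [NumberField L'] [Field L] [NumberField L]
    [Algebra F₀ L'] [Algebra F₀ L] [Algebra L' L] [IsScalarTower F₀ L' L]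
    (S₀ T₀ : Finset (HeightOneSpectrum (𝓞 F₀))) :
    Additive (Un (ovr L' S₀) (ovr L' T₀)) →ₗ[ℤ] Additive (Un (ovr L S₀) (ovr L T₀)) :=
  AddMonoidHom.toIntLinearMap
    { toFun := fun x => Additive.ofMul ⟨Units.map (algebraMap L' L : L' →* L)
        ((Additive.toMul x : Un (ovr L' S₀) (ovr L' T₀)) : L'ˣ),
        (c3_memL' F₀ L' L S₀ T₀ _).2 (Additive.toMul x : Un (ovr L' S₀) (ovr L' T₀)).2⟩
      map_zero' := by
        refine Subtype.ext ?_
        exact map_one _
      map_add' := fun x y => by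
        refine Subtype.ext ?_
        exact map_mul _ _ _ }

theorem c3_i_val (x : Additive (Un (ovr L' S₀) (ovr L' T₀))) :
    ((Additive.toMul (c3_i L' L S₀ T₀ x) : Un (ovr L S₀) (ovr L T₀)) : Lˣ) =
      Units.map (algebraMap L' L : L' →* L)
        ((Additive.toMul x : Un (ovr L' S₀) (ovr L' T₀)) : L'ˣ) := rfl

theorem c3_val_sum {S T : Finset (HeightOneSpectrum (𝓞 F))} {κ : Type} (s : Finset κ)
    (f : κ → UM ι S T) : (∑ i ∈ s, f i).val = ∏ i ∈ s, (f i).val := by
  classical
  induction s using Finset.induction_on with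
  | empty => rw [Finset.sum_empty, Finset.prod_empty]; rfl
  | insert a s ha ih => rw [Finset.sum_insert ha, Finset.prod_insert ha, UM.val_add, ih]

theorem c3_nP (P : Subgroup G) [Fintype P] :
    nP P = ∑ h : P, (MonoidAlgebra.single (h : G) 1 : MonoidAlgebra ℤ G) :=
  finsum_eq_sum_of_fintype _

theorem c3_nP_val [Fintype P] {S T : Finset (HeightOneSpectrum (𝓞 F))} (u : UM ι S T) :
    (nP P • u).val = ∏ g : P, ι (g : G) • u.val := by
  rw [c3_nP, Finset.sum_smul, c3_val_sum]
  exact Finset.prod_congr rfl fun g _ => um_single_smul ι S T _ u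

/-- the norm of a unit of `L'` -/
theorem c3_nP_i (h : Hlm F₀ F L L' H ι P p j) (y : Additive (Un (ovr L' S₀) (ovr L' T₀))) :
    nP P • c3_jL L ι S₀ T₀ (c3_i L' L S₀ T₀ y) = p • c3_jL L ι S₀ T₀ (c3_i L' L S₀ T₀ y) := by
  classical
  let _ : Fintype P := Fintype.ofFinite _
  have h1 : ∀ g : P, MonoidAlgebra.single (g : G) (1 : ℤ) • c3_jL L ι S₀ T₀ (c3_i L' L S₀ T₀ y) =
      c3_jL L ι S₀ T₀ (c3_i L' L S₀ T₀ y) := by
    intro g
    refine UM.ext ?_
    rw [um_single_smul, c3_jL_val, c3_i_val]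
    ext
    show ι g (algebraMap L H (algebraMap L' L _)) = algebraMap L H (algebraMap L' L _)
    rw [← IsScalarTower.algebraMap_apply L' L H]
    exact h.fixP g g.2 _
  rw [c3_nP, Finset.sum_smul, Finset.sum_congr rfl fun g _ => h1 g, Finset.sum_const,
    Finset.card_univ, ← Nat.card_eq_fintype_card, h.cyc.cardP]

/-- the norm of a unit of `L` comes from `L'` -/
theorem c3_nP_L (h : Hlm F₀ F L L' H ι P p j) (x : Additive (Un (ovr L S₀) (ovr L T₀))) :
    ∃ y : Additive (Un (ovr L' S₀) (ovr L' T₀)),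
      nP P • c3_jL L ι S₀ T₀ x = c3_jL L ι S₀ T₀ (c3_i L' L S₀ T₀ y) := by
  classical
  let _ : Fintype P := Fintype.ofFinite _
  obtain ⟨c, -, hc⟩ := h.conj
  set z : Hˣ := (c3_jL L ι S₀ T₀ x).val with hz
  have hzδ : ∀ δ : H ≃ₐ[L] H, δ • z = z := by
    intro δ
    rw [hz, c3_jL_val]
    ext
    exact δ.commutes _
  have hN : (nP P • c3_jL L ι S₀ T₀ x).val = ∏ g : P, ι (g : G) • z := c3_nP_val _
  have hG : ∀ g : G, g ∈ P → ι g • (∏ h : P, ι (h : G) • z) = ∏ h : P, ι (h : G) • z := by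
    intro g hg
    rw [Finset.smul_prod']
    rw [← Equiv.prod_comp (Equiv.mulLeft (⟨g, hg⟩ : P)) (fun h : P => ι (h : G) • z)]
    refine Finset.prod_congr rfl fun h _ => ?_
    rw [Equiv.coe_mulLeft, Subgroup.coe_mul, map_mul, mul_smul]
  have hδ : ∀ δ : H ≃ₐ[L] H, δ • (∏ h : P, ι (h : G) • z) = ∏ h : P, ι (h : G) • z := by
    intro δ
    rw [Finset.smul_prod']
    rw [← Equiv.prod_comp (c3_aut h.cyc (c δ)) (fun h : P => ι (h : G) • z)]
    refine Finset.prod_congr rfl fun h _ => ?_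
    show δ • (ι (h : G) • z) = ι (c δ h) • z
    conv_rhs => rw [← hzδ δ]
    ext
    exact hc δ h (z : H)
  have hall : ∀ γ : H ≃ₐ[L'] H, γ • (∏ h : P, ι (h : G) • z) = ∏ h : P, ι (h : G) • z := by
    intro γ
    obtain ⟨g, hg, δ, h⟩ := h.dec' γ
    have e : γ • (∏ h : P, ι (h : G) • z) = ι g • (δ • (∏ h : P, ι (h : G) • z)) := by
      ext
      exact h _
    rw [e, hδ, hG g hg]
  obtain ⟨y, hy⟩ := fixed_unit _ hall
  have hyU : y ∈ Un (ovr L' S₀) (ovr L' T₀) := by
    rw [← un_map (H := H), hy, ← hN]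
    have h := (nP P • c3_jL L ι S₀ T₀ x).val_mem
    rwa [ovr_ovr, ovr_ovr] at h ⊢
  refine ⟨Additive.ofMul ⟨y, hyU⟩, UM.ext ?_⟩
  rw [hN, ← hy, c3_jL_val, c3_i_val]
  ext
  show algebraMap L' H (y : L') = algebraMap L H (algebraMap L' L (y : L'))
  exact IsScalarTower.algebraMap_apply L' L H _

theorem b_exists2 (h : Hlm F₀ F L L' H ι P p j) (hST : Disjoint S₀ T₀)
    (hD : DataW ι (ovr F S₀) (ovr F T₀) r w fr) {n' nL : ℕ} (hr : nL = n' + r)
    (b' : Module.Basis (Fin n') ℤ (Additive (Un (ovr L' S₀) (ovr L' T₀))))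
    (bL : Module.Basis (Fin nL) ℤ (Additive (Un (ovr L S₀) (ovr L T₀)))) :
    ∃ (β : Fin r → Lˣ) (b : Fin r → UM ι (ovr F S₀) (ovr F T₀)),
      (∀ k, β k ∈ Un (ovr L S₀) (ovr L T₀)) ∧
      (∀ k, (b k).val = Units.map (algebraMap L H : L →* H) (β k)) ∧
      (∀ k, nP P • b k = 0) ∧
      (∀ u : UM ι (ovr F S₀) (ovr F T₀), nP P • u = 0 →
        (∀ δ : H ≃ₐ[L] H, δ • u.val = u.val) → u ∈ AddSubgroup.closure (Set.range b)) ∧
      ∃ i : ℕ, i ≠ 0 ∧ regS (ovr L S₀) (Sum.elim
        (fun k => Units.map (algebraMap L' L : L' →* L) (bu b' k)) β) =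
          i * regS (ovr L S₀) (bu bL) := by
  classical
  have hA := h
  have hp0 : p ≠ 0 := hA.cyc.prime.ne_zero
  have := um_tf hD
  set A := Additive (Un (ovr L S₀) (ovr L T₀)) with hAdef
  set M := UM ι (ovr F S₀) (ovr F T₀) with hMdef
  have : Module.Free ℤ A := Module.Free.of_basis bL
  have : Module.Finite ℤ A := Module.Finite.of_basis bL
  have : Module.Free ℤ (Additive (Un (ovr L' S₀) (ovr L' T₀))) := Module.Free.of_basis b'
  have : Module.Finite ℤ (Additive (Un (ovr L' S₀) (ovr L' T₀))) := Module.Finite.of_basis b'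
  -- injectivity of the inclusions
  have hjinj : Function.Injective (c3_jL L ι S₀ T₀) := by
    intro x y h
    have h1 : (c3_jL L ι S₀ T₀ x).val = (c3_jL L ι S₀ T₀ y).val := by rw [h]
    rw [c3_jL_val, c3_jL_val] at h1
    exact Subtype.ext (Units.map_injective (algebraMap L H).injective h1)
  have hiinj : Function.Injective (c3_i L' L S₀ T₀) := by
    intro x y h
    have h1 : ((Additive.toMul (c3_i L' L S₀ T₀ x) : Un (ovr L S₀) (ovr L T₀)) : Lˣ) =
      ((Additive.toMul (c3_i L' L S₀ T₀ y) : Un (ovr L S₀) (ovr L T₀)) : Lˣ) := by rw [h]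
    rw [c3_i_val, c3_i_val] at h1
    exact Subtype.ext (Units.map_injective (algebraMap L' L).injective h1)
  -- the norm map
  let N : A →ₗ[ℤ] M := (DistribSMul.toAddMonoidHom M (nP P)).toIntLinearMap ∘ₗ c3_jL L ι S₀ T₀
  have hN : ∀ x, N x = nP P • c3_jL L ι S₀ T₀ x := fun x => rfl
  have hNN : ∀ x, N (p • x) = p • N x := fun x => by rw [map_nsmul]
  have htf : ∀ x : M, p • x = 0 → x = 0 := by
    intro x hx
    have hx' : (p : ℤ) • x = 0 := by rw [natCast_zsmul]; exact hx
    rcases smul_eq_zero.1 hx' with h | h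
    · exact absurd h (by exact_mod_cast hp0)
    · exact h
  -- rank of the image
  have hrange : Module.finrank ℤ (LinearMap.range N) = n' := by
    refine le_antisymm ?_ ?_
    · have hle : LinearMap.range N ≤ LinearMap.range (c3_jL L ι S₀ T₀ ∘ₗ c3_i L' L S₀ T₀) := by
        rintro _ ⟨x, rfl⟩
        obtain ⟨y, hy⟩ := c3_nP_L hA x
        exact ⟨y, by rw [hN, hy]; rfl⟩
      calc Module.finrank ℤ (LinearMap.range N)
          ≤ Module.finrank ℤ (LinearMap.range (c3_jL L ι S₀ T₀ ∘ₗ c3_i L' L S₀ T₀)) :=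
            LinearMap.finrank_le_finrank_of_injective (f := Submodule.inclusion hle)
              (Submodule.inclusion_injective hle)
        _ ≤ Module.finrank ℤ (Additive (Un (ovr L' S₀) (ovr L' T₀))) := LinearMap.finrank_range_le _
        _ = n' := by rw [Module.finrank_eq_card_basis b', Fintype.card_fin]
    · let f : Additive (Un (ovr L' S₀) (ovr L' T₀)) →ₗ[ℤ] LinearMap.range N :=
        (N ∘ₗ c3_i L' L S₀ T₀).codRestrict _ (fun x => ⟨c3_i L' L S₀ T₀ x, rfl⟩)
      have hf : Function.Injective f := by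
        rw [injective_iff_map_eq_zero]
        intro y hy
        have h1 : N (c3_i L' L S₀ T₀ y) = 0 := congrArg Subtype.val hy
        rw [hN, c3_nP_i hA] at h1
        have h2 := htf _ h1
        exact hiinj (hjinj (by rw [h2, map_zero, map_zero]))
      have h := LinearMap.finrank_le_finrank_of_injective hf
      rwa [Module.finrank_eq_card_basis b', Fintype.card_fin] at h
  have hKr : Module.finrank ℤ (LinearMap.ker N) = r := by
    have h1 := Submodule.finrank_quotient_add_finrank (LinearMap.ker N)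
    have h2 : Module.finrank ℤ (A ⧸ LinearMap.ker N) = n' := by
      rw [LinearEquiv.finrank_eq N.quotKerEquivRange, hrange]
    rw [h2, Module.finrank_eq_card_basis bL, Fintype.card_fin, hr] at h1
    omega
  let bK : Module.Basis (Fin r) ℤ (LinearMap.ker N) := Module.finBasisOfFinrankEq ℤ _ hKr
  refine ⟨fun j => ((Additive.toMul (bK j : A) : Un (ovr L S₀) (ovr L T₀)) : Lˣ),
    fun j => c3_jL L ι S₀ T₀ (bK j : A), fun j => (Additive.toMul (bK j : A) :
      Un (ovr L S₀) (ovr L T₀)).2, fun j => rfl, fun j => (bK j).2, ?_, ?_⟩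
  · intro u hu hδ
    obtain ⟨y, hy⟩ := fixed_unit (F := L) u.val hδ
    have hyU : y ∈ Un (ovr L S₀) (ovr L T₀) := by
      rw [← c3_memL F₀ F L H S₀ T₀, hy]
      exact u.val_mem
    set x : A := Additive.ofMul ⟨y, hyU⟩ with hx
    have hxu : c3_jL L ι S₀ T₀ x = u := UM.ext (by rw [c3_jL_val]; exact hy)
    have hxK : x ∈ LinearMap.ker N := by
      rw [LinearMap.mem_ker, hN, hxu]
      exact hu
    have h1 := bK.sum_repr ⟨x, hxK⟩
    have h2 : x = ∑ j, (bK.repr ⟨x, hxK⟩ j) • (bK j : A) := by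
      have h := congrArg (LinearMap.ker N).subtype h1
      rw [map_sum] at h
      exact h.symm
    rw [← hxu, h2, map_sum]
    refine AddSubgroup.sum_mem _ fun j _ => ?_
    rw [map_zsmul]
    exact AddSubgroup.zsmul_mem _ (AddSubgroup.subset_closure (Set.mem_range_self j)) _
  · let u : Fin n' ⊕ Fin r → Un (ovr L S₀) (ovr L T₀) :=
      Sum.elim (fun j => Additive.toMul (c3_i L' L S₀ T₀ (b' j))) (fun j => Additive.toMul (bK j : A))
    have hu : (fun j => (u j : Lˣ)) = Sum.elim
        (fun j => Units.map (algebraMap L' L : L' →* L) (bu b' j))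
        (fun j => ((Additive.toMul (bK j : A) : Un (ovr L S₀) (ovr L T₀)) : Lˣ)) := by
      funext j
      rcases j with j | j <;> rfl
    have hidx : (Subgroup.closure (Set.range u)).index ≠ 0 := by
      -- the closure as a submodule
      let C : Submodule ℤ A :=
        AddSubgroup.toIntSubmodule (Subgroup.toAddSubgroup (Subgroup.closure (Set.range u)))
      have hC0 : ∀ y : Additive (Un (ovr L' S₀) (ovr L' T₀)), c3_i L' L S₀ T₀ y ∈ C := by
        intro y
        rw [← b'.sum_repr y, map_sum]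
        refine Submodule.sum_mem _ fun j _ => ?_
        rw [map_zsmul]
        refine Submodule.smul_mem _ _ ?_
        exact (Subgroup.subset_closure (Set.mem_range_self (Sum.inl j)) :
          u (Sum.inl j) ∈ Subgroup.closure (Set.range u))
      have hC1 : ∀ y : A, y ∈ LinearMap.ker N → y ∈ C := by
        intro y hy
        have h1 := bK.sum_repr ⟨y, hy⟩
        have h2 : y = ∑ j, (bK.repr ⟨y, hy⟩ j) • (bK j : A) := by
          have h := congrArg (LinearMap.ker N).subtype h1
          rw [map_sum] at h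
          exact h.symm
        rw [h2]
        refine Submodule.sum_mem _ fun j _ => ?_
        refine Submodule.smul_mem _ _ ?_
        exact (Subgroup.subset_closure (Set.mem_range_self (Sum.inr j)) :
          u (Sum.inr j) ∈ Subgroup.closure (Set.range u))
      have hCp : ∀ x : A, p • x ∈ C := by
        intro x
        obtain ⟨y, hy⟩ := c3_nP_L hA x
        have hk : p • x - c3_i L' L S₀ T₀ y ∈ LinearMap.ker N := by
          rw [LinearMap.mem_ker, map_sub, hNN, hN, hN, c3_nP_i hA, hy, sub_self]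
        have e : p • x = (p • x - c3_i L' L S₀ T₀ y) + c3_i L' L S₀ T₀ y := by abel
        rw [e]
        exact C.add_mem (hC1 _ hk) (hC0 _)
      have : Group.FG (Un (ovr L S₀) (ovr L T₀)) := by
        rw [GroupFG.iff_add_fg]
        exact Module.Finite.iff_addGroup_fg.1 (inferInstance : Module.Finite ℤ A)
      have : Finite (Un (ovr L S₀) (ovr L T₀) ⧸ Subgroup.closure (Set.range u)) := by
        refine CommGroup.finite_of_fg_isMulTorsion _ ?_
        intro z
        obtain ⟨x, rfl⟩ := QuotientGroup.mk_surjective z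
        rw [isOfFinOrder_iff_pow_eq_one]
        refine ⟨p, hA.cyc.prime.pos, ?_⟩
        rw [← QuotientGroup.mk_pow, QuotientGroup.eq_one_iff]
        exact hCp (Additive.ofMul x)
      exact Subgroup.index_ne_zero_of_finite
    refine ⟨_, hidx, ?_⟩
    rw [← hu]
    exact reg_index bL u (by rw [Fintype.card_fin, Fintype.card_sum, Fintype.card_fin,
      Fintype.card_fin, hr]) rfl hidx

end HLM2

end Pool.Agent.RS2
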