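import Pool.Agent.Lib_helper35.RS2.Defs2
import Pool.Agent.Lib_helper17.RS.P_RD1
import Pool.Agent.Lib_helper17.RS.P_RD2

/-!
# RS2, block C4: the regulators
-/

namespace Pool.Agent.RS2

set_option linter.unusedSectionVars false

open Pool.Agent.RSK
open NumberField NumberField.InfinitePlace NumberField.Units IsDedekindDomain Filter Topology
  Complex

section C4B

variable {F H : Type} [Field F] [NumberField F] [Field H] [NumberField H] [Algebra F H]
  {G : Type} [CommGroup G] [Fintype G] {P : Subgroup G} {ι : G ≃* (H ≃ₐ[F] H)}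

theorem c4_val_sum {S T : Finset (HeightOneSpectrum (𝓞 F))} {κ : Type} (s : Finset κ)
    (f : κ → UM ι S T) : (∑ i ∈ s, f i).val = ∏ i ∈ s, (f i).val := by
  classical
  induction s using Finset.induction_on with
  | empty => rw [Finset.sum_empty, Finset.prod_empty]; rfl
  | insert a s ha ih => rw [Finset.sum_insert ha, Finset.prod_insert ha, UM.val_add, ih]

theorem c4_nP_val [Fintype P] {S T : Finset (HeightOneSpectrum (𝓞 F))} (u : UM ι S T) :
    (nP P • u).val = ∏ g : P, ι (g : G) • u.val := by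
  rw [nP, finsum_eq_sum_of_fintype, Finset.sum_smul, c4_val_sum]
  exact Finset.prod_congr rfl fun g _ => um_single_smul ι S T _ u

theorem c4_lg_prod {κ : Type} (W : Pl H) (s : Finset κ) (f : κ → Hˣ) :
    lg W ((∏ i ∈ s, f i : Hˣ) : H) = ∑ i ∈ s, lg W (f i : H) := by
  classical
  induction s using Finset.induction_on with
  | empty => rw [Finset.sum_empty, Finset.prod_empty, Units.val_one, lg_one]
  | insert a s ha ih =>
    rw [Finset.sum_insert ha, Finset.prod_insert ha, Units.val_mul,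
      lg_mul W (f a).ne_zero (Units.ne_zero _), ih]

/-- the sum of the logarithms over an orbit of `P` -/
theorem c4_orbit [Fintype P] {S T : Finset (HeightOneSpectrum (𝓞 F))} (u : UM ι S T)
    (hu : nP P • u = 0) (W : Pl H) :
    ∑ γ : P, lg (act (ι (γ : G)) W) (u.val : H) = 0 := by
  have h1 : (∏ g : P, ι (g : G) • u.val) = 1 := by
    rw [← c4_nP_val, hu, UM.val_zero]
  have h2 := c4_lg_prod W Finset.univ (fun g : P => ι (g : G) • u.val)
  rw [h1, Units.val_one, lg_one] at h2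
  rw [h2, ← Equiv.sum_comp (Equiv.inv P)]
  refine Finset.sum_congr rfl fun g _ => ?_
  show lg (act (ι ((g⁻¹ : P) : G)) W) (u.val : H) = lg W (ι (g : G) (u.val : H))
  have h3 := lg_act (ι ((g⁻¹ : P) : G)) W (ι (g : G) (u.val : H))
  rw [← h3]
  congr 1
  show (u.val : H) = (ι ((g⁻¹ : P) : G) * ι (g : G)) (u.val : H)
  rw [← map_mul, Subgroup.coe_inv, inv_mul_cancel, map_one]
  rfl

end C4B

section HLM2

variable {F₀ F L L' H : Type} [Field F₀] [NumberField F₀] [Field F] [NumberField F] [Field L]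
  [NumberField L] [Field L'] [NumberField L'] [Field H] [NumberField H] [Algebra F₀ F]
  [Algebra F₀ L] [Algebra F₀ L'] [Algebra F₀ H] [Algebra F H] [Algebra L H] [Algebra L' H]
  [Algebra L' L] [IsScalarTower F₀ F H] [IsScalarTower F₀ L H] [IsScalarTower F₀ L' H]
  [IsScalarTower L' L H] [IsScalarTower F₀ L' L] [IsGalois F₀ H] [IsGalois F₀ F] [IsGalois F H]
  [IsGalois L H] [IsGalois L' H] {G : Type} [CommGroup G] [Fintype G] {P : Subgroup G} {p j : ℕ}
  {ι : G ≃* (H ≃ₐ[F] H)} {S₀ T₀ : Finset (HeightOneSpectrum (𝓞 F₀))} {r : ℕ}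
  {w : Fin r → Pl H} {fr : HeightOneSpectrum (𝓞 F) → G}

/-- `Gal(H/L)` permutes the split places -/
theorem c4_perm_w (hD : DataW ι (ovr F S₀) (ovr F T₀) r w fr)
    (δ : H ≃ₐ[L] H) :
    ∃ (π : Equiv.Perm (Fin r)) (g : Fin r → G), ∀ i, act δ (w i) = act (ι (g i)) (w (π i)) := by
  have h1 : ∀ i, ∃ i' : Fin r, dn F (act δ (w i)) = dn F (w i') := by
    intro i
    apply hD.all
    · rw [rd1_inS, dn_dn, ← act_restrict (F₀ := F₀) δ, dn_act, ← dn_dn (F := F), ← rd1_inS]
      exact hD.mem i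
    · intro σ hσ
      obtain ⟨τ, hτ, hτ1⟩ := rd1_conj F₀ δ σ
      apply hτ1
      apply hD.split i
      rw [hτ] at hσ
      have h2 := congrArg (act δ⁻¹) hσ
      rw [← act_mul, ← act_mul, inv_mul_cancel, act_one, act_one] at h2
      exact h2
  choose π hπ using h1
  have hg : ∀ i, ∃ g : G, act δ (w i) = act (ι g) (w (π i)) := by
    intro i
    obtain ⟨σ, hσ⟩ := act_trans (F := F) (hπ i).symm
    refine ⟨ι.symm σ, ?_⟩
    rw [MulEquiv.apply_symm_apply, hσ]
  choose g hg using hg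
  have hinj : Function.Injective π := by
    intro i j hij
    apply hD.inj
    have h2 : dn F (act δ (w i)) = dn F (act δ (w j)) := by
      rw [hπ i, hπ j, hij]
    obtain ⟨σ, hσ⟩ := act_trans (F := F) h2
    obtain ⟨τ, hτ, _⟩ := rd1_conj F₀ δ σ
    rw [hτ] at hσ
    have h3 := congrArg (act δ⁻¹) hσ
    rw [← act_mul, ← act_mul, inv_mul_cancel, act_one, act_one] at h3
    rw [← h3, dn_act]
  exact ⟨Equiv.ofBijective π (Finite.injective_iff_bijective.1 hinj), g, hg⟩

open Matrix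

/-- block C4: the regulators -/
theorem rat_D2 (h : Hlm F₀ F L L' H ι P p j) (hD : DataW ι (ovr F S₀) (ovr F T₀) r w fr) {n' : ℕ}
    (b' : Module.Basis (Fin n') ℤ (Additive (Un (ovr L' S₀) (ovr L' T₀)))) (β : Fin r → Lˣ)
    (b : Fin r → UM ι (ovr F S₀) (ovr F T₀))
    (hβ : ∀ k, β k ∈ Un (ovr L S₀) (ovr L T₀))
    (hbβ : ∀ k, (b k).val = Units.map (algebraMap L H : L →* H) (β k))
    (hb : ∀ k, nP P • b k = 0) (hn : n' + 1 = Fintype.card (PS (ovr L' S₀)))
    (hL : n' + r + 1 = Fintype.card (PS (ovr L S₀)))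
    (h₀ : regS (ovr L' S₀) (bu b') ≠ 0) (h₁ : regS (ovr L S₀) (Sum.elim
      (fun k => Units.map (algebraMap L' L : L' →* L) (bu b' k)) β) ≠ 0) :
    ∃ (Y : MonoidAlgebra ℚ G) (κ : ℝ) (q : ℚ), q ≠ 0 ∧
      (wmat ι (ovr F S₀) (ovr F T₀) w b).det = MonoidAlgebra.single 1 κ * qToR G Y ∧
      regS (ovr L S₀) (Sum.elim
        (fun k => Units.map (algebraMap L' L : L' →* L) (bu b' k)) β) =
          q * regS (ovr L' S₀) (bu b') * |κ| ∧
      ∀ e : MulAut G, ∃ (g : G) (ε : ℤ), (ε = 1 ∨ ε = -1) ∧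
        MonoidAlgebra.mapDomain e Y = MonoidAlgebra.single g (ε : ℚ) * Y := by
  classical
  -- the points
  obtain ⟨P₀, ρL, N, hN, hex, hval⟩ := reg_eval (L := L) (H := H) (ovr L S₀)
    (Q := Fin n' ⊕ Fin r) (by rw [← hL]; simp)
  obtain ⟨_, ρF, N₀, hN₀, _, hval₀⟩ := reg_eval (L := L') (H := H) (ovr L' S₀)
    (Q := Fin n') (by rw [← hn]; simp)
  let _ : Fintype P := Fintype.ofFinite _
  have hovr : ovr H (ovr L S₀) = ovr H S₀ := ovr_ovr (F := L) (H := H) S₀
  have hovr' : ovr H (ovr L' S₀) = ovr H S₀ := ovr_ovr (F := L') (H := H) S₀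
  have hovrT' : ovr H (ovr L' T₀) = ovr H T₀ := ovr_ovr (F := L') (H := H) T₀
  let ρ : Fin n' ⊕ Fin r → rd2_P (ovr H S₀) := fun i => ⟨(ρL i).pl, rd2_cast hovr (rd2_inS (ρL i))⟩
  let ρ₀ : Fin n' → rd2_P (ovr H S₀) := fun i => ⟨(ρF i).pl, rd2_cast hovr' (rd2_inS (ρF i))⟩
  let pm : (H ≃ₐ[L] H) → rd2_P (ovr H S₀) → rd2_P (ovr H S₀) := fun δ => rd2_act δ
  let pg : G → rd2_P (ovr H S₀) → rd2_P (ovr H S₀) := fun g => rd2_act (ι g)
  let pp : P → rd2_P (ovr H S₀) → rd2_P (ovr H S₀) := fun g => rd2_act (ι (g : G))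
  let pa : (H ≃ₐ[L] H) ⊕ P → rd2_P (ovr H S₀) → rd2_P (ovr H S₀) := Sum.elim pm pp
  let _ : Fintype (H ≃ₐ[L] H) := Fintype.ofFinite _
  let wP : Fin r → rd2_P (ovr H S₀) := fun i => ⟨w i, by
    have h2 := rd2_inS_ovr.mp (hD.mem i)
    rwa [dn_dn, ← rd2_inS_ovr] at h2⟩
  -- the functions
  let a : Fin n' → rd2_P (ovr H S₀) → ℝ := fun j x => lg x.1 (algebraMap L' H (bu b' j : L'))
  let bf : Fin r → rd2_P (ovr H S₀) → ℝ := fun j x => lg x.1 (algebraMap L H (β j : L))
  have hbu : ∀ j, bu b' j ∈ Un (ovr L' S₀) (ovr L' T₀) := fun j => Subtype.prop _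
  have hbval : ∀ j, ((b j).val : H) = algebraMap L H (β j : L) := by
    intro j
    rw [hbβ j]
    rfl
  have ha1 : ∀ j, (∀ z x, a j (pa z x) = a j x) ∧ ∑ x, a j x = 0 := by
    intro j
    refine ⟨?_, ?_⟩
    · rintro (δ | g) x
      · show lg (act δ x.1) (algebraMap L' H (bu b' j : L')) = lg x.1 (algebraMap L' H (bu b' j : L'))
        rw [IsScalarTower.algebraMap_apply L' L H]
        exact rd2_lg_inv δ x.1 _
      · show lg (act (ι (g : G)) x.1) (algebraMap L' H (bu b' j : L')) =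
          lg x.1 (algebraMap L' H (bu b' j : L'))
        have h2 := lg_act (ι (g : G)) x.1 (algebraMap L' H (bu b' j : L'))
        rwa [h.fixP g g.2] at h2
    · have h1 := rd2_sum (ovr H S₀) (fun W => lg W (algebraMap L' H (bu b' j : L')))
      have h3 : Units.map (algebraMap L' H : L' →* H) (bu b' j) ∈ Un (ovr H S₀) (ovr H T₀) := by
        rw [← hovr', ← hovrT']
        exact (un_map _).mpr (hbu j)
      have h2 := sum_lg (S := ovr H S₀) (T := ovr H T₀)
        (u := Units.map (algebraMap L' H : L' →* H) (bu b' j)) h3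
      exact h1.trans h2
  have hb1 : ∀ j, (∀ z x, bf j (pm z x) = bf j x) ∧ ∀ x, ∑ γ, bf j (pp γ x) = 0 := by
    intro j
    refine ⟨fun δ x => rd2_lg_inv δ x.1 _, fun x => ?_⟩
    have h1 := c4_orbit (b j) (hb j) x.1
    rw [hbval j] at h1
    exact h1
  -- the determinants
  have hu : ∀ j, (Sum.elim (fun j => Units.map (algebraMap L' L : L' →* L) (bu b' j)) β j : Lˣ) ∈
      Un (ovr L S₀) (ovr L T₀) := by
    rintro (j | j)
    · have h3 := (un_map (F := L') (H := L) (bu b' j)).mpr (hbu j)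
      rwa [ovr_ovr, ovr_ovr] at h3
    · exact hβ j
  have hdetL := hval (ovr L T₀) _ hu
  have hdet₀ := hval₀ (ovr L' T₀) (bu b') hbu
  have hmL : (Matrix.of fun i j => lg (ρL i).pl (algebraMap L H
      ((Sum.elim (fun j => Units.map (algebraMap L' L : L' →* L) (bu b' j)) β j : Lˣ) : L))) =
      Matrix.of fun i j => Sum.elim a bf j (ρ i) := by
    ext i j
    rcases j with j | j
    · show lg (ρL i).pl (algebraMap L H (algebraMap L' L (bu b' j : L'))) =
        lg (ρL i).pl (algebraMap L' H (bu b' j : L'))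
      rw [← IsScalarTower.algebraMap_apply L' L H]
    · rfl
  rw [hmL] at hdetL
  have hm₀ : (Matrix.of fun i j => lg (ρF i).pl (algebraMap L' H (bu b' j : L'))) =
      Matrix.of fun i j => a j (ρ₀ i) := rfl
  rw [hm₀] at hdet₀
  have hNr : (N : ℝ) ≠ 0 := by exact_mod_cast hN.ne'
  have hNr₀ : (N₀ : ℝ) ≠ 0 := by exact_mod_cast hN₀.ne'
  have hdL : Matrix.det (Matrix.of fun i j => Sum.elim a bf j (ρ i)) ≠ 0 := by
    intro h
    rw [h, abs_zero] at hdetL
    exact mul_ne_zero hNr h₁ hdetL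
  have hd₀ : Matrix.det (Matrix.of fun i j => a j (ρ₀ i)) ≠ 0 := by
    intro h
    rw [h, abs_zero] at hdet₀
    exact mul_ne_zero hNr₀ h₀ hdet₀
  have : Nonempty P := ⟨1⟩
  -- the rational form
  obtain ⟨y, C, q, hy, hyb, hq⟩ := rat_form (rd2_A pa) (rd2_B pm pp) ρ ρ₀ (by
      intro f g hf hg hfg
      have hf' : (rd2_A pa).map (algebraMap ℚ ℚ) *ᵥ f = 0 := by rw [rd2_mapQ]; exact hf
      have hg' : (rd2_B pm pp).map (algebraMap ℚ ℚ) *ᵥ g = 0 := by rw [rd2_mapQ]; exact hg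
      obtain ⟨hf1, hf2⟩ := (rd2_A_iff pa f).mp hf'
      obtain ⟨hg1, hg2⟩ := (rd2_B_iff pm pp g).mp hg'
      refine rd2_inj pm pp (fun g => rd2_act_bij (ι (g : G))) (fun x => dn L x.1) P₀.pl ?_ ρ ?_ f g
        (fun z x => hf1 (Sum.inl z) x) (fun z x => hf1 (Sum.inr z) x) hf2 hg1 hg2 hfg
      · intro x x' hx
        obtain ⟨σ, hσ⟩ := act_trans (F := L) hx
        exact ⟨σ, Subtype.ext hσ⟩
      · intro x hx
        have h2 : InS (ovr L S₀) (dn L x.1) := by
          rw [rd2_inS_ovr, dn_dn, ← rd2_inS_ovr]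
          exact x.2
        obtain ⟨Q, hQ⟩ := (rd2_bij (ovr L S₀)).2 ⟨dn L x.1, h2⟩
        have hQ' : Q.pl = dn L x.1 := congrArg Subtype.val hQ
        obtain ⟨i, hi⟩ := hex Q (fun h => hx (by rw [← h]; exact hQ'.symm))
        exact ⟨i, hi.trans hQ'⟩) a bf
    (fun j => (rd2_A_iff pa (a j)).mpr (ha1 j)) (fun j => (rd2_B_iff pm pp (bf j)).mpr (hb1 j))
    hdL hd₀
  have hy1 : ∀ j, (∀ z x, y j (pm z x) = y j x) ∧ ∀ x, ∑ γ, y j (pp γ x) = 0 := by
    intro j
    have h1 : (rd2_B pm pp).map (algebraMap ℚ ℚ) *ᵥ (y j) = 0 := by rw [rd2_mapQ]; exact hy j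
    exact (rd2_B_iff pm pp (y j)).mp h1
  have hreg : regS (ovr L S₀) (Sum.elim
        (fun j => Units.map (algebraMap L' L : L' →* L) (bu b' j)) β) =
          ((q * N₀ / N : ℚ) : ℝ) * regS (ovr L' S₀) (bu b') * |C.det| := by
    have h1 : (N : ℝ) * regS (ovr L S₀) (Sum.elim
        (fun j => Units.map (algebraMap L' L : L' →* L) (bu b' j)) β) =
        q * (N₀ * regS (ovr L' S₀) (bu b')) * |C.det| := by
      rw [hdetL, hdet₀]
      exact hq
    push_cast
    field_simp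
    linarith
  refine ⟨Matrix.det (Matrix.of fun i j : Fin r =>
      ∑ γ : G, MonoidAlgebra.single γ (y j (pg γ (wP i)))), C.det, q * N₀ / N, ?_, ?_, hreg, ?_⟩
  · intro h
    rw [h] at hreg
    apply h₁
    rw [hreg]
    simp
  · have h1 : wmat ι (ovr F S₀) (ovr F T₀) w b =
        ((qToR G).mapMatrix (Matrix.of fun i j : Fin r =>
          ∑ γ : G, MonoidAlgebra.single γ (y j (pg γ (wP i))))) *
          ((MonoidAlgebra.singleOneRingHom (R := ℝ) (M := G)).mapMatrix C) := by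
      ext1 i j
      rw [Matrix.mul_apply]
      show ∑ γ : G, MonoidAlgebra.single γ (lg (act (ι γ) (w i)) ((b j).val : H)) =
        ∑ l, qToR G (∑ γ : G, MonoidAlgebra.single γ (y l (pg γ (wP i)))) *
          MonoidAlgebra.single 1 (C l j)
      have h2 : ∀ γ, lg (act (ι γ) (w i)) ((b j).val : H) =
          ∑ l, C l j * (y l (pg γ (wP i)) : ℝ) := by
        intro γ
        rw [hbval j]
        exact hyb j (pg γ (wP i))
      have h3 : ∀ l, qToR G (∑ γ : G, MonoidAlgebra.single γ (y l (pg γ (wP i)))) *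
          MonoidAlgebra.single 1 (C l j) =
          ∑ γ : G, MonoidAlgebra.single γ (C l j * (y l (pg γ (wP i)) : ℝ)) := by
        intro l
        rw [map_sum, Finset.sum_mul]
        refine Finset.sum_congr rfl fun γ _ => ?_
        have h4 : qToR G (MonoidAlgebra.single γ (y l (pg γ (wP i)))) =
            MonoidAlgebra.single γ ((y l (pg γ (wP i)) : ℚ) : ℝ) := by
          simp [qToR]
        rw [h4, MonoidAlgebra.single_mul_single, mul_one, mul_comm]
      rw [Finset.sum_congr rfl fun l _ => h3 l, Finset.sum_comm]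
      refine Finset.sum_congr rfl fun γ _ => ?_
      rw [h2 γ]
      exact map_sum (AddMonoidHom.mk' (fun x : ℝ => (MonoidAlgebra.single γ x : MonoidAlgebra ℝ G))
        (fun a b => MonoidAlgebra.single_add γ a b)) _ _
    rw [h1, Matrix.det_mul, ← RingHom.map_det, ← RingHom.map_det, mul_comm]
    rfl
  · intro e
    obtain ⟨c, hcb, hc⟩ := h.conj
    obtain ⟨δ, rfl⟩ := hcb.2 e
    obtain ⟨π, g, hg⟩ := c4_perm_w hD δ
    refine det_sym (c δ) π g (fun i j γ => y j (pg γ (wP i))) ?_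
    intro i j γ
    have h1 : pg (c δ γ * g i) (wP (π i)) = pm δ (pg γ (wP i)) := by
      apply Subtype.ext
      show act (ι (c δ γ * g i)) (w (π i)) = act δ (act (ι γ) (w i))
      rw [map_mul, act_mul, ← hg i]
      exact rd2_comm F₀ c hc δ γ (w i)
    rw [h1, (hy1 j).1]

end HLM2

end Pool.Agent.RS2
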