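import Pool.Agent.Lib_helper35.RS2.P_GP
import Pool.Agent.Lib_helper17.RS.P_IC
import Pool.Agent.Lib_helper35.RS2.Defs2

/-!
# RS2, block IP: modules with an action of a group of automorphisms
-/

namespace Pool.Agent.RS2

set_option linter.unusedSectionVars false

open Pool.Agent.RSK
open Complex

section IP

variable {G : Type} [CommGroup G] [Fintype G] {P : Subgroup G} {p j : ℕ}
variable {M : Type} [AddCommGroup M] [Module (MonoidAlgebra ℤ G) M]

/-- an automorphism maps `P` to itself -/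
theorem ip_map (hC : CycP p j P) (e : MulAut G) {h : G} (hh : h ∈ P) : e h ∈ P := by
  have h1P : 1 < Nat.card P := by rw [hC.cardP]; exact hC.prime.one_lt
  have h2P : Nontrivial P := Finite.one_lt_card_iff_nontrivial.1 h1P
  obtain ⟨h0, hh0⟩ := exists_ne (1 : P)
  have h0' : (h0 : G) ≠ 1 := fun h3 => hh0 (Subtype.ext h3)
  -- `P ≤ zpowers (e⁻¹ h0)`, so `e P ≤ zpowers h0 ≤ P`
  have h1 : e.symm (h0 : G) ≠ 1 := by
    intro h3
    apply h0'
    rw [← e.apply_symm_apply (h0 : G), h3, map_one]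
  obtain ⟨k, hk⟩ := Subgroup.mem_zpowers_iff.1 (cycp_le hC h1 hh)
  rw [← hk, map_zpow, e.apply_symm_apply]
  exact Subgroup.zpow_mem _ h0.2 k

theorem ip_single_smul (g h : G) (u : M) :
    (MonoidAlgebra.single g (1 : ℤ)) • (MonoidAlgebra.single h (1 : ℤ)) • u =
      (MonoidAlgebra.single (g * h) (1 : ℤ)) • u := by
  rw [smul_smul, MonoidAlgebra.single_mul_single, mul_one]

theorem ip_nP_single (g : G) (u : M) : nP P • MonoidAlgebra.single g (1 : ℤ) • u =
    MonoidAlgebra.single g (1 : ℤ) • nP P • u := by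
  rw [smul_smul, smul_smul, mul_comm]

theorem ip_nP_act (hC : CycP p j P) {Δ : Type} [Group Δ] (A : Δ →* AddMonoid.End M)
    (c : Δ →* MulAut G)
    (hact : ∀ (δ : Δ) (g : G) (u : M),
      A δ (MonoidAlgebra.single g (1 : ℤ) • u) = MonoidAlgebra.single (c δ g) (1 : ℤ) • A δ u)
    (δ : Δ) (u : M) : nP P • A δ u = A δ (nP P • u) := by
  classical
  have : Fintype P := Fintype.ofFinite P
  rw [nP_sum, Finset.sum_smul, Finset.sum_smul, map_sum]
  simp_rw [hact]
  let f : P → P := fun h => ⟨c δ h, ip_map hC _ h.2⟩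
  have hf : Function.Injective f := by
    intro a b hab
    have h1 : c δ (a : G) = c δ (b : G) := congrArg Subtype.val hab
    exact Subtype.ext ((c δ).injective h1)
  exact (Equiv.sum_comp (Equiv.ofBijective f (Finite.injective_iff_bijective.1 hf))
    (fun g : P => MonoidAlgebra.single (g : G) (1 : ℤ) • A δ u)).symm

/-- the sum over a homomorphism which is not trivial is a multiple of `nP` -/
theorem ip_sum [Module.IsTorsionFree ℤ M] (hC : CycP p j P) (f : G →* G) (hf : f ≠ 1) {u : M} (hu : nP P • u = 0) :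
    ∑ g : G, MonoidAlgebra.single (f g) (1 : ℤ) • u = 0 := by
  classical
  have : Fintype P := Fintype.ofFinite P
  obtain ⟨g0, hg0⟩ : ∃ g, f g ≠ 1 := by
    by_contra h'
    push Not at h'
    exact hf (MonoidHom.ext h')
  -- the range contains `P`
  have hr : ∀ h ∈ P, ∃ x, f x = h := by
    intro h hh
    obtain ⟨k, hk⟩ := Subgroup.mem_zpowers_iff.1 (cycp_le hC hg0 hh)
    exact ⟨g0 ^ k, by rw [map_zpow, hk]⟩
  choose! s hs using hr
  -- `∑_g f(g) u = ∑_g f(s(h) g) u = ∑_g h f(g) u` for all `h ∈ P`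
  have h1 : ∀ h : P, ∑ g : G, MonoidAlgebra.single (f g) (1 : ℤ) • u =
      ∑ g : G, MonoidAlgebra.single (f g) (1 : ℤ) • MonoidAlgebra.single (h : G) (1 : ℤ) • u := by
    intro h
    rw [← Equiv.sum_comp (Equiv.mulRight (s (h : G)))]
    refine Finset.sum_congr rfl fun g _ => ?_
    rw [Equiv.coe_mulRight, map_mul, hs _ h.2, smul_smul, MonoidAlgebra.single_mul_single, mul_one]
  -- so `#P` times the sum is `0`
  have h2 : (Fintype.card P) • ∑ g : G, MonoidAlgebra.single (f g) (1 : ℤ) • u = 0 := by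
    rw [← Finset.card_univ, ← Finset.sum_const]
    rw [Finset.sum_congr rfl (fun h _ => h1 h), Finset.sum_comm]
    refine Finset.sum_eq_zero fun g _ => ?_
    rw [← Finset.smul_sum, ← Finset.sum_smul, ← nP_sum, hu, smul_zero]
  have h3 : ((Fintype.card P : ℕ) : ℤ) • ∑ g : G, MonoidAlgebra.single (f g) (1 : ℤ) • u = 0 := by
    rw [natCast_zsmul]
    exact h2
  have h4 : ((Fintype.card P : ℕ) : ℤ) ≠ 0 := by
    exact_mod_cast (Fintype.card_pos (α := P)).ne'
  exact (smul_eq_zero.1 h3).resolve_left h4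

/-- `p ^ j u = ∑_g g⁻¹ ∑_δ δ(g u)` -/
theorem ip_dec [Module.IsTorsionFree ℤ M] (hC : CycP p j P) {Δ : Type} [Group Δ] [Fintype Δ]
    (A : Δ →* AddMonoid.End M) (c : Δ →* MulAut G) (hc : Function.Injective c)
    (hact : ∀ (δ : Δ) (g : G) (u : M),
      A δ (MonoidAlgebra.single g (1 : ℤ) • u) = MonoidAlgebra.single (c δ g) (1 : ℤ) • A δ u)
    {u : M} (hu : u ∈ mM P M) :
    ∃ y : G → M, (∀ g, y g ∈ mM P M ∧ ∀ δ : Δ, A δ (y g) = y g) ∧
      p ^ j • u = ∑ g : G, MonoidAlgebra.single g⁻¹ (1 : ℤ) • y g := by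
  classical
  have hu' : nP P • u = 0 := hu
  refine ⟨fun g => ∑ δ : Δ, A δ (MonoidAlgebra.single g (1 : ℤ) • u), fun g => ⟨?_, ?_⟩, ?_⟩
  · show nP P • (∑ δ : Δ, A δ (MonoidAlgebra.single g (1 : ℤ) • u)) = 0
    rw [Finset.smul_sum]
    refine Finset.sum_eq_zero fun δ _ => ?_
    rw [ip_nP_act hC A c hact, ip_nP_single, hu', smul_zero, map_zero]
  · intro δ'
    show A δ' (∑ δ : Δ, A δ (MonoidAlgebra.single g (1 : ℤ) • u)) = _
    rw [map_sum]
    have h1 : ∀ δ : Δ, A δ' (A δ (MonoidAlgebra.single g (1 : ℤ) • u)) =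
        A (δ' * δ) (MonoidAlgebra.single g (1 : ℤ) • u) := by
      intro δ
      rw [map_mul]; rfl
    simp_rw [h1]
    exact Equiv.sum_comp (Equiv.mulLeft δ') (fun δ => A δ (MonoidAlgebra.single g (1 : ℤ) • u))
  · simp_rw [Finset.smul_sum]
    rw [Finset.sum_comm]
    have h2 : ∀ δ : Δ, δ ≠ 1 → ∑ g : G, MonoidAlgebra.single g⁻¹ (1 : ℤ) •
        A δ (MonoidAlgebra.single g (1 : ℤ) • u) = 0 := by
      intro δ hδ
      simp_rw [hact, ip_single_smul]
      let f : G →* G :=
        { toFun := fun g => g⁻¹ * c δ g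
          map_one' := by rw [map_one, inv_one, mul_one]
          map_mul' := fun a b => by
            rw [map_mul, mul_inv]
            exact mul_mul_mul_comm _ _ _ _ }
      have hf : f ≠ 1 := by
        intro h
        apply hδ
        apply hc
        rw [map_one]
        refine MulEquiv.ext fun g => ?_
        have h3 : g⁻¹ * c δ g = 1 := DFunLike.congr_fun h g
        rw [MulAut.one_apply]
        exact (inv_mul_eq_one.1 h3).symm
      exact ip_sum hC f hf (u := A δ u) (by rw [ip_nP_act hC A c hact, hu', map_zero])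
    rw [Finset.sum_eq_single (1 : Δ) (fun δ _ hδ => h2 δ hδ)
      (fun h => absurd (Finset.mem_univ _) h)]
    have h4 : ∀ g : G, MonoidAlgebra.single g⁻¹ (1 : ℤ) •
        A 1 (MonoidAlgebra.single g (1 : ℤ) • u) = u := by
      intro g
      rw [map_one]
      show MonoidAlgebra.single g⁻¹ (1 : ℤ) • (MonoidAlgebra.single g (1 : ℤ) • u) = u
      rw [ip_single_smul, inv_mul_cancel]
      exact one_smul _ u
    simp_rw [h4]
    rw [Finset.sum_const, Finset.card_univ, ← Nat.card_eq_fintype_card, hC.card]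

/-- a finite group killed by a power of `p` -/
theorem ip_quot_pow {Q : Type} [AddCommGroup Q] [Module.Finite ℤ Q] (hp : p.Prime)
    (h : ∀ x : Q, p ^ j • x = 0) : ∃ e : ℕ, Nat.card Q = p ^ e := by
  have hF : Fact p.Prime := ⟨hp⟩
  have hne : NeZero (p ^ j) := ⟨(pow_pos hp.pos j).ne'⟩
  have hfin : Finite Q := by
    let hM : Module (ZMod (p ^ j)) Q := AddCommGroup.zmodModule h
    have hf : Module.Finite (ZMod (p ^ j)) Q :=
      Module.Finite.of_restrictScalars_finite ℤ (ZMod (p ^ j)) Q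
    exact @Module.finite_of_finite (ZMod (p ^ j)) Q _ _ hM inferInstance hf
  have hpg : IsPGroup p (Multiplicative Q) := by
    intro x
    exact ⟨j, h (Multiplicative.toAdd x)⟩
  obtain ⟨e, he⟩ := IsPGroup.iff_card.1 hpg
  exact ⟨e, he⟩

/-- The `ℤ[G]`-module generated by the `Δ`-invariants of the new part has `p`-power index. -/
theorem idx_pow2 {M : Type} [AddCommGroup M] [Module (MonoidAlgebra ℤ G) M] [Module.Finite ℤ M]
    [Module.IsTorsionFree ℤ M] (hC : CycP p j P) {Δ : Type} [Group Δ] [Fintype Δ]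
    (A : Δ →* AddMonoid.End M) (c : Δ →* MulAut G) (hc : Function.Injective c)
    (hact : ∀ (δ : Δ) (g : G) (u : M),
      A δ (MonoidAlgebra.single g (1 : ℤ) • u) = MonoidAlgebra.single (c δ g) (1 : ℤ) • A δ u)
    {r : ℕ} (b : Fin r → M) (hb : ∀ i, b i ∈ mM P M)
    (hgen : ∀ u ∈ mM P M, (∀ δ : Δ, A δ u = u) → u ∈ AddSubgroup.closure (Set.range b)) :
    ∃ e : ℕ, (mSpn G b).relIndex (mM P M) = p ^ e := by
  have hcl : ∀ u ∈ AddSubgroup.closure (Set.range b), u ∈ mSpn G b := by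
    intro u hu
    refine (AddSubgroup.closure_le _).mpr ?_ hu
    rintro _ ⟨j, rfl⟩
    exact Submodule.subset_span ⟨j, rfl⟩
  have hpM : ∀ u ∈ mM P M, p ^ j • u ∈ mSpn G b := by
    intro u hu
    obtain ⟨y, hy, hsum⟩ := ip_dec hC A c hc hact hu
    rw [hsum]
    refine AddSubgroup.sum_mem _ fun g _ => ?_
    exact Submodule.smul_mem _ _ (hcl _ (hgen _ (hy g).1 (hy g).2))
  have : Module.Finite ℤ (mM P M) :=
    inferInstanceAs (Module.Finite ℤ (AddSubgroup.toIntSubmodule (mM P M)))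
  have : Module.Finite ℤ (mM P M ⧸ (mSpn G b).addSubgroupOf (mM P M)) :=
    Module.Finite.of_surjective
      (QuotientAddGroup.mk' ((mSpn G b).addSubgroupOf (mM P M))).toIntLinearMap
      (QuotientAddGroup.mk'_surjective _)
  obtain ⟨e, he⟩ := ip_quot_pow (j := j) (Q := mM P M ⧸ (mSpn G b).addSubgroupOf (mM P M))
    hC.prime (by
    intro x
    obtain ⟨u, rfl⟩ := QuotientAddGroup.mk'_surjective _ x
    rw [← map_nsmul]
    rw [QuotientAddGroup.mk'_apply, QuotientAddGroup.eq_zero_iff, AddSubgroup.mem_addSubgroupOf]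
    exact hpM u.1 u.2)
  exact ⟨e, he⟩

end IP

end Pool.Agent.RS2
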