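import Pool.Agent.Lib_helper35.RS2.P_GP
import Pool.Agent.Lib_helper17.RS.P_RD1
import Pool.Agent.Lib_helper35.RS2.Defs2

/-!
# RS2, block IS
-/

namespace Pool.Agent.RS2

set_option linter.unusedSectionVars false

open Pool.Agent.RSK
open Complex

section IS

variable {G : Type} [CommGroup G] [Fintype G] {P : Subgroup G} {p j : ℕ}

theorem is_fth_comp (hC : CycP p j P) {χ : G →* ℂˣ} (hχ : Fth P χ) (e : MulAut G) :
    Fth P (χ.comp (e : G →* G)) := by
  have hpf : Fact p.Prime := ⟨hC.prime⟩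
  have h1 : 1 < Nat.card P := by rw [hC.cardP]; exact hC.prime.one_lt
  have h2 : Nontrivial P := Finite.one_lt_card_iff_nontrivial.1 h1
  obtain ⟨h, hh⟩ := exists_ne (1 : P)
  refine ⟨h, h.2, ?_⟩
  intro h3
  have h4 : χ (e (h : G)) = 1 := h3
  have h5 : e (h : G) = 1 := fth_inj hC hχ (by rw [h4, map_one])
  have h6 : (h : G) = 1 := by
    have h7 := congrArg e.symm h5
    rwa [MulEquiv.symm_apply_apply, map_one] at h7
  exact hh (Subtype.ext h6)

theorem inv_sym2 (hC : CycP p j P) {x Y : MonoidAlgebra ℚ G} (hx : toQ G (nP P) * x = 0) {q : ℚ}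
    (hq : q ≠ 0) (hxY : ∀ χ : G →* ℂˣ, Fth P χ → evQ χ x * evQ χ Y = q)
    (hY : ∀ e : MulAut G, ∃ (g : G) (ε : ℤ), (ε = 1 ∨ ε = -1) ∧
        MonoidAlgebra.mapDomain e Y = MonoidAlgebra.single g (ε : ℚ) * Y) :
    ∀ e : MulAut G, ∃ (g : G) (ε : ℤ), (ε = 1 ∨ ε = -1) ∧
        MonoidAlgebra.mapDomain e x = MonoidAlgebra.single g (ε : ℚ) * x := by
  intro e
  obtain ⟨g, ε, hε, he⟩ := hY e
  have hev : ∀ (χ : G →* ℂˣ) (h : G) (t : ℚ), evQ χ (MonoidAlgebra.single h t) = (t : ℂ) * (χ h : ℂ) := by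
    intro χ h t
    simp [evQ, MonoidAlgebra.lift_single, Algebra.smul_def]
  have hε2 : (ε : ℂ) * (ε : ℂ) = 1 := by
    rcases hε with h | h <;> simp [h]
  refine ⟨g⁻¹, ε, hε, ?_⟩
  apply evQ_inj
  intro χ
  rw [rd1_evQ_map, map_mul, hev]
  by_cases hχ : Fth P χ
  · have hχ' : Fth P (χ.comp (e : G →* G)) := is_fth_comp hC hχ e
    have h1 := hxY χ hχ
    have h2 := hxY _ hχ'
    rw [← rd1_evQ_map χ e Y, he, map_mul, hev] at h2
    have hqc : (q : ℂ) ≠ 0 := by exact_mod_cast hq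
    have hY0 : evQ χ Y ≠ 0 := by
      intro h
      rw [h, mul_zero] at h1
      exact hqc h1.symm
    have h3 : evQ (χ.comp (e : G →* G)) x * ((ε : ℂ) * (χ g : ℂ)) = evQ χ x := by
      apply mul_right_cancel₀ hY0
      rw [h1, ← h2]
      push_cast
      ring
    rw [← h3]
    have h4 : ((χ g⁻¹ : ℂˣ) : ℂ) * (χ g : ℂ) = 1 := by
      rw [← Units.val_mul, ← map_mul]
      simp
    push_cast
    calc evQ (χ.comp (e : G →* G)) x = ((ε : ℂ) * (ε : ℂ)) * (((χ g⁻¹ : ℂˣ) : ℂ) * (χ g : ℂ)) * evQ (χ.comp (e : G →* G)) x := by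
          rw [hε2, h4, one_mul, one_mul]
      _ = _ := by ring
  · have hχ' : ¬ Fth P (χ.comp (e : G →* G)) := by
      intro h
      apply hχ
      have h1 := is_fth_comp hC h e⁻¹
      have h2 : (χ.comp (e : G →* G)).comp ((e⁻¹ : MulAut G) : G →* G) = χ := by
        ext y
        have h3 : e ((e⁻¹ : MulAut G) y) = y := MulEquiv.apply_symm_apply e y
        simp only [MonoidHom.comp_apply]
        show ((χ (e ((e⁻¹ : MulAut G) y)) : ℂˣ) : ℂ) = _
        rw [h3]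
      rwa [h2] at h1
    rw [(nP_zero_iff x).1 hx χ hχ, (nP_zero_iff x).1 hx _ hχ', mul_zero]

end IS

end Pool.Agent.RS2
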