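import Pool.Agent.Lib_helper35.RS2.P_GP
import Pool.Agent.Lib_helper35.RS2.K_NM2
import Pool.Agent.Lib_helper17.RS.P_GC
import Pool.Agent.Lib_helper17.RS.P_CS
import Pool.Agent.Lib_helper35.RS2.P_AW
import Pool.Agent.Lib_helper35.RS2.P_C3
import Pool.Agent.Lib_helper35.RS2.P_C1
import Pool.Agent.Lib_helper35.RS2.P_LC2
import Pool.Agent.Lib_helper35.RS2.P_IP
import Pool.Agent.Lib_helper35.RS2.P_IS
import Pool.Agent.Lib_helper35.RS2.P_LY
import Pool.Agent.Lib_helper35.RS2.P_C2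
import Pool.Agent.Lib_helper35.RS2.P_NF
import Pool.Agent.Lib_helper35.RS2.P_C4
import Pool.Agent.Lib_helper35.RS2.Defs2

/-!
# RS2, block CS: integrality outside `p` for stable `S` and `T`
-/

namespace Pool.Agent.RS2

set_option linter.unusedSectionVars false

open Pool.Agent.RSK
open NumberField NumberField.InfinitePlace NumberField.Units IsDedekindDomain Filter Topology
  Complex

section CS

variable {F₀ F L L' H : Type} [Field F₀] [NumberField F₀] [Field F] [NumberField F] [Field L]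
  [NumberField L] [Field L'] [NumberField L'] [Field H] [NumberField H] [Algebra F₀ F]
  [Algebra F₀ L] [Algebra F₀ L'] [Algebra F₀ H] [Algebra F H] [Algebra L H] [Algebra L' H]
  [Algebra L' L] [IsScalarTower F₀ F H] [IsScalarTower F₀ L H] [IsScalarTower F₀ L' H]
  [IsScalarTower L' L H] [IsScalarTower F₀ L' L] [IsGalois F₀ H] [IsGalois F₀ F] [IsGalois F H]
  [IsGalois L H] [IsGalois L' H] {G : Type} [CommGroup G] [Fintype G] {P : Subgroup G} {p j : ℕ}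
  {ι : G ≃* (H ≃ₐ[F] H)} {S₀ T₀ : Finset (HeightOneSpectrum (𝓞 F₀))} {r : ℕ}
  {w : Fin r → Pl H} {fr : HeightOneSpectrum (𝓞 F) → G}

theorem lcore_stable (h : Hlm F₀ F L L' H ι P p j) (hST : Disjoint S₀ T₀)
    (hunr : ∀ W : HeightOneSpectrum (𝓞 H), W.under (𝓞 F₀) ∉ S₀ →
      Algebra.IsUnramifiedAt (𝓞 F₀) W.asIdeal)
    (hD : DataW ι (ovr F S₀) (ovr F T₀) r w fr) {l : ℕ} (hl : l.Prime) (hlp : l ≠ p) :
    LCore2 ι (ovr F S₀) (ovr F T₀) P w fr l := by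
  classical
  have hC := h.cyc
  have hp : p.Prime := hC.prime
  -- torsion-freeness
  obtain ⟨htH, hdH⟩ := tf_H hD
  have htH' := htH
  rw [ovr_ovr, ovr_ovr] at htH'
  have htL' : TFree (ovr L' S₀) (ovr L' T₀) := by
    refine tf_F (H := H) ?_
    rw [ovr_ovr, ovr_ovr]
    exact htH'
  have htL : TFree (ovr L S₀) (ovr L T₀) := by
    refine tf_F (H := H) ?_
    rw [ovr_ovr, ovr_ovr]
    exact htH'
  -- bases
  obtain ⟨n', ⟨b'⟩⟩ := un_exists (cs_disj (H := L') hST) htL'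
  obtain ⟨nL, ⟨bL⟩⟩ := un_exists (cs_disj (H := L) hST) htL
  obtain ⟨hn', hr', hh', -⟩ := cnf (cs_disj (H := L') hST) htL' b'
  obtain ⟨hnL, hrL, hhL, -⟩ := cnf (cs_disj (H := L) hST) htL bL
  obtain ⟨hnr, c₀, hc₀, hcL, hlead⟩ := lead_L2 h hST hunr hD b' bL
  obtain ⟨β, b, hβ, hbβ, hb, hgen, i, hi, hreg⟩ := b_exists2 h hST hD hnr b' bL
  have hreg' : regS (ovr L S₀) (Sum.elim
      (fun k => Units.map (algebraMap L' L : L' →* L) (bu b' k)) β) ≠ 0 := by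
    rw [hreg]
    exact mul_ne_zero (Nat.cast_ne_zero.2 hi) hrL.ne'
  obtain ⟨Y, κ, q, hq, hdet, hregq, hsym⟩ := rat_D2 h hD b' β b hβ hbβ hb hn'
    (by rw [← hnr]; exact hnL) hr'.ne' hreg'
  -- the constant `c₀` is rational multiple of `κ`
  obtain ⟨q', hq', hc₀κ⟩ : ∃ q' : ℚ, q' ≠ 0 ∧ c₀ = q' * κ := by
    have e1 : (i : ℝ) * regS (ovr L S₀) (bu bL) = q * regS (ovr L' S₀) (bu b') * |κ| := by
      rw [← hreg, hregq]
    have hi' : (i : ℝ) ≠ 0 := Nat.cast_ne_zero.2 hi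
    have hh₀' : (hA (ovr L' S₀) (ovr L' T₀) : ℝ) ≠ 0 := Nat.cast_ne_zero.2 hh'.ne'
    have hhL' : (hA (ovr L S₀) (ovr L T₀) : ℝ) ≠ 0 := Nat.cast_ne_zero.2 hhL.ne'
    have e2 : |c₀| = ((hA (ovr L S₀) (ovr L T₀) : ℝ) * q /
        ((hA (ovr L' S₀) (ovr L' T₀) : ℝ) * i)) * |κ| := by
      have h3 : |c₀| * ((hA (ovr L' S₀) (ovr L' T₀) : ℝ) * i) * regS (ovr L' S₀) (bu b') =
          (hA (ovr L S₀) (ovr L T₀) : ℝ) * q * |κ| * regS (ovr L' S₀) (bu b') := by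
        calc |c₀| * ((hA (ovr L' S₀) (ovr L' T₀) : ℝ) * i) * regS (ovr L' S₀) (bu b') =
            (|c₀| * ((hA (ovr L' S₀) (ovr L' T₀) : ℝ) * regS (ovr L' S₀) (bu b'))) * i := by ring
          _ = ((hA (ovr L S₀) (ovr L T₀) : ℝ) * regS (ovr L S₀) (bu bL)) * i := by
              rw [hcL]
          _ = (hA (ovr L S₀) (ovr L T₀) : ℝ) * (i * regS (ovr L S₀) (bu bL)) := by
              ring
          _ = (hA (ovr L S₀) (ovr L T₀) : ℝ) * q * |κ| * regS (ovr L' S₀) (bu b') := by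
              rw [e1]
              ring
      have h4 := mul_right_cancel₀ hr'.ne' h3
      rw [div_mul_eq_mul_div, eq_div_iff (mul_ne_zero hh₀' hi'), h4]
    set Q : ℚ := (hA (ovr L S₀) (ovr L T₀) : ℚ) * q /
      ((hA (ovr L' S₀) (ovr L' T₀) : ℚ) * i) with hQ
    have hQ0 : Q ≠ 0 := by
      rw [hQ]
      refine div_ne_zero (mul_ne_zero (Nat.cast_ne_zero.2 hhL.ne') hq)
        (mul_ne_zero (Nat.cast_ne_zero.2 hh'.ne') (Nat.cast_ne_zero.2 hi))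
    have e3 : |c₀| = (Q : ℝ) * |κ| := by
      rw [e2, hQ]
      push_cast
      ring
    rcases abs_choice c₀ with h | h <;> rcases abs_choice κ with h' | h'
    · exact ⟨Q, hQ0, by rw [← h, e3, h']⟩
    · refine ⟨-Q, neg_ne_zero.2 hQ0, ?_⟩
      rw [← h, e3, h']
      push_cast
      ring
    · refine ⟨-Q, neg_ne_zero.2 hQ0, ?_⟩
      rw [h, h'] at e3
      push_cast
      linarith
    · refine ⟨Q, hQ0, ?_⟩
      rw [h, h'] at e3
      linarith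
  have hκ : κ ≠ 0 := by
    rintro rfl
    exact hc₀ (by rw [hc₀κ, mul_zero])
  -- the module
  have hfin : Module.Finite ℤ (UM ι (ovr F S₀) (ovr F T₀)) := um_finite hD
  have htf : Module.IsTorsionFree ℤ (UM ι (ovr F S₀) (ovr F T₀)) := um_tf hD
  obtain ⟨cj, hcb, hcj⟩ := h.conj
  obtain ⟨A, hA1, hA2⟩ := dact_exists2 (S₀ := S₀) (T₀ := T₀) cj hcj
  have hbm : ∀ k, b k ∈ mM P (UM ι (ovr F S₀) (ovr F T₀)) := fun k => hb k
  have : FiniteDimensional L H := inferInstance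
  obtain ⟨e, he⟩ := idx_pow2 hC A cj hcb.1 hA2 b hbm (fun u hu hδ => hgen u hu fun δ => by
    rw [← hA1, hδ δ])
  obtain ⟨ιE, hE⟩ := lay_exists (ι := ι) P
  have hval : ∀ χ : G →* ℂˣ, evR χ (wmat ι (ovr F S₀) (ovr F T₀) w b).det = κ * evQ χ Y := by
    intro χ
    rw [hdet, map_mul, cs_evR_single, cs_evR_qToR]
  have hY : ∀ χ : G →* ℂˣ, Fth P χ → evQ χ Y ≠ 0 := by
    intro χ hχ h0
    refine wdet_ne2 hC hD hE hb (by rw [he]; exact pow_ne_zero _ hp.ne_zero) hχ ?_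
    rw [hval, h0, mul_zero]
  obtain ⟨x, hx0, hx⟩ := div_exists_nP (P := P) (MonoidAlgebra.single 1 q') Y hY
  have hxY : ∀ χ : G →* ℂˣ, Fth P χ → evQ χ x * evQ χ Y = q' := fun χ hχ => by
    rw [hx χ hχ, cs_evQ_single]
  have hco : Core2 ι (ovr F S₀) (ovr F T₀) P w (fun _ => (c₀ : ℂ)) b x := by
    refine ⟨hb, hx0, fun χ hχ => ?_⟩
    rw [hval, mul_left_comm, hxY χ hχ, hc₀κ]
    push_cast
    ring
  refine ⟨fun _ => (c₀ : ℂ), hlead, fun χ _ => Complex.ofReal_ne_zero.2 hc₀, b, x, hco, fun ψ => ?_⟩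
  obtain ⟨a₁, n₁, hn₁⟩ := norm_int2 hC hD hE hlead hco
  obtain ⟨k, a, hka⟩ := alg_away2 hC x hx0 (inv_sym2 hC hx0 hq' hxY hsym)
    ⟨a₁ + e, n₁, by rw [← hn₁, he, pow_add]; push_cast; ring⟩
  refine ⟨p ^ k, a * (pmat ψ b).det, fun h => ?_, ?_⟩
  · exact hlp ((Nat.prime_dvd_prime_iff_eq hl hp).1 (hl.dvd_of_dvd_pow h))
  · rw [map_mul, ← hka, ← mul_assoc]
    push_cast
    rfl

end CS

end Pool.Agent.RS2
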