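import Pool.Agent.Lib_helper35.RS2.Defs2
import Pool.Agent.Lib_helper17.RS.P_EX

/-!
# RS2, block D4: the holomorph
-/

namespace Pool.Agent.RS2

set_option linter.unusedSectionVars false

open Pool.Agent.RSK
open NumberField IsDedekindDomain Filter Topology Complex
open scoped Pointwise

section Grp

variable {A M : Type} [Group A] [Group M]

/-- the group of the `s θ(a)` -/
def d4G (N : Subgroup A) (θ : M →* A) (f : M → ℕ)
    (h : ∀ a, ∀ s ∈ N, θ a * s = s ^ f a * θ a) : Subgroup A where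
  carrier := {γ | ∃ s ∈ N, ∃ a : M, γ = s * θ a}
  one_mem' := ⟨1, N.one_mem, 1, by simp⟩
  mul_mem' := by
    rintro a b ⟨s, hs, k, rfl⟩ ⟨t, ht, l, rfl⟩
    refine ⟨s * t ^ f k, N.mul_mem hs (N.pow_mem ht _), k * l, ?_⟩
    rw [map_mul]
    calc s * θ k * (t * θ l) = s * (θ k * t) * θ l := by group
      _ = s * (t ^ f k * θ k) * θ l := by rw [h k t ht]
      _ = _ := by group
  inv_mem' := by
    rintro a ⟨s, hs, k, rfl⟩
    refine ⟨(s⁻¹) ^ f k⁻¹, N.pow_mem (N.inv_mem hs) _, k⁻¹, ?_⟩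
    rw [← h _ _ (N.inv_mem hs), mul_inv_rev, map_inv]

theorem d4_pow {n : ℕ} {g : A} (hg : g ^ n = 1) {x y : ℕ} (h : (x : ZMod n) = y) :
    g ^ x = g ^ y := by
  rw [ZMod.natCast_eq_natCast_iff] at h
  exact pow_eq_pow_of_modEq h hg

theorem d4_val {n : ℕ} [NeZero n] (a : ZMod n) : ((a.val : ℕ) : ZMod n) = a :=
  ZMod.natCast_zmod_val a

/-- the automorphism `g ↦ g ^ a` -/
def d4P {G : Type} [CommGroup G] (n : ℕ) [NeZero n] (hn : ∀ g : G, g ^ n = 1) :
    (ZMod n)ˣ →* MulAut G where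
  toFun a :=
    { toFun := fun g => g ^ (a : ZMod n).val
      invFun := fun g => g ^ ((a⁻¹ : (ZMod n)ˣ) : ZMod n).val
      left_inv := fun g => by
        show (g ^ (a : ZMod n).val) ^ ((a⁻¹ : (ZMod n)ˣ) : ZMod n).val = g
        rw [← pow_mul]
        conv_rhs => rw [← pow_one g]
        refine d4_pow (hn g) ?_
        rw [Nat.cast_mul, d4_val, d4_val, Units.mul_inv, Nat.cast_one]
      right_inv := fun g => by
        show (g ^ ((a⁻¹ : (ZMod n)ˣ) : ZMod n).val) ^ (a : ZMod n).val = g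
        rw [← pow_mul]
        conv_rhs => rw [← pow_one g]
        refine d4_pow (hn g) ?_
        rw [Nat.cast_mul, d4_val, d4_val, Units.inv_mul, Nat.cast_one]
      map_mul' := fun g h => mul_pow g h _ }
  map_one' := by
    ext g
    show g ^ ((1 : (ZMod n)ˣ) : ZMod n).val = g
    conv_rhs => rw [← pow_one g]
    refine d4_pow (hn g) ?_
    rw [d4_val, Units.val_one, Nat.cast_one]
  map_mul' a b := by
    ext g
    show g ^ ((a * b : (ZMod n)ˣ) : ZMod n).val = (g ^ (b : ZMod n).val) ^ (a : ZMod n).val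
    rw [← pow_mul]
    refine d4_pow (hn g) ?_
    rw [Nat.cast_mul, d4_val, d4_val, d4_val, Units.val_mul, mul_comm]

theorem d4P_apply {G : Type} [CommGroup G] (n : ℕ) [NeZero n] (hn : ∀ g : G, g ^ n = 1)
    (a : (ZMod n)ˣ) (g : G) : d4P n hn a g = g ^ (a : ZMod n).val := rfl

end Grp

theorem hol_exists {F K : Type} [Field F] [NumberField F] [Field K] [NumberField K] [Algebra F K]
    [IsGalois F K] {G : Type} [CommGroup G] [Finite G] {ι : G ≃* (K ≃ₐ[F] K)} {P : Subgroup G}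
    {p j : ℕ} (hC : CycP p j P) (h : Hol (p ^ j) F K) :
    ∃ (F₀ L L' : Type) (_ : Field F₀) (_ : NumberField F₀) (_ : Field L) (_ : NumberField L)
      (_ : Field L') (_ : NumberField L') (_ : Algebra F₀ F) (_ : Algebra F₀ L) (_ : Algebra F₀ L')
      (_ : Algebra F₀ K) (_ : Algebra L K) (_ : Algebra L' K) (_ : Algebra L' L)
      (_ : IsScalarTower F₀ F K) (_ : IsScalarTower F₀ L K) (_ : IsScalarTower F₀ L' K)
      (_ : IsScalarTower L' L K) (_ : IsScalarTower F₀ L' L) (_ : IsGalois F₀ K)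
      (_ : IsGalois F₀ F) (_ : IsGalois L K) (_ : IsGalois L' K), Hlm F₀ F L L' K ι P p j := by
  obtain ⟨θ₀, h3⟩ := h
  have hp := hC.prime
  have hcyc := hC.cyc
  have hn0 : p ^ j ≠ 0 := pow_ne_zero _ hp.ne_zero
  have hne : NeZero (p ^ j) := ⟨hn0⟩
  have hfinA : Finite (RingAut K) := exR_fin
  have hcardK : Nat.card (K ≃ₐ[F] K) = p ^ j := by
    rw [← hC.card]; exact (Nat.card_congr ι.toEquiv).symm
  have hgn : ∀ g : G, g ^ (p ^ j) = 1 := fun g => by
    rw [← hC.card]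
    exact pow_card_eq_one'
  let θ : (ZMod (p ^ j))ˣ →* RingAut K := θ₀
  have hθ : ∀ (a : (ZMod (p ^ j))ˣ) (σ : K ≃ₐ[F] K) (x : K),
      θ a (σ x) = (σ ^ (a : ZMod (p ^ j)).val) (θ a x) := h3
  set N : Subgroup (RingAut K) := (exR F K).range with hN
  have hNp : ∀ s ∈ N, s ^ (p ^ j) = 1 := by
    rintro s ⟨σ, rfl⟩
    rw [← map_pow]
    have : σ ^ (p ^ j) = 1 := by
      rw [← hcardK]
      exact pow_card_eq_one'
    rw [this, map_one]
  have hcomm : ∀ a : (ZMod (p ^ j))ˣ, ∀ s ∈ N,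
      θ a * s = s ^ ((fun a : (ZMod (p ^ j))ˣ => (a : ZMod (p ^ j)).val) a) * θ a := by
    rintro a s ⟨σ, rfl⟩
    rw [← map_pow]
    ext x
    exact hθ a σ x
  -- a generator
  obtain ⟨g₀, hg₀⟩ := hcyc.exists_generator
  have hg₀o : orderOf g₀ = p ^ j := by
    rw [← hC.card]
    exact orderOf_eq_card_of_forall_mem_zpowers hg₀
  have hord : ∀ a : (ZMod (p ^ j))ˣ, g₀ ^ (a : ZMod (p ^ j)).val = g₀ → a = 1 := by
    intro a ha
    have h4 : g₀ ^ (a : ZMod (p ^ j)).val = g₀ ^ 1 := by rw [ha, pow_one]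
    rw [pow_eq_pow_iff_modEq, hg₀o, ← ZMod.natCast_eq_natCast_iff, d4_val, Nat.cast_one] at h4
    exact Units.ext h4
  -- `θ a` commutes with `ι g₀` only for `a = 1`
  have hcen : ∀ a : (ZMod (p ^ j))ˣ, (∀ x : K, θ a (ι g₀ x) = ι g₀ (θ a x)) → a = 1 := by
    intro a ha
    apply hord a
    apply ι.injective
    ext x
    have h4 := ha ((θ a).symm x)
    rw [hθ] at h4
    have h5 : θ a ((θ a).symm x) = x := (θ a).apply_symm_apply x
    rw [h5] at h4
    rw [map_pow]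
    exact h4
  have hθinj : Function.Injective θ := by
    rw [injective_iff_map_eq_one]
    intro a ha
    apply hcen a
    intro x
    rw [ha]
    rfl
  set Δ : Subgroup (RingAut K) := θ.range with hΔ
  set NP : Subgroup (RingAut K) := (P.map ι.toMonoidHom).map (exR F K) with hNP
  have hNPN : NP ≤ N := by
    rintro s ⟨σ, hσ, rfl⟩
    exact ⟨σ, rfl⟩
  have hNPm : ∀ g ∈ P, exR F K (ι g) ∈ NP := fun g hg => ⟨ι g, ⟨g, hg, rfl⟩, rfl⟩
  set Γ : Subgroup (RingAut K) := d4G N θ _ hcomm with hΓ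
  set Γ' : Subgroup (RingAut K) := d4G NP θ _ (fun a s hs => hcomm a s (hNPN hs)) with hΓ'
  have hNΓ : ∀ s ∈ N, s ∈ Γ := fun s hs => ⟨s, hs, 1, by simp⟩
  have hNPΓ : ∀ s ∈ NP, s ∈ Γ' := fun s hs => ⟨s, hs, 1, by simp⟩
  have hΔΓ' : ∀ z ∈ Δ, z ∈ Γ' := by
    rintro z ⟨a, rfl⟩
    exact ⟨1, NP.one_mem, a, by simp⟩
  have hΓΓ : ∀ z ∈ Γ', z ∈ Γ := by
    rintro z ⟨s, hs, a, rfl⟩
    exact ⟨s, hNPN hs, a, rfl⟩
  let F₀ : Subfield K := FixedPoints.subfield Γ K
  let L : Subfield K := FixedPoints.subfield Δ K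
  let L' : Subfield K := FixedPoints.subfield Γ' K
  have memF : ∀ x : K, x ∈ F₀ ↔ ∀ γ ∈ Γ, γ x = x := fun x =>
    ⟨fun hx γ hγ => hx ⟨γ, hγ⟩, fun hx γ => hx γ.1 γ.2⟩
  have memL : ∀ x : K, x ∈ L ↔ ∀ γ ∈ Δ, γ x = x := fun x =>
    ⟨fun hx γ hγ => hx ⟨γ, hγ⟩, fun hx γ => hx γ.1 γ.2⟩
  have memL' : ∀ x : K, x ∈ L' ↔ ∀ γ ∈ Γ', γ x = x := fun x =>
    ⟨fun hx γ hγ => hx ⟨γ, hγ⟩, fun hx γ => hx γ.1 γ.2⟩
  have hLL : L' ≤ L := fun x hx => (memL x).mpr fun γ hγ => (memL' x).mp hx γ (hΔΓ' γ hγ)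
  have hFL' : F₀ ≤ L' := fun x hx => (memL' x).mpr fun γ hγ => (memF x).mp hx γ (hΓΓ γ hγ)
  have hFL : F₀ ≤ L := hFL'.trans hLL
  have hFR : F₀ ≤ (algebraMap F K).fieldRange := by
    intro x hx
    rw [RingHom.mem_fieldRange]
    have := (IsGalois.mem_range_algebraMap_iff_fixed (F := F) (E := K) x).mpr fun σ =>
      (memF x).mp hx _ (hNΓ _ ⟨σ, rfl⟩)
    exact this
  -- the automorphisms in `Γ` map `F` to `F`
  have hst : ∀ γ ∈ Γ, ∀ y : F, ∃ y' : F, γ (algebraMap F K y) = algebraMap F K y' := by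
    rintro γ ⟨s, ⟨σ, rfl⟩, a, rfl⟩ y
    have h4 : θ a (algebraMap F K y) ∈ Set.range (algebraMap F K) := by
      rw [IsGalois.mem_range_algebraMap_iff_fixed]
      intro σ'
      have h5 := hθ a (σ' ^ ((a⁻¹ : (ZMod (p ^ j))ˣ) : ZMod (p ^ j)).val) (algebraMap F K y)
      rw [AlgEquiv.commutes, ← pow_mul] at h5
      have h6 : σ' ^ (((a⁻¹ : (ZMod (p ^ j))ˣ) : ZMod (p ^ j)).val * (a : ZMod (p ^ j)).val) =
          σ' := by
        conv_rhs => rw [← pow_one σ']
        refine d4_pow (n := p ^ j) ?_ ?_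
        · rw [← hcardK]
          exact pow_card_eq_one'
        · rw [Nat.cast_mul, d4_val, d4_val, Units.inv_mul, Nat.cast_one]
      rw [h6] at h5
      exact h5.symm
    obtain ⟨y', hy'⟩ := h4
    refine ⟨y', ?_⟩
    show σ (θ a (algebraMap F K y)) = _
    rw [← hy', σ.commutes]
  -- the maps
  let e : F ≃+* (algebraMap F K).fieldRange := RingEquiv.ofBijective (algebraMap F K).rangeRestrictField
    ⟨fun a b hab => (algebraMap F K).injective (congrArg Subtype.val hab),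
      fun y => by
        obtain ⟨x, hx⟩ := y.2
        exact ⟨x, Subtype.ext hx⟩⟩
  have he : ∀ x, algebraMap F K (e.symm x) = x := fun x => by
    have h4 : (e (e.symm x)) = x := e.apply_symm_apply x
    exact congrArg Subtype.val h4
  let φ : F₀ →+* F := (e.symm : _ →+* F).comp (Subfield.inclusion hFR)
  have hφ : ∀ x : F₀, algebraMap F K (φ x) = x := fun x => he _
  let i1 : Algebra F₀ F := φ.toAlgebra
  let i2 : Algebra F₀ L := (Subfield.inclusion hFL).toAlgebra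
  let i2' : Algebra F₀ L' := (Subfield.inclusion hFL').toAlgebra
  let i2'' : Algebra L' L := (Subfield.inclusion hLL).toAlgebra
  have i3 : IsScalarTower F₀ F K := IsScalarTower.of_algebraMap_eq fun x => (hφ x).symm
  have i4 : IsScalarTower F₀ L K := IsScalarTower.of_algebraMap_eq fun x => rfl
  have i4' : IsScalarTower F₀ L' K := IsScalarTower.of_algebraMap_eq fun x => rfl
  have i4'' : IsScalarTower L' L K := IsScalarTower.of_algebraMap_eq fun x => rfl
  have i4''' : IsScalarTower F₀ L' L := IsScalarTower.of_algebraMap_eq fun x => rfl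
  have i5 : IsGalois F₀ K := IsGalois.of_fixed_field K Γ
  have i6 : IsGalois L K := IsGalois.of_fixed_field K Δ
  have i6' : IsGalois L' K := IsGalois.of_fixed_field K Γ'
  -- automorphisms over `F₀`, `L'` and `L`
  have autF : ∀ γ : K ≃ₐ[F₀] K, ∃ g ∈ Γ, ∀ x, γ x = g x := by
    intro γ
    obtain ⟨g, hg⟩ := (FixedPoints.toAlgAut_bijective Γ K).surjective γ
    exact ⟨g.1, g.2, fun x => (DFunLike.congr_fun hg x).symm⟩
  have autL' : ∀ γ : K ≃ₐ[L'] K, ∃ g ∈ Γ', ∀ x, γ x = g x := by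
    intro γ
    obtain ⟨g, hg⟩ := (FixedPoints.toAlgAut_bijective Γ' K).surjective γ
    exact ⟨g.1, g.2, fun x => (DFunLike.congr_fun hg x).symm⟩
  -- the isomorphism `(ℤ/n)ˣ ≃ Gal(K/L)`
  let eD : (ZMod (p ^ j))ˣ ≃* (K ≃ₐ[L] K) :=
    (MonoidHom.ofInjective hθinj).trans (FixedPoints.toAlgAutMulEquiv Δ K)
  have heD : ∀ (a : (ZMod (p ^ j))ˣ) (x : K), eD a x = θ a x := fun a x => rfl
  have i7 : IsGalois F₀ F := by
    have hnorm : Normal F₀ (IsScalarTower.toAlgHom F₀ F K).fieldRange := by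
      rw [IntermediateField.normal_iff_forall_map_le']
      intro γ x hx
      rw [IntermediateField.mem_map] at hx
      obtain ⟨z, hz, rfl⟩ := hx
      obtain ⟨y, rfl⟩ := hz
      obtain ⟨g, hg, hgx⟩ := autF γ
      obtain ⟨y', hy'⟩ := hst g hg y
      refine ⟨y', ?_⟩
      show algebraMap F K y' = γ (algebraMap F K y)
      rw [hgx, hy']
    have hn2 : Normal F₀ F := Normal.of_algEquiv (IsScalarTower.toAlgHom F₀ F K).equivFieldRange.symm
    exact ⟨⟩
  refine ⟨F₀, L, L', inferInstance, NumberField.of_subfield F₀, inferInstance,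
    NumberField.of_subfield L, inferInstance, NumberField.of_subfield L',
    i1, i2, i2', inferInstance, inferInstance, inferInstance, i2'', i3, i4, i4', i4'', i4''',
    i5, i7, i6, i6', ?_⟩
  refine ⟨hC, ?_, ?_, ?_, ?_, ?_⟩
  · intro γ
    obtain ⟨g, ⟨s, ⟨σ, rfl⟩, a, rfl⟩, hgx⟩ := autF γ
    refine ⟨ι.symm σ, eD a, fun x => ?_⟩
    rw [hgx, MulEquiv.apply_symm_apply]
    rfl
  · intro γ
    obtain ⟨g, ⟨s, ⟨σ, ⟨u, hu, rfl⟩, rfl⟩, a, rfl⟩, hgx⟩ := autL' γ
    exact ⟨u, hu, eD a, fun x => hgx x⟩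
  · intro g hg x
    exact (memL' x.1).mp x.2 _ (hNPΓ _ (hNPm g hg))
  · intro g hg
    set δ : K ≃ₐ[L] K := AlgEquiv.ofRingEquiv (f := (ι g).toRingEquiv) hg with hδ
    obtain ⟨a, ha⟩ := eD.surjective δ
    have hax : ∀ x, θ a x = ι g x := fun x => by
      rw [← heD, ha]
      rfl
    have h4 : a = 1 := by
      apply hcen a
      intro x
      rw [hax, hax]
      show (ι g * ι g₀) x = (ι g₀ * ι g) x
      rw [← map_mul, mul_comm, map_mul]
    apply ι.injective
    ext x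
    rw [← hax, h4, map_one, map_one]
    rfl
  · refine ⟨(d4P (p ^ j) hgn).comp eD.symm.toMonoidHom, ?_, ?_⟩
    · have hinjP : Function.Injective (d4P (p ^ j) hgn) := by
        rw [injective_iff_map_eq_one]
        intro a ha
        apply hord a
        have h4 := DFunLike.congr_fun ha g₀
        exact h4
      have hinj : Function.Injective ((d4P (p ^ j) hgn).comp eD.symm.toMonoidHom) :=
        fun a b hab => eD.symm.injective (hinjP hab)
      have hfinM : Finite (MulAut G) := inferInstance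
      refine Function.Injective.bijective_of_nat_card_le hinj ?_
      rw [IsCyclic.card_mulAut, hC.card, ← Nat.card_congr eD.toEquiv, Nat.card_eq_fintype_card,
        ZMod.card_units_eq_totient]
    · intro δ g x
      obtain ⟨a, rfl⟩ := eD.surjective δ
      show eD a (ι g x) = ι (d4P (p ^ j) hgn (eD.symm (eD a)) g) (eD a x)
      rw [eD.symm_apply_apply, d4P_apply, map_pow]
      exact hθ a (ι g) x

end Pool.Agent.RS2
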