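import Pool.Agent.Lib_helper35.RS2.Defs2

namespace Pool.Agent.RS2

set_option linter.unusedSectionVars false

open Pool.Agent.RSK
open NumberField IsDedekindDomain Filter Topology Complex
open scoped Pointwise

theorem d5_top {G : Type} [CommGroup G] [Finite G] {P : Subgroup G} (hC : CycP 2 1 P) : P = ⊤ := by
  apply Subgroup.eq_top_of_card_eq
  rw [hC.cardP, hC.card, pow_one]

theorem d5_aut {G : Type} [CommGroup G] [Finite G] {P : Subgroup G} (hC : CycP 2 1 P)
    (e : MulAut G) : e = 1 := by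
  have h2 : Nat.card G = 2 := by rw [hC.card, pow_one]
  obtain ⟨a, b, hab, hu⟩ := Nat.card_eq_two_iff.mp h2
  have hall : ∀ x : G, x = a ∨ x = b := fun x => by
    have : x ∈ ({a, b} : Set G) := by rw [hu]; trivial
    simpa using this
  ext x
  show e x = x
  by_cases hx : x = 1
  · rw [hx, map_one]
  · have hex : e x ≠ 1 := fun h => hx ((MulEquiv.map_eq_one_iff e).mp h)
    rcases hall 1 with h1 | h1 <;> rcases hall x with h3 | h3 <;> rcases hall (e x) with h4 | h4 <;>
      simp_all

theorem hlm_two {F H : Type} [Field F] [NumberField F] [Field H] [NumberField H] [Algebra F H]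
    [IsGalois F H] {G : Type} [CommGroup G] [Finite G] {ι : G ≃* (H ≃ₐ[F] H)} {P : Subgroup G}
    (hC : CycP 2 1 P) : Hlm F F H F H ι P 2 1 := by
  refine ⟨hC, fun γ => ⟨ι.symm γ, 1, fun x => ?_⟩, fun γ => ⟨ι.symm γ, ?_, 1, fun x => ?_⟩,
    fun g _ x => (ι g).commutes x, fun g hg => ?_, 1, ⟨fun a b _ => ?_, fun e => ⟨1, ?_⟩⟩,
    fun δ g x => ?_⟩
  · rw [MulEquiv.apply_symm_apply]; rfl
  · rw [d5_top hC]; trivial
  · rw [MulEquiv.apply_symm_apply]; rfl
  · have h : ι g = 1 := AlgEquiv.ext fun x => hg x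
    exact (MulEquiv.map_eq_one_iff ι).mp h
  · refine AlgEquiv.ext fun x => ?_
    have h1 := a.commutes x
    have h2 := b.commutes x
    exact h1.trans h2.symm
  · rw [d5_aut hC e, map_one]
  · have h1 : ∀ y : H, δ y = y := fun y => δ.commutes y
    rw [h1, h1]; rfl

end Pool.Agent.RS2
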