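import Pool.Agent.Lib_helper35.RS2.P_CH
import Pool.Agent.Lib_helper35.RS2.P_D1
import Pool.Agent.Lib_helper35.RS2.P_D5
import Pool.Agent.Lib_helper35.RS2.P_D4
import Pool.Agent.Lib_helper35.RS2.P_CS
import Pool.Agent.Lib_helper35.RS2.Defs2

/-!
# RS2, block LA: integrality outside `p` for arbitrary `S` and `T`
-/

namespace Pool.Agent.RS2

set_option linter.unusedSectionVars false

open Pool.Agent.RSK
open NumberField IsDedekindDomain Filter Topology Complex

/-- the ramified places -/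
theorem la_ram (F₀ H : Type) [Field F₀] [NumberField F₀] [Field H] [NumberField H] [Algebra F₀ H] :
    ∃ B : Finset (HeightOneSpectrum (𝓞 F₀)), ∀ W : HeightOneSpectrum (𝓞 H),
      W.under (𝓞 F₀) ∉ B → Algebra.IsUnramifiedAt (𝓞 F₀) W.asIdeal := by
  classical
  have hne : differentIdeal (𝓞 F₀) (𝓞 H) ≠ ⊥ := differentIdeal_ne_bot
  have hfin := Ideal.finite_factors hne
  refine ⟨hfin.toFinset.image (fun W => W.under (𝓞 F₀)), fun W hW => ?_⟩
  have hp : W.asIdeal.IsPrime := W.isPrime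
  rw [← not_dvd_differentIdeal_iff]
  intro hd
  exact hW (Finset.mem_image_of_mem _ (hfin.mem_toFinset.2 hd))

section LA

variable {F H : Type} [Field F] [NumberField F] [Field H] [NumberField H] [Algebra F H]
  [IsGalois F H] {G : Type} [CommGroup G] [Fintype G] {p j : ℕ} {P : Subgroup G}
  {ι : G ≃* (H ≃ₐ[F] H)} {S T : Finset (HeightOneSpectrum (𝓞 F))} {r : ℕ}
  {w : Fin r → Pl H} {fr : HeightOneSpectrum (𝓞 F) → G}

theorem la_ovr (S : Finset (HeightOneSpectrum (𝓞 F))) : ovr F S = S := by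
  ext W
  rw [mem_ovr]
  refine iff_of_eq (congrArg (fun v => v ∈ S) ?_)
  refine HeightOneSpectrum.ext ?_
  ext x
  rfl

/-- roots of unity -/
theorem la_tf (hD : Data ι S T r w fr) :
    ∀ x : Hˣ, x ∈ KT (ovr H T) → ∀ n : ℕ, 0 < n → x ^ n = 1 → x = 1 := by
  intro x hx n hn h
  refine un_torsion hD (x := x) ⟨fun v _ => ?_, hx⟩ hn h
  have h1 : v.valuation H (x : H) ^ n = 1 := by
    rw [← map_pow, ← Units.val_pow_eq_pow_val, h, Units.val_one, map_one]
  exact (pow_eq_one_iff.1 h1).resolve_right hn.ne'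

theorem la_dataW (hD : Data ι S T r w fr) : DataW ι S T r w fr :=
  { disj := hD.disj
    unram := hD.unram
    tf := la_tf hD
    mem := hD.mem
    split := hD.split
    inj := hD.inj
    all := hD.all
    card := hD.card
    frob := hD.frob }

theorem la_two (hC : CycP p j P) (hD : Data ι S T r w fr) {l : ℕ}
    (hl : l.Prime) (hlp : l ≠ p) (h2 : p ^ j = 2) : LCore2 ι S T P w fr l := by
  have hp2 : p = 2 := by
    have h1 : p ∣ 2 := by
      rw [← h2]
      exact dvd_pow_self p hC.pos.ne'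
    exact (Nat.prime_dvd_prime_iff_eq hC.prime Nat.prime_two).1 h1
  subst hp2
  have hj : j = 1 := Nat.pow_right_injective (le_refl 2) (by simpa using h2)
  subst hj
  have h := hlm_two (ι := ι) hC
  have hs := lcore_stable (S₀ := S) (T₀ := T) (r := r) (w := w) (fr := fr) h hD.disj hD.unram
    (by rw [la_ovr, la_ovr]; exact la_dataW hD) hl hlp
  rw [la_ovr, la_ovr] at hs
  exact hs

theorem la_main {F₀ L L' : Type} [Field F₀] [NumberField F₀] [Field L] [NumberField L] [Field L']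
    [NumberField L'] [Algebra F₀ F] [Algebra F₀ L] [Algebra F₀ L'] [Algebra F₀ H] [Algebra L H]
    [Algebra L' H] [Algebra L' L] [IsScalarTower F₀ F H] [IsScalarTower F₀ L H]
    [IsScalarTower F₀ L' H] [IsScalarTower L' L H] [IsScalarTower F₀ L' L] [IsGalois F₀ H]
    [IsGalois F₀ F] [IsGalois L H] [IsGalois L' H] (hh : Hlm F₀ F L L' H ι P p j)
    (hC : CycP p j P) (hD : Data ι S T r w fr) {l : ℕ}
    (hl : l.Prime) (hlp : l ≠ p) (h2 : 2 < p ^ j) : LCore2 ι S T P w fr l := by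
  classical
  obtain ⟨B, hB⟩ := la_ram F₀ H
  obtain ⟨S₀, hS₀⟩ : ∃ S₀ : Finset (HeightOneSpectrum (𝓞 F₀)),
      S₀ = S.image (fun v => v.under (𝓞 F₀)) ∪ B := ⟨_, rfl⟩
  obtain ⟨v₀, hv₀, hv⟩ := cheb2 hh h2 (S₀ ∪ T.image (fun v => v.under (𝓞 F₀))) hl hlp
  rw [Finset.mem_union, not_or] at hv₀
  have hm1 : ∀ v : HeightOneSpectrum (𝓞 F), v ∈ ovr F {v₀} ↔ v.under (𝓞 F₀) = v₀ := fun v => by
    rw [mem_ovr, Finset.mem_singleton]
  have hSS : S ⊆ ovr F S₀ := fun v hvS => by
    rw [mem_ovr, hS₀, Finset.mem_union]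
    exact Or.inl (Finset.mem_image_of_mem _ hvS)
  have hd0 : Disjoint S₀ {v₀} := Finset.disjoint_singleton_right.2 hv₀.1
  have hd1 : Disjoint (ovr F S₀) (ovr F {v₀}) := by
    rw [Finset.disjoint_left]
    intro v h1 h2
    rw [hm1] at h2
    rw [mem_ovr, h2] at h1
    exact hv₀.1 h1
  have hdS : Disjoint S (ovr F {v₀}) := Finset.disjoint_of_subset_left hSS hd1
  have hdT : Disjoint T (ovr F {v₀}) := by
    rw [Finset.disjoint_left]
    intro v h1 h2
    rw [hm1] at h2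
    apply hv₀.2
    rw [← h2]
    exact Finset.mem_image_of_mem _ h1
  obtain ⟨v₁, hv₁⟩ : ∃ v₁ : HeightOneSpectrum (𝓞 F), v₁ ∈ ovr F {v₀} := by
    obtain ⟨W, hW⟩ := dn_surj (F := F₀) (H := F) (Sum.inr v₀)
    rcases W with W | W
    · exact absurd hW (by simp [dn])
    · refine ⟨W, ?_⟩
      rw [hm1]
      simpa [dn] using hW
  have hfin : Module.finrank ℚ F ≤ Module.finrank ℚ H := by
    rw [← Module.finrank_mul_finrank ℚ F H]
    exact Nat.le_mul_of_pos_right _ Module.finrank_pos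
  have hD1 : Data ι S (ovr F {v₀}) r w fr :=
    { disj := hdS
      unram := hD.unram
      tors := Or.inr ⟨v₁, hv₁, lt_of_le_of_lt (Nat.add_le_add_right hfin 1) (hv v₁ hv₁).1⟩
      mem := hD.mem
      split := hD.split
      inj := hD.inj
      all := hD.all
      card := hD.card
      frob := hD.frob }
  have hT1 : ∀ v ∈ ovr F {v₀}, fr v ≠ 1 ∧ l ∣ nv v - 1 := fun v h =>
    ⟨(hv v h).2.2 _ (hD.frob v (fun h' => Finset.disjoint_left.1 hdS h' h)), (hv v h).2.1⟩
  refine chain_T2 hC hl hlp hdT hD hD1 hT1 ?_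
  have hcs := Finset.card_le_card hSS
  refine chain_S2 hC hl hlp hd1 ((ovr F S₀).card - S.card) hD1 hSS (by omega) ?_
  intro r₁ w₁ hD₂ _
  have hunr : ∀ W : HeightOneSpectrum (𝓞 H), W.under (𝓞 F₀) ∉ S₀ →
      Algebra.IsUnramifiedAt (𝓞 F₀) W.asIdeal := by
    intro W hW
    refine hB W (fun h => hW ?_)
    rw [hS₀, Finset.mem_union]
    exact Or.inr h
  exact lcore_stable hh hd0 hunr (la_dataW hD₂) hl hlp

theorem lcore_all (hC : CycP p j P) (hH : Hol (p ^ j) F H) (hD : Data ι S T r w fr) {l : ℕ}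
    (hl : l.Prime) (hlp : l ≠ p) : LCore2 ι S T P w fr l := by
  by_cases h2 : p ^ j = 2
  · exact la_two hC hD hl hlp h2
  · have h2' : 2 < p ^ j := by
      have h1 : p ≤ p ^ j := Nat.le_self_pow hC.pos.ne' p
      have := hC.prime.two_le
      omega
    obtain ⟨F₀, L, L', _, _, _, _, _, _, _, _, _, _, _, _, _, _, _, _, _, _, _, _, _, _, hh⟩ :=
      hol_exists (ι := ι) hC hH
    exact la_main hh hC hD hl hlp h2'

end LA

end Pool.Agent.RS2
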