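import Pool.Agent.Lib_helper35.RS2.P_GP
import Pool.Agent.Lib_helper35.RS2.Defs2

/-!
# RS2, block PR: rationality of the norm from the new part
-/

namespace Pool.Agent.RS2

set_option linter.unusedSectionVars false

open Pool.Agent.RSK
open Complex

section PR

variable {G : Type} [CommGroup G] [Fintype G] {P : Subgroup G} {p j : ℕ}

theorem pr_ext {g : G} (hg : ∀ x : G, x ∈ Subgroup.zpowers g) {χ χ' : G →* ℂˣ}
    (h : χ g = χ' g) : χ = χ' := by
  refine MonoidHom.ext fun x => ?_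
  obtain ⟨k, rfl⟩ := Subgroup.mem_zpowers_iff.1 (hg x)
  rw [map_zpow, map_zpow, h]

/-- the cyclotomic field as a quotient of `ℚ[G]` -/
theorem pr_setup (hC : CycP p j P) :
    ∃ (L : Type) (_ : Field L) (_ : Algebra ℚ L) (_ : FiniteDimensional ℚ L)
      (φ : MonoidAlgebra ℚ G →ₐ[ℚ] L) (e : (L →ₐ[ℚ] ℂ) ≃ {χ : G →* ℂˣ // Fth P χ}),
      Function.Surjective φ ∧ ∀ σ x, evQ (e σ).1 x = σ (φ x) := by
  classical
  have hn : 0 < p ^ j := pow_pos hC.prime.pos j
  have : NeZero (p ^ j) := ⟨hn.ne'⟩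
  have hcyc : IsCyclic G := hC.cyc
  obtain ⟨g, hg⟩ := hcyc.exists_generator
  have hord : orderOf g = p ^ j := by rw [orderOf_eq_card_of_forall_mem_zpowers hg, hC.card]
  have : NeZero ((p ^ j : ℕ) : ℚ) := ⟨by exact_mod_cast hn.ne'⟩
  obtain ⟨L, iF, iA, iC⟩ : ∃ (L : Type) (_ : Field L) (_ : Algebra ℚ L),
      IsCyclotomicExtension {p ^ j} ℚ L :=
    ⟨CyclotomicField (p ^ j) ℚ, inferInstance, CyclotomicField.algebra (p ^ j) ℚ,
      CyclotomicField.isCyclotomicExtension (p ^ j) ℚ⟩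
  set ζ : L := IsCyclotomicExtension.zeta (p ^ j) ℚ L with hζd
  have hζ : IsPrimitiveRoot ζ (p ^ j) := IsCyclotomicExtension.zeta_spec (p ^ j) ℚ L
  have hζ0 : ζ ≠ 0 := hζ.ne_zero hn.ne'
  set ζu : Lˣ := Units.mk0 ζ hζ0 with hζu
  have hζup : IsPrimitiveRoot ζu (p ^ j) := by
    rw [← IsPrimitiveRoot.coe_units_iff]
    exact hζ
  have hζe : orderOf ζu = orderOf g := by rw [hord, ← hζup.eq_orderOf]
  have hζo : orderOf ζu ∣ orderOf g := by rw [hζe]
  set ψ : G →* Lˣ := monoidHomOfForallMemZpowers hg hζo with hψ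
  have hψg : ψ g = ζu := monoidHomOfForallMemZpowers_apply_gen hg hζo
  have hψi : ∀ x : G, ψ x = 1 → x = 1 := by
    intro x hx
    obtain ⟨k, rfl⟩ := Subgroup.mem_zpowers_iff.1 (hg x)
    rw [map_zpow, hψg, ← orderOf_dvd_iff_zpow_eq_one, hζe] at hx
    exact orderOf_dvd_iff_zpow_eq_one.1 hx
  set φ : MonoidAlgebra ℚ G →ₐ[ℚ] L := MonoidAlgebra.lift ℚ L G ((Units.coeHom L).comp ψ) with hφ
  have hφs : ∀ (x : G) (q : ℚ), φ (MonoidAlgebra.single x q) = algebraMap ℚ L q * (ψ x : L) := by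
    intro x q
    rw [hφ, MonoidAlgebra.lift_single, Algebra.smul_def]
    rfl
  have hadj : Algebra.adjoin ℚ {ζ} = ⊤ :=
    IsCyclotomicExtension.adjoin_primitive_root_eq_top hζ
  have hsurj : Function.Surjective φ := by
    rw [← AlgHom.range_eq_top, eq_top_iff, ← hadj, Algebra.adjoin_le_iff,
      Set.singleton_subset_iff]
    refine ⟨MonoidAlgebra.single g 1, ?_⟩
    show φ (MonoidAlgebra.single g 1) = ζ
    rw [hφs, hψg, map_one, one_mul, hζu, Units.val_mk0]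
  have hinjζ : ∀ σ τ : L →ₐ[ℚ] ℂ, σ ζ = τ ζ → σ = τ := by
    intro σ τ h
    refine AlgHom.ext_of_adjoin_eq_top hadj ?_
    intro x hx
    rw [Set.mem_singleton_iff] at hx
    rw [hx, h]
  have h1P : 1 < Nat.card P := by rw [hC.cardP]; exact hC.prime.one_lt
  have h2P : Nontrivial P := Finite.one_lt_card_iff_nontrivial.1 h1P
  obtain ⟨h0, hh0⟩ := exists_ne (1 : P)
  let e0 : (L →ₐ[ℚ] ℂ) → {χ : G →* ℂˣ // Fth P χ} := fun σ =>
    ⟨(Units.map (σ : L →* ℂ)).comp ψ, by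
      refine ⟨h0, h0.2, fun h => hh0 ?_⟩
      have h2 : σ ((ψ (h0 : G) : Lˣ) : L) = 1 := by
        have h3 := congrArg (fun u : ℂˣ => (u : ℂ)) h
        simpa using h3
      have h3 : σ ((ψ (h0 : G) : Lˣ) : L) = σ 1 := by rw [h2, map_one]
      have h4 : ((ψ (h0 : G) : Lˣ) : L) = 1 := σ.toRingHom.injective h3
      have h5 : ψ (h0 : G) = 1 := Units.ext (by rw [h4, Units.val_one])
      exact Subtype.ext (hψi _ h5)⟩
  have he0 : ∀ σ (x : G), (((e0 σ).1 x : ℂˣ) : ℂ) = σ (ψ x : L) := fun σ x => rfl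
  have hinj : Function.Injective e0 := by
    intro σ τ h
    apply hinjζ
    have h1 := he0 σ g
    rw [h, he0 τ g, hψg, hζu, Units.val_mk0] at h1
    exact h1.symm
  have hfd : FiniteDimensional ℚ L := IsCyclotomicExtension.finiteDimensional {p ^ j} ℚ L
  have hsur0 : Function.Surjective e0 := by
    rintro ⟨χ, hχ⟩
    have h1 := fth_prim hC hg hχ
    have h2 : ((χ g : ℂˣ) : ℂ) ∈ primitiveRoots (p ^ j) ℂ :=
      (mem_primitiveRoots hn).2 h1
    refine ⟨(hζ.embeddingsEquivPrimitiveRoots ℂ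
      (Polynomial.cyclotomic.irreducible_rat hn)).symm ⟨_, h2⟩, ?_⟩
    apply Subtype.ext
    apply pr_ext hg
    apply Units.ext
    rw [he0, hψg, hζu, Units.val_mk0]
    have h3 := hζ.embeddingsEquivPrimitiveRoots_apply_coe ℂ
      (Polynomial.cyclotomic.irreducible_rat hn)
      ((hζ.embeddingsEquivPrimitiveRoots ℂ
        (Polynomial.cyclotomic.irreducible_rat hn)).symm ⟨_, h2⟩)
    rw [Equiv.apply_symm_apply] at h3
    exact h3.symm
  refine ⟨L, inferInstance, inferInstance, hfd, φ, Equiv.ofBijective e0 ⟨hinj, hsur0⟩, hsurj, ?_⟩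
  intro σ x
  rw [px2_evQ_apply]
  have h1 : φ x = ∑ y : G, algebraMap ℚ L (x.coeff y) * (ψ y : L) := by
    rw [hφ, MonoidAlgebra.lift_apply, Finsupp.sum_fintype]
    · refine Finset.sum_congr rfl fun y _ => ?_
      rw [Algebra.smul_def]
      rfl
    · intro y
      rw [zero_smul]
  rw [h1, map_sum]
  refine Finset.sum_congr rfl fun y _ => ?_
  rw [map_mul, AlgHom.commutes]
  exact congrArg (fun t => ((x.coeff y : ℚ) : ℂ) * t) (he0 σ y)

theorem pF_rat (hC : CycP p j P) (x : MonoidAlgebra ℚ G) :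
    ∃ q : ℚ, pF P (fun χ => evQ χ x) = q := by
  classical
  obtain ⟨L, _, _, _, φ, e, hφ, he⟩ := pr_setup hC
  refine ⟨Algebra.norm ℚ (φ x), ?_⟩
  have h1 := Algebra.norm_eq_prod_embeddings ℚ ℂ (φ x)
  unfold pF
  rw [← finprod_comp_equiv e, finprod_eq_prod_of_fintype]
  simp only [he]
  rw [← h1]
  rfl

end PR

end Pool.Agent.RS2
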