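import Pool.Agent.Lib_helper35.RS2.P_GP
import Pool.Agent.Lib_helper17.RS.P_AB
import Pool.Agent.Lib_helper17.RS.P_AC
import Pool.Agent.Lib_helper35.RS2.P_PR
import Pool.Agent.Lib_helper35.RS2.Defs2

/-!
# RS2, block AT: the local statement at `p` for the new part

Cites the wanted statement `pF_rat` (WAlg2).
-/

namespace Pool.Agent.RS2

set_option linter.unusedSectionVars false

open Pool.Agent.RSK
open Complex

section AT

variable {G : Type} [CommGroup G] [Fintype G] {P : Subgroup G} {p j : ℕ}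

theorem at_pF_mul (φ ψ : (G →* ℂˣ) → ℂ) : pF P (fun χ => φ χ * ψ χ) = pF P φ * pF P ψ := by
  have : Finite (G →* ℂˣ) := dual_finite
  unfold pF
  exact finprod_mul_distrib (Set.toFinite _) (Set.toFinite _)

theorem at_pF_congr {φ ψ : (G →* ℂˣ) → ℂ} (h : ∀ χ, Fth P χ → φ χ = ψ χ) :
    pF P φ = pF P ψ := by
  unfold pF
  exact finprod_congr fun χ => h χ.1 χ.2

theorem at_card (hC : CycP p j P) :
    Nat.card {χ : G →* ℂˣ // Fth P χ} = p ^ (j - 1) * (p - 1) := by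
  classical
  have : Finite (G →* ℂˣ) := dual_finite
  have h1 : Nat.card (G →* ℂˣ) = p ^ j := by
    rw [CommGroup.card_monoidHom_of_hasEnoughRootsOfUnity G ℂ, hC.card]
  have h2 : Nat.card (G →* ℂˣ) = Nat.card {χ : G →* ℂˣ // Fth P χ} +
      Nat.card {χ : G →* ℂˣ // ¬ Fth P χ} := by
    rw [← Nat.card_sum]
    exact Nat.card_congr (Equiv.sumCompl (fun χ : G →* ℂˣ => Fth P χ)).symm
  have hk : ∀ χ : G →* ℂˣ, ¬ Fth P χ ↔ χ ∈ (MonoidHom.domRestrictHom P ℂˣ).ker := by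
    intro χ
    have h3 : χ ∈ (MonoidHom.domRestrictHom P ℂˣ).ker ↔ χ.comp P.subtype = 1 := Iff.rfl
    rw [h3]
    constructor
    · intro h
      ext x
      by_contra h4
      exact h ⟨x.1, x.2, fun h5 => h4 (by
        show ((χ x.1 : ℂˣ) : ℂ) = _
        rw [h5]
        rfl)⟩
    · rintro h ⟨x, hx, hx1⟩
      exact hx1 (DFunLike.congr_fun h ⟨x, hx⟩)
  have h3 : Nat.card {χ : G →* ℂˣ // ¬ Fth P χ} = Nat.card (G ⧸ P) := by
    rw [← CommGroup.card_domRestrictHom_ker ℂ P]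
    exact Nat.card_congr (Equiv.subtypeEquivRight hk)
  have h4 : p ^ j = Nat.card (G ⧸ P) * p := by
    rw [← hC.card, ← hC.cardP]
    exact P.card_eq_card_quotient_mul_card_subgroup
  have h5 : p ^ j = p ^ (j - 1) * p := by
    rw [← pow_succ]
    congr 1
    have := hC.pos
    omega
  have h6 : Nat.card (G ⧸ P) = p ^ (j - 1) :=
    Nat.eq_of_mul_eq_mul_right hC.prime.pos (h4.symm.trans h5)
  rw [h1, h3, h6] at h2
  have h7 : p ^ (j - 1) * (p - 1) + p ^ (j - 1) = p ^ (j - 1) * p := by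
    have := hC.prime.one_le
    obtain ⟨q, rfl⟩ := Nat.exists_eq_add_of_le this
    simp
    ring
  omega

theorem at_pF_const (hC : CycP p j P) (z : ℂ) :
    pF P (fun _ : G →* ℂˣ => z) = z ^ (p ^ (j - 1) * (p - 1)) := by
  classical
  have : Finite (G →* ℂˣ) := dual_finite
  have := Fintype.ofFinite {χ : G →* ℂˣ // Fth P χ}
  unfold pF
  rw [finprod_eq_prod_of_fintype, Finset.prod_const, Finset.card_univ,
    ← Nat.card_eq_fintype_card, at_card hC]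

/-- `a = ε(a) + (σ - 1) a'` -/
theorem at_aug {σ : G} (hσ : ∀ g : G, g ∈ Subgroup.zpowers σ)
    (a : MonoidAlgebra ℤ G) : ∃ a' : MonoidAlgebra ℤ G,
      a = (ab_eps G a : MonoidAlgebra ℤ G) + (MonoidAlgebra.single σ 1 - 1) * a' := by
  induction a using MonoidAlgebra.induction_linear with
  | zero => exact ⟨0, by simp⟩
  | add x y hx hy =>
    obtain ⟨x', hx'⟩ := hx
    obtain ⟨y', hy'⟩ := hy
    refine ⟨x' + y', ?_⟩
    rw [map_add, Int.cast_add, mul_add]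
    linear_combination hx' + hy'
  | single g n =>
    obtain ⟨i, rfl⟩ := (mem_powers_iff_mem_zpowers.2 (hσ g))
    have h2 := sub_dvd_pow_sub_pow (MonoidAlgebra.single σ (1 : ℤ)) 1 i
    obtain ⟨c, hc⟩ := h2
    refine ⟨n * c, ?_⟩
    have h3 : MonoidAlgebra.single (σ ^ i) n = (n : MonoidAlgebra ℤ G) *
        (MonoidAlgebra.single σ (1 : ℤ)) ^ i := by
      rw [MonoidAlgebra.single_pow, one_pow]
      have : (n : MonoidAlgebra ℤ G) = MonoidAlgebra.single 1 n := by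
        simp [MonoidAlgebra.intCast_def]
      rw [this, MonoidAlgebra.single_mul_single, one_mul, mul_one]
    show MonoidAlgebra.single (σ ^ i) n = _
    rw [ab_eps_single, h3]
    rw [one_pow] at hc
    linear_combination (n : MonoidAlgebra ℤ G) * hc

/-- `a ^ (p ^ j) = ε(a) + p c` -/
theorem at_frob (hp : p.Prime) (hG : Nat.card G = p ^ j) (a : MonoidAlgebra ℤ G) :
    ∃ c : MonoidAlgebra ℤ G,
      a ^ (p ^ j) = (ab_eps G a : MonoidAlgebra ℤ G) + (p : MonoidAlgebra ℤ G) * c := by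
  have : Fact p.Prime := ⟨hp⟩
  induction a using MonoidAlgebra.induction_linear with
  | zero => exact ⟨0, by simp [hp.ne_zero]⟩
  | add x y hx hy =>
    obtain ⟨x', hx'⟩ := hx
    obtain ⟨y', hy'⟩ := hy
    obtain ⟨r, hr⟩ := exists_add_pow_prime_pow_eq hp x y j
    refine ⟨x' + y' + x * y * r, ?_⟩
    rw [hr, hx', hy', map_add, Int.cast_add]
    ring
  | single g n =>
    have h1 : (p : ℤ) ∣ n ^ (p ^ j) - n := by
      rw [← Int.modEq_iff_dvd]
      have := (ZMod.intCast_eq_intCast_iff n (n ^ (p ^ j)) p).1 (by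
        push_cast
        rw [ZMod.pow_card_pow])
      exact this
    obtain ⟨m, hm⟩ := h1
    refine ⟨(m : MonoidAlgebra ℤ G), ?_⟩
    rw [MonoidAlgebra.single_pow, ab_eps_single]
    have h2 : g ^ (p ^ j) = 1 := by
      rw [← hG]; exact pow_card_eq_one'
    have h3 : MonoidAlgebra.single (1 : G) (n ^ (p ^ j)) =
        ((n ^ (p ^ j) : ℤ) : MonoidAlgebra ℤ G) := by
      simp [MonoidAlgebra.intCast_def]
    rw [h2, h3, show n ^ (p ^ j) = n + p * m by linarith]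
    push_cast
    ring

theorem at_integral (χ : G →* ℂˣ) (a : MonoidAlgebra ℤ G) : IsIntegral ℤ (evZ χ a) := by
  induction a using MonoidAlgebra.induction_linear with
  | zero => rw [map_zero]; exact isIntegral_zero
  | add x y hx hy => rw [map_add]; exact hx.add hy
  | single g n =>
    rw [ab_evZ_single]
    refine IsIntegral.mul (isIntegral_intCast n) ?_
    have h2 : g ^ Nat.card G = 1 := pow_card_eq_one'
    refine IsIntegral.of_pow (Nat.card_pos (α := G)) ?_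
    rw [← Units.val_pow_eq_pow_val, ← map_pow, h2, map_one, Units.val_one]
    exact isIntegral_one

theorem at_norm_int (hC : CycP p j P) (a : MonoidAlgebra ℤ G) :
    ∃ m : ℤ, pF P (fun χ : G →* ℂˣ => evZ χ a) = m := by
  classical
  obtain ⟨q, hq⟩ := pF_rat hC (toQ G a)
  have h0 : pF P (fun χ : G →* ℂˣ => evZ χ a) = q := hq
  have h1 : IsIntegral ℤ (pF P (fun χ : G →* ℂˣ => evZ χ a)) := by
    have : Finite (G →* ℂˣ) := dual_finite
    have := Fintype.ofFinite {χ : G →* ℂˣ // Fth P χ}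
    unfold pF
    rw [finprod_eq_prod_of_fintype]
    exact ab_prod_integral _ _ fun χ _ => at_integral χ.1 a
  rw [h0] at h1 ⊢
  exact ab_int_of_rat h1

/-- `N(a) ≡ 0` implies `ε(a) ≡ 0` modulo `p` -/
theorem at_key (hC : CycP p j P) (a : MonoidAlgebra ℤ G) {m : ℤ}
    (hm : pF P (fun χ : G →* ℂˣ => evZ χ a) = m) (h : (p : ℤ) ∣ m) : (p : ℤ) ∣ ab_eps G a := by
  classical
  have hp := hC.prime
  have : Finite (G →* ℂˣ) := dual_finite
  have := Fintype.ofFinite {χ : G →* ℂˣ // Fth P χ}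
  obtain ⟨c, hc⟩ := at_frob hp hC.card a
  have h1 : ∀ χ : G →* ℂˣ, evZ χ a ^ (p ^ j) = (ab_eps G a : ℂ) + p * evZ χ c := by
    intro χ
    have := congrArg (evZ χ) hc
    rw [map_pow, map_add, map_mul, map_intCast, map_natCast] at this
    exact this
  obtain ⟨z, hz, hz'⟩ := ab_prod_mod (Finset.univ : Finset {χ : G →* ℂˣ // Fth P χ})
    (ab_eps G a) p (fun χ => evZ χ.1 c) fun χ _ => at_integral χ.1 c
  have h2 : (m : ℂ) ^ (p ^ j) =
      (ab_eps G a : ℂ) ^ (Finset.univ : Finset {χ : G →* ℂˣ // Fth P χ}).card + p * z := by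
    rw [← hz', ← hm]
    unfold pF
    rw [finprod_eq_prod_of_fintype, ← Finset.prod_pow]
    exact Finset.prod_congr rfl fun χ _ => h1 χ.1
  set k := (Finset.univ : Finset {χ : G →* ℂˣ // Fth P χ}).card with hk
  have hp0 : (p : ℂ) ≠ 0 := Nat.cast_ne_zero.2 hp.ne_zero
  have h3 : z = (((m ^ (p ^ j) - (ab_eps G a) ^ k : ℤ) / (p : ℚ) : ℚ) : ℂ) := by
    push_cast
    rw [h2]
    field_simp
    ring
  rw [h3] at hz
  obtain ⟨n, hn⟩ := ab_int_of_rat hz
  have h4 : (m ^ (p ^ j) - (ab_eps G a) ^ k : ℤ) = p * n := by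
    have h5 : (((m ^ (p ^ j) - (ab_eps G a) ^ k : ℤ) / (p : ℚ) : ℚ) : ℂ) = ((n : ℚ) : ℂ) := by
      rw [hn]; simp
    have h6 := (Rat.cast_injective (α := ℂ)) h5
    have hp1 : (p : ℚ) ≠ 0 := Nat.cast_ne_zero.2 hp.ne_zero
    rw [div_eq_iff hp1] at h6
    have h7 : ((m ^ (p ^ j) - (ab_eps G a) ^ k : ℤ) : ℚ) = ((p * n : ℤ) : ℚ) := by
      rw [h6]; push_cast; ring
    exact_mod_cast h7
  have h8 : (p : ℤ) ∣ (ab_eps G a) ^ k := by
    have h9 : (ab_eps G a) ^ k = m ^ (p ^ j) - p * n := by linarith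
    rw [h9]
    exact dvd_sub (dvd_pow h (pow_pos hp.pos j).ne') (dvd_mul_right _ _)
  exact (Nat.prime_iff_prime_int.1 hp).dvd_of_dvd_pow h8

theorem at_pF_evmul (a b : MonoidAlgebra ℤ G) : pF P (fun χ : G →* ℂˣ => evZ χ (a * b)) =
    pF P (fun χ : G →* ℂˣ => evZ χ a) * pF P (fun χ : G →* ℂˣ => evZ χ b) := by
  rw [← at_pF_mul]
  exact at_pF_congr fun χ _ => map_mul _ _ _

theorem at_pF_evpow (a : MonoidAlgebra ℤ G) (k : ℕ) :
    pF P (fun χ : G →* ℂˣ => evZ χ (a ^ k)) = pF P (fun χ : G →* ℂˣ => evZ χ a) ^ k := by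
  induction k with
  | zero =>
    have : pF P (fun χ : G →* ℂˣ => evZ χ ((a ^ 0 : MonoidAlgebra ℤ G))) = 1 := by
      have h : (fun χ : {χ : G →* ℂˣ // Fth P χ} => evZ χ.1 ((a ^ 0 : MonoidAlgebra ℤ G))) =
          fun _ => (1 : ℂ) := by
        funext χ
        rw [pow_zero, map_one]
      unfold pF
      rw [h, finprod_one]
    rw [this, pow_zero]
  | succ k ih => rw [pow_succ, at_pF_evmul, ih, pow_succ]

/-- the generator of `P` -/
theorem at_tau (hC : CycP p j P) {σ : G} (hσ : ∀ g : G, g ∈ Subgroup.zpowers σ) :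
    orderOf (σ ^ (p ^ (j - 1))) = p ∧ P = Subgroup.zpowers (σ ^ (p ^ (j - 1))) := by
  have hp := hC.prime
  have h1 : orderOf σ = p ^ j := by rw [orderOf_eq_card_of_forall_mem_zpowers hσ, hC.card]
  have h2 : orderOf (σ ^ (p ^ (j - 1))) = p := by
    rw [orderOf_pow_of_dvd (pow_pos hp.pos _).ne' (by
      rw [h1]; exact pow_dvd_pow p (Nat.sub_le j 1)), h1]
    have h3 : p ^ j = p * p ^ (j - 1) := by
      rw [← pow_succ']
      congr 1
      have := hC.pos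
      omega
    rw [h3, Nat.mul_div_cancel _ (pow_pos hp.pos _)]
  refine ⟨h2, ?_⟩
  have h3 : σ ^ (p ^ (j - 1)) ≠ 1 := by
    intro h
    rw [← orderOf_eq_one_iff, h2] at h
    exact hp.one_lt.ne' h
  refine Subgroup.eq_of_le_of_card_ge (cycp_le hC h3) ?_
  rw [Nat.card_zpowers, h2, hC.cardP]

/-- `nP P` is the sum of the powers of `τ` -/
theorem at_nP (hC : CycP p j P) {σ : G} (hσ : ∀ g : G, g ∈ Subgroup.zpowers σ) :
    nP P = ∑ i ∈ Finset.range p, (MonoidAlgebra.single (σ ^ (p ^ (j - 1))) (1 : ℤ)) ^ i := by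
  classical
  obtain ⟨h1, h2⟩ := at_tau hC hσ
  set τ := σ ^ (p ^ (j - 1)) with hτ
  have : Fintype P := Fintype.ofFinite P
  rw [nP_sum]
  symm
  refine Finset.sum_bij (fun i _ => (⟨τ ^ i, by
    rw [h2]; exact Subgroup.pow_mem _ (Subgroup.mem_zpowers τ) i⟩ : P)) ?_ ?_ ?_ ?_
  · intro i _
    exact Finset.mem_univ _
  · intro a ha b hb hab
    rw [Finset.mem_range] at ha hb
    have h3 : τ ^ a = τ ^ b := congrArg Subtype.val hab
    exact pow_injOn_Iio_orderOf (by rw [h1]; exact ha) (by rw [h1]; exact hb) h3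
  · rintro ⟨x, hx⟩ _
    rw [h2] at hx
    obtain ⟨i, rfl⟩ := mem_powers_iff_mem_zpowers.2 hx
    refine ⟨i % p, Finset.mem_range.2 (Nat.mod_lt _ hC.prime.pos), ?_⟩
    refine Subtype.ext ?_
    show τ ^ (i % p) = τ ^ i
    rw [← h1, pow_mod_orderOf]
  · intro i _
    rw [MonoidAlgebra.single_pow, one_pow]

theorem at_eps_nP (hC : CycP p j P) {σ : G} (hσ : ∀ g : G, g ∈ Subgroup.zpowers σ) :
    ab_eps G (nP P) = p := by
  rw [at_nP hC hσ, map_sum]
  simp only [map_pow, ab_eps_single, one_pow]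
  simp

/-- `(τ - 1) ^ (p - 1) = nP + p e` -/
theorem at_T (hC : CycP p j P) {σ : G} (hσ : ∀ g : G, g ∈ Subgroup.zpowers σ) :
    ∃ e : MonoidAlgebra ℤ G, (MonoidAlgebra.single (σ ^ (p ^ (j - 1))) (1 : ℤ) - 1) ^ (p - 1) =
      nP P + (p : MonoidAlgebra ℤ G) * e ∧ ab_eps G e = -1 := by
  have hp := hC.prime
  obtain ⟨e, he⟩ := ac_poly hp
  set s : MonoidAlgebra ℤ G := MonoidAlgebra.single (σ ^ (p ^ (j - 1))) (1 : ℤ) with hs
  have h1 := congrArg (Polynomial.aeval s) he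
  simp only [map_pow, map_sub, map_add, map_mul, map_sum, map_one, Polynomial.aeval_X,
    Polynomial.aeval_C] at h1
  have h2 : (algebraMap ℤ (MonoidAlgebra ℤ G)) (p : ℤ) = (p : MonoidAlgebra ℤ G) := by simp
  rw [h2, ← at_nP hC hσ] at h1
  refine ⟨Polynomial.aeval s e, h1, ?_⟩
  have h3 := congrArg (ab_eps G) h1
  rw [map_pow, map_sub, map_one, hs, ab_eps_single, sub_self, zero_pow (by
    have := hp.two_le
    omega), map_add, at_eps_nP hC hσ, map_mul, map_natCast] at h3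
  have hp0 : (p : ℤ) ≠ 0 := by exact_mod_cast hp.ne_zero
  apply mul_left_cancel₀ hp0
  rw [← hs] at h3
  linarith

/-- `(σ - 1) ^ (p^(j-1) (p - 1)) = nP + p c` -/
theorem at_S (hC : CycP p j P) {σ : G} (hσ : ∀ g : G, g ∈ Subgroup.zpowers σ) :
    ∃ c : MonoidAlgebra ℤ G,
      (MonoidAlgebra.single σ (1 : ℤ) - 1) ^ (p ^ (j - 1) * (p - 1)) =
      nP P + (p : MonoidAlgebra ℤ G) * c ∧ ab_eps G c = -1 := by
  have hp := hC.prime
  obtain ⟨e, he, hε⟩ := at_T hC hσ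
  obtain ⟨r, hr⟩ := exists_add_pow_prime_pow_eq hp (MonoidAlgebra.single σ (1 : ℤ) - 1) 1 (j - 1)
  rw [sub_add_cancel, MonoidAlgebra.single_pow, one_pow, one_pow, mul_one] at hr
  set π : MonoidAlgebra ℤ G := MonoidAlgebra.single σ (1 : ℤ) - 1 with hπ
  set T : MonoidAlgebra ℤ G := MonoidAlgebra.single (σ ^ (p ^ (j - 1))) (1 : ℤ) - 1 with hT
  have h1 : π ^ (p ^ (j - 1)) - T = (p : MonoidAlgebra ℤ G) * (π * -r) := by
    rw [hT, hr]
    ring
  obtain ⟨s, hs⟩ := sub_dvd_pow_sub_pow (π ^ (p ^ (j - 1))) T (p - 1)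
  rw [← pow_mul, h1, he] at hs
  refine ⟨e + π * -r * s, ?_, ?_⟩
  · linear_combination hs
  · rw [map_add, hε, map_mul, map_mul, hπ, map_sub, ab_eps_single, map_one, sub_self]
    ring

/-- norms -/
theorem at_gen (hC : CycP p j P) {x c : MonoidAlgebra ℤ G} {n : ℕ}
    (hx : x ^ n = nP P + (p : MonoidAlgebra ℤ G) * c) (hc : ab_eps G c = -1) :
    ∃ m n' : ℤ, pF P (fun χ : G →* ℂˣ => evZ χ x) = m ∧
      m ^ n = (p : ℤ) ^ (p ^ (j - 1) * (p - 1)) * n' ∧ ¬ (p : ℤ) ∣ n' := by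
  have hp := hC.prime
  obtain ⟨m, hm⟩ := at_norm_int hC x
  obtain ⟨n', hn'⟩ := at_norm_int hC c
  refine ⟨m, n', hm, ?_, ?_⟩
  · have h1 : (m : ℂ) ^ n = (p : ℂ) ^ (p ^ (j - 1) * (p - 1)) * n' := by
      rw [← hm, ← at_pF_evpow, ← hn', ← at_pF_const hC, ← at_pF_mul]
      refine at_pF_congr fun χ hχ => ?_
      rw [hx, map_add, map_mul, map_natCast]
      have h2 : evZ χ (nP P) = 0 := ev_nP hχ
      rw [h2, zero_add]
    exact_mod_cast h1
  · intro h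
    have h1 := at_key hC c hn' h
    rw [hc] at h1
    have h2 : (p : ℤ) ∣ 1 := (dvd_neg).1 h1
    have h3 : p ∣ 1 := by exact_mod_cast h2
    exact hp.one_lt.ne' (Nat.dvd_one.1 h3)

theorem at_phi_pos (hC : CycP p j P) : p ^ (j - 1) * (p - 1) ≠ 0 := by
  have hp := hC.prime
  have h1 := hp.two_le
  exact mul_ne_zero (pow_pos hp.pos _).ne' (by omega)

/-- the norm of `σ - 1` -/
theorem at_norm_S (hC : CycP p j P) {σ : G} (hσ : ∀ g : G, g ∈ Subgroup.zpowers σ) :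
    ∃ u : ℤ, pF P (fun χ : G →* ℂˣ => evZ χ (MonoidAlgebra.single σ (1 : ℤ) - 1)) =
      (p : ℂ) * u ∧ ¬ (p : ℤ) ∣ u := by
  have hp := hC.prime
  obtain ⟨c, hc, hε⟩ := at_S hC hσ
  obtain ⟨m, n, hm, hmn, hn⟩ := at_gen hC hc hε
  have hpi := Nat.prime_iff_prime_int.1 hp
  have hφ := at_phi_pos hC
  have h3 : (p : ℤ) ∣ m := by
    refine hpi.dvd_of_dvd_pow (n := p ^ (j - 1) * (p - 1)) ?_
    rw [hmn]
    exact (dvd_pow_self _ hφ).mul_right _
  obtain ⟨u, rfl⟩ := h3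
  refine ⟨u, by rw [hm]; push_cast; rfl, fun h => hn ?_⟩
  have h4 : (p : ℤ) ^ (p ^ (j - 1) * (p - 1)) ≠ 0 :=
    pow_ne_zero _ (by exact_mod_cast hp.ne_zero)
  rw [mul_pow] at hmn
  rw [← mul_left_cancel₀ h4 hmn]
  exact dvd_pow h hφ

/-- the norm of `τ - 1` -/
theorem at_norm_T (hC : CycP p j P) {σ : G} (hσ : ∀ g : G, g ∈ Subgroup.zpowers σ) :
    ∃ u : ℤ, pF P (fun χ : G →* ℂˣ =>
      evZ χ (MonoidAlgebra.single (σ ^ (p ^ (j - 1))) (1 : ℤ) - 1)) =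
      (p : ℂ) ^ (p ^ (j - 1)) * u ∧ ¬ (p : ℤ) ∣ u := by
  have hp := hC.prime
  obtain ⟨c, hc, hε⟩ := at_T hC hσ
  obtain ⟨m, n, hm, hmn, hn⟩ := at_gen hC hc hε
  have hp1 : p - 1 ≠ 0 := by have := hp.two_le; omega
  have h3 : (p : ℤ) ^ (p ^ (j - 1)) ∣ m := by
    rw [← Int.pow_dvd_pow_iff hp1, hmn, ← pow_mul]
    exact dvd_mul_right _ _
  obtain ⟨u, rfl⟩ := h3
  refine ⟨u, by rw [hm]; push_cast; rfl, fun h => hn ?_⟩
  have h4 : (p : ℤ) ^ (p ^ (j - 1) * (p - 1)) ≠ 0 :=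
    pow_ne_zero _ (by exact_mod_cast hp.ne_zero)
  rw [mul_pow, ← pow_mul] at hmn
  rw [← mul_left_cancel₀ h4 hmn]
  exact dvd_pow h hp1

theorem at_T_nP (hC : CycP p j P) {σ : G} (hσ : ∀ g : G, g ∈ Subgroup.zpowers σ) :
    (MonoidAlgebra.single (σ ^ (p ^ (j - 1))) (1 : ℤ) - 1) * nP P = 0 := by
  rw [sub_mul, one_mul, single_nP, sub_self]
  rw [(at_tau hC hσ).2]
  exact Subgroup.mem_zpowers _

/-- descent -/
theorem at_desc (hC : CycP p j P) {σ : G} (hσ : ∀ g : G, g ∈ Subgroup.zpowers σ) (e : ℕ) :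
    ∀ (a : MonoidAlgebra ℤ G) (m : ℤ), pF P (fun χ : G →* ℂˣ => evZ χ a) = m → (p : ℤ) ^ e ∣ m →
      ∃ a' : MonoidAlgebra ℤ G, (MonoidAlgebra.single (σ ^ (p ^ (j - 1))) (1 : ℤ) - 1) * a =
        (MonoidAlgebra.single (σ ^ (p ^ (j - 1))) (1 : ℤ) - 1) *
          ((MonoidAlgebra.single σ (1 : ℤ) - 1) ^ e * a') := by
  have hp := hC.prime
  induction e with
  | zero => intro a m _ _; exact ⟨a, by ring⟩
  | succ e ih =>
    intro a m hm hd
    have hpm : (p : ℤ) ∣ m := (dvd_pow_self _ (Nat.succ_ne_zero e)).trans hd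
    obtain ⟨c, hc⟩ := at_key hC a hm hpm
    obtain ⟨a₁, ha₁⟩ := at_aug hσ (a - c * nP P)
    have h1 : ab_eps G (a - c * nP P) = 0 := by
      rw [map_sub, map_mul, map_intCast, at_eps_nP hC hσ, hc, Int.cast_id]
      ring
    rw [h1, Int.cast_zero, zero_add] at ha₁
    obtain ⟨u, hu, hup⟩ := at_norm_S hC hσ
    obtain ⟨n, hn⟩ := at_norm_int hC a₁
    have h2 : (m : ℂ) = (p : ℂ) * u * n := by
      rw [← hm, ← hu, ← hn, ← at_pF_evmul]
      refine at_pF_congr fun χ hχ => ?_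
      rw [← ha₁, map_sub, map_mul]
      have h3 : evZ χ (nP P) = 0 := ev_nP hχ
      rw [h3, mul_zero, sub_zero]
    have h3 : m = p * (u * n) := by
      have : (m : ℂ) = ((p * (u * n) : ℤ) : ℂ) := by rw [h2]; push_cast; ring
      exact_mod_cast this
    have hpi := Nat.prime_iff_prime_int.1 hp
    have h4 : (p : ℤ) ^ e ∣ n := by
      rw [h3, pow_succ', mul_dvd_mul_iff_left (by exact_mod_cast hp.ne_zero)] at hd
      refine (IsCoprime.pow_left ?_).dvd_of_dvd_mul_left hd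
      exact (Prime.coprime_iff_not_dvd hpi).2 hup
    obtain ⟨a', ha'⟩ := ih a₁ n hn h4
    refine ⟨a', ?_⟩
    have h5 := at_T_nP hC hσ
    have h6 : (MonoidAlgebra.single (σ ^ (p ^ (j - 1))) (1 : ℤ) - 1) * a =
        (MonoidAlgebra.single σ (1 : ℤ) - 1) *
          ((MonoidAlgebra.single (σ ^ (p ^ (j - 1))) (1 : ℤ) - 1) * a₁) := by
      linear_combination (MonoidAlgebra.single (σ ^ (p ^ (j - 1))) (1 : ℤ) - 1) * ha₁ +
        (c : MonoidAlgebra ℤ G) * h5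
    rw [h6, ha', pow_succ']
    ring

/-- `p - nP` is divisible by `τ - 1` -/
theorem at_q (hC : CycP p j P) {σ : G} (hσ : ∀ g : G, g ∈ Subgroup.zpowers σ) :
    ∃ q : MonoidAlgebra ℤ G, (p : MonoidAlgebra ℤ G) - nP P =
      (MonoidAlgebra.single (σ ^ (p ^ (j - 1))) 1 - 1) * q := by
  have h1 : ∀ i : ℕ, ∃ q : MonoidAlgebra ℤ G,
      1 - (MonoidAlgebra.single (σ ^ (p ^ (j - 1))) 1) ^ i =
      (MonoidAlgebra.single (σ ^ (p ^ (j - 1))) 1 - 1) * q := by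
    intro i
    obtain ⟨c, hc⟩ := sub_dvd_pow_sub_pow
      (MonoidAlgebra.single (σ ^ (p ^ (j - 1))) 1 : MonoidAlgebra ℤ G) 1 i
    refine ⟨-c, ?_⟩
    rw [one_pow] at hc
    rw [mul_neg, ← hc]
    ring
  choose q hq using h1
  refine ⟨∑ i ∈ Finset.range p, q i, ?_⟩
  rw [Finset.mul_sum, ← Finset.sum_congr rfl (fun i _ => hq i), Finset.sum_sub_distrib,
    ← at_nP hC hσ]
  simp

theorem at_T_pow (hC : CycP p j P) {σ : G} (hσ : ∀ g : G, g ∈ Subgroup.zpowers σ)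
    {c : MonoidAlgebra ℤ G} (hc : (MonoidAlgebra.single σ (1 : ℤ) - 1) ^ (p ^ (j - 1) * (p - 1)) =
      nP P + (p : MonoidAlgebra ℤ G) * c) (i : ℕ) :
    (MonoidAlgebra.single (σ ^ (p ^ (j - 1))) (1 : ℤ) - 1) *
      ((MonoidAlgebra.single σ (1 : ℤ) - 1) ^ (p ^ (j - 1) * (p - 1))) ^ i =
      (p : MonoidAlgebra ℤ G) ^ i *
        ((MonoidAlgebra.single (σ ^ (p ^ (j - 1))) (1 : ℤ) - 1) * c ^ i) := by
  induction i with
  | zero => simp
  | succ i ih =>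
    have h5 := at_T_nP hC hσ
    rw [pow_succ, ← mul_assoc, ih, hc, pow_succ, pow_succ]
    linear_combination (p : MonoidAlgebra ℤ G) ^ i * c ^ i * h5

/-- Elements of the new part whose norm is divisible by a large power of `p` are divisible by
`p ^ κ`, locally at `p`. -/
theorem alg_fin_at (hC : CycP p j P) (y : MonoidAlgebra ℚ G) (hy : toQ G (nP P) * y = 0)
    {M κ : ℕ} (hN : ∃ t : ℤ, pF P (fun χ => evQ χ y) = (p : ℂ) ^ M * t)
    (hκ : p ^ (j - 1) * (κ * (p - 1) + 1) ≤ M) :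
    ∃ (k : ℕ) (a : MonoidAlgebra ℤ G), ¬ p ∣ k ∧ MonoidAlgebra.single 1 (k : ℚ) * y =
      toQ G (MonoidAlgebra.single 1 ((p : ℤ) ^ κ) * a) := by
  have hp := hC.prime
  have hcyc : IsCyclic G := hC.cyc
  obtain ⟨σ, hσ⟩ := hcyc.exists_generator
  obtain ⟨t, ht⟩ := hN
  obtain ⟨N, a₀, hN0, ha₀⟩ := ab_den y
  have hpi := Nat.prime_iff_prime_int.1 hp
  have hp0 : (p : ℤ) ≠ 0 := by exact_mod_cast hp.ne_zero
  obtain ⟨v, k, hpk, hNk⟩ := Nat.exists_eq_pow_mul_and_not_dvd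
    (mul_ne_zero hp.ne_zero hN0) p hp.ne_one
  set T : MonoidAlgebra ℤ G := MonoidAlgebra.single (σ ^ (p ^ (j - 1))) (1 : ℤ) - 1 with hT
  set π : MonoidAlgebra ℤ G := MonoidAlgebra.single σ (1 : ℤ) - 1 with hπ
  set f : ℕ := p ^ (j - 1) * (p - 1) with hf
  -- `p a₀ = T a₁`
  have h1 : nP P * a₀ = 0 := by
    apply ab_toQ_inj (G := G)
    rw [map_mul, ← ha₀, map_zero, mul_left_comm, hy, mul_zero]
  obtain ⟨q, hq⟩ := at_q hC hσ
  have h2 : (p : MonoidAlgebra ℤ G) * a₀ = T * (q * a₀) := by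
    linear_combination a₀ * hq + h1
  set a₁ := q * a₀ with ha₁
  obtain ⟨u, hu, hup⟩ := at_norm_T hC hσ
  obtain ⟨m, hm⟩ := at_norm_int hC a₁
  -- norms
  have h3 : (p : ℂ) ^ (p ^ (j - 1)) * u * m = ((p * N : ℕ) : ℂ) ^ f * ((p : ℂ) ^ M * t) := by
    rw [← hu, ← hm, ← at_pF_evmul, ← hT, ← h2, ← ht, hf, ← at_pF_const hC, ← at_pF_mul]
    refine at_pF_congr fun χ _ => ?_
    rw [map_mul, map_natCast]
    have h4 : evZ χ a₀ = evQ χ (toQ G a₀) := rfl
    rw [h4, ← ha₀, map_mul, ab_natCast, map_natCast, map_natCast]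
    push_cast
    ring
  obtain ⟨M', hM'⟩ := Nat.exists_eq_add_of_le (show p ^ (j - 1) + f * κ ≤ M by
    refine le_trans (le_of_eq ?_) hκ
    rw [hf]
    ring)
  have h4 : (p : ℤ) ^ (f * (v + κ) + M') ∣ m := by
    have h5 : (p : ℤ) ^ (p ^ (j - 1)) * (u * m) =
        (p : ℤ) ^ (p ^ (j - 1)) * ((p : ℤ) ^ (f * (v + κ) + M') * ((k : ℤ) ^ f * t)) := by
      have h6 : (((p : ℤ) ^ (p ^ (j - 1)) * (u * m) : ℤ) : ℂ) =
          (((p : ℤ) ^ (p ^ (j - 1)) * ((p : ℤ) ^ (f * (v + κ) + M') * ((k : ℤ) ^ f * t)) : ℤ) : ℂ) := by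
        push_cast
        rw [← mul_assoc, h3, hNk, hM']
        push_cast
        rw [mul_pow, ← pow_mul, pow_add (p : ℂ) (p ^ (j - 1) + f * κ), pow_add (p : ℂ) (p ^ (j - 1)),
          pow_add (p : ℂ) (f * (v + κ)), mul_add, pow_add (p : ℂ) (f * v), mul_comm v f]
        ring
      exact_mod_cast h6
    have h6 := mul_left_cancel₀ (pow_ne_zero _ hp0) h5
    have h7 : (p : ℤ) ^ (f * (v + κ) + M') ∣ u * m := by
      rw [h6]; exact dvd_mul_right _ _
    refine (IsCoprime.pow_left ?_).dvd_of_dvd_mul_left h7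
    exact (Prime.coprime_iff_not_dvd hpi).2 hup
  obtain ⟨a', ha'⟩ := at_desc hC hσ _ a₁ m hm h4
  obtain ⟨c, hc, -⟩ := at_S hC hσ
  have h5 := at_T_pow hC hσ hc (v + κ)
  rw [← hT, ← hπ, ← hf] at h5
  rw [← hT, ← hπ] at ha'
  have h6 : (p : MonoidAlgebra ℤ G) * a₀ = (p : MonoidAlgebra ℤ G) ^ v *
      ((p : MonoidAlgebra ℤ G) ^ κ * (T * c ^ (v + κ) * (π ^ M' * a'))) := by
    rw [h2, ha', pow_add π, pow_mul]
    linear_combination (π ^ M' * a') * h5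
  refine ⟨k, T * c ^ (v + κ) * (π ^ M' * a'), hpk, ?_⟩
  have hj : (p : ℚ) ^ v ≠ 0 := pow_ne_zero _ (Nat.cast_ne_zero.2 hp.ne_zero)
  have h7 : MonoidAlgebra.single (1 : G) ((p : ℚ) ^ v)⁻¹ *
      MonoidAlgebra.single (1 : G) ((p ^ v : ℕ) : ℚ) = 1 := by
    rw [MonoidAlgebra.single_mul_single, one_mul, Nat.cast_pow, inv_mul_cancel₀ hj]
    rfl
  have h8 : MonoidAlgebra.single (1 : G) ((p : ℤ) ^ κ) = (p : MonoidAlgebra ℤ G) ^ κ := by
    rw [ac_single_int]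
    push_cast
    rfl
  rw [h8]
  have h9 : MonoidAlgebra.single (1 : G) ((p ^ v : ℕ) : ℚ) * (MonoidAlgebra.single 1 (k : ℚ) * y) =
      MonoidAlgebra.single (1 : G) ((p ^ v : ℕ) : ℚ) *
        toQ G ((p : MonoidAlgebra ℤ G) ^ κ * (T * c ^ (v + κ) * (π ^ M' * a'))) := by
    rw [ab_natCast (p ^ v), ab_natCast k, ← mul_assoc, ← map_mul, ← Nat.cast_mul, ← hNk,
      ← map_mul, Nat.cast_pow, ← h6, Nat.cast_mul, map_mul, map_mul, mul_assoc, ← ab_natCast N, ha₀]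
  have h10 := congrArg (fun x => MonoidAlgebra.single (1 : G) ((p : ℚ) ^ v)⁻¹ * x) h9
  simp only [← mul_assoc, h7, one_mul] at h10
  simpa only [mul_assoc] using h10

end AT

end Pool.Agent.RS2
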