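import Pool.Agent.Lib_helper35.RS2.Defs2
import Pool.Agent.Lib_helper17.RS.P_EF
import Pool.Agent.Lib_helper17.RS.P_CN
import Pool.Agent.Lib_helper35.RS2.K_UR
namespace Pool.Agent.RS2

open Pool.Agent.RSK

set_option linter.unusedSectionVars false

open NumberField NumberField.InfinitePlace NumberField.Units IsDedekindDomain Filter Topology
  Complex

section DEGP

variable {F H : Type} [Field F] [NumberField F] [Field H] [NumberField H] [Algebra F H]
  [IsGalois F H] {G : Type} [CommGroup G] [Fintype G] {p : ℕ} {ι : G ≃* (H ≃ₐ[F] H)}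
  {S T : Finset (HeightOneSpectrum (𝓞 F))} {r : ℕ} {w : Fin r → Pl H}
  {fr : HeightOneSpectrum (𝓞 F) → G}

/-- the trivial character -/
theorem lead_full (hD : DataW ι S T r w fr) {c : (G →* ℂˣ) → ℂ} (hc : LeadX S T r fr c) :
    ∃ c' : (G →* ℂˣ) → ℂ, Lead S T r fr c' ∧ (∀ χ, χ ≠ 1 → c' χ = c χ) ∧
      (r + 2 ≤ Fintype.card (InfinitePlace F) + S.card → c' 1 = 0) := by
  classical
  have htf : TFree S T := tf_F (tf_H hD).1
  obtain ⟨n, ⟨b⟩⟩ := un_exists hD.disj htf
  obtain ⟨hn, -, -, Z, hZ1, hZ2, hZ3⟩ := cnf hD.disj htf b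
  have hcard : Fintype.card (PS S) = Fintype.card (InfinitePlace F) + S.card := by simp [PS]
  have hrn : r ≤ n := by
    have := hD.card
    omega
  set C : ℂ := (-1) ^ (T.card + 1) * ((hA S T * regS S (bu b) : ℝ) : ℂ) with hC
  have hlim : Tendsto (fun s : ℂ => Z s / s ^ r) (𝓝[≠] 0) (𝓝 (C * (0 : ℂ) ^ (n - r))) := by
    have h1 : Tendsto (fun s : ℂ => s ^ (n - r)) (𝓝[≠] 0) (𝓝 ((0 : ℂ) ^ (n - r))) :=
      ((continuous_pow (n - r)).tendsto 0).mono_left nhdsWithin_le_nhds
    refine (hZ3.mul h1).congr' ?_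
    filter_upwards [self_mem_nhdsWithin] with s hs
    have hs0 : s ≠ 0 := hs
    have e : s ^ n = s ^ r * s ^ (n - r) := by
      rw [← pow_add]
      congr 1
      omega
    rw [e]
    field_simp
  refine ⟨fun χ => if χ = 1 then C * (0 : ℂ) ^ (n - r) else c χ, ?_, ?_, ?_⟩
  · intro χ
    by_cases hχ : χ = 1
    · refine ⟨Z, hZ1, ?_, ?_⟩
      · intro s hs
        rw [hZ2 s hs, hχ, lst_one]
      · simp only [hχ, if_true]
        exact hlim
    · obtain ⟨Λ, h1, h2, h3⟩ := hc χ hχ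
      refine ⟨Λ, h1, h2, ?_⟩
      simp only [hχ, if_false]
      exact h3
  · intro χ hχ
    simp only [hχ, if_false]
  · intro hS
    simp only [if_true]
    have : n - r ≠ 0 := by omega
    rw [zero_pow this, mul_zero]

end DEGP

end Pool.Agent.RS2
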