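import Pool.Agent.Lib_helper35.RS2.Defs2
import Pool.Agent.Lib_helper17.RS.P_EG
import Pool.Agent.Lib_helper17.RS.P_PX2
import Pool.Agent.Lib_helper35.RS2.K_UR
/-!
# Rubin-Stark, block UQ: uniqueness of the leading terms and of the elements
-/

namespace Pool.Agent.RS2

open Pool.Agent.RSK

set_option linter.unusedSectionVars false

open NumberField NumberField.InfinitePlace NumberField.Units IsDedekindDomain Filter Topology
  Complex

section GEN

variable {F H : Type} [Field F] [NumberField F] [Field H] [NumberField H] [Algebra F H]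
  [IsGalois F H] {G : Type} [CommGroup G] [Fintype G] {p : ℕ} {ι : G ≃* (H ≃ₐ[F] H)}
  {S T : Finset (HeightOneSpectrum (𝓞 F))} {r : ℕ} {w : Fin r → Pl H}
  {fr : HeightOneSpectrum (𝓞 F) → G}

theorem leadx_uniq {c c' : (G →* ℂˣ) → ℂ} (hc : LeadX S T r fr c) (hc' : LeadX S T r fr c') :
    ∀ χ, χ ≠ 1 → c χ = c' χ := by
  intro χ hχ
  obtain ⟨Λ, h1, h2, h3⟩ := hc χ hχ
  obtain ⟨Λ', h1', h2', h3'⟩ := hc' χ hχ
  have h4 := mero_ext h1 h1' (fun s hs => (h2 s hs).trans (h2' s hs).symm) 0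
  refine tendsto_nhds_unique h3 (h3'.congr' ?_)
  filter_upwards [h4] with s hs
  rw [hs]

/-- the values of `toR` and `toQ` -/
theorem uq_ev (χ : G →* ℂˣ) (a : MonoidAlgebra ℤ G) : evR χ (toR G a) = evQ χ (toQ G a) := by
  induction a using MonoidAlgebra.induction_on with
  | of g => simp [toR, toQ, evR, evQ]
  | add a b ha hb => simp only [map_add, ha, hb]
  | smul c a ha => simp only [map_zsmul, ha]

theorem uq_const (a : MonoidAlgebra ℤ G) (h : ∀ χ : G →* ℂˣ, χ ≠ 1 → evQ χ (toQ G a) = 0)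
    (g₀ : G) (h0 : a.coeff g₀ = 0) : a = 0 := by
  have key : ∀ g : G, MonoidAlgebra.single g (1 : ℚ) * toQ G a = toQ G a := by
    intro g
    refine evQ_inj fun χ => ?_
    by_cases hχ : χ = 1
    · subst hχ
      rw [map_mul]
      simp [evQ]
    · rw [map_mul, h χ hχ, mul_zero]
  have hv : ∀ x : G, (toQ G a).coeff x = (a.coeff x : ℚ) := by
    intro x
    simp [toQ, MonoidAlgebra.coeff_mapRingHom]
  ext x
  have h1 := congrArg (fun y : MonoidAlgebra ℚ G => y.coeff x) (key (x * g₀⁻¹))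
  beta_reduce at h1
  rw [MonoidAlgebra.coeff_single_mul_apply, hv, hv] at h1
  have h2 : (x * g₀⁻¹)⁻¹ * x = g₀ := by group
  rw [h2, h0] at h1
  simpa using h1.symm

/-- a relation between the `b_j` has coefficients with vanishing nontrivial values -/
theorem uq_rel {b : Fin r → UM ι S T}
    (hb : ∀ χ : G →* ℂˣ, χ ≠ 1 → evR χ (wmat ι S T w b).det ≠ 0)
    (a : Fin r → MonoidAlgebra ℤ G) (h : ∑ j, a j • b j = 0) (j : Fin r) (χ : G →* ℂˣ)
    (hχ : χ ≠ 1) : evQ χ (toQ G (a j)) = 0 := by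
  have h1 : (wmat ι S T w b).mulVec (fun j => toR G (a j)) = 0 := by
    ext1 i
    have h2 := congrArg (wl ι S T (w i)) h
    rw [map_sum, map_zero] at h2
    simp only [map_smul] at h2
    rw [Matrix.mulVec, dotProduct, Pi.zero_apply, ← h2]
    refine Finset.sum_congr rfl fun l _ => ?_
    rw [mul_comm]
    rfl
  have h3 := congrArg ((wmat ι S T w b).adjugate.mulVec) h1
  rw [Matrix.mulVec_mulVec, Matrix.adjugate_mul, Matrix.mulVec_zero, Matrix.smul_mulVec,
    Matrix.one_mulVec] at h3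
  have h4 := congrArg (fun v => evR χ (v j)) h3
  simp only [Pi.smul_apply, smul_eq_mul, map_mul, Pi.zero_apply, map_zero] at h4
  rw [← uq_ev]
  exact (mul_eq_zero.1 h4).resolve_left (hb χ hχ)

/-- the module spanned by the `b_j` has finite index in the minus part -/
theorem uq_tors (hp : p.Prime) (hG : Nat.card G = p) (hD : DataW ι S T r w fr)
    {b : Fin r → UM ι S T} (hm : ∀ j, nrm G • b j = 0)
    (hb : ∀ χ : G →* ℂˣ, χ ≠ 1 → evR χ (wmat ι S T w b).det ≠ 0) (m : UM ι S T)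
    (hmm : nrm G • m = 0) :
    ∃ (n : ℤ) (a : Fin r → MonoidAlgebra ℤ G), n ≠ 0 ∧ n • m = ∑ j, a j • b j := by
  classical
  have := um_finite hD
  have := um_tf hD
  have hrk := um_rank hp hG hD
  have hfact : Fact p.Prime := ⟨hp⟩
  -- a generator
  obtain ⟨σ, hσ⟩ : ∃ σ : G, σ ≠ 1 := by
    have : Nontrivial G := by
      rw [← Finite.one_lt_card_iff_nontrivial, hG]
      exact hp.one_lt
    exact exists_ne 1
  have hord : orderOf σ = p := by
    have h1 : orderOf σ ∣ p := hG ▸ orderOf_dvd_natCard σ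
    rcases (Nat.dvd_prime hp).1 h1 with h2 | h2
    · exact absurd (orderOf_eq_one_iff.1 h2) hσ
    · exact h2
  have hinj : ∀ i j : ℕ, i < p → j < p → σ ^ i = σ ^ j → i = j := by
    intro i j hi hj hij
    exact pow_injOn_Iio_orderOf (by simpa [hord] using hi) (by simpa [hord] using hj) hij
  -- the family
  let N : Submodule ℤ (UM ι S T) := AddSubgroup.toIntSubmodule (mMinus G (UM ι S T))
  have hN : ∀ u, u ∈ N ↔ nrm G • u = 0 := fun u => Iff.rfl
  let v : Fin r × Fin (p - 1) → N := fun x =>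
    ⟨MonoidAlgebra.single (σ ^ (x.2 : ℕ)) (1 : ℤ) • b x.1, by
      rw [hN, smul_smul, mul_comm, ← smul_smul, hm, smul_zero]⟩
  have hsum : ∀ n : Fin r × Fin (p - 1) → ℤ, ((∑ x, n x • v x : N) : UM ι S T) =
      ∑ j : Fin r, (∑ k : Fin (p - 1), MonoidAlgebra.single (σ ^ (k : ℕ)) (n (j, k))) • b j := by
    intro n
    rw [Submodule.coe_sum, Fintype.sum_prod_type]
    refine Finset.sum_congr rfl fun j _ => ?_
    rw [Finset.sum_smul]
    refine Finset.sum_congr rfl fun k _ => ?_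
    have h1 : (MonoidAlgebra.single (σ ^ (k : ℕ)) (n (j, k)) : MonoidAlgebra ℤ G) =
        n (j, k) • MonoidAlgebra.single (σ ^ (k : ℕ)) (1 : ℤ) := by simp
    rw [h1, smul_assoc]
    rfl
  have hind : LinearIndependent ℤ v := by
    rw [Fintype.linearIndependent_iff]
    intro n hn x
    have h1 := hsum n
    rw [hn] at h1
    have h2 := uq_rel hb _ h1.symm x.1
    have h3 := uq_const _ h2 (σ ^ (p - 1)) (by
      rw [MonoidAlgebra.coeff_sum]
      rw [Finsupp.finsetSum_apply]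
      refine Finset.sum_eq_zero fun k _ => ?_
      rw [MonoidAlgebra.coeff_single, Finsupp.single_apply, if_neg]
      intro h4
      have hk1 := k.isLt
      have hp1 := hp.one_lt
      have h5 := hinj _ _ (by omega) (by omega) h4
      omega)
    have h4 := congrArg (fun y : MonoidAlgebra ℤ G => y.coeff (σ ^ (x.2 : ℕ))) h3
    simp only [MonoidAlgebra.coeff_sum, Finsupp.finsetSum_apply, MonoidAlgebra.coeff_single,
      MonoidAlgebra.coeff_zero, Finsupp.coe_zero, Pi.zero_apply] at h4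
    rw [Finset.sum_eq_single x.2] at h4
    · simpa using h4
    · intro k _ hk
      rw [Finsupp.single_apply, if_neg]
      intro h5
      have hk1 := k.isLt
      have hk2 := x.2.isLt
      have h6 := hinj _ _ (by omega) (by omega) h5
      exact hk (Fin.ext h6)
    · intro h5
      exact absurd (Finset.mem_univ _) h5
  -- the quotient is torsion
  have hfr : Module.finrank ℤ (N ⧸ Submodule.span ℤ (Set.range v)) = 0 := by
    have h1 := Submodule.finrank_quotient_add_finrank (Submodule.span ℤ (Set.range v))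
    rw [finrank_span_eq_card hind] at h1
    have h2 : Module.finrank ℤ N = r * (p - 1) := hrk
    rw [h2] at h1
    simp at h1
    exact h1
  have htor := (Module.finrank_eq_zero_iff_isTorsion (R := ℤ)).1 hfr
  obtain ⟨n, hn⟩ := htor (x := Submodule.Quotient.mk (⟨m, hmm⟩ : N))
  have hn1 : (n : ℤ) • (⟨m, hmm⟩ : N) ∈ Submodule.span ℤ (Set.range v) := by
    rw [← Submodule.Quotient.mk_eq_zero, Submodule.Quotient.mk_smul]
    exact hn
  rw [Submodule.mem_span_range_iff_exists_fun] at hn1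
  obtain ⟨c, hc⟩ := hn1
  refine ⟨n, fun j => ∑ k : Fin (p - 1), MonoidAlgebra.single (σ ^ (k : ℕ)) (c (j, k)),
    nonZeroDivisors.coe_ne_zero n, ?_⟩
  have h1 := congrArg (fun u : N => (u : UM ι S T)) hc
  beta_reduce at h1
  rw [hsum] at h1
  rw [h1]
  rfl

theorem uq_inv {χ : G →* ℂˣ} (hχ : χ ≠ 1) : χ⁻¹ ≠ 1 := by
  intro h
  apply hχ
  refine MonoidHom.ext fun g => ?_
  have h1 := DFunLike.congr_fun h g
  rw [MonoidHom.inv_apply, MonoidHom.one_apply] at h1
  rw [MonoidHom.one_apply]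
  exact inv_eq_one.1 h1

theorem uq_ne {c : (G →* ℂˣ) → ℂ} (hne : ∀ χ, χ ≠ 1 → c χ ≠ 0) {b : Fin r → UM ι S T}
    {x : MonoidAlgebra ℚ G} (h : Core ι S T w c b x) (χ : G →* ℂˣ) (hχ : χ ≠ 1) :
    evR χ (wmat ι S T w b).det ≠ 0 := by
  intro h0
  have h1 := h.value χ hχ
  rw [h0, mul_zero] at h1
  exact hne χ⁻¹ (uq_inv hχ) h1.symm

theorem core_uniq (hp : p.Prime) (hG : Nat.card G = p) (hD : DataW ι S T r w fr)
    {c c' : (G →* ℂˣ) → ℂ} (hcc : ∀ χ, χ ≠ 1 → c χ = c' χ) (hne : ∀ χ, χ ≠ 1 → c χ ≠ 0)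
    {b b' : Fin r → UM ι S T} {x x' : MonoidAlgebra ℚ G} (h : Core ι S T w c b x)
    (h' : Core ι S T w c' b' x')
    (ψ : Fin r → (UM ι S T →ₗ[MonoidAlgebra ℤ G] MonoidAlgebra ℤ G)) :
    x * toQ G (pmat ψ b).det = x' * toQ G (pmat ψ b').det := by
  classical
  have hb := uq_ne hne h
  have hex : ∀ j, ∃ (n : ℤ) (a : Fin r → MonoidAlgebra ℤ G), n ≠ 0 ∧
      n • b' j = ∑ l, a l • b l := fun j => uq_tors hp hG hD h.minus hb (b' j) (h'.minus j)
  choose n A hn hA using hex
  set At : Matrix (Fin r) (Fin r) (MonoidAlgebra ℤ G) := Matrix.of fun l j => A j l with hAt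
  have e1 : pmat ψ b' * Matrix.diagonal (fun j => ((n j : ℤ) : MonoidAlgebra ℤ G)) =
      pmat ψ b * At := by
    ext1 i j
    rw [Matrix.mul_diagonal, Matrix.mul_apply]
    have h1 := congrArg (ψ i) (hA j)
    rw [map_zsmul, map_sum] at h1
    simp only [map_smul, smul_eq_mul] at h1
    show ψ i (b' j) * _ = ∑ l, ψ i (b l) * A j l
    rw [mul_comm, ← zsmul_eq_mul, h1]
    exact Finset.sum_congr rfl fun l _ => mul_comm _ _
  have e2 : wmat ι S T w b' * Matrix.diagonal (fun j => ((n j : ℤ) : MonoidAlgebra ℝ G)) =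
      wmat ι S T w b * At.map (toR G) := by
    ext1 i j
    rw [Matrix.mul_diagonal, Matrix.mul_apply]
    have h1 := congrArg (wl ι S T (w i)) (hA j)
    rw [map_zsmul, map_sum] at h1
    simp only [map_smul] at h1
    show wl ι S T (w i) (b' j) * _ = ∑ l, wl ι S T (w i) (b l) * toR G (A j l)
    rw [mul_comm, ← zsmul_eq_mul, h1]
    exact Finset.sum_congr rfl fun l _ => mul_comm _ _
  have d1 := congrArg Matrix.det e1
  have d2 := congrArg Matrix.det e2
  rw [Matrix.det_mul, Matrix.det_mul, Matrix.det_diagonal] at d1 d2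
  have d3 : (At.map (toR G)).det = toR G At.det := by
    rw [RingHom.map_det]
    rfl
  rw [d3] at d2
  refine evQ_inj fun χ => ?_
  by_cases hχ : χ = 1
  · have h1 := (evQ_one_nrm x).1 h.xminus
    have h2 := (evQ_one_nrm x').1 h'.xminus
    rw [hχ, map_mul, map_mul, h1, h2, zero_mul, zero_mul]
  · have f1 := congrArg (fun y => evQ χ (toQ G y)) d1
    have f2 := congrArg (fun y => evR χ y) d2
    simp only [map_mul, map_prod, map_intCast, uq_ev] at f1 f2
    have g1 := h.value χ hχ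
    have g2 := h'.value χ hχ
    rw [← hcc χ⁻¹ (uq_inv hχ), ← g1] at g2
    have hN : (∏ i, ((n i : ℤ) : ℂ)) ≠ 0 :=
      Finset.prod_ne_zero_iff.2 fun i _ => by exact_mod_cast hn i
    rw [map_mul, map_mul]
    have hDb := hb χ hχ
    have key : (evQ χ x * evQ χ (toQ G (pmat ψ b).det) -
        evQ χ x' * evQ χ (toQ G (pmat ψ b').det)) *
        ((∏ i, ((n i : ℤ) : ℂ)) * evR χ (wmat ι S T w b).det) = 0 := by
      linear_combination (-evQ χ x' * evR χ (wmat ι S T w b).det) * f1 +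
        (evQ χ x' * evQ χ (toQ G (pmat ψ b).det)) * f2 -
        (evQ χ (toQ G (pmat ψ b).det) * (∏ i, ((n i : ℤ) : ℂ))) * g2
    exact sub_eq_zero.1 ((mul_eq_zero.1 key).resolve_right (mul_ne_zero hN hDb))

end GEN

end Pool.Agent.RS2
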