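import Pool.Agent.Lib_helper17.RS.P_AC
import Pool.Agent.Lib_helper35.RS2.P_AT
import Pool.Agent.Lib_helper35.RS2.Defs2

/-!
# RS2, block AF: the local-global principle

Cites the wanted statement `alg_fin_at` (WAlg2).
-/

namespace Pool.Agent.RS2

set_option linter.unusedSectionVars false

open Pool.Agent.RSK
open Complex

section AF

variable {G : Type} [CommGroup G] [Fintype G] {P : Subgroup G} {p j : ℕ}

theorem alg_fin (hC : CycP p j P) (y : MonoidAlgebra ℚ G) (hy : toQ G (nP P) * y = 0) {M κ : ℕ}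
    (hN : ∃ t : ℤ, pF P (fun χ => evQ χ y) = (p : ℂ) ^ M * t)
    (hκ : p ^ (j - 1) * (κ * (p - 1) + 1) ≤ M)
    (h2 : ∀ l : ℕ, l.Prime → l ≠ p → ∃ (k : ℕ) (a : MonoidAlgebra ℤ G), ¬ l ∣ k ∧
      MonoidAlgebra.single 1 (k : ℚ) * y = toQ G a) :
    ∃ a : MonoidAlgebra ℤ G, y = toQ G (MonoidAlgebra.single 1 ((p : ℤ) ^ κ) * a) := by
  have hp := hC.prime
  have h1 := alg_fin_at hC y hy hN hκ
  set c : MonoidAlgebra ℤ G := MonoidAlgebra.single 1 ((p : ℤ) ^ κ) with hc
  set I : Ideal ℤ :=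
    { carrier := {m : ℤ | ∃ a : MonoidAlgebra ℤ G, (m : MonoidAlgebra ℚ G) * y = toQ G (c * a)}
      zero_mem' := ⟨0, by simp⟩
      add_mem' := by
        rintro u v ⟨a, ha⟩ ⟨b, hb⟩
        refine ⟨a + b, ?_⟩
        rw [mul_add, map_add, ← ha, ← hb]
        push_cast
        ring
      smul_mem' := by
        rintro u v ⟨a, ha⟩
        refine ⟨(u : MonoidAlgebra ℤ G) * a, ?_⟩
        have h3 : c * ((u : MonoidAlgebra ℤ G) * a) = (u : MonoidAlgebra ℤ G) * (c * a) := by ring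
        rw [h3, map_mul, ← ha, map_intCast, smul_eq_mul]
        push_cast
        ring } with hI
  have hmem : ∀ m : ℤ, m ∈ I ↔ ∃ a : MonoidAlgebra ℤ G,
      (m : MonoidAlgebra ℚ G) * y = toQ G (c * a) := fun m => Iff.rfl
  have hsq : ∀ k : ℕ, (MonoidAlgebra.single (1 : G) (k : ℚ) : MonoidAlgebra ℚ G) =
      ((k : ℤ) : MonoidAlgebra ℚ G) := by
    intro k
    have := ac_single_rat (G := G) (k : ℤ)
    push_cast at this ⊢
    exact this
  have hnot : ∀ l : ℕ, l.Prime → ∃ m ∈ I, ¬ (l : ℤ) ∣ m := by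
    intro l hl
    by_cases hlp : l = p
    · subst hlp
      obtain ⟨k, a, hk, ha⟩ := h1
      refine ⟨k, (hmem _).2 ⟨a, ?_⟩, ?_⟩
      · rw [← hsq, ha]
      · intro h
        exact hk (by exact_mod_cast h)
    · obtain ⟨k, a, hk, ha⟩ := h2 l hl hlp
      refine ⟨(p : ℤ) ^ κ * k, (hmem _).2 ⟨a, ?_⟩, ?_⟩
      · rw [map_mul, ← ha, hsq, hc, ac_single_int, map_intCast]
        push_cast
        ring
      · intro h
        have h4 : l ∣ p ^ κ * k := by exact_mod_cast h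
        rcases (Nat.Prime.dvd_mul hl).1 h4 with h5 | h5
        · exact hlp ((Nat.prime_dvd_prime_iff_eq hl hp).1 (hl.dvd_of_dvd_pow h5))
        · exact hk h5
  have hone : (1 : ℤ) ∈ I := by
    obtain ⟨d, hd⟩ := (inferInstance : I.IsPrincipal)
    have hd1 : d.natAbs = 1 := by
      by_contra hne
      obtain ⟨l, hl, hld⟩ := Nat.exists_prime_and_dvd hne
      obtain ⟨m, hm, hlm⟩ := hnot l hl
      apply hlm
      rw [hd] at hm
      have h3 : d ∣ m := Ideal.mem_span_singleton.1 hm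
      exact (Int.natCast_dvd.2 hld).trans h3
    rw [hd]
    apply Ideal.mem_span_singleton.2
    have h4 : IsUnit d := Int.isUnit_iff_natAbs_eq.2 hd1
    exact h4.dvd
  obtain ⟨a, ha⟩ := (hmem _).1 hone
  refine ⟨a, ?_⟩
  rw [← ha]
  simp

end AF

end Pool.Agent.RS2
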