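import Pool.Agent.Lib_helper35.RS2.Defs2

/-! # RS2 block B1: the character identity for the holomorph -/

namespace Pool.Agent.RS2

set_option linter.unusedSectionVars false

open Pool.Agent.RSK

section B1

variable {G : Type} [CommGroup G]

/-! elements killed by `p` are the elements of `P` -/
theorem b1_memP [Finite G] {P : Subgroup G} {p j : ℕ} (hC : CycP p j P) (x : G) :
    x ∈ P ↔ x ^ p = 1 := by
  classical
  have := hC.cyc
  have := Fintype.ofFinite G
  constructor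
  · intro hx
    have h := pow_card_eq_one' (G := P) (x := ⟨x, hx⟩)
    rw [hC.cardP] at h
    exact congrArg Subtype.val h
  · intro hx
    have h1 := IsCyclic.card_pow_eq_one_le (α := G) (n := p) hC.prime.pos
    have h2 : (Finset.univ.filter fun y : G => y ∈ P) ⊆ Finset.univ.filter fun y : G => y ^ p = 1 := by
      intro y hy
      simp only [Finset.mem_filter, Finset.mem_univ, true_and] at hy ⊢
      have h := pow_card_eq_one' (G := P) (x := ⟨y, hy⟩)
      rw [hC.cardP] at h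
      exact congrArg Subtype.val h
    have h3 : (Finset.univ.filter fun y : G => y ∈ P).card = p := by
      rw [← Fintype.card_subtype, ← Nat.card_eq_fintype_card]
      exact hC.cardP
    have h4 := Finset.eq_of_subset_of_card_le h2 (by rw [h3]; exact h1)
    have : x ∈ Finset.univ.filter fun y : G => y ^ p = 1 := by simp [hx]
    rw [← h4] at this
    simpa using this

theorem b1_sub [Finite G] {P : Subgroup G} {p j : ℕ} (hC : CycP p j P) {R : Subgroup G}
    (hR : R ≠ ⊥) : P ≤ R := by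
  have := hC.cyc
  have : Fact p.Prime := ⟨hC.prime⟩
  have h1 : Nat.card R ∣ p ^ j := by rw [← hC.card]; exact Subgroup.card_subgroup_dvd_card R
  obtain ⟨m, hm, hm'⟩ := (Nat.dvd_prime_pow hC.prime).1 h1
  have hm0 : m ≠ 0 := by
    rintro rfl
    exact hR (Subgroup.card_eq_one.1 (by simpa using hm'))
  have h2 : p ∣ Nat.card R := by rw [hm']; exact dvd_pow_self p hm0
  obtain ⟨y, hy⟩ := exists_prime_orderOf_dvd_card' (G := R) p h2
  have h3 : (y : G) ^ p = 1 := by
    have := pow_orderOf_eq_one y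
    rw [hy] at this
    exact congrArg Subtype.val this
  have h4 : (y : G) ∈ P := (b1_memP hC _).2 h3
  have h5 : Subgroup.zpowers (⟨(y : G), h4⟩ : P) = ⊤ := by
    apply Subgroup.eq_top_of_card_eq
    rw [Nat.card_zpowers, hC.cardP]
    have h6 : orderOf (⟨(y : G), h4⟩ : P) = orderOf (y : G) := by
      rw [← Subgroup.orderOf_coe]
    rw [h6, Subgroup.orderOf_coe, hy]
  intro x hx
  have h6 : (⟨x, hx⟩ : P) ∈ Subgroup.zpowers (⟨(y : G), h4⟩ : P) := by rw [h5]; trivial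
  obtain ⟨k, hk⟩ := Subgroup.mem_zpowers_iff.1 h6
  have h7 : (y : G) ^ k = x := by
    have := congrArg Subtype.val hk
    simpa using this
  rw [← h7]
  exact R.zpow_mem y.2 k

theorem b1_inj [Finite G] {P : Subgroup G} {p j : ℕ} (hC : CycP p j P) {χ : G →* ℂˣ}
    (hχ : Fth P χ) : Function.Injective χ := by
  rw [← MonoidHom.ker_eq_bot_iff]
  by_contra hne
  obtain ⟨h, hP, hh⟩ := hχ
  exact hh (b1_sub hC hne hP)

theorem b1_gen [Finite G] {P : Subgroup G} {p j : ℕ} (hC : CycP p j P) (y : G) :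
    (∀ x, x ∈ Subgroup.zpowers y) ↔ y ∉ (powMonoidHom p : G →* G).range := by
  have hp := hC.prime
  have := hC.cyc
  constructor
  · rintro hy ⟨z, hz⟩
    have h1 : orderOf y = p ^ j := by
      rw [orderOf_eq_card_of_forall_mem_zpowers hy, hC.card]
    have h2 : y ^ (p ^ (j - 1)) = 1 := by
      rw [← hz, powMonoidHom_apply, ← pow_mul, ← pow_succ', Nat.sub_add_cancel hC.pos, ← hC.card]
      exact pow_card_eq_one'
    have h3 := orderOf_dvd_of_pow_eq_one h2
    rw [h1] at h3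
    have h4 := Nat.le_of_dvd (pow_pos hp.pos _) h3
    have h5 := Nat.pow_lt_pow_right hp.one_lt (Nat.sub_lt hC.pos one_pos)
    omega
  · intro hy
    obtain ⟨g, hg⟩ := IsCyclic.exists_generator (α := G)
    obtain ⟨a, ha⟩ := mem_powers_iff_mem_zpowers.2 (hg y)
    simp only at ha
    have ho : orderOf g = p ^ j := by rw [orderOf_eq_card_of_forall_mem_zpowers hg, hC.card]
    have hpa : ¬ p ∣ a := by
      rintro ⟨b, rfl⟩
      exact hy ⟨g ^ b, by rw [powMonoidHom_apply, ← pow_mul, mul_comm b p, ha]⟩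
    have hcop : (orderOf g).Coprime a := by
      rw [ho]
      exact Nat.Coprime.pow_left _ ((Nat.Prime.coprime_iff_not_dvd hp).2 hpa)
    have h1 : orderOf y = Nat.card G := by
      rw [← ha, Nat.Coprime.orderOf_pow hcop, ho, hC.card]
    intro x
    have h2 : Subgroup.zpowers y = ⊤ := by
      apply Subgroup.eq_top_of_card_eq
      rw [Nat.card_zpowers, h1]
    rw [h2]; trivial

/-- the sum over the automorphisms -/
theorem b1_aut [Finite G] {P : Subgroup G} {p j : ℕ} (hC : CycP p j P) {χ : G →* ℂˣ}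
    (hχ : Fth P χ) (h : G) [Fintype (MulAut G)] [Decidable (h = 1)] [Decidable (h ∈ P)] :
    (∑ σ : MulAut G, ((χ (σ h) : ℂˣ) : ℂ)) =
      (if h = 1 then (Nat.card G : ℂ) else 0) -
        (if h ∈ P then (Nat.card G : ℂ) / p else 0) := by
  classical
  have hp := hC.prime
  have := hC.cyc
  have := Fintype.ofFinite G
  obtain ⟨g, hg⟩ := IsCyclic.exists_generator (α := G)
  obtain ⟨m, hm⟩ := mem_powers_iff_mem_zpowers.2 (hg h)
  simp only at hm
  have hinj := b1_inj hC hχ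
  set R : Subgroup G := (powMonoidHom p : G →* G).range with hR
  have hcardR : (Nat.card R : ℂ) = (Nat.card G : ℂ) / p := by
    have h1 := IsCyclic.card_powMonoidHom_range (G := G) p
    rw [hR, h1]
    have h2 : p ∣ Nat.card G := by rw [hC.card]; exact dvd_pow_self p hC.pos.ne'
    rw [Nat.gcd_eq_right h2, Nat.cast_div h2 (by exact_mod_cast hp.ne_zero)]
  let f : G →* ℂ := (Units.coeHom ℂ).comp (χ.comp (powMonoidHom m))
  have hf : ∀ y, f y = ((χ y : ℂˣ) : ℂ) ^ m := by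
    intro y
    simp [f]
  have hone : ∀ y : G, f y = 1 ↔ y ^ m = 1 := by
    intro y
    constructor
    · intro hy
      apply hinj
      rw [map_one]
      apply Units.ext
      simpa [f] using hy
    · intro hy
      simp [f, hf, ← Units.val_pow_eq_pow_val, ← map_pow, hy]
  have h1 : (∑ y : G, f y) = if h = 1 then (Nat.card G : ℂ) else 0 := by
    rw [sum_hom_units f]
    have : f = 1 ↔ h = 1 := by
      constructor
      · intro hf1
        rw [← hm]
        exact (hone g).1 (by rw [hf1]; rfl)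
      · intro hh
        ext y
        rw [MonoidHom.one_apply]
        rw [hone]
        obtain ⟨a, rfl⟩ := mem_powers_iff_mem_zpowers.2 (hg y)
        simp only
        rw [← pow_mul, mul_comm, pow_mul, hm, hh, one_pow]
    rw [Nat.card_eq_fintype_card]
    by_cases hh : h = 1
    · rw [if_pos (this.2 hh), if_pos hh]
    · rw [if_neg (fun e => hh (this.1 e)), if_neg hh, Nat.cast_zero]
  have h2 : (∑ y : R, f y) = if h ∈ P then (Nat.card G : ℂ) / p else 0 := by
    have e := sum_hom_units (f.comp R.subtype)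
    have : f.comp R.subtype = 1 ↔ h ∈ P := by
      rw [b1_memP hC, ← hm]
      constructor
      · intro hf1
        have h3 := DFunLike.congr_fun hf1 (⟨g ^ p, ⟨g, rfl⟩⟩ : R)
        have h4 : f (g ^ p) = 1 := h3
        rw [hone] at h4
        rw [← pow_mul, mul_comm, pow_mul]
        exact h4
      · intro hh
        ext y
        obtain ⟨y, ⟨z, rfl⟩⟩ := y
        show f _ = 1
        rw [hone]
        obtain ⟨a, ha⟩ := mem_powers_iff_mem_zpowers.2 (hg z)
        simp only at ha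
        show (z ^ p) ^ m = 1
        rw [← ha, ← pow_mul, ← pow_mul, show a * (p * m) = m * p * a by ring, pow_mul, pow_mul, hh,
          one_pow]
    have h5 : (∑ y : R, f y) = ∑ y : R, (f.comp R.subtype) y := rfl
    rw [h5, e]
    by_cases hh : h ∈ P
    · rw [if_pos (this.2 hh), if_pos hh, ← hcardR, Nat.card_eq_fintype_card]
    · rw [if_neg (fun e => hh (this.1 e)), if_neg hh, Nat.cast_zero]
  have h3 : (∑ σ : MulAut G, ((χ (σ h) : ℂˣ) : ℂ)) = ∑ y ∈ Finset.univ.filter (fun y => y ∉ R), f y := by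
    refine Finset.sum_bij (fun σ _ => σ g) ?_ ?_ ?_ ?_
    · intro σ _
      simp only [Finset.mem_filter, Finset.mem_univ, true_and]
      rw [← b1_gen hC]
      intro x
      obtain ⟨a, ha⟩ := Subgroup.mem_zpowers_iff.1 (hg (σ.symm x))
      rw [Subgroup.mem_zpowers_iff]
      exact ⟨a, by rw [← map_zpow, ha]; simp⟩
    · intro σ _ τ _ e
      exact (MulEquiv.eq_iff_eq_on_generator hg σ τ).2 e
    · intro y hy
      simp only [Finset.mem_filter, Finset.mem_univ, true_and] at hy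
      rw [← b1_gen hC] at hy
      have ho : orderOf g = orderOf y := by
        rw [orderOf_eq_card_of_forall_mem_zpowers hg, orderOf_eq_card_of_forall_mem_zpowers hy]
      exact ⟨mulEquivOfOrderOfEq hg hy ho, Finset.mem_univ _, mulEquivOfOrderOfEq_apply_gen hg hy ho⟩
    · intro σ _
      rw [hf, ← hm, map_pow, map_pow, Units.val_pow_eq_pow_val]
  have h4 : (∑ y : R, f y) = ∑ y ∈ Finset.univ.filter (fun y => y ∈ R), f y := by
    rw [← Finset.sum_subtype_eq_sum_filter]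
    simp
  have h5 := Finset.sum_filter_add_sum_filter_not Finset.univ (fun y => y ∈ R) f
  rw [h3, ← h1, ← h2, h4, ← h5]
  ring


theorem fix_hol {Γ G : Type} [Group Γ] [Finite Γ] [CommGroup G] [Finite G] (i : G →* Γ)
    (hi : Function.Injective i) (hn : i.range.Normal) (D D' : Subgroup Γ) {P : Subgroup G} {p j : ℕ}
    (hC : CycP p j P) (hdec : ∀ γ : Γ, ∃ g : G, ∃ δ ∈ D, γ = i g * δ)
    (htriv : ∀ g : G, i g ∈ D → g = 1) (hD' : ∀ γ, γ ∈ D' ↔ ∃ h ∈ P, ∃ δ ∈ D, γ = i h * δ)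
    (c : D →* MulAut G) (hc : Function.Bijective c)
    (hcc : ∀ (δ : D) (g : G), (δ : Γ) * i g * (δ : Γ)⁻¹ = i (c δ g)) {χ : G →* ℂˣ}
    (hχ : Fth P χ) (g : Γ) :
    (Nat.card D : ℂ)⁻¹ * Nat.card {γ : Γ // γ⁻¹ * g * γ ∈ D} =
      (Nat.card D' : ℂ)⁻¹ * Nat.card {γ : Γ // γ⁻¹ * g * γ ∈ D'} +
        (Nat.card G : ℂ)⁻¹ * ∑ᶠ γ : Γ, ∑ᶠ a : {a : G // i a = γ⁻¹ * g * γ}, ((χ a.1 : ℂˣ) : ℂ) := by
  classical
  have hp := hC.prime
  haveI := Fintype.ofFinite Γ
  haveI := Fintype.ofFinite G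
  haveI := Fintype.ofFinite D
  have hG0 : (Nat.card G : ℂ) ≠ 0 := by exact_mod_cast Nat.card_pos.ne'
  have hD0 : (Nat.card D : ℂ) ≠ 0 := by exact_mod_cast Nat.card_pos.ne'
  have hp0 : (p : ℂ) ≠ 0 := by exact_mod_cast hp.ne_zero
  -- uniqueness of the decomposition
  have huniq : ∀ (x y : G) (δ ε : Γ), δ ∈ D → ε ∈ D → i x * δ = i y * ε → x = y ∧ δ = ε := by
    intro x y δ ε hδ hε h
    have h1 : i (y⁻¹ * x) = ε * δ⁻¹ := by
      rw [map_mul, map_inv]
      have : (i y)⁻¹ * (i x * δ) * δ⁻¹ = (i y)⁻¹ * (i y * ε) * δ⁻¹ := by rw [h]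
      simpa [mul_assoc] using this
    have h2 := htriv (y⁻¹ * x) (by rw [h1]; exact D.mul_mem hε (D.inv_mem hδ))
    have h3 : x = y := by
      have := congrArg (fun z => y * z) h2
      simpa using this
    subst h3
    exact ⟨rfl, mul_left_cancel h⟩
  let e : G × D ≃ Γ := Equiv.ofBijective (fun x => i x.1 * (x.2 : Γ)) ⟨by
    rintro ⟨x, δ⟩ ⟨y, ε⟩ h
    obtain ⟨h1, h2⟩ := huniq x y δ ε δ.2 ε.2 h
    exact Prod.ext h1 (Subtype.ext h2), by
    intro γ
    obtain ⟨x, δ, hδ, h⟩ := hdec γ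
    exact ⟨(x, ⟨δ, hδ⟩), h.symm⟩⟩
  have he : ∀ x δ, e (x, δ) = i x * (δ : Γ) := fun _ _ => rfl
  obtain ⟨h, ⟨δ₀, hδ₀, hg⟩⟩ := hdec g
  -- conjugation
  have hconj : ∀ x : G, (i x)⁻¹ * g * i x = i (x⁻¹ * h * c ⟨δ₀, hδ₀⟩ x) * δ₀ := by
    intro x
    have h1 := hcc ⟨δ₀, hδ₀⟩ x
    simp only at h1
    rw [map_mul, map_mul, map_inv, ← h1, hg]
    group
  have hcard' : Nat.card D' = p * Nat.card D := by
    rw [← hC.cardP, ← Nat.card_prod]
    refine (Nat.card_congr (Equiv.ofBijective (fun x : P × D =>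
      (⟨i x.1 * (x.2 : Γ), (hD' _).2 ⟨x.1, x.1.2, x.2, x.2.2, rfl⟩⟩ : D')) ⟨?_, ?_⟩)).symm
    · rintro ⟨x, δ⟩ ⟨y, ε⟩ hh
      obtain ⟨h1, h2⟩ := huniq x y δ ε δ.2 ε.2 (congrArg Subtype.val hh)
      exact Prod.ext (Subtype.ext h1) (Subtype.ext h2)
    · rintro ⟨γ, hγ⟩
      obtain ⟨x, hx, δ, hδ, hh⟩ := (hD' _).1 hγ
      exact ⟨(⟨x, hx⟩, ⟨δ, hδ⟩), Subtype.ext hh.symm⟩
  have hDD' : D ≤ D' := fun δ hδ => (hD' _).2 ⟨1, P.one_mem, δ, hδ, by simp⟩
  -- the number of fixed points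
  have hN : ∀ (U : Subgroup Γ), D ≤ U → (Nat.card {γ : Γ // γ⁻¹ * g * γ ∈ U} : ℂ) =
      Nat.card D * Nat.card {x : G // (i x)⁻¹ * g * i x ∈ U} := by
    intro U hU
    rw [← Nat.cast_mul, ← Nat.card_prod]
    congr 1
    refine Nat.card_congr (Equiv.ofBijective (fun x : D × {x : G // (i x)⁻¹ * g * i x ∈ U} =>
      (⟨i x.2.1 * (x.1 : Γ), ?_⟩ : {γ : Γ // γ⁻¹ * g * γ ∈ U})) ⟨?_, ?_⟩).symm
    · have h1 := U.mul_mem (U.mul_mem (U.inv_mem (hU x.1.2)) x.2.2) (hU x.1.2)
      convert h1 using 1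
      group
    · rintro ⟨δ, ⟨x, hx⟩⟩ ⟨ε, ⟨y, hy⟩⟩ hh
      obtain ⟨h1, h2⟩ := huniq x y δ ε δ.2 ε.2 (congrArg Subtype.val hh)
      exact Prod.ext (Subtype.ext h2) (Subtype.ext h1)
    · rintro ⟨γ, hγ⟩
      obtain ⟨x, δ, hδ, rfl⟩ := hdec γ
      refine ⟨(⟨δ, hδ⟩, ⟨x, ?_⟩), rfl⟩
      have h1 := U.mul_mem (U.mul_mem (hU hδ) hγ) (U.inv_mem (hU hδ))
      convert h1 using 1
      group
  rw [hN D le_rfl, hN D' hDD', hcard']
  push_cast
  have hA : (Nat.card D : ℂ)⁻¹ * (Nat.card D * Nat.card {x : G // (i x)⁻¹ * g * i x ∈ D}) =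
      Nat.card {x : G // (i x)⁻¹ * g * i x ∈ D} := by
    field_simp
  have hB : ((p : ℂ) * Nat.card D)⁻¹ * (Nat.card D * Nat.card {x : G // (i x)⁻¹ * g * i x ∈ D'}) =
      (Nat.card {x : G // (i x)⁻¹ * g * i x ∈ D'} : ℂ) / p := by
    field_simp
  rw [hA, hB]
  have hmD : ∀ x : G, (i x)⁻¹ * g * i x ∈ D ↔ x⁻¹ * h * c ⟨δ₀, hδ₀⟩ x = 1 := by
    intro x
    rw [hconj x]
    constructor
    · intro hh
      have := D.mul_mem hh (D.inv_mem hδ₀)
      rw [mul_assoc, mul_inv_cancel, mul_one] at this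
      exact htriv _ this
    · intro hh
      rw [hh, map_one, one_mul]
      exact hδ₀
  have hmD' : ∀ x : G, (i x)⁻¹ * g * i x ∈ D' ↔ x⁻¹ * h * c ⟨δ₀, hδ₀⟩ x ∈ P := by
    intro x
    rw [hconj x, hD']
    constructor
    · rintro ⟨y, hy, δ, hδ, hh⟩
      obtain ⟨h1, _⟩ := huniq _ _ _ _ hδ₀ hδ hh
      rw [h1]; exact hy
    · intro hh
      exact ⟨_, hh, δ₀, hδ₀, rfl⟩
  by_cases h0 : δ₀ = 1
  · -- `g = i h`
    subst h0
    have hc1 : c ⟨1, hδ₀⟩ = 1 := by
      have : (⟨1, hδ₀⟩ : D) = 1 := rfl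
      rw [this, map_one]
    rw [mul_one] at hg
    have h1 : (Nat.card {x : G // (i x)⁻¹ * g * i x ∈ D} : ℂ) =
        if h = 1 then (Nat.card G : ℂ) else 0 := by
      by_cases hh : h = 1
      · rw [if_pos hh]
        congr 1
        refine Nat.card_congr (Equiv.subtypeUnivEquiv fun x => ?_)
        rw [hmD, hc1, hh]
        simp
      · rw [if_neg hh]
        haveI : IsEmpty {x : G // (i x)⁻¹ * g * i x ∈ D} := by
          refine ⟨fun x => hh ?_⟩
          have h2 := (hmD x.1).1 x.2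
          rw [hc1, MulAut.one_apply] at h2
          have h3 : x.1⁻¹ * h * x.1 = h := by rw [mul_comm x.1⁻¹ h, mul_assoc, inv_mul_cancel, mul_one]
          rw [← h3]; exact h2
        rw [Nat.card_of_isEmpty, Nat.cast_zero]
    have h2 : (Nat.card {x : G // (i x)⁻¹ * g * i x ∈ D'} : ℂ) =
        if h ∈ P then (Nat.card G : ℂ) else 0 := by
      have h3 : ∀ x : G, x⁻¹ * h * x = h := by
        intro x
        rw [mul_comm x⁻¹ h, mul_assoc, inv_mul_cancel, mul_one]
      by_cases hh : h ∈ P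
      · rw [if_pos hh]
        congr 1
        refine Nat.card_congr (Equiv.subtypeUnivEquiv fun x => ?_)
        rw [hmD', hc1, MulAut.one_apply, h3]
        exact hh
      · rw [if_neg hh]
        haveI : IsEmpty {x : G // (i x)⁻¹ * g * i x ∈ D'} := by
          refine ⟨fun x => hh ?_⟩
          have h2 := (hmD' x.1).1 x.2
          rw [hc1, MulAut.one_apply, h3] at h2
          exact h2
        rw [Nat.card_of_isEmpty, Nat.cast_zero]
    have h3 : ∀ γ : Γ, (∑ᶠ a : {a : G // i a = γ⁻¹ * g * γ}, ((χ a.1 : ℂˣ) : ℂ)) =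
        ((χ (c ((e.symm γ).2)⁻¹ h) : ℂˣ) : ℂ) := by
      intro γ
      obtain ⟨⟨x, δ⟩, rfl⟩ := e.surjective γ
      rw [Equiv.symm_apply_apply]
      simp only
      have h4 : i (c δ⁻¹ h) = (e (x, δ))⁻¹ * g * e (x, δ) := by
        have h5 : (i x)⁻¹ * i h * i x = i h := by
          rw [← map_inv, ← map_mul, ← map_mul]
          congr 1
          rw [mul_comm x⁻¹ h, mul_assoc, inv_mul_cancel, mul_one]
        have h6 := hcc δ⁻¹ h
        rw [InvMemClass.coe_inv, inv_inv] at h6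
        rw [he, hg, ← h6]
        have h7 : (i x * (δ : Γ))⁻¹ * i h * (i x * δ) = (δ : Γ)⁻¹ * ((i x)⁻¹ * i h * i x) * δ := by
          group
        rw [h7, h5]
      haveI : Unique {a : G // i a = (e (x, δ))⁻¹ * g * e (x, δ)} :=
        ⟨⟨⟨c δ⁻¹ h, h4⟩⟩, fun a => Subtype.ext (hi (a.2.trans h4.symm))⟩
      rw [finsum_unique]
      have hdef : (default : {a : G // i a = (e (x, δ))⁻¹ * g * e (x, δ)}).1 = c δ⁻¹ h :=
        hi ((default : {a : G // i a = (e (x, δ))⁻¹ * g * e (x, δ)}).2.trans h4.symm)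
      rw [hdef]
    have h4 : (∑ᶠ γ : Γ, ∑ᶠ a : {a : G // i a = γ⁻¹ * g * γ}, ((χ a.1 : ℂˣ) : ℂ)) =
        Nat.card G * ∑ σ : MulAut G, ((χ (σ h) : ℂˣ) : ℂ) := by
      simp_rw [h3]
      rw [finsum_eq_sum_of_fintype, ← e.sum_comp, Fintype.sum_prod_type]
      simp only [Equiv.symm_apply_apply]
      rw [Finset.sum_const, Finset.card_univ, nsmul_eq_mul, Nat.card_eq_fintype_card]
      congr 1
      have h5 : (∑ δ : D, ((χ (c δ⁻¹ h) : ℂˣ) : ℂ)) = ∑ δ : D, ((χ (c δ h) : ℂˣ) : ℂ) :=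
        Equiv.sum_comp (Equiv.inv D) (fun δ => ((χ (c δ h) : ℂˣ) : ℂ))
      rw [h5]
      exact (Equiv.ofBijective c hc).sum_comp (fun σ => ((χ (σ h) : ℂˣ) : ℂ))
    rw [h1, h2, h4, b1_aut hC hχ h]
    by_cases hh : h = 1
    · have hhP : h ∈ P := by rw [hh]; exact P.one_mem
      rw [if_pos hh, if_pos hhP, if_pos hhP]
      field_simp
      ring
    · rw [if_neg hh]
      by_cases hhP : h ∈ P
      · rw [if_pos hhP, if_pos hhP]
        field_simp
        ring
      · rw [if_neg hhP, if_neg hhP]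
        simp
  · -- `g` is not in `i G`
    have h3 : (∑ᶠ γ : Γ, ∑ᶠ a : {a : G // i a = γ⁻¹ * g * γ}, ((χ a.1 : ℂˣ) : ℂ)) = 0 := by
      rw [← finsum_zero (α := Γ)]
      refine finsum_congr fun γ => ?_
      haveI : IsEmpty {a : G // i a = γ⁻¹ * g * γ} := by
        refine ⟨fun a => h0 ?_⟩
        have h4 : g ∈ i.range := by
          have h5 := hn.conj_mem (i a.1) ⟨a.1, rfl⟩ γ
          rw [a.2] at h5
          have h6 : γ * (γ⁻¹ * g * γ) * γ⁻¹ = g := by group
          rwa [h6] at h5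
        obtain ⟨y, hy⟩ := h4
        exact (huniq h y δ₀ 1 hδ₀ D.one_mem (by rw [← hg, hy, mul_one])).2
      rw [finsum_of_isEmpty]
    rw [h3, mul_zero, add_zero]
    -- the homomorphism `φ`
    let φ : G →* G :=
      { toFun := fun x => x * (c ⟨δ₀, hδ₀⟩ x)⁻¹
        map_one' := by simp
        map_mul' := fun x y => by
          rw [map_mul, mul_inv]
          exact mul_mul_mul_comm _ _ _ _ }
    have hφ : ∀ x, φ x = x * (c ⟨δ₀, hδ₀⟩ x)⁻¹ := fun _ => rfl
    have hφ' : ∀ x, x⁻¹ * h * c ⟨δ₀, hδ₀⟩ x = (φ x)⁻¹ * h := by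
      intro x
      rw [hφ, mul_inv, inv_inv, mul_assoc, mul_assoc, mul_comm h]
    have hne : φ.range ≠ ⊥ := by
      intro hbot
      have h5 : ∀ x, φ x = 1 := by
        intro x
        have : φ x ∈ φ.range := ⟨x, rfl⟩
        rw [hbot] at this
        exact Subgroup.mem_bot.1 this
      have h6 : c ⟨δ₀, hδ₀⟩ = 1 := by
        ext x
        have h7 := h5 x
        rw [hφ, mul_inv_eq_one] at h7
        rw [MulAut.one_apply]
        exact h7.symm
      have h7 : (⟨δ₀, hδ₀⟩ : D) = 1 := hc.1 (by rw [h6, map_one])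
      exact h0 (congrArg Subtype.val h7)
    have hPR := b1_sub hC hne
    choose z hz using fun y : P => hPR y.2
    have h5 : Nat.card {x : G // (i x)⁻¹ * g * i x ∈ D'} =
        p * Nat.card {x : G // (i x)⁻¹ * g * i x ∈ D} := by
      rw [← hC.cardP, ← Nat.card_prod]
      refine (Nat.card_congr (Equiv.ofBijective
        (fun x : P × {x : G // (i x)⁻¹ * g * i x ∈ D} =>
          (⟨x.2.1 * z x.1, ?_⟩ : {x : G // (i x)⁻¹ * g * i x ∈ D'})) ⟨?_, ?_⟩)).symm
      · rw [hmD', hφ', map_mul, mul_inv, hz]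
        have h6 := (hmD _).1 x.2.2
        rw [hφ'] at h6
        rw [mul_assoc, mul_comm _ h, ← mul_assoc, h6, one_mul]
        exact P.inv_mem x.1.2
      · rintro ⟨y, ⟨x, hx⟩⟩ ⟨y', ⟨x', hx'⟩⟩ hh
        have h6 : x * z y = x' * z y' := congrArg Subtype.val hh
        have h7 := (hmD _).1 hx
        have h8 := (hmD _).1 hx'
        rw [hφ', inv_mul_eq_one] at h7 h8
        have h9 := congrArg φ h6
        rw [map_mul, map_mul, hz, hz, h7, h8] at h9
        have h10 : y = y' := Subtype.ext (mul_left_cancel h9)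
        subst h10
        exact Prod.ext rfl (Subtype.ext (mul_right_cancel h6))
      · rintro ⟨x, hx⟩
        rw [hmD', hφ'] at hx
        refine ⟨(⟨((φ x)⁻¹ * h)⁻¹, P.inv_mem hx⟩, ⟨x * (z ⟨((φ x)⁻¹ * h)⁻¹, P.inv_mem hx⟩)⁻¹, ?_⟩), ?_⟩
        · rw [hmD, hφ', map_mul, map_inv, hz]
          simp
        · apply Subtype.ext
          simp
    rw [h5]
    push_cast
    field_simp

end B1

end Pool.Agent.RS2
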