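import Pool.Agent.Lib_helper35.RS2.P_A3b
import Pool.Agent.Lib_helper35.RS2.P_A7
import Pool.Agent.Lib_helper35.RS2.P_A6
import Pool.Agent.Lib_helper35.RS2.P_B2
import Pool.Agent.Lib_helper35.RS2.Defs2

/-!
# RS2, block B3: the L-function of the new part

Cites the wanted statements `artL_zst`, `artL_ab`, `artL_add` (Art2) and `indF_hlm` (WEul2).
-/

namespace Pool.Agent.RS2

set_option linter.unusedSectionVars false

open Pool.Agent.RSK
open NumberField IsDedekindDomain Filter Topology Complex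
open scoped Pointwise

section HLM

variable {F₀ F L L' H : Type} [Field F₀] [NumberField F₀] [Field F] [NumberField F] [Field L]
  [NumberField L] [Field L'] [NumberField L'] [Field H] [NumberField H] [Algebra F₀ F]
  [Algebra F₀ L] [Algebra F₀ L'] [Algebra F₀ H] [Algebra F H] [Algebra L H] [Algebra L' H]
  [Algebra L' L] [IsScalarTower F₀ F H] [IsScalarTower F₀ L H] [IsScalarTower F₀ L' H]
  [IsScalarTower L' L H] [IsScalarTower F₀ L' L] [IsGalois F₀ H] [IsGalois F₀ F] [IsGalois F H]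
  [IsGalois L H] [IsGalois L' H] {G : Type} [CommGroup G] [Fintype G] {P : Subgroup G} {p j : ℕ}
  {ι : G ≃* (H ≃ₐ[F] H)} {S₀ T₀ : Finset (HeightOneSpectrum (𝓞 F₀))} {r : ℕ}
  {w : Fin r → Pl H} {fr : HeightOneSpectrum (𝓞 F) → G}

/-- block B3 -/
theorem lst_L2 (h : Hlm F₀ F L L' H ι P p j) (hST : Disjoint S₀ T₀)
    (hunr : ∀ W : HeightOneSpectrum (𝓞 H), W.under (𝓞 F₀) ∉ S₀ →
      Algebra.IsUnramifiedAt (𝓞 F₀) W.asIdeal)
    (hfr : ∀ v, v ∉ ovr F S₀ → IsFr v (ι (fr v))) {χ : G →* ℂˣ} (hχ : Fth P χ) {s : ℂ}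
    (hs : 1 < s.re) :
    LST (ovr F S₀) (ovr F T₀) fr χ s * zST (ovr L' S₀) (ovr L' T₀) s =
      zST (ovr L S₀) (ovr L T₀) s := by
  obtain ⟨φ, hφ⟩ := frSys_exists (H := H) S₀
  rw [← artL_zst (K := L) hφ hST hunr hs, ← artL_zst (K := L') hφ hST hunr hs,
    ← artL_ab hφ hST hunr ι fr hfr χ hs, indF_hlm h hχ, artL_add _ _ hs, mul_comm]

end HLM

end Pool.Agent.RS2
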