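import Pool.Agent.Lib_helper35.RS2.ArtD
import Pool.Agent.Lib_helper35.RS2.Defs2

/-!
Block B5: induced characters in the abelian case.
-/

namespace Pool.Agent.RS2

set_option linter.unusedSectionVars false

open Pool.Agent.RSK
open NumberField IsDedekindDomain Filter Topology Complex
open scoped Pointwise

section b5aux

variable {G : Type} [CommGroup G] [Finite G] {P : Subgroup G}

theorem b5_finite : Finite (G →* ℂˣ) := by
  apply Nat.finite_of_card_ne_zero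
  rw [CommGroup.card_monoidHom_of_hasEnoughRootsOfUnity G ℂ]
  exact Nat.card_pos.ne'

theorem b5_zero {a : G} (ha : a ∉ P) (ψ : P →* ℂˣ) :
    ∑ᶠ χ : {χ : G →* ℂˣ // χ.comp P.subtype = ψ}, ((χ.1 a : ℂˣ) : ℂ) = 0 := by
  obtain ⟨η, hη, hηa⟩ : ∃ η : G →* ℂˣ, (∀ y ∈ P, η y = 1) ∧ η a ≠ 1 := by
    by_contra hcon
    push Not at hcon
    exact ha ((CommGroup.forall_monoidHom_apply_eq_one_iff ℂ P a).1 hcon)
  have hη' : η.comp P.subtype = 1 := by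
    ext y
    rw [MonoidHom.comp_apply]
    exact congrArg _ (hη y y.2)
  let e : {χ : G →* ℂˣ // χ.comp P.subtype = ψ} ≃ {χ : G →* ℂˣ // χ.comp P.subtype = ψ} :=
    { toFun := fun χ => ⟨η * χ.1, by rw [MonoidHom.mul_comp, hη', χ.2, one_mul]⟩
      invFun := fun χ => ⟨η⁻¹ * χ.1, by
        rw [MonoidHom.mul_comp, χ.2, MonoidHom.inv_comp, hη', inv_one, one_mul]⟩
      left_inv := fun χ => Subtype.ext (inv_mul_cancel_left η χ.1)
      right_inv := fun χ => Subtype.ext (mul_inv_cancel_left η χ.1) }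
  have := b5_finite (G := G)
  have h1 := finsum_comp_equiv e (f := fun χ => ((χ.1 a : ℂˣ) : ℂ))
  have h2 : ∀ χ : {χ : G →* ℂˣ // χ.comp P.subtype = ψ},
      (((e χ).1 a : ℂˣ) : ℂ) = ((η a : ℂˣ) : ℂ) * ((χ.1 a : ℂˣ) : ℂ) := fun χ => by
    show (((η * χ.1) a : ℂˣ) : ℂ) = _
    rw [MonoidHom.mul_apply, Units.val_mul]
  rw [finsum_congr h2, ← mul_finsum] at h1
  have h3 : (((η a : ℂˣ) : ℂ) - 1) *
      ∑ᶠ χ : {χ : G →* ℂˣ // χ.comp P.subtype = ψ}, ((χ.1 a : ℂˣ) : ℂ) = 0 := by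
    rw [sub_mul, one_mul, h1, sub_self]
  refine (mul_eq_zero.1 h3).resolve_left ?_
  intro h4
  apply hηa
  apply Units.ext
  rw [Units.val_one]
  exact sub_eq_zero.1 h4

theorem b5_card (ψ : P →* ℂˣ) :
    Nat.card {χ : G →* ℂˣ // χ.comp P.subtype = ψ} = Nat.card (G ⧸ P) := by
  obtain ⟨χ₀, h₀⟩ := MonoidHom.domRestrict_surjective ℂ P ψ
  have h₀' : χ₀.comp P.subtype = ψ := h₀
  rw [← CommGroup.card_domRestrictHom_ker ℂ P]
  have hk : ∀ χ : G →* ℂˣ, χ ∈ (MonoidHom.domRestrictHom P ℂˣ).ker ↔ χ.comp P.subtype = 1 :=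
    fun χ => Iff.rfl
  exact Nat.card_congr
    { toFun := fun χ => ⟨χ.1 * χ₀⁻¹, (hk _).2 (by
        rw [MonoidHom.mul_comp, χ.2, MonoidHom.inv_comp, h₀', mul_inv_cancel])⟩
      invFun := fun χ => ⟨χ.1 * χ₀, by
        rw [MonoidHom.mul_comp, (hk _).1 χ.2, h₀', one_mul]⟩
      left_inv := fun χ => Subtype.ext (inv_mul_cancel_right χ.1 χ₀)
      right_inv := fun χ => Subtype.ext (mul_inv_cancel_right χ.1 χ₀) }

theorem b5_const {A : Type} [Finite A] (c : ℂ) : ∑ᶠ _ : A, c = Nat.card A * c := by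
  have := Fintype.ofFinite A
  rw [finsum_eq_sum_of_fintype, Finset.sum_const, Finset.card_univ, nsmul_eq_mul,
    Nat.card_eq_fintype_card]

theorem b5_mem {a : G} (ha : a ∈ P) (ψ : P →* ℂˣ) :
    ∑ᶠ χ : {χ : G →* ℂˣ // χ.comp P.subtype = ψ}, ((χ.1 a : ℂˣ) : ℂ) =
      Nat.card (G ⧸ P) * ((ψ ⟨a, ha⟩ : ℂˣ) : ℂ) := by
  have := b5_finite (G := G)
  have h2 : ∀ χ : {χ : G →* ℂˣ // χ.comp P.subtype = ψ},
      ((χ.1 a : ℂˣ) : ℂ) = ((ψ ⟨a, ha⟩ : ℂˣ) : ℂ) := fun χ => by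
    have h3 : (χ.1.comp P.subtype) ⟨a, ha⟩ = ψ ⟨a, ha⟩ := by rw [χ.2]
    rw [← h3]
    rfl
  rw [finsum_congr h2, b5_const, b5_card]

end b5aux

section b5gal

variable {F K H : Type} [Field F] [Field K] [Field H] [Algebra F K] [Algebra F H] [Algebra K H]
  [IsScalarTower F K H] [Finite (H ≃ₐ[F] H)]

theorem b5_indF (hab : ∀ γ g : H ≃ₐ[F] H, γ⁻¹ * g * γ = g) (ψ : (H ≃ₐ[K] H) →* ℂˣ)
    (g : H ≃ₐ[F] H) :
    indF F ψ g = (Nat.card (H ≃ₐ[K] H) : ℂ)⁻¹ * (Nat.card (H ≃ₐ[F] H) *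
      ∑ᶠ σ : {σ : H ≃ₐ[K] H // σ.restrictScalars F = g}, ((ψ σ.1 : ℂˣ) : ℂ)) := by
  unfold indF
  congr 1
  have h1 : ∀ γ : H ≃ₐ[F] H,
      ∑ᶠ σ : {σ : H ≃ₐ[K] H // σ.restrictScalars F = γ⁻¹ * g * γ}, ((ψ σ.1 : ℂˣ) : ℂ) =
      ∑ᶠ σ : {σ : H ≃ₐ[K] H // σ.restrictScalars F = g}, ((ψ σ.1 : ℂˣ) : ℂ) := fun γ => by
    rw [hab]
  rw [finsum_congr h1, b5_const]

theorem b5_one (ψ : (H ≃ₐ[K] H) →* ℂˣ) {g : H ≃ₐ[F] H} (σ₀ : H ≃ₐ[K] H)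
    (h : σ₀.restrictScalars F = g) :
    ∑ᶠ σ : {σ : H ≃ₐ[K] H // σ.restrictScalars F = g}, ((ψ σ.1 : ℂˣ) : ℂ) =
      ((ψ σ₀ : ℂˣ) : ℂ) := by
  have huniq : ∀ σ : {σ : H ≃ₐ[K] H // σ.restrictScalars F = g}, σ = ⟨σ₀, h⟩ := fun σ => by
    apply Subtype.ext
    have h1 : σ.1.restrictScalars F = σ₀.restrictScalars F := σ.2.trans h.symm
    ext x
    have h2 := congrArg (fun τ : H ≃ₐ[F] H => τ x) h1
    exact h2
  have : Unique {σ : H ≃ₐ[K] H // σ.restrictScalars F = g} := ⟨⟨⟨σ₀, h⟩⟩, huniq⟩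
  rw [finsum_unique, huniq default]

theorem b5_none (ψ : (H ≃ₐ[K] H) →* ℂˣ) {g : H ≃ₐ[F] H}
    (h : ∀ σ₀ : H ≃ₐ[K] H, σ₀.restrictScalars F ≠ g) :
    ∑ᶠ σ : {σ : H ≃ₐ[K] H // σ.restrictScalars F = g}, ((ψ σ.1 : ℂˣ) : ℂ) = 0 := by
  have : IsEmpty {σ : H ≃ₐ[K] H // σ.restrictScalars F = g} := ⟨fun σ => h σ.1 σ.2⟩
  exact finsum_of_isEmpty _

end b5gal

section EE

variable {F E H : Type} [Field F] [NumberField F] [Field E] [NumberField E] [Field H]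
  [NumberField H] [Algebra F E] [Algebra F H] [Algebra E H] [IsScalarTower F E H] [IsGalois F H]
  [IsGalois E H] {G : Type} [CommGroup G] [Fintype G] {P : Subgroup G} {p j : ℕ}
  {ι : G ≃* (H ≃ₐ[F] H)} {ιE : P ≃* (H ≃ₐ[E] H)} {S T : Finset (HeightOneSpectrum (𝓞 F))} {r : ℕ}
  {w : Fin r → Pl H} {fr : HeightOneSpectrum (𝓞 F) → G} {frE : HeightOneSpectrum (𝓞 E) → P}

omit [NumberField F] [NumberField H] [IsGalois F H] [Fintype G] in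
theorem b5_ab (ι : G ≃* (H ≃ₐ[F] H)) (γ g : H ≃ₐ[F] H) : γ⁻¹ * g * γ = g := by
  obtain ⟨a, rfl⟩ := ι.surjective γ
  obtain ⟨b, rfl⟩ := ι.surjective g
  rw [← map_inv, ← map_mul, ← map_mul, mul_comm a⁻¹ b, inv_mul_cancel_right]

/-- block B5 -/
theorem indF_lay (hL : Lay ι P ιE) (ψ : P →* ℂˣ) (g : H ≃ₐ[F] H) :
    indF F (ψ.comp ιE.symm.toMonoidHom) g =
      ∑ᶠ χ : {χ : G →* ℂˣ // χ.comp P.subtype = ψ}, ((χ.1 (ι.symm g) : ℂˣ) : ℂ) := by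
  have hfin : Finite (H ≃ₐ[F] H) := Finite.of_equiv G ι.toEquiv
  rw [b5_indF (b5_ab ι)]
  have hcF : Nat.card (H ≃ₐ[F] H) = Nat.card G := (Nat.card_congr ι.toEquiv).symm
  have hcE : Nat.card (H ≃ₐ[E] H) = Nat.card P := (Nat.card_congr ιE.toEquiv).symm
  by_cases ha : ι.symm g ∈ P
  · have h0 : (ιE ⟨ι.symm g, ha⟩).restrictScalars F = g := by
      ext x
      show ιE ⟨ι.symm g, ha⟩ x = g x
      rw [hL.compat]
      show ι (ι.symm g) x = g x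
      rw [MulEquiv.apply_symm_apply]
    rw [b5_one _ _ h0, b5_mem ha, hcF, hcE, Subgroup.card_eq_card_quotient_mul_card_subgroup P]
    have h1 : (Nat.card P : ℂ) ≠ 0 := by
      exact_mod_cast Nat.card_pos.ne'
    have h2 : (ψ.comp ιE.symm.toMonoidHom) (ιE ⟨ι.symm g, ha⟩) = ψ ⟨ι.symm g, ha⟩ := by
      show ψ (ιE.symm (ιE ⟨ι.symm g, ha⟩)) = _
      rw [MulEquiv.symm_apply_apply]
    rw [h2]
    push_cast
    field_simp
  · have h0 : ∀ σ₀ : H ≃ₐ[E] H, σ₀.restrictScalars F ≠ g := by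
      intro σ₀ h
      apply ha
      obtain ⟨b, rfl⟩ := ιE.surjective σ₀
      have h1 : ι (b : G) = g := by
        rw [← h]
        ext x
        exact (hL.compat b x).symm
      rw [← h1, MulEquiv.symm_apply_apply]
      exact b.2
    rw [b5_none _ h0, b5_zero ha, mul_zero, mul_zero]

/-- block B5 -/
theorem indF_self (χ : G →* ℂˣ) (g : H ≃ₐ[F] H) :
    indF F (χ.comp ι.symm.toMonoidHom) g = ((χ (ι.symm g) : ℂˣ) : ℂ) := by
  have hfin : Finite (H ≃ₐ[F] H) := Finite.of_equiv G ι.toEquiv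
  have h0 : g.restrictScalars F = g := by
    ext x
    rfl
  rw [b5_indF (b5_ab ι), b5_one _ g h0]
  have h1 : (Nat.card (H ≃ₐ[F] H) : ℂ) ≠ 0 := by
    exact_mod_cast Nat.card_pos.ne'
  rw [inv_mul_cancel_left₀ h1]
  rfl

end EE

end Pool.Agent.RS2
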