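import Pool.Agent.Lib_helper35.RS2.ArtD
import Pool.Agent.Lib_helper17.RS.P_EF
import Pool.Agent.Lib_helper35.RS2.P_A7
import Pool.Agent.Lib_helper35.RS2.P_A6
import Pool.Agent.Lib_helper35.RS2.P_B4
import Pool.Agent.Lib_helper35.RS2.P_A3b
import Pool.Agent.Lib_helper35.RS2.P_B5
import Pool.Agent.Lib_helper35.RS2.Defs2

/-! RS2 block B6 (lst_EF, zst_new). Uses frSys_exists, artL_sum, artL_ab (Art2) and frE_exists,
indF_lay, indF_self (B4, B5): import the modules which prove them. -/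

namespace Pool.Agent.RS2

set_option linter.unusedSectionVars false

open Pool.Agent.RSK
open NumberField IsDedekindDomain Filter Topology Complex
open scoped Pointwise

section EE

variable {F E H : Type} [Field F] [NumberField F] [Field E] [NumberField E] [Field H]
  [NumberField H] [Algebra F E] [Algebra F H] [Algebra E H] [IsScalarTower F E H] [IsGalois F H]
  [IsGalois E H] {G : Type} [CommGroup G] [Fintype G] {P : Subgroup G} {p j : ℕ}
  {ι : G ≃* (H ≃ₐ[F] H)} {ιE : P ≃* (H ≃ₐ[E] H)} {S T : Finset (HeightOneSpectrum (𝓞 F))} {r : ℕ}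
  {w : Fin r → Pl H} {fr : HeightOneSpectrum (𝓞 F) → G} {frE : HeightOneSpectrum (𝓞 E) → P}

/-! block B6 -/

theorem b6_ovr_self (S : Finset (HeightOneSpectrum (𝓞 F))) : ovr F S = S := by
  ext w
  rw [mem_ovr]
  suffices h : HeightOneSpectrum.under (𝓞 F) w = w by
    exact ⟨fun h1 => by rw [← h]; exact h1, fun h1 => by rw [← h] at h1; exact h1⟩
  ext x
  rfl

/-- block B6 -/
theorem lst_EF (hL : Lay ι P ιE) (hST : Disjoint S T)
    (hunr : ∀ W : HeightOneSpectrum (𝓞 H), W.under (𝓞 F) ∉ S →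
      Algebra.IsUnramifiedAt (𝓞 F) W.asIdeal)
    (hfr : ∀ v, v ∉ S → IsFr v (ι (fr v))) (hfrE : ∀ u, u ∉ ovr E S → IsFr u (ιE (frE u)))
    (ψ : P →* ℂˣ) {s : ℂ} (hs : 1 < s.re) :
    LST (ovr E S) (ovr E T) frE ψ s =
      ∏ᶠ χ : {χ : G →* ℂˣ // χ.comp P.subtype = ψ}, LST S T fr χ.1 s := by
  classical
  have hfin : Finite (G →* ℂˣ) := ef_finite G
  have hft : Fintype {χ : G →* ℂˣ // χ.comp P.subtype = ψ} := Fintype.ofFinite _
  obtain ⟨φ, hφ⟩ := frSys_exists (H := H) S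
  have h1 := artL_ab (K := E) (T₀ := T) hφ hST hunr ιE frE hfrE ψ hs
  rw [← h1, finprod_eq_prod_of_fintype]
  have h2 : indF F (ψ.comp ιE.symm.toMonoidHom) = fun g : H ≃ₐ[F] H =>
      ∑ χ ∈ (Finset.univ : Finset {χ : G →* ℂˣ // χ.comp P.subtype = ψ}),
        ((1 : ℤ) : ℂ) * indF F (χ.1.comp ι.symm.toMonoidHom) g := by
    funext g
    rw [indF_lay hL ψ g, finsum_eq_sum_of_fintype]
    refine Finset.sum_congr rfl fun χ _ => ?_
    rw [indF_self, Int.cast_one, one_mul]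
  rw [h2, artL_sum (S₀ := S) (T₀ := T) (φ := φ) Finset.univ (fun _ => (1 : ℤ))
    (fun χ : {χ : G →* ℂˣ // χ.comp P.subtype = ψ} => indF F (χ.1.comp ι.symm.toMonoidHom)) hs]
  refine Finset.prod_congr rfl fun χ _ => ?_
  rw [zpow_one]
  have h3 := artL_ab (K := F) (T₀ := T) hφ hST hunr ι fr
    (fun v hv => hfr v (by rwa [b6_ovr_self] at hv)) χ.1 hs
  rw [h3, b6_ovr_self, b6_ovr_self]

/-- block B6 -/
theorem zst_new (hL : Lay ι P ιE) (hST : Disjoint S T)
    (hunr : ∀ W : HeightOneSpectrum (𝓞 H), W.under (𝓞 F) ∉ S →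
      Algebra.IsUnramifiedAt (𝓞 F) W.asIdeal)
    (hfr : ∀ v, v ∉ S → IsFr v (ι (fr v))) {s : ℂ} (hs : 1 < s.re) :
    zST (ovr H S) (ovr H T) s =
      zST (ovr E S) (ovr E T) s * pF P (fun χ => LST S T fr χ s) := by
  classical
  have hfin : Finite (G →* ℂˣ) := ef_finite G
  have hft : Fintype (G →* ℂˣ) := Fintype.ofFinite _
  -- the field `E`
  obtain ⟨frE, hfrE⟩ := frE_exists hL hunr hfr
  have hE := lst_EF (frE := frE) hL hST hunr hfr (fun u hu => (hfrE u hu).1) 1 hs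
  rw [lst_one] at hE
  -- the field `H`
  let ιH : (⊥ : Subgroup G) ≃* (H ≃ₐ[H] H) :=
    { toFun := fun _ => 1
      invFun := fun _ => 1
      left_inv := fun x => Subsingleton.elim _ _
      right_inv := fun x => by
        ext y
        have := x.commutes y
        simpa using this.symm
      map_mul' := fun _ _ => by simp }
  have hLH : Lay ι (⊥ : Subgroup G) ιH := ⟨fun h x => by
    have hh : (h : G) = 1 := Subgroup.mem_bot.1 h.2
    rw [hh, map_one]
    rfl⟩
  obtain ⟨frH, hfrH⟩ := frE_exists (E := H) (ιE := ιH) hLH hunr hfr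
  have hH := lst_EF (E := H) (ιE := ιH) (frE := frH) hLH hST hunr hfr
    (fun u hu => (hfrH u hu).1) 1 hs
  rw [lst_one] at hH
  rw [hE, hH]
  have key : (∏ᶠ χ : {χ : G →* ℂˣ // χ.comp P.subtype = 1}, LST S T fr χ.1 s) *
      (∏ᶠ χ : {χ : G →* ℂˣ // ¬ χ.comp P.subtype = 1}, LST S T fr χ.1 s) =
        ∏ χ : G →* ℂˣ, LST S T fr χ s := by
    rw [finprod_eq_prod_of_fintype, finprod_eq_prod_of_fintype]
    exact Fintype.prod_subtype_mul_prod_subtype (fun χ : G →* ℂˣ => χ.comp P.subtype = 1)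
      (fun χ => LST S T fr χ s)
  have ft1 : Fintype {χ : G →* ℂˣ // χ.comp (⊥ : Subgroup G).subtype = 1} := Fintype.ofFinite _
  have ft2 : Fintype {χ : G →* ℂˣ // χ.comp P.subtype = 1} := Fintype.ofFinite _
  have ft3 : Fintype {χ : G →* ℂˣ // ¬ χ.comp P.subtype = 1} := Fintype.ofFinite _
  have e1 : ∏ᶠ χ : {χ : G →* ℂˣ // χ.comp (⊥ : Subgroup G).subtype = 1}, LST S T fr χ.1 s =
      ∏ χ : G →* ℂˣ, LST S T fr χ s := by
    rw [← finprod_eq_prod_of_fintype]
    have hall : ∀ χ : G →* ℂˣ, χ.comp (⊥ : Subgroup G).subtype = 1 := by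
      intro χ
      ext x
      have hx : (x : G) = 1 := Subgroup.mem_bot.1 x.2
      simp [hx]
    exact finprod_eq_of_bijective (Subtype.val)
      ⟨Subtype.val_injective, fun χ => ⟨⟨χ, hall χ⟩, rfl⟩⟩ (fun _ => rfl)
  have e2 : pF P (fun χ => LST S T fr χ s) =
      ∏ χ : {χ : G →* ℂˣ // ¬ χ.comp P.subtype = 1}, LST S T fr χ.1 s := by
    unfold pF
    rw [← finprod_eq_prod_of_fintype]
    have hiff : ∀ χ : G →* ℂˣ, Fth P χ ↔ ¬ χ.comp P.subtype = 1 := by
      intro χ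
      unfold Fth
      constructor
      · rintro ⟨h, hP, hχ⟩ h0
        apply hχ
        have := DFunLike.congr_fun h0 (⟨h, hP⟩ : P)
        simpa using this
      · intro h0
        by_contra h1
        push Not at h1
        apply h0
        ext x
        simp [h1 x.1 x.2]
    exact finprod_eq_of_bijective (Equiv.subtypeEquivRight hiff)
      (Equiv.bijective _) (fun _ => rfl)
  rw [e1, ← key, e2]
  exact congrArg (fun z => _ * z) (finprod_eq_prod_of_fintype _)

end EE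

end Pool.Agent.RS2
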