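import Pool.Agent.Lib_helper35.RS2.ArtD
import Pool.Agent.Lib_helper35.RS2.K_PH
import Pool.Agent.Lib_helper17.RS.P_TW
import Pool.Agent.Lib_helper35.RS2.P_B7
import Pool.Agent.Lib_helper35.RS2.P_B4
import Pool.Agent.Lib_helper35.RS2.Defs2

/-! RS2 block B8 (rank_E). Uses frE_exists (B4) and data_E (B7): import the modules which prove them. -/

namespace Pool.Agent.RS2

set_option linter.unusedSectionVars false

open Pool.Agent.RSK
open NumberField IsDedekindDomain Filter Topology Complex
open scoped Pointwise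

section EE

variable {F E H : Type} [Field F] [NumberField F] [Field E] [NumberField E] [Field H]
  [NumberField H] [Algebra F E] [Algebra F H] [Algebra E H] [IsScalarTower F E H] [IsGalois F H]
  [IsGalois E H] {G : Type} [CommGroup G] [Fintype G] {P : Subgroup G} {p j : ℕ}
  {ι : G ≃* (H ≃ₐ[F] H)} {ιE : P ≃* (H ≃ₐ[E] H)} {S T : Finset (HeightOneSpectrum (𝓞 F))} {r : ℕ}
  {w : Fin r → Pl H} {fr : HeightOneSpectrum (𝓞 F) → G}

/-- block B8: the ranks -/
theorem rank_E (hC : CycP p j P) (hL : Lay ι P ιE) (hD : DataW ι S T r w fr) :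
    Fintype.card (PS (ovr H S)) = Fintype.card (PS (ovr E S)) + r * (p ^ (j - 1) * (p - 1)) := by
  classical
  obtain ⟨frE, hfrE⟩ := frE_exists hL hD.unram hD.frob
  have ht : Trv P (fun a : G ⧸ P => a.out) := by
    have h : (fun a : G ⧸ P => (QuotientGroup.mk a.out : G ⧸ P)) = id := by
      funext a
      exact QuotientGroup.out_eq' a
    show Function.Bijective (fun a : G ⧸ P => (QuotientGroup.mk a.out : G ⧸ P))
    rw [h]
    exact Function.bijective_id
  have : Fintype (G ⧸ P) := Fintype.ofFinite _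
  let e : Fin (Fintype.card (Fin r × (G ⧸ P))) ≃ Fin r × (G ⧸ P) := (Fintype.equivFin _).symm
  have hDE := data_E hC hL hD (fun u hu => (hfrE u hu).1) (fun a : G ⧸ P => a.out) ht e
  obtain ⟨m, eH, eF, -⟩ := places_HF (F := E) (H := H) hC.prime hC.cardP hDE
  have h1 := Fintype.card_congr eH
  have h2 := Fintype.card_congr eF
  have hPc : Fintype.card P = p := by rw [← Nat.card_eq_fintype_card, hC.cardP]
  have hidx : Fintype.card (G ⧸ P) = p ^ (j - 1) := by
    have h3 := Subgroup.card_eq_card_quotient_mul_card_subgroup P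
    rw [hC.card, hC.cardP, Nat.card_eq_fintype_card] at h3
    obtain ⟨q, hq⟩ : ∃ q, j = q + 1 := ⟨j - 1, by have := hC.pos; omega⟩
    subst hq
    rw [pow_succ] at h3
    rw [Nat.add_sub_cancel]
    exact (Nat.eq_of_mul_eq_mul_right hC.prime.pos h3).symm
  rw [Fintype.card_sum, Fintype.card_prod, Fintype.card_fin, Fintype.card_fin,
    Fintype.card_prod, Fintype.card_fin, hidx, hPc] at h1
  rw [Fintype.card_sum, Fintype.card_fin, Fintype.card_fin, Fintype.card_prod, Fintype.card_fin,
    hidx] at h2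
  have h3 : Fintype.card (PS (ovr H (ovr E S))) = Fintype.card (PS (ovr H S)) := by
    rw [ovr_ovr]
  rw [h3] at h1
  rw [← h1, ← h2]
  obtain ⟨q, hq⟩ : ∃ q, p = q + 1 := ⟨p - 1, by have := hC.prime.pos; omega⟩
  rw [show r * p ^ (j - 1) * p = r * p ^ (j - 1) + r * (p ^ (j - 1) * (p - 1)) by
    subst hq
    rw [Nat.add_sub_cancel]
    ring]
  omega

end EE

end Pool.Agent.RS2
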