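import Pool.Agent.Lib_helper35.RS2.ArtD
import Pool.Agent.Lib_helper35.RS2.K_UR
import Pool.Agent.Lib_helper17.RS.P_LL
import Pool.Agent.Lib_helper35.RS2.P_LY
import Pool.Agent.Lib_helper35.RS2.P_B3
import Pool.Agent.Lib_helper35.RS2.P_B8
import Pool.Agent.Lib_helper35.RS2.P_B6
import Pool.Agent.Lib_helper35.RS2.Defs2

/-! RS2 block C2 (lead_L2). Uses lay_exists (LY), rank_E (B8), lst_L2 (B3), zst_new (B6): import the
modules which prove them. -/

namespace Pool.Agent.RS2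

set_option linter.unusedSectionVars false

open Pool.Agent.RSK
open NumberField IsDedekindDomain Filter Topology Complex
open scoped Pointwise

/-- the number of extensions of a character -/
theorem c2_card {G : Type} [CommGroup G] [Finite G] (P : Subgroup G) (ψ : P →* ℂˣ) :
    Nat.card {χ : G →* ℂˣ // χ.comp P.subtype = ψ} = Nat.card (G ⧸ P) := by
  have hs : Function.Surjective (MonoidHom.domRestrictHom P ℂˣ) :=
    MonoidHom.domRestrict_surjective ℂ P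
  obtain ⟨χ₀, h₀⟩ := hs ψ
  have h₀' : χ₀.comp P.subtype = ψ := h₀
  rw [← CommGroup.card_domRestrictHom_ker ℂ P]
  refine Nat.card_congr
    { toFun := fun χ => ⟨χ.1 * χ₀⁻¹, ?_⟩
      invFun := fun χ => ⟨χ.1 * χ₀, ?_⟩
      left_inv := fun χ => Subtype.ext (by simp)
      right_inv := fun χ => Subtype.ext (mul_inv_cancel_right _ _) }
  · rw [MonoidHom.mem_ker, map_mul, map_inv, h₀]
    have : MonoidHom.domRestrictHom P ℂˣ χ.1 = ψ := χ.2
    rw [this, mul_inv_cancel]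
  · have h1 : MonoidHom.domRestrictHom P ℂˣ (χ.1 * χ₀) = ψ := by
      rw [map_mul, h₀, MonoidHom.mem_ker.1 χ.2, one_mul]
    exact h1

theorem c2_fth {G : Type} [CommGroup G] (P : Subgroup G) (χ : G →* ℂˣ) :
    Fth P χ ↔ ¬ χ.comp P.subtype = 1 := by
  constructor
  · rintro ⟨h, hh, h1⟩ h2
    apply h1
    have := DFunLike.congr_fun h2 ⟨h, hh⟩
    exact this
  · intro h
    by_contra h2
    apply h
    ext x
    by_contra h3
    apply h2
    refine ⟨x, x.2, fun h4 => h3 ?_⟩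
    show ((χ (x : G) : ℂˣ) : ℂ) = ((1 : ℂˣ) : ℂ)
    rw [h4]

/-- the number of characters which are nontrivial on `P` -/
theorem c2_card_fth {G : Type} [CommGroup G] [Finite G] {P : Subgroup G} {p j : ℕ}
    (hC : CycP p j P) : Nat.card {χ : G →* ℂˣ // Fth P χ} = p ^ (j - 1) * (p - 1) := by
  classical
  have : Fintype G := Fintype.ofFinite G
  have : Finite (G →* ℂˣ) := dual_finite
  have h1 : Nat.card {χ : G →* ℂˣ // χ.comp P.subtype = 1} +
      Nat.card {χ : G →* ℂˣ // ¬ χ.comp P.subtype = 1} = Nat.card (G →* ℂˣ) := by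
    rw [← Nat.card_sum]
    exact Nat.card_congr (Equiv.sumCompl _)
  have h2 : Nat.card {χ : G →* ℂˣ // Fth P χ} =
      Nat.card {χ : G →* ℂˣ // ¬ χ.comp P.subtype = 1} :=
    Nat.card_congr (Equiv.subtypeEquivRight fun χ => c2_fth P χ)
  rw [c2_card, px1_card, hC.card] at h1
  have h3 := Subgroup.card_eq_card_quotient_mul_card_subgroup P
  obtain ⟨q, hq⟩ : ∃ q, j = q + 1 := ⟨j - 1, by have := hC.pos; omega⟩
  subst hq
  rw [hC.card, hC.cardP, pow_succ] at h3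
  have h4 : Nat.card (G ⧸ P) = p ^ q := (Nat.eq_of_mul_eq_mul_right hC.prime.pos h3).symm
  rw [h2, Nat.add_sub_cancel]
  rw [h4] at h1
  obtain ⟨t, ht⟩ : ∃ t, p = t + 1 := ⟨p - 1, by have := hC.prime.pos; omega⟩
  subst ht
  rw [Nat.add_sub_cancel]
  rw [pow_succ, mul_add, mul_one] at h1
  omega

theorem c2_const {G : Type} [CommGroup G] [Finite G] {P : Subgroup G} {p j : ℕ}
    (hC : CycP p j P) (z : ℂ) : pF P (fun _ : G →* ℂˣ => z) = z ^ (p ^ (j - 1) * (p - 1)) := by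
  classical
  have : Fintype G := Fintype.ofFinite G
  have : Finite (G →* ℂˣ) := dual_finite
  have : Fintype {χ : G →* ℂˣ // Fth P χ} := Fintype.ofFinite _
  unfold pF
  rw [finprod_eq_prod_of_fintype, Finset.prod_const, Finset.card_univ,
    ← Nat.card_eq_fintype_card, c2_card_fth hC]

section HLM2

variable {F₀ F L L' H : Type} [Field F₀] [NumberField F₀] [Field F] [NumberField F] [Field L]
  [NumberField L] [Field L'] [NumberField L'] [Field H] [NumberField H] [Algebra F₀ F]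
  [Algebra F₀ L] [Algebra F₀ L'] [Algebra F₀ H] [Algebra F H] [Algebra L H] [Algebra L' H]
  [Algebra L' L] [IsScalarTower F₀ F H] [IsScalarTower F₀ L H] [IsScalarTower F₀ L' H]
  [IsScalarTower L' L H] [IsScalarTower F₀ L' L] [IsGalois F₀ H] [IsGalois F₀ F] [IsGalois F H]
  [IsGalois L H] [IsGalois L' H] {G : Type} [CommGroup G] [Fintype G] {P : Subgroup G} {p j : ℕ}
  {ι : G ≃* (H ≃ₐ[F] H)} {S₀ T₀ : Finset (HeightOneSpectrum (𝓞 F₀))} {r : ℕ}
  {w : Fin r → Pl H} {fr : HeightOneSpectrum (𝓞 F) → G}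

/-- block C2: the leading terms -/
theorem lead_L2 (h : Hlm F₀ F L L' H ι P p j) (hST : Disjoint S₀ T₀)
    (hunr : ∀ W : HeightOneSpectrum (𝓞 H), W.under (𝓞 F₀) ∉ S₀ →
      Algebra.IsUnramifiedAt (𝓞 F₀) W.asIdeal)
    (hD : DataW ι (ovr F S₀) (ovr F T₀) r w fr) {n' nL : ℕ}
    (b' : Module.Basis (Fin n') ℤ (Additive (Un (ovr L' S₀) (ovr L' T₀))))
    (bL : Module.Basis (Fin nL) ℤ (Additive (Un (ovr L S₀) (ovr L T₀)))) :
    nL = n' + r ∧ ∃ c₀ : ℝ, c₀ ≠ 0 ∧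
      |c₀| * (hA (ovr L' S₀) (ovr L' T₀) * regS (ovr L' S₀) (bu b')) =
        hA (ovr L S₀) (ovr L T₀) * regS (ovr L S₀) (bu bL) ∧
      LeadF (ovr F S₀) (ovr F T₀) r fr P (fun _ => (c₀ : ℂ)) := by
  classical
  have hC := h.cyc
  obtain ⟨ιE, hE⟩ := lay_exists (ι := ι) P
  obtain ⟨htH, hdH⟩ := tf_H hD
  have htH' := htH
  rw [ovr_ovr, ovr_ovr] at htH'
  have htL' : TFree (ovr L' S₀) (ovr L' T₀) := by
    refine tf_F (H := H) ?_
    rw [ovr_ovr, ovr_ovr]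
    exact htH'
  have htL : TFree (ovr L S₀) (ovr L T₀) := by
    refine tf_F (H := H) ?_
    rw [ovr_ovr, ovr_ovr]
    exact htH'
  have htE : TFree (ovr (Kf ι P) (ovr F S₀)) (ovr (Kf ι P) (ovr F T₀)) := by
    refine tf_F (H := H) ?_
    have e1 : ovr H (ovr (Kf ι P) (ovr F S₀)) = ovr H (ovr F S₀) := ovr_ovr _
    have e2 : ovr H (ovr (Kf ι P) (ovr F T₀)) = ovr H (ovr F T₀) := ovr_ovr _
    rw [e1, e2]
    exact htH
  have hdE : Disjoint (ovr (Kf ι P) (ovr F S₀)) (ovr (Kf ι P) (ovr F T₀)) :=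
    ll_disj (ll_disj (H := F) hST)
  obtain ⟨nE, ⟨bE⟩⟩ := un_exists hdE htE
  obtain ⟨nH, ⟨bH⟩⟩ := un_exists hdH htH
  obtain ⟨hn₀, hr₀, hh₀, Z₀, hZ₀, hZ₀1, hZ₀2⟩ := cnf (ll_disj (H := L') hST) htL' b'
  obtain ⟨hnL, hrL, hhL, ZL, hZL, hZL1, hZL2⟩ := cnf (ll_disj (H := L) hST) htL bL
  obtain ⟨hnE, hrE, hhE, ZE, hZE, hZE1, hZE2⟩ := cnf hdE htE bE
  obtain ⟨hnH, hrH, hhH, ZH, hZH, hZH1, hZH2⟩ := cnf hdH htH bH
  have hn : nH = nE + r * (p ^ (j - 1) * (p - 1)) := by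
    have h1 := rank_E hC hE hD
    omega
  -- the quotient
  have hlst : ∀ χ : G →* ℂˣ, Fth P χ → ∀ s : ℂ, 1 < s.re →
      LST (ovr F S₀) (ovr F T₀) fr χ s = ZL s / Z₀ s := by
    intro χ hχ s hs
    have h1 := lst_L2 h hST hunr hD.frob hχ hs
    have h2 : Z₀ s ≠ 0 := by
      rw [hZ₀1 s hs]
      exact zST_ne_zero _ _ hs
    rw [eq_div_iff h2, hZ₀1 s hs, hZL1 s hs, h1]
  -- nonzero leading terms
  have ne : ∀ {k : Type} [Field k] [NumberField k] (S T : Finset (HeightOneSpectrum (𝓞 k))) (x : ℝ)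
      (n : ℕ), 0 < hA S T → 0 < x →
      ((-1 : ℂ) ^ n * ((hA S T * x : ℝ) : ℂ)) ≠ 0 := by
    intro k _ _ S T x n h1 h2
    refine mul_ne_zero (pow_ne_zero _ (by norm_num)) (Complex.ofReal_ne_zero.2 (by positivity))
  have ne₀ := ne (ovr L' S₀) (ovr L' T₀) _ ((ovr L' T₀).card + 1) hh₀ hr₀
  have neL := ne (ovr L S₀) (ovr L T₀) _ ((ovr L T₀).card + 1) hhL hrL
  have neE := ne (ovr (Kf ι P) (ovr F S₀)) (ovr (Kf ι P) (ovr F T₀)) _
    ((ovr (Kf ι P) (ovr F T₀)).card + 1) hhE hrE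
  have neH := ne (ovr H (ovr F S₀)) (ovr H (ovr F T₀)) _ ((ovr H (ovr F T₀)).card + 1) hhH hrH
  set M : ℕ := p ^ (j - 1) * (p - 1) with hM
  have hM0 : 0 < M := by
    have h1 := hC.prime.one_lt
    exact Nat.mul_pos (pow_pos hC.prime.pos _) (by omega)
  -- the order
  have hprod : ∀ s : ℂ, 1 < s.re → ZH s * (Z₀ s) ^ M = ZE s * (ZL s) ^ M := by
    intro s hs
    have h2 : Z₀ s ≠ 0 := by
      rw [hZ₀1 s hs]
      exact zST_ne_zero _ _ hs
    have h5 := zst_new hE hD.disj hD.unram hD.frob hs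
    have h3 : pF P (fun χ : G →* ℂˣ => LST (ovr F S₀) (ovr F T₀) fr χ s) =
        (ZL s / Z₀ s) ^ M := by
      rw [← c2_const hC]
      unfold pF
      exact finprod_congr fun χ => hlst χ.1 χ.2 s hs
    rw [hZH1 s hs, hZE1 s hs, h5, h3, div_pow, mul_assoc,
      div_mul_cancel₀ _ (pow_ne_zero _ h2)]
  have hev : ∀ᶠ s in 𝓝[≠] (0 : ℂ), ZH s * (Z₀ s) ^ M = ZE s * (ZL s) ^ M :=
    mero_ext (hZH.mul (hZ₀.pow M)) (hZE.mul (hZL.pow M)) hprod 0
  have hr : nL = n' + r := by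
    have h1 := ll_mul hZH2 (ll_pow hZ₀2 M)
    have h2 := ll_mul hZE2 (ll_pow hZL2 M)
    have h3 : (fun s : ℂ => (ZH s * (Z₀ s) ^ M) / s ^ (nH + n' * M)) =ᶠ[𝓝[≠] 0]
        fun s : ℂ => (ZE s * (ZL s) ^ M) / s ^ (nH + n' * M) := by
      filter_upwards [hev] with s hs
      rw [hs]
    have h4 := ll_eq (mul_ne_zero neH (pow_ne_zero _ ne₀)) (mul_ne_zero neE (pow_ne_zero _ neL))
      (h1.congr' h3) h2
    rw [hn] at h4
    have h5 : (n' + r) * M = nL * M := by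
      rw [add_mul]
      omega
    exact (Nat.eq_of_mul_eq_mul_right hM0 h5).symm
  refine ⟨hr, ?_⟩
  -- the constant
  set a₀ : ℝ := (-1) ^ ((ovr L' T₀).card + 1) *
    (hA (ovr L' S₀) (ovr L' T₀) * regS (ovr L' S₀) (bu b')) with ha₀
  set aL : ℝ := (-1) ^ ((ovr L T₀).card + 1) *
    (hA (ovr L S₀) (ovr L T₀) * regS (ovr L S₀) (bu bL)) with haL
  have ha₀' : (a₀ : ℂ) = (-1 : ℂ) ^ ((ovr L' T₀).card + 1) *
      ((hA (ovr L' S₀) (ovr L' T₀) * regS (ovr L' S₀) (bu b') : ℝ) : ℂ) := by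
    rw [ha₀]
    push_cast
    ring
  have haL' : (aL : ℂ) = (-1 : ℂ) ^ ((ovr L T₀).card + 1) *
      ((hA (ovr L S₀) (ovr L T₀) * regS (ovr L S₀) (bu bL) : ℝ) : ℂ) := by
    rw [haL]
    push_cast
    ring
  have ha₀0 : a₀ ≠ 0 := by
    intro h0
    rw [← ha₀', h0] at ne₀
    exact ne₀ (by simp)
  have haL0 : aL ≠ 0 := by
    intro h0
    rw [← haL', h0] at neL
    exact neL (by simp)
  refine ⟨aL / a₀, div_ne_zero haL0 ha₀0, ?_, fun χ hχ => ?_⟩
  · have e1 : |a₀| = hA (ovr L' S₀) (ovr L' T₀) * regS (ovr L' S₀) (bu b') := by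
      rw [ha₀, abs_mul, abs_pow, abs_neg, abs_one, one_pow, one_mul, abs_of_pos (by positivity)]
    have e2 : |aL| = hA (ovr L S₀) (ovr L T₀) * regS (ovr L S₀) (bu bL) := by
      rw [haL, abs_mul, abs_pow, abs_neg, abs_one, one_pow, one_mul, abs_of_pos (by positivity)]
    rw [← e1, ← e2, abs_div, div_mul_cancel₀ _ (abs_ne_zero.2 ha₀0)]
  · refine ⟨fun s => ZL s / Z₀ s, hZL.div hZ₀, fun s hs => (hlst χ hχ s hs).symm, ?_⟩
    rw [← haL'] at hZL2
    rw [← ha₀'] at hZ₀2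
    have h1 := hZL2.div hZ₀2 (Complex.ofReal_ne_zero.2 ha₀0)
    rw [show (((aL / a₀ : ℝ)) : ℂ) = (aL : ℂ) / (a₀ : ℂ) by push_cast; rfl]
    refine h1.congr' ?_
    filter_upwards [self_mem_nhdsWithin] with s hs
    have hs' : s ≠ 0 := hs
    have h6 : s ^ n' ≠ 0 := pow_ne_zero _ hs'
    rw [Pi.div_apply, hr, pow_add, div_div_div_eq, mul_comm (ZL s), mul_comm (s ^ n' * s ^ r),
      div_div, mul_comm (Z₀ s) (s ^ n' * s ^ r), mul_assoc, mul_div_mul_left _ _ h6, mul_comm (s ^ r)]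

end HLM2

end Pool.Agent.RS2
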