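import Pool.Agent.Lib_helper35.RS2.Defs2
import Pool.Agent.Lib_helper17.RS.P_PX1

/-!
# RS2, block RC: determinants over `ℂ[P]`
-/

namespace Pool.Agent.RS2

set_option linter.unusedSectionVars false

open Pool.Agent.RSK
open Complex
open scoped Kronecker

section RES

variable {G : Type} [CommGroup G] [Fintype G] {P : Subgroup G}

/-- the number of extensions of a character -/
theorem rc_card (ψ : P →* ℂˣ) :
    Nat.card {χ : G →* ℂˣ // χ.comp P.subtype = ψ} = Nat.card (G ⧸ P) := by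
  obtain ⟨χ0, h0⟩ := MonoidHom.domRestrict_surjective (M := ℂ) P ψ
  have h0' : ∀ h : P, χ0 (h : G) = ψ h := fun h => by rw [← h0]; rfl
  rw [← CommGroup.card_domRestrictHom_ker (M := ℂ) P]
  refine Nat.card_congr
    { toFun := fun χ => ⟨χ.1 * χ0⁻¹, ?_⟩
      invFun := fun κ => ⟨κ.1 * χ0, ?_⟩
      left_inv := fun χ => Subtype.ext (by
        refine MonoidHom.ext fun g => ?_
        show χ.1 g * (χ0 g)⁻¹ * χ0 g = χ.1 g
        rw [inv_mul_cancel_right])
      right_inv := fun κ => Subtype.ext (by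
        refine MonoidHom.ext fun g => ?_
        show κ.1 g * χ0 g * (χ0 g)⁻¹ = κ.1 g
        rw [mul_inv_cancel_right]) }
  · rw [MonoidHom.mem_ker]
    ext h
    have h1 : χ.1 (h : G) = ψ h := DFunLike.congr_fun χ.2 h
    have h2 : (MonoidHom.domRestrictHom P ℂˣ) (χ.1 * χ0⁻¹) h = 1 := by
      show χ.1 (h : G) * (χ0 (h : G))⁻¹ = 1
      rw [h1, h0', mul_inv_cancel]
    rw [h2]
    rfl
  · ext h
    have h1 : κ.1 (h : G) = 1 := by
      have h2 := κ.2
      rw [MonoidHom.mem_ker] at h2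
      exact DFunLike.congr_fun h2 h
    have h2 : ((κ.1 * χ0).comp P.subtype) h = ψ h := by
      show κ.1 (h : G) * χ0 (h : G) = ψ h
      rw [h1, h0', one_mul]
    rw [h2]

/-- sums over `G` -/
theorem rc_sum [Fintype P] {A : Type} [Fintype A] (t : A → G) (ht : Trv P t) (s : G) (φ : G → ℂ) :
    ∑ a, ∑ h : P, φ (t a * s * h) = ∑ g, φ g := by
  rw [← Fintype.sum_prod_type' (fun (a : A) (h : P) => φ (t a * s * h))]
  refine Fintype.sum_bijective (fun x : A × P => t x.1 * s * (x.2 : G)) ⟨?_, ?_⟩ _ _ (fun x => rfl)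
  · rintro ⟨a, h⟩ ⟨a', h'⟩ he
    change t a * s * (h : G) = t a' * s * (h' : G) at he
    have h1 : a = a' := by
      apply ht.1
      show (QuotientGroup.mk (t a) : G ⧸ P) = QuotientGroup.mk (t a')
      rw [QuotientGroup.eq]
      have h2 : (t a)⁻¹ * t a' = (h : G) * (h' : G)⁻¹ := by
        rw [inv_mul_eq_iff_eq_mul, ← mul_assoc, eq_mul_inv_iff_mul_eq]
        have h3 : t a' * (h' : G) * s = t a * (h : G) * s := by
          rw [mul_right_comm, ← he, mul_right_comm]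
        exact mul_right_cancel h3
      rw [h2]
      exact P.mul_mem h.2 (P.inv_mem h'.2)
    subst h1
    have h2 : (h : G) = h' := mul_left_cancel he
    rw [Prod.mk.injEq]
    exact ⟨rfl, Subtype.ext h2⟩
  · intro g
    obtain ⟨a, ha⟩ := ht.2 (QuotientGroup.mk (g * s⁻¹) : G ⧸ P)
    change (QuotientGroup.mk (t a) : G ⧸ P) = QuotientGroup.mk (g * s⁻¹) at ha
    rw [QuotientGroup.eq] at ha
    refine ⟨(a, ⟨_, ha⟩), ?_⟩
    show t a * s * ((t a)⁻¹ * (g * s⁻¹)) = g
    rw [mul_comm (t a) s, mul_assoc, mul_inv_cancel_left, mul_comm g, mul_inv_cancel_left]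

/-- the matrix of the values of the extensions of `ψ` at the representatives is invertible -/
theorem rc_ne {A : Type} [Fintype A] [DecidableEq A] (t : A → G) (ht : Trv P t) (ψ : P →* ℂˣ)
    (e : A ≃ {χ : G →* ℂˣ // χ.comp P.subtype = ψ}) :
    (Matrix.of fun c a : A => (((e c).1 (t a) : ℂˣ) : ℂ)).det ≠ 0 := by
  classical
  have hli := linearIndependent_monoidHom G ℂ
  have hinj : Function.Injective (fun c : A => (Units.coeHom ℂ).comp (e c).1) := by
    intro c c' h
    apply e.injective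
    apply Subtype.ext
    ext g
    exact DFunLike.congr_fun h g
  have hli2 := hli.comp _ hinj
  rw [Fintype.linearIndependent_iff] at hli2
  intro hdet
  rw [← Matrix.exists_vecMul_eq_zero_iff] at hdet
  obtain ⟨v, hv, hv0⟩ := hdet
  apply hv
  funext c
  refine hli2 v ?_ c
  funext g
  rw [Finset.sum_apply]
  obtain ⟨a, ha⟩ := ht.2 (QuotientGroup.mk g : G ⧸ P)
  change (QuotientGroup.mk (t a) : G ⧸ P) = QuotientGroup.mk g at ha
  rw [QuotientGroup.eq] at ha
  have h1 := congrFun hv0 a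
  rw [Matrix.vecMul, dotProduct] at h1
  simp only [Matrix.of_apply, Pi.zero_apply] at h1
  have h2 : ∀ c, (v c • (((Units.coeHom ℂ).comp (e c).1 : G →* ℂ) : G → ℂ)) g =
      (v c * (((e c).1 (t a) : ℂˣ) : ℂ)) * ((ψ ⟨_, ha⟩ : ℂˣ) : ℂ) := by
    intro c
    have h3 : (e c).1 ((t a)⁻¹ * g) = ψ ⟨_, ha⟩ := DFunLike.congr_fun (e c).2 ⟨_, ha⟩
    rw [← h3, mul_assoc, ← Units.val_mul, ← map_mul, mul_inv_cancel_left]
    rfl
  calc ∑ c, (v c • (((Units.coeHom ℂ).comp (e c).1 : G →* ℂ) : G → ℂ)) g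
      = ∑ c, (v c * (((e c).1 (t a) : ℂˣ) : ℂ)) * ((ψ ⟨_, ha⟩ : ℂˣ) : ℂ) :=
        Finset.sum_congr rfl fun c _ => h2 c
    _ = 0 := by rw [← Finset.sum_mul, h1, zero_mul]

open scoped Classical in
theorem res_C [Fintype P] {A : Type} [Fintype A] (t : A → G) (ht : Trv P t) {r : ℕ}
    (f : Fin r → Fin r → G → ℂ) (ψ : P →* ℂˣ) :
    Matrix.det (Matrix.of fun a b : Fin r × A =>
      ∑ h : P, f a.1 b.1 (t a.2 * (t b.2)⁻¹ * h) * ((ψ h : ℂˣ) : ℂ)) =
      ∏ᶠ χ : {χ : G →* ℂˣ // χ.comp P.subtype = ψ},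
        Matrix.det (Matrix.of fun i j : Fin r => ∑ g : G, f i j g * ((χ.1 g : ℂˣ) : ℂ)) := by
  have hfG : Finite (G →* ℂˣ) := dual_finite
  have i1 : Fintype {χ : G →* ℂˣ // χ.comp P.subtype = ψ} := Fintype.ofFinite _
  have hcard : Fintype.card A = Fintype.card {χ : G →* ℂˣ // χ.comp P.subtype = ψ} := by
    rw [← Nat.card_eq_fintype_card, ← Nat.card_eq_fintype_card, rc_card]
    exact Nat.card_congr (Equiv.ofBijective _ ht)
  let e : A ≃ {χ : G →* ℂˣ // χ.comp P.subtype = ψ} := Fintype.equivOfCardEq hcard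
  let V0 : Matrix A A ℂ := Matrix.of fun c a : A => (((e c).1 (t a) : ℂˣ) : ℂ)
  have hV0 : V0.det ≠ 0 := rc_ne t ht ψ e
  let V : Matrix (Fin r × A) (Fin r × A) ℂ := (1 : Matrix (Fin r) (Fin r) ℂ) ⊗ₖ V0
  have hV : V.det ≠ 0 := by
    show ((1 : Matrix (Fin r) (Fin r) ℂ) ⊗ₖ V0).det ≠ 0
    rw [Matrix.det_kronecker, Matrix.det_one, one_pow, one_mul]
    exact pow_ne_zero _ hV0
  let F : A → Matrix (Fin r) (Fin r) ℂ := fun c =>
    Matrix.of fun i j : Fin r => ∑ g : G, f i j g * (((e c).1 g : ℂˣ) : ℂ)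
  set M : Matrix (Fin r × A) (Fin r × A) ℂ := Matrix.of fun a b : Fin r × A =>
      ∑ h : P, f a.1 b.1 (t a.2 * (t b.2)⁻¹ * h) * ((ψ h : ℂˣ) : ℂ) with hM
  have hkey : V * M = Matrix.blockDiagonal F * V := by
    ext ⟨i, c⟩ ⟨j, b⟩
    rw [Matrix.mul_apply, Matrix.mul_apply, Fintype.sum_prod_type, Fintype.sum_prod_type]
    have h1 : ∀ x : Fin r, ∑ y : A, V (i, c) (x, y) * M (x, y) (j, b) =
        if i = x then ∑ y : A, V0 c y * M (i, y) (j, b) else 0 := by
      intro x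
      split_ifs with hx
      · subst hx
        refine Finset.sum_congr rfl fun y _ => ?_
        show (1 : Matrix (Fin r) (Fin r) ℂ) i i * V0 c y * M (i, y) (j, b) = _
        rw [Matrix.one_apply_eq, one_mul]
      · refine Finset.sum_eq_zero fun y _ => ?_
        show (1 : Matrix (Fin r) (Fin r) ℂ) i x * V0 c y * M (x, y) (j, b) = _
        rw [Matrix.one_apply_ne hx, zero_mul, zero_mul]
    rw [Finset.sum_congr rfl fun x _ => h1 x, Finset.sum_ite_eq Finset.univ i,
      if_pos (Finset.mem_univ i)]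
    have h2 : ∀ x : Fin r, ∑ y : A, Matrix.blockDiagonal F (i, c) (x, y) * V (x, y) (j, b) =
        if x = j then F c i j * V0 c b else 0 := by
      intro x
      rw [Finset.sum_eq_single c]
      · rw [Matrix.blockDiagonal_apply_eq]
        show F c i x * ((1 : Matrix (Fin r) (Fin r) ℂ) x j * V0 c b) = _
        split_ifs with hx
        · subst hx
          rw [Matrix.one_apply_eq, one_mul]
        · rw [Matrix.one_apply_ne hx, zero_mul, mul_zero]
      · intro y _ hy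
        rw [Matrix.blockDiagonal_apply_ne _ _ _ (Ne.symm hy), zero_mul]
      · intro h
        exact absurd (Finset.mem_univ c) h
    rw [Finset.sum_congr rfl fun x _ => h2 x, Finset.sum_ite_eq' Finset.univ j,
      if_pos (Finset.mem_univ j)]
    -- the main computation
    have h3 : ∀ y : A, V0 c y * M (i, y) (j, b) = ∑ h : P,
        (fun g : G => f i j g * (((e c).1 g : ℂˣ) : ℂ) * (((e c).1 (t b) : ℂˣ) : ℂ))
          (t y * (t b)⁻¹ * h) := by
      intro y
      show (((e c).1 (t y) : ℂˣ) : ℂ) *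
        (∑ h : P, f i j (t y * (t b)⁻¹ * h) * ((ψ h : ℂˣ) : ℂ)) = _
      rw [Finset.mul_sum]
      refine Finset.sum_congr rfl fun h _ => ?_
      have h4 : ψ h = (e c).1 (h : G) := (DFunLike.congr_fun (e c).2 h).symm
      have h5 : (e c).1 (t y) * (e c).1 (h : G) =
          (e c).1 (t y * (t b)⁻¹ * h) * (e c).1 (t b) := by
        rw [← map_mul, ← map_mul]
        congr 1
        rw [mul_right_comm, inv_mul_cancel_right]
      have h6 : (((e c).1 (t y) : ℂˣ) : ℂ) * (((e c).1 (h : G) : ℂˣ) : ℂ) =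
          (((e c).1 (t y * (t b)⁻¹ * h) : ℂˣ) : ℂ) * (((e c).1 (t b) : ℂˣ) : ℂ) := by
        rw [← Units.val_mul, h5, Units.val_mul]
      rw [h4]
      show _ = f i j (t y * (t b)⁻¹ * h) * (((e c).1 (t y * (t b)⁻¹ * h) : ℂˣ) : ℂ) *
        (((e c).1 (t b) : ℂˣ) : ℂ)
      rw [mul_left_comm, h6]
      ring
    have h8 := rc_sum t ht (t b)⁻¹
      (fun g : G => f i j g * (((e c).1 g : ℂˣ) : ℂ) * (((e c).1 (t b) : ℂˣ) : ℂ))
    rw [← Finset.sum_mul] at h8
    exact (Finset.sum_congr rfl fun y _ => h3 y).trans h8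
  have hdet : V.det * M.det = (Matrix.blockDiagonal F).det * V.det := by
    rw [← Matrix.det_mul, hkey, Matrix.det_mul]
  rw [mul_comm, Matrix.det_blockDiagonal] at hdet
  have h7 := mul_right_cancel₀ hV hdet
  rw [h7, finprod_eq_prod_of_fintype]
  exact Fintype.prod_equiv e _ _ (fun c => rfl)

end RES

end Pool.Agent.RS2
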